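import Pool.Agent.MP_a5ded6_pr.POIS.Spec

set_option autoImplicit false

namespace Pool.Agent.MP_a5ded6_pr.POIS

open Finset

theorem r10_NN (n : ℕ) : (NN n : ℝ) = (n : ℝ) * (n - 1) / 2 := by
  have : NN n = n.choose 2 := by unfold NN; rw [Nat.choose_two_right]
  rw [this, Nat.cast_choose_two]

theorem r10_ch3 (t : ℕ) : ((t.choose 3 : ℕ) : ℝ) = (t : ℝ) * (t - 1) * (t - 2) / 6 := by
  induction t with
  | zero => simp
  | succ t ih =>
    rw [Nat.choose_succ_succ' t 2]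
    push_cast
    rw [ih, Nat.cast_choose_two]
    ring

theorem r10_sum (n : ℕ) (c : ℝ) :
    ∑ i ∈ range n, (c - (i : ℝ)) = n * c - (n : ℝ) * (n - 1) / 2 := by
  induction n with
  | zero => simp
  | succ n ih => rw [sum_range_succ, ih]; push_cast; ring

theorem r10_size {n l : ℕ} {g : Pm} (h : Near n l g) : size n g = (NN n : ℤ) - l := by
  have h1 : size n g + l = ∑ i ∈ range n, ((n : ℤ) - 1 - i) := by
    rw [← h.2.2, size, ← sum_add_distrib]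
    exact sum_congr rfl (fun i _ => by ring)
  have h2 : ∑ i ∈ range n, ((n : ℤ) - 1 - i) = (NN n : ℤ) := by
    have : ((∑ i ∈ range n, ((n : ℤ) - 1 - i) : ℤ) : ℝ) = ((NN n : ℤ) : ℝ) := by
      push_cast
      rw [r10_sum, r10_NN]; ring
    exact_mod_cast this
  omega

theorem r10_zero {n : ℕ} {g : Pm} (h : Near n 0 g) (i : ℕ) (hi : i < n) :
    g (-(i : ℤ)) = (n : ℤ) - 1 - 2 * i := by
  have h0 := (sum_eq_zero_iff_of_nonneg (s := range n)
    (f := fun i : ℕ => (n : ℤ) - 1 - 2 * i - g (-(i : ℤ)))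
    (fun i hi => sub_nonneg.2 (h.2.1 i (mem_range.1 hi)))).1 (by simpa using h.2.2) i
    (mem_range.2 hi)
  omega

theorem r10_congr (n : ℕ) (z y : ℕ → ℤ) (h : ∀ i, i < n → z i = y i) : Frob n z = Frob n y := by
  unfold Frob
  congr 1
  · refine prod_congr rfl (fun i hi => prod_congr rfl (fun j hj => ?_))
    rw [h i (mem_range.1 hi), h j (mem_Ioo.1 hj).2]
  · exact prod_congr rfl (fun i hi => by rw [h i (mem_range.1 hi)])

theorem r10_pos (n : ℕ) (z : ℕ → ℤ) (h : ∀ i j, i < j → z j < z i) : 0 < Frob n z := by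
  unfold Frob
  refine div_pos (prod_pos (fun i _ => prod_pos (fun j hj => ?_))) (prod_pos (fun i _ => ?_))
  · exact_mod_cast sub_pos.2 (h i j (mem_Ioo.1 hj).1)
  · exact_mod_cast Nat.factorial_pos _

theorem r10_low (h1 : SpGr) {n : ℕ} {g : Pm} (h : Grass n g) (i : ℕ) (hi : i < n) :
    -(n : ℤ) + 1 ≤ g (-(i : ℤ)) := by
  have a := (h1 n g h).2.2.1 i n hi
  have b := h.1 (-(n : ℤ)) (Or.inl (by omega))
  omega

theorem r10_Near (h1 : SpGr) (h2 : SpFrob) (h3 : SpRatio) : SpNear := by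
  intro l
  obtain ⟨C, n₀, hC, h⟩ := h3 l
  refine ⟨C, n₀, hC, fun n hn => ⟨(h n hn).1, fun g g₀ hg hg₀ => ?_⟩⟩
  have hl := (h n hn).1
  have e0 : ff (-(n : ℤ)) n 0 (NN n) g₀ =
      ((NN n).factorial : ℝ) * Frob n (fun i => (n : ℤ) - 1 - 2 * i) := by
    rw [h2 n _ g₀ hg₀.1, if_pos (by rw [r10_size hg₀]; simp),
      r10_congr n _ _ (fun i hi => r10_zero hg₀ i hi)]
  have e1 : ff (-(n : ℤ)) n 0 (NN n - l) g =
      ((NN n - l).factorial : ℝ) * Frob n (fun i => g (-(i : ℤ))) := by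
    rw [h2 n _ g hg.1, if_pos (by rw [r10_size hg]; omega)]
  have mo := (h1 n g hg.1).2.2.1
  rw [e0, e1]
  refine ⟨mul_pos (by exact_mod_cast Nat.factorial_pos _) (r10_pos n _ (fun i j hij => by omega)),
    (mul_pos (by exact_mod_cast Nat.factorial_pos _) (r10_pos n _ mo)).le, ?_⟩
  exact (h n hn).2 _ (fun i j hij _ => mo i j hij) (r10_low h1 hg.1) hg.2.1 hg.2.2

/-! ### weights -/

theorem r10_mono (hg : SpGr) (n : ℕ) (lo hi : ℤ) (U : En) (φ : Fn) (M : ℝ) (hM : 0 ≤ M) :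
    ∀ (L : List (Option ℤ)) (l : ℕ) (g : Pm), L.count none = 0 → Near n l g →
      (∀ g', Near n (l + L.countP Option.isSome) g' → |φ g'| ≤ M) →
      |mono (Dtr lo hi) U L φ g| ≤ M := by
  intro L
  induction L with
  | nil => intro l g _ h hφ; simpa [mono] using hφ g (by simpa using h)
  | cons o L ih =>
    intro l g h0 h hφ
    cases o with
    | none => simp at h0
    | some i =>
      have e : mono (Dtr lo hi) U (some i :: L) φ g =
          Dtr lo hi i (mono (Dtr lo hi) U L φ) g := by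
        simp [mono]
      rw [e]
      unfold Dtr
      split_ifs with hi'
      · change |if Desc i g then _ else 0| ≤ M
        split_ifs with hd
        · refine ih (l + 1) _ (by simpa using h0) (((hg n g h.1).2.2.2.2 i hd).2.2.2.2.2 l h) ?_
          intro g' h'
          apply hφ
          have : l + List.countP Option.isSome (some i :: L) =
              l + 1 + List.countP Option.isSome L := by simp; omega
          rw [this]; exact h'
        · simpa using hM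
      · simpa using hM

theorem r10_AC (hg : SpGr) (n : ℕ) (lo hi : ℤ) (U : En) (φ : Fn) (M : ℝ) (hM : 0 ≤ M) (r : ℕ)
    (g : Pm) (h : Near n 0 g) (hφ : ∀ g', Near n r g' → |φ g'| ≤ M) (w : ℝ) (x : En)
    (hx : AC (Dtr lo hi) U r 0 w x) : |x φ g| ≤ w * M := by
  induction hx with
  | mono L hr hK =>
    rw [one_mul]
    exact r10_mono hg n lo hi U φ M hM L 0 g hK h (by simpa [hr] using hφ)
  | zero => simp
  | add _ _ i1 i2 =>
    simp only [LinearMap.add_apply, Pi.add_apply]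
    exact (abs_add_le _ _).trans (by linarith)
  | smul c _ i1 =>
    simp only [LinearMap.smul_apply, Pi.smul_apply, smul_eq_mul, abs_mul, mul_assoc]
    exact mul_le_mul_of_nonneg_left i1 (abs_nonneg _)
  | le _ hab i1 => exact i1.trans (mul_le_mul_of_nonneg_right hab hM)

theorem r10_pow (hc : SpAC) (D : ℤ → En) (U x : En) (w : ℝ) (hx : AC D U 3 0 w x) (j : ℕ) :
    AC D U (3 * j) 0 (w ^ j) (x ^ j) := by
  induction j with
  | zero => simpa [mono] using AC.mono (D := D) (U := U) (r := 0) (K := 0) [] rfl rfl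
  | succ j ih =>
    have := hc.1 D U _ _ _ _ _ _ _ _ ih hx
    rw [pow_succ, pow_succ]
    simpa [Nat.mul_succ] using this

/-! ### contents -/

theorem r10_stair (n : ℕ) (c : ℤ) :
    ∑ i ∈ range n, (QQ (c - 2 * i) - QQ (-(i : ℤ))) =
      ((n : ℝ) * (2 * c ^ 3 - 3 * c ^ 2 + c) + (n : ℝ) * (n - 1) / 2 * (-12 * c ^ 2 + 12 * c - 1) +
        ((n : ℝ) - 1) * n * (2 * n - 1) / 6 * (24 * c - 9) - 14 * ((n : ℝ) * (n - 1) / 2) ^ 2) / 6 := by
  induction n with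
  | zero => simp
  | succ n ih => rw [sum_range_succ, ih]; unfold QQ; push_cast; ring

theorem r10_QQ (n : ℕ) (hn : 1 ≤ n) (y z : ℤ) (h1 : -(n : ℤ) ≤ z) (h2 : z ≤ y) (h3 : y ≤ n) :
    |QQ z - QQ y| ≤ 3 * (n : ℝ) ^ 2 * ((y - z : ℤ) : ℝ) := by
  have a1 : -(n : ℝ) ≤ z := by exact_mod_cast h1
  have a2 : (z : ℝ) ≤ y := by exact_mod_cast h2
  have a3 : (y : ℝ) ≤ n := by exact_mod_cast h3
  have a4 : (1 : ℝ) ≤ n := by exact_mod_cast hn
  have e : QQ z - QQ y = -(((y : ℝ) - z) *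
      ((2 * ((y : ℝ) ^ 2 + y * z + z ^ 2) - 3 * (y + z) + 1) / 6)) := by unfold QQ; ring
  have b1 : (y : ℝ) ^ 2 ≤ (n : ℝ) ^ 2 := by nlinarith
  have b2 : (z : ℝ) ^ 2 ≤ (n : ℝ) ^ 2 := by nlinarith
  have b3 : |(2 * ((y : ℝ) ^ 2 + y * z + z ^ 2) - 3 * (y + z) + 1) / 6| ≤ 3 * (n : ℝ) ^ 2 := by
    rw [abs_le]
    constructor <;> nlinarith [sq_nonneg ((y : ℝ) - z), sq_nonneg ((y : ℝ) + z)]
  rw [e, abs_neg, abs_mul, abs_of_nonneg (sub_nonneg.2 a2)]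
  push_cast
  nlinarith [sub_nonneg.2 a2]

theorem r10_C2 (hg : SpGr) {n l : ℕ} (hn : 1 ≤ n) {g : Pm} (h : Near n l g) :
    |C2 n g - (NN n : ℝ) * (NN n - 1) / 3| ≤ 3 * (n : ℝ) ^ 2 * l := by
  have e : (NN n : ℝ) * (NN n - 1) / 3 =
      ∑ i ∈ range n, (QQ ((n : ℤ) - 1 - 2 * i) - QQ (-(i : ℤ))) := by
    rw [r10_stair, r10_NN]; push_cast; ring
  have e2 : (l : ℝ) = ∑ i ∈ range n, (((n : ℤ) - 1 - 2 * i - g (-(i : ℤ)) : ℤ) : ℝ) := by
    rw [← Int.cast_sum, h.2.2]; simp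
  rw [e, e2, C2, ← sum_sub_distrib, mul_sum]
  refine (abs_sum_le_sum_abs _ _).trans (sum_le_sum (fun i hi => ?_))
  have hi' := mem_range.1 hi
  have := r10_QQ n hn ((n : ℤ) - 1 - 2 * i) (g (-(i : ℤ)))
    (by have := r10_low hg h.1 i hi'; omega) (h.2.1 i hi') (by omega)
  simpa using this

theorem r10_num (l κ : ℝ) (hl : 0 ≤ l) (hκ : 0 < κ) (N n c a b : ℝ)
    (hN1 : 2 * l + 4 ≤ N) (hN2 : n ^ 2 ≤ 4 * N)
    (hN3 : 8 * (2 * (3 * l + 2) + l * (l + 1) * (l + 2) + 72 * l) ≤ κ * N)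
    (hc : |c - N * (N - 1) / 3| ≤ 3 * n ^ 2 * l) (hb : 0 ≤ b)
    (h : 2 * ((N - l) * (N - l - 1) * (N - l - 2) / 6) * a = (c - (N - l) * (N - l - 1) / 2) * b) :
    |-2 * N * a - b| ≤ κ * b := by
  set Δ := c - N * (N - 1) / 3 with hΔ
  have hN : 1 ≤ N := by linarith
  have hT : (N / 2) ^ 3 ≤ (N - l) * (N - l - 1) * (N - l - 2) := by
    have t1 : N / 2 ≤ N - l - 2 := by linarith
    have t0 : 0 ≤ N / 2 := by linarith
    calc (N / 2) ^ 3 = N / 2 * (N / 2) * (N / 2) := by ring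
      _ ≤ (N - l) * (N - l - 1) * (N - l - 2) := by
        apply mul_le_mul (mul_le_mul (by linarith) (by linarith) t0 (by linarith)) t1 t0
        apply mul_nonneg <;> linarith
  set T := (N - l) * (N - l - 1) * (N - l - 2) with hTd
  have hT0 : 0 < T := lt_of_lt_of_le (by positivity) hT
  set E := (2 - 3 * l) * N ^ 2 - (3 * l + 2) * N + l * (l + 1) * (l + 2) - 6 * N * Δ with hE
  have key : T * (-2 * N * a - b) = E * b := by
    have : T * (-2 * N * a) = -6 * N * ((c - (N - l) * (N - l - 1) / 2) * b) := by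
      rw [← h]; ring
    rw [mul_sub, this, hE, hΔ, hTd]; ring
  have hΔ2 : |Δ| ≤ 12 * l * N := by nlinarith
  have hE2 : |E| ≤ (2 * (3 * l + 2) + l * (l + 1) * (l + 2) + 72 * l) * N ^ 2 := by
    have n2 : N ≤ N ^ 2 := by nlinarith
    have n3 : 1 ≤ N ^ 2 := by nlinarith
    have l3 : 0 ≤ l * (l + 1) * (l + 2) := by positivity
    have d := abs_le.1 hΔ2
    have d1 : N * Δ ≤ 12 * l * N ^ 2 := by nlinarith [d.2]
    have d2 : -(12 * l * N ^ 2) ≤ N * Δ := by nlinarith [d.1]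
    have p1 : l * (l + 1) * (l + 2) ≤ l * (l + 1) * (l + 2) * N ^ 2 := by nlinarith
    have p2 : (3 * l + 2) * N ≤ (3 * l + 2) * N ^ 2 := by nlinarith
    have p3 : 0 ≤ l * N ^ 2 := by positivity
    have p4 : 0 ≤ (3 * l + 2) * N := by positivity
    rw [abs_le]
    constructor <;> nlinarith
  have hE3 : |E| ≤ κ * T := by
    have : (2 * (3 * l + 2) + l * (l + 1) * (l + 2) + 72 * l) * N ^ 2 ≤ κ * (N / 2) ^ 3 := by
      nlinarith [mul_le_mul_of_nonneg_right hN3 (sq_nonneg N)]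
    exact hE2.trans (this.trans (mul_le_mul_of_nonneg_left hT hκ.le))
  have : T * |-2 * N * a - b| ≤ T * (κ * b) := by
    rw [← abs_of_pos hT0, ← abs_mul, key, abs_mul, abs_of_nonneg hb, abs_of_pos hT0]
    nlinarith
  exact le_of_mul_le_mul_left this hT0

theorem r10_step (h0 : SpNC) (hc : SpAC) (h2 : SpA2) (hg : SpGr) (hC : SpCont) (hN : SpNear)
    (j : ℕ) (ε : ℝ) (hε : 0 < ε) : ∃ n₀ : ℕ, ∀ n, n₀ ≤ n → ∀ g₀ : Pm, Near n 0 g₀ →
    |(NN n : ℝ) ^ (j + 1) * ((-2 : ℝ) ^ (j + 1) * ff (-(n : ℤ)) n (j + 1) (NN n - 3 * (j + 1)) g₀) -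
      (NN n : ℝ) ^ j * ((-2 : ℝ) ^ j * ff (-(n : ℤ)) n j (NN n - 3 * j) g₀)| ≤
      ε * ff (-(n : ℤ)) n 0 (NN n) g₀ := by
  obtain ⟨C, hC1, hA⟩ := h2
  obtain ⟨C', n₁, hC', hn₁⟩ := hN (3 * j)
  set K : ℝ := (6 * C) ^ j * C' + 1 with hK
  have hK0 : 0 < K := by positivity
  set κ : ℝ := ε / K with hκ
  have hκ0 : 0 < κ := by positivity
  set l : ℝ := ((3 * j : ℕ) : ℝ) with hl
  obtain ⟨n₂, hn₂⟩ := exists_nat_ge
    (8 * (2 * (3 * l + 2) + l * (l + 1) * (l + 2) + 72 * l) / κ)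
  obtain ⟨C₀, n₃, -, hn₃⟩ := hN 0
  refine ⟨max (max n₁ n₂) (max n₃ (6 * j + 4)), fun n hn g₀ hg₀ => ?_⟩
  have q1 : n₁ ≤ n := by omega
  have q2 : (n₂ : ℝ) ≤ n := by exact_mod_cast (by omega : n₂ ≤ n)
  have q3 : 2 * l + 4 ≤ n := by
    rw [hl]; exact_mod_cast (by omega : 2 * (3 * j) + 4 ≤ n)
  have hl0 : 0 ≤ l := Nat.cast_nonneg _
  have n4 : (4 : ℝ) ≤ n := by linarith
  have hNn : (n : ℝ) ≤ NN n := by rw [r10_NN]; nlinarith
  have hN2 : (n : ℝ) ^ 2 ≤ 4 * NN n := by rw [r10_NN]; nlinarith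
  have hN3 : (NN n : ℝ) ≤ (n : ℝ) ^ 2 := by rw [r10_NN]; nlinarith
  have hNn' : n ≤ NN n := by exact_mod_cast hNn
  obtain ⟨m, hm⟩ : ∃ m, NN n = m + 3 + 3 * j := ⟨NN n - 3 - 3 * j, by omega⟩
  have e1 : NN n - 3 * (j + 1) = m := by omega
  have e2 : NN n - 3 * j = m + 3 := by omega
  have e3 : ((m + 3 : ℕ) : ℝ) = NN n - l := by rw [hm, hl]; push_cast; ring
  set R := ff (-(n : ℤ)) n 0 (NN n) g₀ with hR
  have hR0 : 0 < R := ((hn₃ n (by omega)).2 g₀ g₀ hg₀ hg₀).1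
  have np : (0 : ℝ) < (n : ℝ) ^ (3 * j) := by positivity
  set φ : Fn := (-2 * (NN n : ℝ)) • ff (-(n : ℤ)) n 1 m - ff (-(n : ℤ)) n 0 (m + 3) with hφ
  have b1 : ∀ g', Near n (3 * j) g' → |φ g'| ≤ κ * (C' * R / (n : ℝ) ^ (3 * j)) := by
    intro g' h'
    obtain ⟨-, u1, u2⟩ := (hn₁ n q1).2 g' g₀ h' hg₀
    rw [e2] at u1 u2
    have u3 := hC n m g' h'.1 (by rw [r10_size h', hm]; push_cast; ring)
    rw [r10_ch3, Nat.cast_choose_two, e3] at u3
    have u4 := r10_num l κ hl0 hκ0 (NN n) n (C2 n g') _ _ (q3.trans hNn) hN2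
      (by
        have := (div_le_iff₀ hκ0).1 (hn₂.trans (q2.trans hNn))
        linarith)
      (r10_C2 hg (by omega) h') u1 u3
    refine le_trans (by simpa [hφ] using u4) (mul_le_mul_of_nonneg_left ?_ hκ0.le)
    exact (le_div_iff₀ np).2 u2
  have hP := (hA (Dtr (-(n : ℤ)) n) (-(n : ℤ)) n 0 0 (3 * n) n (h0 _ _) (by positivity)
    (by push_cast; linarith) (by positivity) (fun i a b => by
      have a' : -(n : ℝ) ≤ i := by exact_mod_cast a
      have b' : (i : ℝ) ≤ n := by exact_mod_cast b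
      rw [abs_le]; constructor <;> linarith)).2.1
  have b2 := r10_AC hg n _ _ 0 φ _ (by positivity) (3 * j) g₀ hg₀ b1 _ _ (r10_pow hc _ _ _ _ hP j)
  have e4 : (NN n : ℝ) ^ (j + 1) * ((-2 : ℝ) ^ (j + 1) * ff (-(n : ℤ)) n (j + 1) m g₀) -
      (NN n : ℝ) ^ j * ((-2 : ℝ) ^ j * ff (-(n : ℤ)) n j (m + 3) g₀) =
      (NN n : ℝ) ^ j * (-2 : ℝ) ^ j * (P3 (Dtr (-(n : ℤ)) n) (-(n : ℤ)) n ^ j) φ g₀ := by
    simp only [hφ, ff, map_sub, map_smul, pow_succ (P3 _ _ _) j, pow_one, pow_zero, one_mul,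
      Module.End.mul_apply, Pi.sub_apply, Pi.smul_apply, smul_eq_mul]
    ring
  rw [e1, e2, e4, abs_mul, abs_mul, abs_pow, abs_pow, abs_of_nonneg (Nat.cast_nonneg _)]
  have b3 : (NN n : ℝ) ^ j ≤ ((n : ℝ) ^ 2) ^ j := pow_le_pow_left₀ (Nat.cast_nonneg _) hN3 j
  calc (NN n : ℝ) ^ j * |(-2 : ℝ)| ^ j * |(P3 (Dtr (-(n : ℤ)) n) (-(n : ℤ)) n ^ j) φ g₀|
      ≤ ((n : ℝ) ^ 2) ^ j * |(-2 : ℝ)| ^ j *
        ((C * (3 * n)) ^ j * (κ * (C' * R / (n : ℝ) ^ (3 * j)))) := by gcongr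
    _ = κ * ((6 * C) ^ j * C') * R := by
      have : ((n : ℝ) ^ 2) ^ j * |(-2 : ℝ)| ^ j * (C * (3 * n)) ^ j =
          (6 * C) ^ j * (n : ℝ) ^ (3 * j) := by
        rw [pow_mul, ← mul_pow, ← mul_pow, ← mul_pow]
        congr 1
        rw [abs_neg, abs_two]; ring
      rw [← mul_assoc, this]
      field_simp
    _ ≤ κ * K * R := by gcongr; rw [hK]; linarith
    _ = ε * R := by rw [hκ]; field_simp

theorem r10_Eps (h0 : SpNC) (hc : SpAC) (h2 : SpA2) (hg : SpGr) (hC : SpCont) (hN : SpNear) :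
    SpEps := by
  intro j
  induction j with
  | zero =>
    intro ε hε
    obtain ⟨C₀, n₃, -, hn₃⟩ := hN 0
    refine ⟨n₃, fun n hn g₀ hg₀ => ?_⟩
    have := ((hn₃ n hn).2 g₀ g₀ hg₀ hg₀).1
    simp only [pow_zero, one_mul, mul_zero, Nat.sub_zero, sub_self, abs_zero]
    positivity
  | succ j ih =>
    intro ε hε
    obtain ⟨n₁, h₁⟩ := ih (ε / 2) (by positivity)
    obtain ⟨n₂, h₂⟩ := r10_step h0 hc h2 hg hC hN j (ε / 2) (by positivity)
    refine ⟨max n₁ n₂, fun n hn g₀ hg₀ => ?_⟩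
    have a := abs_le.1 (h₁ n (by omega) g₀ hg₀)
    have b := abs_le.1 (h₂ n (by omega) g₀ hg₀)
    rw [abs_le]
    constructor <;> linarith [a.1, a.2, b.1, b.2]

end Pool.Agent.MP_a5ded6_pr.POIS
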