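import Pool.Agent.MP_a5ded6_pr.POIS.Spec

set_option autoImplicit false

namespace Pool.Agent.MP_a5ded6_pr.POIS

open Finset Filter Topology

theorem r11_len (s : Finset ℤ) : ∀ (m : ℕ) (a : List ℤ), a ∈ words s m → a.length = m
  | 0, a, h => by simpa [words] using h
  | m + 1, a, h => by
    obtain ⟨p, hp, rfl⟩ := mem_image.1 h
    simp [r11_len s m _ (mem_product.1 hp).2]

theorem r11_net_len {n : ℕ} {a : List ℤ} (h : a ∈ nets n) : a.length = NN n := by
  classical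
  exact r11_len _ _ _ (mem_filter.1 h).1

theorem r11_match_none : ∀ (t : List ℤ), Match (List.replicate t.length none) t
  | [] => List.Forall₂.nil
  | _ :: t => List.Forall₂.cons (Or.inl rfl) (r11_match_none t)

theorem r11_match : ∀ (v t : List ℤ), Match (v.map some ++ List.replicate t.length none) (v ++ t)
  | [], t => r11_match_none t
  | _ :: v, t => List.Forall₂.cons (Or.inr rfl) (r11_match v t)

theorem r11_mono (D : ℤ → En) (U : En) (v : List ℤ) (K : ℕ) :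
    mono D U (v.map some ++ List.replicate K none) = Dw D v * U ^ K := by
  simp [mono, Dw, Function.comp_def]

theorem r11_nonneg (lo hi : ℤ) : ∀ (m : ℕ) (u : Pm), 0 ≤ ff lo hi 0 m u
  | 0, u => by
    simp only [ff, pow_zero, mul_one, Module.End.one_apply, delta]
    split_ifs <;> norm_num
  | m + 1, u => by
    have ih := r11_nonneg lo hi m
    simp only [ff, pow_zero, one_mul] at ih ⊢
    rw [pow_succ', Module.End.mul_apply]
    generalize (UU (Dtr lo hi) lo hi ^ m) delta = f at ih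
    simp only [UU, LinearMap.sum_apply, Finset.sum_apply]
    refine sum_nonneg fun i _ => ?_
    unfold Dtr
    split_ifs
    · show 0 ≤ if Desc i u then f (sw i * u) else 0
      split_ifs
      exacts [ih _, le_rfl]
    · exact le_rfl

theorem r11_w0 (n : ℕ) (x : ℤ) : w0 n x = if 1 ≤ x ∧ x ≤ n then n + 1 - x else x := rfl

theorem r11_supp0 (n : ℕ) : Supp (w0 n) 1 n := fun x hx => by
  rw [r11_w0, if_neg (by omega)]

theorem r11_av0 (n : ℕ) : Av132 n (w0 n) := fun a b c h1 h2 h3 h4 h => by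
  have := h.1
  rw [r11_w0, r11_w0, if_pos (by omega), if_pos (by omega)] at this
  omega

theorem r11_ninv0 (n : ℕ) : ninv n (w0 n) = 0 := by
  refine card_eq_zero.2 (filter_eq_empty_iff.2 fun p hp h => ?_)
  have h1 := mem_Icc.1 (mem_product.1 hp).1
  have h2 := mem_Icc.1 (mem_product.1 hp).2
  have := h.2
  rw [r11_w0, r11_w0, if_pos h1, if_pos h2] at this
  omega

theorem r11_sw (a x : ℤ) : sw a x = if x = a then a + 1 else if x = a + 1 then a else x := by
  unfold sw; rw [Equiv.swap_apply_def]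

theorem r11_pos {n : ℕ} {w : Pm} (hw : Supp w 1 n) {y : ℤ} (h1 : 1 ≤ y) (h2 : y ≤ n) :
    w⁻¹ y ∈ Icc (1 : ℤ) n := by
  by_contra h
  have := hw (w⁻¹ y) (by rw [mem_Icc] at h; omega)
  rw [show w (w⁻¹ y) = y by simp] at this
  rw [← this, mem_Icc] at h
  omega

theorem r11_ninv {n : ℕ} {w : Pm} (hw : Supp w 1 n) {a : ℤ} (h1 : 1 ≤ a) (h2 : a ≤ n - 1)
    (hd : Desc a w) : ninv n (sw a * w) = ninv n w + 1 := by
  unfold ninv
  have hn : (w⁻¹ (a + 1), w⁻¹ a) ∉
      (Icc (1 : ℤ) n ×ˢ Icc (1 : ℤ) n).filter (fun p => p.1 < p.2 ∧ w p.1 < w p.2) := by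
    simp
  rw [← card_insert_of_notMem hn]
  congr 1
  ext ⟨x, y⟩
  have ex : ∀ x c : ℤ, x = w⁻¹ c ↔ w x = c := fun x c => by
    rw [Equiv.Perm.eq_inv_iff_eq]
  have hxy : ¬ (x < y ∧ w x = a ∧ w y = a + 1) := fun ⟨h, e1, e2⟩ => by
    rw [← ex] at e1 e2
    unfold Desc at hd
    omega
  simp only [mem_insert, mem_filter, Prod.mk.injEq, Equiv.Perm.mul_apply, r11_sw]
  constructor
  · rintro ⟨h, h', h''⟩
    rw [ex, ex]
    by_cases e : w x = a + 1 ∧ w y = a
    · exact Or.inl e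
    · refine Or.inr ⟨h, h', ?_⟩
      split_ifs at h'' <;> omega
  · rintro (⟨rfl, rfl⟩ | ⟨h, h', h''⟩)
    · refine ⟨mem_product.2 ⟨r11_pos hw (by omega) (by omega), r11_pos hw h1 (by omega)⟩, hd, ?_⟩
      simp
    · refine ⟨h, h', ?_⟩
      split_ifs <;> omega

theorem r11_walk (n : ℕ) (b c : ℤ) (F : Fn) : ∀ (v : List ℤ) (w : Pm),
    (∀ x ∈ v, b ≤ x ∧ x ≤ c) → Supp w 1 n →
    (∀ x, w0 n x < b ∨ c + 1 < w0 n x → w x = w0 n x) →
    Dw (Dn n) v F w = 0 ∨ ∃ u, Supp u 1 n ∧ ninv n u = ninv n w + v.length ∧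
      (∀ x, w0 n x < b ∨ c + 1 < w0 n x → u x = w0 n x) ∧ Dw (Dn n) v F w = F u
  | [], w, _, hw, h0 => Or.inr ⟨w, hw, rfl, h0, rfl⟩
  | a :: v, w, hv, hw, h0 => by
    have e : Dw (Dn n) (a :: v) F w = Dtr 1 (n - 1) a (Dw (Dn n) v F) w := rfl
    rw [e]
    unfold Dtr
    split_ifs with ha
    · show (if Desc a w then Dw (Dn n) v F (sw a * w) else 0) = 0 ∨ ∃ u, _ ∧ _ ∧ _ ∧
        (if Desc a w then Dw (Dn n) v F (sw a * w) else 0) = _
      split_ifs with hd
      · have hb := hv a List.mem_cons_self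
        refine (r11_walk n b c F v (sw a * w) (fun x hx => hv x (List.mem_cons_of_mem _ hx))
          (fun x hx => ?_) fun x hx => ?_).imp id ?_
        · rw [Equiv.Perm.mul_apply, hw x hx, r11_sw, if_neg (by omega), if_neg (by omega)]
        · rw [Equiv.Perm.mul_apply, h0 x hx, r11_sw, if_neg (by omega), if_neg (by omega)]
        · rintro ⟨u, u1, u2, u3, u4⟩
          refine ⟨u, u1, ?_, u3, u4⟩
          rw [u2, r11_ninv hw ha.1 ha.2 hd, List.length_cons]
          omega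
      · exact Or.inl rfl
    · exact Or.inl rfl

theorem r11_tr1 (hT : SpTr) {n : ℕ} {u : Pm} (hu : Supp u 1 n) (j m : ℕ) :
    ff (-(NN n : ℤ) - n - 5) (n + 5) j m u = ff 1 (n - 1) j m u :=
  hT _ _ _ _ j m u (by rwa [sub_add_cancel]) (by omega) (by omega)

theorem r11_tr2 (hT : SpTr) (hH : SpHarm) (h2 : SpP2) {n : ℕ} {u : Pm} (hu : Supp u 1 n)
    (ha : Av132 n u) : ∃ g, Near n (ninv n u) g ∧
      ∀ j m, ff (-(NN n : ℤ) - n - 5) (n + 5) j m u = ff (-(n : ℤ)) n j m g := by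
  obtain ⟨g, hg, h⟩ := h2 n u hu ha
  refine ⟨g, hg, fun j m => ?_⟩
  rw [h _ _ _ (by omega) (by omega) (hH _ _ j m)]
  exact hT _ _ _ _ j m g (fun x hx => hg.1.1 x (by omega)) (by omega) (by omega)

theorem r11_g0 (hT : SpTr) (hH : SpHarm) (h2 : SpP2) (hC : SpCount) (n : ℕ) :
    ∃ g, Near n 0 g ∧ ((nets n).card : ℝ) = ff (-(n : ℤ)) n 0 (NN n) g ∧
      ∀ j m, ff 1 (n - 1) j m (w0 n) = ff (-(n : ℤ)) n j m g := by
  classical
  obtain ⟨g, hg, h⟩ := r11_tr2 hT hH h2 (r11_supp0 n) (r11_av0 n)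
  rw [r11_ninv0] at hg
  have h' : ∀ j m, ff 1 (n - 1) j m (w0 n) = ff (-(n : ℤ)) n j m g := fun j m => by
    rw [← h, r11_tr1 hT (r11_supp0 n)]
  refine ⟨g, hg, ?_, h'⟩
  have := (hC n).1 (([] : List ℤ).map some ++ List.replicate (NN n) none)
  rw [r11_mono, filter_true_of_mem fun a ha => by
    rw [← r11_net_len ha]; exact r11_match [] a] at this
  rw [← this, ← h']
  simp only [ff, pow_zero, Dw, List.map_nil, List.prod_nil]
  rfl

theorem r11_Start (hT : SpTr) (hH : SpHarm) (h1 : SpP1) (h2 : SpP2) (hN : SpNear)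
    (hC : SpCount) : SpStart := by
  classical
  intro l Dm
  obtain ⟨C1, hC1, h1⟩ := h1 (Dm + 1)
  obtain ⟨C2, n0, hC2, hN⟩ := hN l
  refine ⟨C1 * C2, max n0 1, by positivity, fun n hn b v hv hb => ?_⟩
  obtain ⟨hl, hN⟩ := hN n (le_of_max_le_left hn)
  have hn0 : (0 : ℝ) < (n : ℝ) ^ l := pow_pos (by exact_mod_cast le_of_max_le_right hn) l
  obtain ⟨g0, hg0, hR, -⟩ := r11_g0 hT hH h2 hC n
  have hle : (((nets n).filter (fun a => v <+: a)).card : ℝ) ≤
      Dw (Dn n) v (ff 1 (n - 1) 0 (NN n - l)) (w0 n) := by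
    have := (hC n).1 (v.map some ++ List.replicate (NN n - l) none)
    rw [r11_mono] at this
    have e : Dw (Dn n) v (ff 1 (n - 1) 0 (NN n - l)) (w0 n) =
        ev n (Dw (Dn n) v * Un n ^ (NN n - l)) := by
      simp only [ff, pow_zero, one_mul]
      rfl
    rw [e, this]
    refine Nat.cast_le.2 (card_le_card fun a ha => ?_)
    obtain ⟨ha, t, rfl⟩ := mem_filter.1 ha
    have := r11_net_len ha
    rw [List.length_append] at this
    refine mem_filter.2 ⟨ha, ?_⟩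
    rw [show NN n - l = t.length by omega]
    exact r11_match v t
  rw [← le_div_iff₀ hn0]
  refine hle.trans ?_
  rcases r11_walk n b (b + Dm) (ff 1 (n - 1) 0 (NN n - l)) v (w0 n) hb (r11_supp0 n)
    (fun _ _ => rfl) with h | ⟨u, u1, u2, u3, u4⟩
  · rw [h]; positivity
  rw [u4, ← r11_tr1 hT u1, mul_assoc, mul_div_assoc]
  rw [r11_ninv0, zero_add, hv] at u2
  refine h1 n _ _ (n - b - Dm) _ _ u (by omega) (by omega) (hH _ _ 0 _) (r11_nonneg _ _ _)
    (by positivity) u1 (fun x hx => ?_) fun w w1 w2 w3 => ?_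
  · by_cases hx' : 1 ≤ x ∧ x ≤ n
    · refine u3 x ?_
      rw [r11_w0, if_pos hx']
      push_cast at hx
      omega
    · rw [u1 x (by omega), r11_supp0 n x (by omega)]
  · obtain ⟨g, hg, h⟩ := r11_tr2 hT hH h2 w1 w2
    rw [w3, u2] at hg
    rw [h, le_div_iff₀ hn0, hR]
    exact (hN g g0 hg hg0).2.2

theorem r11_EpsW (hT : SpTr) (hH : SpHarm) (h2 : SpP2) (hE : SpEps) (hC : SpCount)
    (hR : SpRed) : SpEpsW := by
  intro j
  refine Metric.tendsto_atTop.2 fun ε hε => ?_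
  obtain ⟨n0, h⟩ := hE j (ε / 2) (by positivity)
  refine ⟨n0, fun n hn => ?_⟩
  obtain ⟨g0, hg0, hc, hf⟩ := r11_g0 hT hH h2 hC n
  have hp : (0 : ℝ) < (nets n).card := Nat.cast_pos.2 (card_pos.2 (hR n).1)
  have e : ev n (((-2 : ℝ) • P3 (Dn n) 1 (n - 1)) ^ j * Un n ^ (NN n - 3 * j)) =
      (-2 : ℝ) ^ j * ff (-(n : ℤ)) n j (NN n - 3 * j) g0 := by
    rw [← hf, smul_pow, smul_mul_assoc]
    rfl
  have := h n hn g0 hg0
  rw [← hc] at this
  rw [e, Real.dist_eq, div_sub_one hp.ne', abs_div, abs_of_pos hp, div_lt_iff₀ hp]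
  nlinarith

end Pool.Agent.MP_a5ded6_pr.POIS
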