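import Pool.Agent.MP_a5ded6_pr.POIS.Spec

set_option autoImplicit false

namespace Pool.Agent.MP_a5ded6_pr.POIS

open Finset

/-- shuffle of two words along a mask -/
def r12a_merge : List Bool → List ℤ → List ℤ → List ℤ
  | [] => fun _ _ => []
  | true :: M => fun s r => s.headD 0 :: r12a_merge M s.tail r
  | false :: M => fun s r => r.headD 0 :: r12a_merge M s r.tail

theorem r12a_self (f : ℤ → Bool) (u : List ℤ) :
    r12a_merge (u.map f) (u.filter f) (u.filter fun x => !f x) = u := by
  induction u with
  | nil => rfl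
  | cons x u ih =>
    cases h : f x
    · simp [h, r12a_merge, ih]
    · simp [h, r12a_merge, ih]

theorem r12a_spec (f : ℤ → Bool) (M : List Bool) : ∀ s r : List ℤ, M.count true = s.length →
    M.count false = r.length → (∀ x ∈ s, f x = true) → (∀ y ∈ r, f y = false) →
    (r12a_merge M s r).map f = M ∧ (r12a_merge M s r).filter f = s ∧
      (r12a_merge M s r).filter (fun x => !f x) = r := by
  induction M with
  | nil =>
    intro s r hs hr _ _
    have h1 : s = [] := List.length_eq_zero_iff.mp (by simpa using hs.symm)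
    have h2 : r = [] := List.length_eq_zero_iff.mp (by simpa using hr.symm)
    subst h1 h2
    simp [r12a_merge]
  | cons c M ih =>
    intro s r hs hr h1 h2
    cases c
    · cases r with
      | nil => simp at hr
      | cons y r =>
        have hy := h2 y (by simp)
        obtain ⟨a1, a2, a3⟩ := ih s r (by simpa using hs) (by simpa using hr) h1
          (fun z hz => h2 z (by simp [hz]))
        simp [r12a_merge, hy, a1, a2, a3]
    · cases s with
      | nil => simp at hs
      | cons x s =>
        have hx := h1 x (by simp)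
        obtain ⟨a1, a2, a3⟩ := ih s r (by simpa using hs) (by simpa using hr)
          (fun z hz => h1 z (by simp [hz])) h2
        simp [r12a_merge, hx, a1, a2, a3]

theorem r12a_move {P : List ℤ → Prop}
    (hP : ∀ (u v : List ℤ) (x y : ℤ), 2 ≤ |x - y| → P (u ++ x :: y :: v) → P (u ++ y :: x :: v))
    (y : ℤ) (s : List ℤ) : ∀ u v : List ℤ, (∀ x ∈ s, 2 ≤ |x - y|) →
      (P (u ++ y :: (s ++ v)) ↔ P (u ++ (s ++ y :: v))) := by
  induction s with
  | nil => intro u v _; simp
  | cons x s ih =>
    intro u v h
    have hx := h x (by simp)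
    have := ih (u ++ [x]) v (fun z hz => h z (by simp [hz]))
    simp only [List.append_assoc, List.cons_append, List.nil_append] at this ⊢
    rw [← this]
    exact ⟨hP u _ y x (by rwa [abs_sub_comm]), hP u _ x y hx⟩

theorem r12a_comm {P : List ℤ → Prop}
    (hP : ∀ (u v : List ℤ) (x y : ℤ), 2 ≤ |x - y| → P (u ++ x :: y :: v) → P (u ++ y :: x :: v))
    (M : List Bool) : ∀ s r u v : List ℤ, M.count true = s.length → M.count false = r.length →
      (∀ x ∈ s, ∀ y ∈ r, 2 ≤ |x - y|) →
      (P (u ++ (r12a_merge M s r ++ v)) ↔ P (u ++ (s ++ (r ++ v)))) := by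
  induction M with
  | nil =>
    intro s r u v hs hr _
    have h1 : s = [] := List.length_eq_zero_iff.mp (by simpa using hs.symm)
    have h2 : r = [] := List.length_eq_zero_iff.mp (by simpa using hr.symm)
    subst h1 h2
    simp [r12a_merge]
  | cons c M ih =>
    intro s r u v hs hr h
    cases c
    · cases r with
      | nil => simp at hr
      | cons y r =>
        have := ih s r (u ++ [y]) v (by simpa using hs) (by simpa using hr)
          (fun x hx z hz => h x hx z (by simp [hz]))
        simp only [List.append_assoc, List.cons_append, List.nil_append, r12a_merge,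
          List.headD_cons, List.tail_cons] at this ⊢
        rw [this]
        exact r12a_move hP y s u (r ++ v) (fun x hx => h x hx y (by simp))
    · cases s with
      | nil => simp at hs
      | cons x s =>
        have := ih s r (u ++ [x]) v (by simpa using hs) (by simpa using hr)
          (fun z hz y hy => h z (by simp [hz]) y hy)
        simpa only [List.append_assoc, List.cons_append, List.nil_append, r12a_merge,
          List.headD_cons, List.tail_cons] using this

theorem r12a_card (M : List Bool) (c : Bool) :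
    ((range M.length).filter (fun p => M.getD p false = c)).card = M.count c := by
  rw [card_filter]
  induction M with
  | nil => simp
  | cons x M ih =>
    rw [List.length_cons, sum_range_succ']
    simp only [List.getD_cons_succ, List.getD_cons_zero, ih, List.count_cons, beq_iff_eq]

open Classical in
/-- letters joined to a target through letters of the block -/
noncomputable def r12a_Z (B u : List ℤ) (x : ℤ) : Bool :=
  decide (∃ b ∈ B, ∀ y, min x b ≤ y → y ≤ max x b → y ∈ u)

theorem r12a_Z_iff (B u : List ℤ) (x : ℤ) :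
    r12a_Z B u x = true ↔ ∃ b ∈ B, ∀ y, min x b ≤ y → y ≤ max x b → y ∈ u := by
  simp only [r12a_Z, decide_eq_true_eq]

theorem r12a_Z_perm (B : List ℤ) {u v : List ℤ} (h : u.Perm v) : r12a_Z B u = r12a_Z B v := by
  funext x
  rw [Bool.eq_iff_iff, r12a_Z_iff, r12a_Z_iff]
  simp only [h.mem_iff]

theorem r12a_far (B u : List ℤ) (x y : ℤ) (hx : r12a_Z B u x = true) (hy : y ∈ u)
    (hz : r12a_Z B u y = false) : 2 ≤ |x - y| := by
  by_contra hlt
  rw [not_le, abs_lt] at hlt
  obtain ⟨b, hb, h⟩ := (r12a_Z_iff B u x).mp hx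
  have : r12a_Z B u y = true := (r12a_Z_iff B u y).mpr ⟨b, hb, fun z h1 h2 => by
    by_cases e : z = y
    · exact e ▸ hy
    · exact h z (by omega) (by omega)⟩
  rw [hz] at this
  exact absurd this (by simp)

theorem r12a_near (L : ℕ) (u : List ℤ) (hu : GoodW L u) (b x : ℤ)
    (h : ∀ y, min x b ≤ y → y ≤ max x b → y ∈ u) : |x - b| ≤ (L : ℤ) := by
  by_contra hlt
  have key : ∀ c : ℤ, (∀ y ∈ Icc c (c + L), y ∈ u ∧ |y - b| ≤ (L : ℤ)) → False := by
    intro c hc
    have h1 : Icc c (c + L) ⊆ (u.filter fun x => decide (|x - b| ≤ (L : ℤ))).toFinset := by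
      intro y hy
      simpa using hc y hy
    have h2 := (card_le_card h1).trans (List.toFinset_card_le _)
    have h3 := hu b
    rw [List.countP_eq_length_filter] at h3
    simp only [Int.card_Icc] at h2
    omega
  rw [not_le, lt_abs] at hlt
  rcases hlt with h1 | h1
  · refine key b fun y hy => ?_
    rw [mem_Icc] at hy
    exact ⟨h y (by omega) (by omega), by rw [abs_le]; omega⟩
  · refine key (b - L) fun y hy => ?_
    rw [mem_Icc] at hy
    exact ⟨h y (by omega) (by omega), by rw [abs_le]; omega⟩

theorem r12a_or (p q w : ℤ → Bool) (u : List ℤ) (h : ∀ x, w x = true → p x = true ∨ q x = true) :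
    u.countP w ≤ u.countP p + u.countP q := by
  induction u with
  | nil => simp
  | cons x u ih =>
    have := h x
    simp only [List.countP_cons]
    cases h1 : w x <;> cases h2 : p x <;> cases h3 : q x <;> simp_all <;> omega

theorem r12a_few (L : ℕ) (u : List ℤ) (hu : GoodW L u) (B : List ℤ) :
    u.countP (r12a_Z B u) ≤ B.length * L := by
  induction B with
  | nil =>
    rw [List.countP_eq_zero.mpr]
    · simp
    · intro x _
      rw [r12a_Z_iff]
      simp
  | cons b B ih =>
    have h1 := r12a_or (fun x => decide (|x - b| ≤ (L : ℤ))) (r12a_Z B u) (r12a_Z (b :: B) u) u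
      (fun x hx => by
        obtain ⟨c, hc, h⟩ := (r12a_Z_iff _ _ _).mp hx
        rcases List.mem_cons.mp hc with rfl | hc
        · exact Or.inl (decide_eq_true (r12a_near L u hu c x h))
        · exact Or.inr ((r12a_Z_iff _ _ _).mpr ⟨c, hc, h⟩))
    have h2 := hu b
    rw [List.length_cons, add_mul]
    omega

/-- the mask of a block -/
noncomputable def r12a_mk (B u : List ℤ) : List Bool := u.map (r12a_Z B u)

/-- the block after the exchange of two mask entries -/
noncomputable def r12a_resh (B u : List ℤ) (s p : ℕ) : List ℤ :=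
  r12a_merge (((r12a_mk B u).set s false).set p true) (u.filter (r12a_Z B u))
    (u.filter fun x => !r12a_Z B u x)

theorem r12a_lt {M : List Bool} {s : ℕ} (hs : M.getD s false = true) : s < M.length := by
  by_contra h
  rw [List.getD_eq_default _ _ (not_lt.mp h)] at hs
  exact absurd hs (by simp)

theorem r12a_swap (M : List Bool) (s p : ℕ) (hs : M.getD s false = true) (hp : p < M.length)
    (hf : M.getD p false = false) :
    (∀ c, ((M.set s false).set p true).count c = M.count c) ∧
      (((M.set s false).set p true).set s true).set p false = M ∧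
      ((M.set s false).set p true).getD p false = true ∧
      ∀ j, j ≠ s → M.getD j false = true → ((M.set s false).set p true).getD j false = true := by
  have hl := r12a_lt hs
  have hne : s ≠ p := by rintro rfl; rw [hs] at hf; exact absurd hf (by simp)
  rw [List.getD_eq_getElem _ _ hl] at hs
  rw [List.getD_eq_getElem _ _ hp] at hf
  refine ⟨fun c => ?_, ?_, ?_, fun j hj h => ?_⟩
  · have h1 : 0 < M.count true := List.count_pos_iff.mpr (hs ▸ List.getElem_mem hl)
    have h2 : 0 < M.count false := List.count_pos_iff.mpr (hf ▸ List.getElem_mem hp)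
    rw [List.count_set (by simpa using hp), List.count_set hl, List.getElem_set_ne hne, hs, hf]
    cases c <;> simp <;> omega
  · apply List.ext_getElem (by simp)
    intro i h1 h2
    simp only [List.getElem_set]
    split_ifs with a1 a2
    · subst a1; exact hf.symm
    · subst a2; exact hs.symm
    · rfl
  · rw [List.getD_eq_getElem _ _ (by simpa using hp)]
    simp
  · have hj' := r12a_lt h
    rw [List.getD_eq_getElem _ _ hj'] at h
    rw [List.getD_eq_getElem _ _ (by simpa using hj')]
    simp only [List.getElem_set]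
    split_ifs with a1 a2
    · rfl
    · exact absurd a2.symm hj
    · exact h

theorem r12a_cnt (f : ℤ → Bool) (u : List ℤ) :
    (u.map f).count true = (u.filter f).length ∧
      (u.map f).count false = (u.filter fun x => !f x).length := by
  induction u with
  | nil => simp
  | cons x u ih => cases h : f x <;> simp [h, ih.1, ih.2]

theorem r12a_resh_spec (B u : List ℤ) (s p : ℕ) (hs : (r12a_mk B u).getD s false = true)
    (hp : p < u.length) (hf : (r12a_mk B u).getD p false = false) :
    (r12a_resh B u s p).Perm u ∧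
      r12a_mk B (r12a_resh B u s p) = ((r12a_mk B u).set s false).set p true ∧
      (r12a_resh B u s p).filter (r12a_Z B u) = u.filter (r12a_Z B u) ∧
      ((r12a_resh B u s p).filter fun x => !r12a_Z B u x) = u.filter fun x => !r12a_Z B u x := by
  obtain ⟨hc, -, -, -⟩ := r12a_swap (r12a_mk B u) s p hs (by simpa [r12a_mk] using hp) hf
  obtain ⟨a1, a2, a3⟩ := r12a_spec (r12a_Z B u) (((r12a_mk B u).set s false).set p true)
    (u.filter (r12a_Z B u)) (u.filter fun x => !r12a_Z B u x)
    ((hc true).trans (r12a_cnt _ u).1) ((hc false).trans (r12a_cnt _ u).2)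
    (fun x hx => (List.mem_filter.mp hx).2) (fun y hy => by simpa using (List.mem_filter.mp hy).2)
  have hperm : (r12a_resh B u s p).Perm u := by
    have h1 := List.filter_append_perm (r12a_Z B u) (r12a_resh B u s p)
    have h2 := List.filter_append_perm (r12a_Z B u) u
    unfold r12a_resh at h1 ⊢
    rw [a2, a3] at h1
    exact h1.symm.trans h2
  refine ⟨hperm, ?_, a2, a3⟩
  unfold r12a_mk
  rw [r12a_Z_perm B hperm]
  exact a1

theorem r12a_resh_inj (B u v : List ℤ) (s p : ℕ) (hs : (r12a_mk B u).getD s false = true)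
    (hp : p < u.length) (hf : (r12a_mk B u).getD p false = false)
    (hs' : (r12a_mk B v).getD s false = true)
    (hp' : p < v.length) (hf' : (r12a_mk B v).getD p false = false)
    (h : r12a_resh B u s p = r12a_resh B v s p) : u = v := by
  obtain ⟨a0, a1, a2, a3⟩ := r12a_resh_spec B u s p hs hp hf
  obtain ⟨b0, b1, b2, b3⟩ := r12a_resh_spec B v s p hs' hp' hf'
  obtain ⟨-, c, -, -⟩ := r12a_swap (r12a_mk B u) s p hs (by simpa [r12a_mk] using hp) hf
  obtain ⟨-, c', -, -⟩ := r12a_swap (r12a_mk B v) s p hs' (by simpa [r12a_mk] using hp') hf'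
  have hZ : r12a_Z B u = r12a_Z B v := r12a_Z_perm B (a0.symm.trans (h ▸ b0))
  have hM : r12a_mk B u = r12a_mk B v := by rw [← c, ← c', ← a1, ← b1, h]
  have e1 := r12a_self (r12a_Z B u) u
  have e2 := r12a_self (r12a_Z B v) v
  unfold r12a_mk at hM
  rw [← e1, ← e2, hM, ← a2, ← a3, ← b2, ← b3, h, hZ]

theorem r12a_resh_net {P : List ℤ → Prop}
    (hP : ∀ (u v : List ℤ) (x y : ℤ), 2 ≤ |x - y| → P (u ++ x :: y :: v) → P (u ++ y :: x :: v))
    (B u w v : List ℤ) (s p : ℕ) (hs : (r12a_mk B u).getD s false = true)
    (hp : p < u.length) (hf : (r12a_mk B u).getD p false = false) (h : P (w ++ (u ++ v))) :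
    P (w ++ (r12a_resh B u s p ++ v)) := by
  obtain ⟨hc, -, -, -⟩ := r12a_swap (r12a_mk B u) s p hs (by simpa [r12a_mk] using hp) hf
  have hfar : ∀ x ∈ u.filter (r12a_Z B u), ∀ y ∈ u.filter fun x => !r12a_Z B u x, 2 ≤ |x - y| :=
    fun x hx y hy => r12a_far B u x y (List.mem_filter.mp hx).2 (List.mem_filter.mp hy).1
      (by simpa using (List.mem_filter.mp hy).2)
  rw [← r12a_self (r12a_Z B u) u, r12a_comm hP _ _ _ w v (r12a_cnt _ u).1 (r12a_cnt _ u).2 hfar]
    at h
  exact (r12a_comm hP _ _ _ w v ((hc true).trans (r12a_cnt _ u).1)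
    ((hc false).trans (r12a_cnt _ u).2) hfar).mpr h

/-- the length of a block -/
def r12a_len (m N t : ℕ) : ℕ := if t + 1 < N / m then m else N - t * m

theorem r12a_blk (m : ℕ) (a : List ℤ) (t : ℕ) :
    blk m a t = (a.drop (t * m)).take (r12a_len m a.length t) := by
  unfold blk r12a_len
  split_ifs
  · rfl
  · rw [List.take_of_length_le (by simp), List.take_of_length_le (by simp)]

theorem r12a_len_le {m N t : ℕ} (ht : t < N / m) :
    t * m + r12a_len m N t ≤ N ∧ m ≤ r12a_len m N t ∧
      ∀ t', t < t' → t' < N / m → t * m + r12a_len m N t ≤ t' * m := by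
  have h1 : (t + 1) * m ≤ N := (Nat.mul_le_mul_right m ht).trans (Nat.div_mul_le_self N m)
  rw [add_mul, one_mul] at h1
  unfold r12a_len
  split_ifs with h
  · refine ⟨h1, le_rfl, fun t' h2 _ => ?_⟩
    have := Nat.mul_le_mul_right m (show t + 1 ≤ t' from h2)
    rwa [add_mul, one_mul] at this
  · exact ⟨by omega, by omega, fun t' h2 h3 => by omega⟩

/-- replace a block -/
def r12a_rep (a : List ℤ) (i k : ℕ) (u : List ℤ) : List ℤ := a.take i ++ (u ++ a.drop (i + k))

theorem r12a_rep_self (a : List ℤ) (i k : ℕ) : r12a_rep a i k ((a.drop i).take k) = a := by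
  unfold r12a_rep
  rw [← List.drop_drop, List.take_append_drop, List.take_append_drop]

theorem r12a_rep_same (a u : List ℤ) (i k : ℕ) (h : i + k ≤ a.length) (hu : u.length = k) :
    ((r12a_rep a i k u).drop i).take k = u := by
  unfold r12a_rep
  rw [List.drop_left' (by simp; omega), List.take_left' hu]

theorem r12a_rep_other (a u : List ℤ) (i k i' k' : ℕ) (h : i + k ≤ a.length) (hu : u.length = k)
    (hd : i' + k' ≤ i ∨ i + k ≤ i') :
    ((r12a_rep a i k u).drop i').take k' = (a.drop i').take k' := by
  apply List.ext_getElem?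
  intro j
  simp only [List.getElem?_take, List.getElem?_drop]
  split_ifs with hj
  · unfold r12a_rep
    have hl : (a.take i).length = i := by simp; omega
    rcases hd with hd | hd
    · rw [List.getElem?_append_left (by omega), List.getElem?_take, if_pos (by omega)]
    · rw [List.getElem?_append_right (by omega), List.getElem?_append_right (by omega),
        List.getElem?_drop]
      congr 1
      omega
  · rfl

theorem r12a_rep_len (a u : List ℤ) (i k : ℕ) (h : i + k ≤ a.length) (hu : u.length = k) :
    (r12a_rep a i k u).length = a.length := by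
  simp [r12a_rep, hu]
  omega

theorem r12a_blk_len {m t : ℕ} {a : List ℤ} (ht : t < a.length / m) :
    (blk m a t).length = r12a_len m a.length t := by
  have := (r12a_len_le ht).1
  rw [r12a_blk]
  simp
  omega

open Classical in
/-- good words whose masks are on at the places of `S` -/
noncomputable def r12a_E (Ω : Finset (List ℤ)) (m L : ℕ) (B : List ℤ) (S : Finset (ℕ × ℕ)) :
    Finset (List ℤ) :=
  Ω.filter fun a => Good m L a ∧ ∀ z ∈ S, (r12a_mk B (blk m a z.1)).getD z.2 false = true

theorem r12a_step (Ω : Finset (List ℤ)) (N m L : ℕ) (B : List ℤ) (hN : ∀ a ∈ Ω, a.length = N)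
    (hP : ∀ (u v : List ℤ) (x y : ℤ), 2 ≤ |x - y| → u ++ x :: y :: v ∈ Ω → u ++ y :: x :: v ∈ Ω)
    (S : Finset (ℕ × ℕ)) (hS : ∀ z ∈ S, z.1 < N / m) (t s : ℕ) (ht : t < N / m)
    (hz : (t, s) ∉ S) :
    (r12a_E Ω m L B (insert (t, s) S)).card * (m - B.length * L) ≤
      (r12a_E Ω m L B S).card * (B.length * L) := by
  classical
  set k := r12a_len m N t with hk
  obtain ⟨k1, k2, k3⟩ := r12a_len_le ht
  have hmem : ∀ {T a}, a ∈ r12a_E Ω m L B T ↔ a ∈ Ω ∧ Good m L a ∧
      ∀ z ∈ T, (r12a_mk B (blk m a z.1)).getD z.2 false = true := by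
    intro T a; simp only [r12a_E, mem_filter]
  have hlen : ∀ a ∈ Ω, (blk m a t).length = k := fun a ha => by
    rw [r12a_blk_len (by rw [hN a ha]; exact ht), hN a ha]
  have hcount : ∀ a ∈ Ω, Good m L a → ∀ c, ((range k).filter
      (fun p => (r12a_mk B (blk m a t)).getD p false = c)).card =
        (r12a_mk B (blk m a t)).count c := fun a ha _ c => by
    rw [← r12a_card, ← hlen a ha]; simp [r12a_mk]
  have hfew : ∀ a ∈ Ω, Good m L a → (r12a_mk B (blk m a t)).count true ≤ B.length * L :=
    fun a ha hg => by
      have := r12a_few L _ (hg t (by rw [hN a ha]; exact ht)) B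
      rw [List.countP_eq_length_filter] at this
      exact (r12a_cnt _ _).1.le.trans this
  have hsum : ∀ (T : Finset (ℕ × ℕ)) (c : Bool), ((r12a_E Ω m L B T ×ˢ range k).filter
      (fun z => (r12a_mk B (blk m z.1 t)).getD z.2 false = c)).card =
        ∑ a ∈ r12a_E Ω m L B T, (r12a_mk B (blk m a t)).count c := fun T c => by
    rw [card_filter, sum_product]
    refine sum_congr rfl fun a ha => ?_
    rw [← hcount a (hmem.mp ha).1 (hmem.mp ha).2.1 c, card_filter]
  have hA : (r12a_E Ω m L B (insert (t, s) S)).card * (m - B.length * L) ≤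
      ∑ a ∈ r12a_E Ω m L B (insert (t, s) S), (r12a_mk B (blk m a t)).count false := by
    rw [← smul_eq_mul]
    refine card_nsmul_le_sum _ _ _ fun a ha => ?_
    have h1 := hfew a (hmem.mp ha).1 (hmem.mp ha).2.1
    have h2 := List.count_true_add_count_false (r12a_mk B (blk m a t))
    have h3 : (r12a_mk B (blk m a t)).length = k := by
      rw [← hlen a (hmem.mp ha).1]; simp [r12a_mk]
    omega
  have hB : ∑ a ∈ r12a_E Ω m L B S, (r12a_mk B (blk m a t)).count true ≤
      (r12a_E Ω m L B S).card * (B.length * L) := by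
    rw [← smul_eq_mul]
    exact sum_le_card_nsmul _ _ _ fun a ha => hfew a (hmem.mp ha).1 (hmem.mp ha).2.1
  refine hA.trans (le_trans ?_ hB)
  rw [← hsum, ← hsum]
  have hself : ∀ a ∈ Ω, r12a_rep a (t * m) k (blk m a t) = a := fun a ha => by
    rw [r12a_blk, hN a ha]; exact r12a_rep_self _ _ _
  refine card_le_card_of_injOn
    (fun z => (r12a_rep z.1 (t * m) k (r12a_resh B (blk m z.1 t) s z.2), z.2)) ?_ ?_
  · rintro ⟨a, p⟩ hz'
    simp only [coe_filter, mem_product, mem_range, Set.mem_ofPred_eq] at hz' ⊢
    obtain ⟨⟨ha, hp⟩, hf⟩ := hz'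
    obtain ⟨haΩ, hg, hon⟩ := hmem.mp ha
    have hs := hon (t, s) (mem_insert_self _ _)
    have hp' : p < (blk m a t).length := by rw [hlen a haΩ]; exact hp
    obtain ⟨a0, a1, -, -⟩ := r12a_resh_spec B _ s p hs hp' hf
    obtain ⟨-, -, c1, c2⟩ := r12a_swap _ s p hs (by simpa [r12a_mk] using hp') hf
    have hul : (r12a_resh B (blk m a t) s p).length = k := by rw [a0.length_eq, hlen a haΩ]
    have hle : t * m + k ≤ a.length := by rw [hN a haΩ]; exact k1
    have hrl := r12a_rep_len a _ (t * m) k hle hul
    have hsame : blk m (r12a_rep a (t * m) k (r12a_resh B (blk m a t) s p)) t =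
        r12a_resh B (blk m a t) s p := by
      rw [r12a_blk m (r12a_rep _ _ _ _), hrl, hN a haΩ]
      exact r12a_rep_same a _ _ _ hle hul
    have hoth : ∀ t', t' < N / m → t' ≠ t →
        blk m (r12a_rep a (t * m) k (r12a_resh B (blk m a t) s p)) t' = blk m a t' := by
      intro t' h1 h2
      rw [r12a_blk m (r12a_rep _ _ _ _), hrl, r12a_blk m a t', hN a haΩ]
      refine r12a_rep_other a _ _ _ _ _ hle hul ?_
      rcases lt_or_gt_of_ne h2 with h3 | h3
      · exact Or.inl ((r12a_len_le h1).2.2 t h3 ht)
      · exact Or.inr (k3 t' h3 h1)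
    refine ⟨⟨hmem.mpr ⟨?_, fun t' ht' => ?_, fun z hzS => ?_⟩, hp⟩, ?_⟩
    · exact r12a_resh_net (P := fun w => w ∈ Ω) hP B _ _ _ s p hs hp' hf
        (by have := hself a haΩ; unfold r12a_rep at this; rw [this]; exact haΩ)
    · rw [hrl] at ht'
      by_cases e : t' = t
      · subst e
        rw [hsame]
        intro b
        rw [a0.countP_eq]
        exact hg t' ht' b
      · rw [hoth t' (by rw [← hN a haΩ]; exact ht') e]
        exact hg t' ht'
    · have := hon z (mem_insert_of_mem hzS)
      by_cases e : z.1 = t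
      · rw [e] at this ⊢
        rw [hsame, a1]
        exact c2 _ (fun e' => hz (by rw [← e, ← e']; exact hzS)) this
      · rw [hoth _ (hS z hzS) e]
        exact this
    · rw [hsame, a1]
      exact c1
  · rintro ⟨a, p⟩ h1 ⟨a', p'⟩ h2 h
    simp only [coe_filter, mem_product, mem_range, Set.mem_ofPred_eq, Prod.mk.injEq] at h1 h2 h ⊢
    obtain ⟨h, rfl⟩ := h
    refine ⟨?_, rfl⟩
    obtain ⟨⟨ha, hp⟩, hf⟩ := h1
    obtain ⟨⟨ha', -⟩, hf'⟩ := h2
    obtain ⟨haΩ, -, hon⟩ := hmem.mp ha
    obtain ⟨haΩ', -, hon'⟩ := hmem.mp ha'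
    have hs := hon (t, s) (mem_insert_self _ _)
    have hs' := hon' (t, s) (mem_insert_self _ _)
    have hp1 : p < (blk m a t).length := by rw [hlen a haΩ]; exact hp
    have hp2 : p < (blk m a' t).length := by rw [hlen a' haΩ']; exact hp
    have l1 := (r12a_resh_spec B _ s p hs hp1 hf).1.length_eq
    have l2 := (r12a_resh_spec B _ s p hs' hp2 hf').1.length_eq
    unfold r12a_rep at h
    obtain ⟨e1, e2⟩ := List.append_inj h (by simp [hN a haΩ, hN a' haΩ'])
    obtain ⟨e2, e3⟩ := List.append_inj e2 (by rw [l1, l2, hlen a haΩ, hlen a' haΩ'])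
    have e4 := r12a_resh_inj B _ _ s p hs hp1 hf hs' hp2 hf' e2
    rw [← hself a haΩ, ← hself a' haΩ']
    unfold r12a_rep
    rw [e1, e3, e4]

theorem r12a_all (Ω : Finset (List ℤ)) (N m L : ℕ) (B : List ℤ) (hN : ∀ a ∈ Ω, a.length = N)
    (hP : ∀ (u v : List ℤ) (x y : ℤ), 2 ≤ |x - y| → u ++ x :: y :: v ∈ Ω → u ++ y :: x :: v ∈ Ω)
    (S : Finset (ℕ × ℕ)) (hS : ∀ z ∈ S, z.1 < N / m) :
    (r12a_E Ω m L B S).card * (m - B.length * L) ^ S.card ≤ (B.length * L) ^ S.card * Ω.card := by
  induction S using Finset.induction_on with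
  | empty =>
    simp only [card_empty, pow_zero, mul_one, one_mul]
    exact card_le_card fun a ha => by
      simp only [r12a_E, mem_filter] at ha
      exact ha.1
  | insert z S hz ih =>
    have h1 := ih fun y hy => hS y (mem_insert_of_mem hy)
    have h2 := r12a_step Ω N m L B hN hP S (fun y hy => hS y (mem_insert_of_mem hy)) z.1 z.2
      (hS z (mem_insert_self _ _)) hz
    rw [card_insert_of_notMem hz, pow_succ', pow_succ', ← mul_assoc]
    calc _ ≤ (r12a_E Ω m L B S).card * (B.length * L) * (m - B.length * L) ^ S.card :=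
          Nat.mul_le_mul_right _ h2
      _ = (B.length * L) * ((r12a_E Ω m L B S).card * (m - B.length * L) ^ S.card) := by ring
      _ ≤ (B.length * L) * ((B.length * L) ^ S.card * Ω.card) := Nat.mul_le_mul_left _ h1
      _ = _ := by ring

/-- the block which holds place `x` -/
def r12a_T (m N x : ℕ) : ℕ := min (x / m) (N / m - 1)

theorem r12a_T_spec {m N x : ℕ} (hm : 0 < m) (hN : m ≤ N) (hx : x < N) :
    r12a_T m N x < N / m ∧ r12a_T m N x * m ≤ x ∧
      x - r12a_T m N x * m < r12a_len m N (r12a_T m N x) := by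
  have h1 : 1 ≤ N / m := (Nat.le_div_iff_mul_le hm).mpr (by omega)
  have h2 : r12a_T m N x ≤ x / m := min_le_left _ _
  have h3 : r12a_T m N x * m ≤ x := (Nat.mul_le_mul_right m h2).trans (Nat.div_mul_le_self x m)
  have h4 : r12a_T m N x ≤ N / m - 1 := min_le_right _ _
  refine ⟨by omega, h3, ?_⟩
  unfold r12a_len
  split_ifs with h
  · have h5 : r12a_T m N x = x / m := by
      unfold r12a_T at h ⊢
      omega
    rw [h5]
    have h6 := Nat.div_add_mod x m
    have h7 := Nat.mod_lt x hm
    rw [mul_comm] at h6
    omega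
  · omega

theorem r12a_on {l : List (Option ℤ)} {a : List ℤ} (h : Match l a) {m x : ℕ} (hm : 0 < m)
    (hN : m ≤ a.length) (hx : (l.map Option.isSome).getD x false = true) :
    (r12a_mk (l.filterMap id) (blk m a (r12a_T m a.length x))).getD
      (x - r12a_T m a.length x * m) false = true := by
  have hxl : x < l.length := by simpa using r12a_lt hx
  have hlen : l.length = a.length := List.Forall₂.length_eq h
  have hxa : x < a.length := hlen ▸ hxl
  obtain ⟨t1, t2, t3⟩ := r12a_T_spec hm hN hxa
  have h1 := (List.forall₂_iff_get.mp h).2 x hxl hxa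
  simp only [List.get_eq_getElem] at h1
  have h2 : (l[x]).isSome = true := by
    rw [List.getD_eq_getElem _ _ (by simpa using hxl)] at hx
    simpa using hx
  have h3 : l[x] = some a[x] := by
    rcases h1 with h1 | h1
    · rw [h1] at h2; simp at h2
    · exact h1
  have hB : a[x] ∈ l.filterMap id := by
    rw [List.mem_filterMap]
    exact ⟨l[x], List.getElem_mem _, h3⟩
  have hj : x - r12a_T m a.length x * m < (blk m a (r12a_T m a.length x)).length := by
    rw [r12a_blk_len t1]; exact t3
  have he : (blk m a (r12a_T m a.length x))[x - r12a_T m a.length x * m] = a[x] := by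
    have : (blk m a (r12a_T m a.length x))[x - r12a_T m a.length x * m]? = a[x]? := by
      rw [r12a_blk, List.getElem?_take, if_pos t3, List.getElem?_drop, Nat.add_sub_cancel' t2]
    rw [List.getElem?_eq_getElem hj, List.getElem?_eq_getElem hxa] at this
    exact Option.some.inj this
  unfold r12a_mk
  rw [List.getD_eq_getElem _ _ (by simpa using hj), List.getElem_map, he, r12a_Z_iff]
  refine ⟨a[x], hB, fun y h4 h5 => ?_⟩
  have : y = a[x] := by
    rw [min_self] at h4
    rw [max_self] at h5
    exact le_antisymm h5 h4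
  rw [this, ← he]
  exact List.getElem_mem _

theorem r12a_Sw (h : SpNet) : SpSw := by
  classical
  intro n m L r l hr hm hl
  have hm0 : 0 < m := by omega
  have hN : ∀ a ∈ nets n, a.length = NN n := fun a ha => ((h n).1 a ha).1
  by_cases hlen : l.length = NN n
  swap
  · have : (nets n).filter (fun a => Match l a ∧ Good m L a) = ∅ := by
      refine filter_eq_empty_iff.mpr fun a ha hh => hlen ?_
      rw [← hN a ha]
      exact List.Forall₂.length_eq hh.1
    rw [this]
    simp only [card_empty, Nat.cast_zero, zero_mul]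
    positivity
  have hBl : (l.filterMap id).length = r := by
    rw [← hl, List.length_filterMap_eq_countP]
    rfl
  set X := (range (l.map Option.isSome).length).filter
    (fun p => (l.map Option.isSome).getD p false = true) with hX
  have hXc : X.card = r := by
    rw [hX, r12a_card, ← hl, List.count, List.countP_map]
    congr 1
    funext o
    cases o <;> rfl
  have hXm : ∀ x ∈ X, x < NN n ∧ (l.map Option.isSome).getD x false = true := fun x hx => by
    rw [hX, mem_filter, mem_range, List.length_map, hlen] at hx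
    exact hx
  set S := X.image (fun x => (r12a_T m (NN n) x, x - r12a_T m (NN n) x * m)) with hS
  have hSc : S.card = r := by
    rw [hS, card_image_of_injOn, hXc]
    intro x hx y hy e
    simp only [Prod.mk.injEq] at e
    have h1 := (r12a_T_spec hm0 hm (hXm x hx).1).2.1
    have h2 := (r12a_T_spec hm0 hm (hXm y hy).1).2.1
    obtain ⟨e1, e2⟩ := e
    rw [e1] at h1 e2
    omega
  have hall := r12a_all (nets n) (NN n) m L (l.filterMap id) hN (h n).2.1 S (fun z hz => by
    rw [hS, mem_image] at hz
    obtain ⟨x, hx, rfl⟩ := hz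
    exact (r12a_T_spec hm0 hm (hXm x hx).1).1)
  rw [hSc, hBl] at hall
  have hsub : ((nets n).filter (fun a => Match l a ∧ Good m L a)).card ≤
      (r12a_E (nets n) m L (l.filterMap id) S).card := by
    refine card_le_card fun a ha => ?_
    obtain ⟨ha1, ha2, ha3⟩ := mem_filter.mp ha
    unfold r12a_E
    refine mem_filter.mpr ⟨ha1, ha3, fun z hz => ?_⟩
    rw [hS, mem_image] at hz
    obtain ⟨x, hx, rfl⟩ := hz
    have := r12a_on ha2 hm0 (by rw [hN a ha1]; exact hm) (hXm x hx).2
    rw [hN a ha1] at this
    exact this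
  have h2 : (((nets n).filter (fun a => Match l a ∧ Good m L a)).card * (m - r * L) ^ r : ℕ) ≤
      (r * L) ^ r * (nets n).card := (Nat.mul_le_mul_right _ hsub).trans hall
  have h3 := (Nat.cast_le (α := ℝ)).mpr h2
  push_cast [Nat.cast_sub hr.le] at h3
  convert h3

end Pool.Agent.MP_a5ded6_pr.POIS
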