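import Pool.Agent.MP_a5ded6_pr.POIS.Spec

set_option autoImplicit false

namespace Pool.Agent.MP_a5ded6_pr.POIS

open Finset

theorem r12b_union {ι α : Type} (I : Finset ι) (F : Finset α) (P : ι → α → Prop) (B : ℝ)
    (hc : ∀ a ∈ F, ∃ i ∈ I, P i a)
    (hB : ∀ i ∈ I, ∀ G : Finset α, (∀ a ∈ G, P i a) → (G.card : ℝ) ≤ B) :
    (F.card : ℝ) ≤ I.card * B := by
  classical
  have h1 : F ⊆ I.biUnion (fun i => F.filter (P i)) := by
    intro a ha
    obtain ⟨i, hi, hp⟩ := hc a ha
    exact mem_biUnion.2 ⟨i, hi, mem_filter.2 ⟨ha, hp⟩⟩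
  have h2 := (card_le_card h1).trans card_biUnion_le
  calc (F.card : ℝ) ≤ ∑ i ∈ I, ((F.filter (P i)).card : ℝ) := by exact_mod_cast h2
    _ ≤ I.card • B :=
      sum_le_card_nsmul _ _ _ (fun i hi => hB i hi _ (fun a ha => (mem_filter.1 ha).2))
    _ = _ := by simp

def r12b_merge : List Bool → List ℤ → List ℤ → List ℤ
  | [], _, w => w
  | true :: M, v, w => v.headD 0 :: r12b_merge M v.tail w
  | false :: M, v, w => w.headD 0 :: r12b_merge M v w.tail

theorem r12b_merge_eq (p : ℤ → Bool) (u r : List ℤ) :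
    r12b_merge (u.map p) (u.filter p) (u.filter (fun x => !p x) ++ r) = u ++ r := by
  induction u with
  | nil => simp [r12b_merge]
  | cons x u ih =>
    cases h : p x
    · simp [r12b_merge, h, ih]
    · simp [r12b_merge, h, ih]

def r12b_mk : ℕ → ℕ → Finset (List Bool)
  | 0, 0 => {[]}
  | 0, _ + 1 => ∅
  | l + 1, 0 => (r12b_mk l 0).image (fun M => false :: M)
  | l + 1, k + 1 =>
    (r12b_mk l k).image (fun M => true :: M) ∪ (r12b_mk l (k + 1)).image (fun M => false :: M)

theorem r12b_mk_card (l : ℕ) : ∀ k, (r12b_mk l k).card ≤ l.choose k := by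
  induction l with
  | zero => intro k; cases k <;> simp [r12b_mk]
  | succ l ih =>
    intro k
    cases k with
    | zero =>
      have := ih 0
      simp only [Nat.choose_zero_right] at this ⊢
      exact card_image_le.trans this
    | succ k =>
      rw [Nat.choose_succ_succ, r12b_mk]
      exact (card_union_le _ _).trans
        (Nat.add_le_add (card_image_le.trans (ih k)) (card_image_le.trans (ih (k + 1))))

theorem r12b_mk_mem (p : ℤ → Bool) (u : List ℤ) : u.map p ∈ r12b_mk u.length (u.countP p) := by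
  induction u with
  | nil => simp [r12b_mk]
  | cons x u ih =>
    cases h : p x
    · rw [List.countP_cons_of_neg (by simp [h]), List.length_cons, List.map_cons, h]
      generalize u.countP p = k at ih
      cases k with
      | zero => exact mem_image_of_mem _ ih
      | succ k => exact mem_union_right _ (mem_image_of_mem _ ih)
    · rw [List.countP_cons_of_pos h, List.length_cons, List.map_cons, h]
      exact mem_union_left _ (mem_image_of_mem _ ih)

theorem r12b_words_mem (s : Finset ℤ) (k : ℕ) :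
    ∀ v : List ℤ, v ∈ words s k ↔ v.length = k ∧ ∀ x ∈ v, x ∈ s := by
  induction k with
  | zero =>
    intro v
    simp only [words, mem_singleton, List.length_eq_zero_iff]
    constructor
    · rintro rfl; simp
    · exact fun h => h.1
  | succ k ih =>
    intro v
    simp only [words, mem_image, mem_product]
    constructor
    · rintro ⟨⟨x, w⟩, ⟨h1, h2⟩, rfl⟩
      obtain ⟨h3, h4⟩ := (ih w).1 h2
      refine ⟨by simp [h3], ?_⟩
      intro y hy
      rcases List.mem_cons.1 hy with rfl | hy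
      · exact h1
      · exact h4 y hy
    · rintro ⟨h1, h2⟩
      cases v with
      | nil => simp at h1
      | cons x w =>
        exact ⟨(x, w), ⟨h2 x (by simp), (ih w).2 ⟨by simpa using h1,
          fun y hy => h2 y (List.mem_cons_of_mem _ hy)⟩⟩, rfl⟩

theorem r12b_words_card (s : Finset ℤ) (k : ℕ) : (words s k).card ≤ s.card ^ k := by
  induction k with
  | zero => simp [words]
  | succ k ih =>
    rw [words]
    refine card_image_le.trans ?_
    rw [card_product, pow_succ']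
    exact Nat.mul_le_mul_left _ ih

theorem r12b_pass (S : Finset (List ℤ))
    (hc : ∀ (u v : List ℤ) (x y : ℤ), 2 ≤ |x - y| → u ++ x :: y :: v ∈ S → u ++ y :: x :: v ∈ S)
    (x : ℤ) (w v : List ℤ) : ∀ pre : List ℤ, (∀ y ∈ v, 2 ≤ |x - y|) →
      pre ++ x :: (v ++ w) ∈ S → pre ++ (v ++ x :: w) ∈ S := by
  induction v with
  | nil => intro pre _ h; simpa using h
  | cons y v ih =>
    intro pre hv h
    have h1 := hc pre (v ++ w) x y (hv y (by simp)) h
    have h2 := ih (pre ++ [y]) (fun z hz => hv z (List.mem_cons_of_mem _ hz)) (by simpa using h1)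
    simpa using h2

theorem r12b_front (S : Finset (List ℤ))
    (hc : ∀ (u v : List ℤ) (x y : ℤ), 2 ≤ |x - y| → u ++ x :: y :: v ∈ S → u ++ y :: x :: v ∈ S)
    (p : ℤ → Bool) (r u : List ℤ) : ∀ pre : List ℤ,
      (∀ x ∈ u, ∀ y ∈ u, p x = false → p y = true → 2 ≤ |x - y|) → pre ++ (u ++ r) ∈ S →
      pre ++ (u.filter p ++ (u.filter (fun x => !p x) ++ r)) ∈ S := by
  induction u with
  | nil => intro pre _ h; simpa using h
  | cons x u ih =>
    intro pre hu h
    have h1 := ih (pre ++ [x]) (fun a ha b hb =>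
      hu a (List.mem_cons_of_mem _ ha) b (List.mem_cons_of_mem _ hb)) (by simpa using h)
    cases hx : p x
    · have h2 := r12b_pass S hc x (u.filter (fun x => !p x) ++ r) (u.filter p) pre
        (fun y hy => hu x (by simp) y (List.mem_cons_of_mem _ (List.mem_filter.1 hy).1) hx
          (List.mem_filter.1 hy).2) (by simpa using h1)
      simpa [hx] using h2
    · simpa [hx] using h1

theorem r12b_short (L : ℕ) (hL : 1 ≤ L) (u : List ℤ) : ¬ GoodW L u →
    ∃ u0 r0 : List ℤ, u = u0 ++ r0 ∧ ¬ GoodW L u0 ∧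
      ∀ b : ℤ, u0.countP (fun x => decide (|x - b| ≤ (L : ℤ))) ≤ L := by
  induction u using List.reverseRecOn with
  | nil =>
    intro h
    exact absurd (fun b => by simpa using (by omega : 0 < L)) h
  | append_singleton u z ih =>
    intro h
    by_cases hg : GoodW L u
    · refine ⟨u ++ [z], [], by simp, h, fun b => ?_⟩
      have h1 := hg b
      have h2 : [z].countP (fun x => decide (|x - b| ≤ (L : ℤ))) ≤ 1 := List.countP_le_length
      rw [List.countP_append]
      omega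
    · obtain ⟨u0, r0, e, h1, h2⟩ := ih hg
      exact ⟨u0, r0 ++ [z], by rw [e, List.append_assoc], h1, h2⟩

theorem r12b_gap (L : ℕ) (u : List ℤ) (c lo : ℤ)
    (h : u.countP (fun x => decide (|x - c| ≤ (L : ℤ))) ≤ L) (h1 : c - L ≤ lo) (h2 : lo ≤ c) :
    ∃ g : ℤ, lo ≤ g ∧ g ≤ lo + L ∧ g ∉ u := by
  by_contra hn
  push Not at hn
  have hs : Icc lo (lo + L) ⊆ (u.filter (fun x => decide (|x - c| ≤ (L : ℤ)))).toFinset := by
    intro g hg
    rw [mem_Icc] at hg
    rw [List.mem_toFinset, List.mem_filter]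
    refine ⟨hn g hg.1 hg.2, ?_⟩
    rw [decide_eq_true_eq, abs_le]
    omega
  have h3 := (card_le_card hs).trans (List.toFinset_card_le _)
  rw [← List.countP_eq_length_filter, Int.card_Icc] at h3
  omega

theorem r12b_three (p p1 p2 p3 : ℤ → Bool)
    (h : ∀ x, p x = true → p1 x = true ∨ p2 x = true ∨ p3 x = true) (u : List ℤ) :
    u.countP p ≤ u.countP p1 + u.countP p2 + u.countP p3 := by
  induction u with
  | nil => simp
  | cons x u ih =>
    have hx := h x
    simp only [List.countP_cons]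
    cases h0 : p x <;> cases h1 : p1 x <;> cases h2 : p2 x <;> cases h3 : p3 x <;>
      simp_all <;> omega

theorem r12b_core (L : ℕ) (hL : 1 ≤ L) (u : List ℤ) (h : ¬ GoodW L u) :
    ∃ (u0 r0 : List ℤ) (p : ℤ → Bool) (b0 : ℤ), u = u0 ++ r0 ∧ L ≤ u0.countP p ∧
      u0.countP p ≤ 3 * L ∧ (∀ x, p x = true → b0 ≤ x ∧ x ≤ b0 + ((4 * L : ℕ) : ℤ)) ∧
      (∀ x ∈ u0, ∀ y ∈ u0, p x = false → p y = true → 2 ≤ |x - y|) := by
  obtain ⟨u0, r0, e, h1, h2⟩ := r12b_short L hL u h
  unfold GoodW at h1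
  push Not at h1
  obtain ⟨b, hb⟩ := h1
  obtain ⟨g1, a1, a2, a3⟩ := r12b_gap L u0 (b - L - 1) (b - 2 * L - 1) (h2 _) (by omega) (by omega)
  obtain ⟨g2, b1, b2, b3⟩ := r12b_gap L u0 (b + L + 1) (b + L + 1) (h2 _) (by omega) (by omega)
  refine ⟨u0, r0, fun x => decide (g1 < x ∧ x < g2), g1 + 1, e, ?_, ?_, ?_, ?_⟩
  · refine hb.trans (List.countP_mono_left fun x _ hx => ?_)
    rw [decide_eq_true_eq, abs_le] at hx
    rw [decide_eq_true_eq]
    omega
  · have := r12b_three (fun x => decide (g1 < x ∧ x < g2))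
      (fun x => decide (|x - (b - L - 1)| ≤ (L : ℤ))) (fun x => decide (|x - b| ≤ (L : ℤ)))
      (fun x => decide (|x - (b + L + 1)| ≤ (L : ℤ))) (fun x hx => by
        simp only [decide_eq_true_eq, abs_le] at hx ⊢
        omega) u0
    have c1 := h2 (b - L - 1)
    have c2 := h2 b
    have c3 := h2 (b + L + 1)
    omega
  · intro x hx
    rw [decide_eq_true_eq] at hx
    push_cast
    omega
  · intro x hx y _ px py
    rw [decide_eq_false_iff_not] at px
    rw [decide_eq_true_eq] at py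
    have n1 : x ≠ g1 := fun e => a3 (e ▸ hx)
    have n2 : x ≠ g2 := fun e => b3 (e ▸ hx)
    rw [le_abs]
    omega

theorem r12b_blk_len (m : ℕ) (hm : 1 ≤ m) (a : List ℤ) (t : ℕ) : (blk m a t).length ≤ 2 * m := by
  unfold blk
  rw [List.length_take, List.length_drop]
  split_ifs with h
  · omega
  · have h1 := Nat.div_add_mod a.length m
    have h2 := Nat.mod_lt a.length hm
    have h3 : m * (a.length / m) ≤ m * (t + 1) := Nat.mul_le_mul_left _ (by omega)
    have h4 : m * (t + 1) = t * m + m := by ring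
    omega

/-- undo the rotation -/
def r12b_rho (n j : ℕ) (a : List ℤ) : List ℤ :=
  (a.drop j).map (fun x => (n : ℤ) - x) ++ a.take j

theorem r12b_cover (h : SpNet) (L : ℕ) (hL : 1 ≤ L) (n m : ℕ) (hm : 1 ≤ m) (a : List ℤ)
    (ha : a ∈ nets n) (hb : ¬ Good m L a) :
    ∃ i ∈ range (NN n) ×ˢ range (2 * m + 1) ×ˢ Icc L (3 * L) ×ˢ Icc (1 - 4 * (L : ℤ)) n,
      ∃ j ∈ words (Icc i.2.2.2 (i.2.2.2 + ((4 * L : ℕ) : ℤ))) i.2.2.1 ×ˢ r12b_mk i.2.1 i.2.2.1,
        ∃ c ∈ nets n, j.1 <+: c ∧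
          a = r12b_rho n (NN n - i.1 * m) (r12b_merge j.2 j.1 (c.drop i.2.2.1)) := by
  obtain ⟨h1, h2, h3⟩ := h n
  unfold Good at hb
  push Not at hb
  obtain ⟨t, ht, hb⟩ := hb
  obtain ⟨u0, r0, p, b0, e, k1, k2, k3, k4⟩ := r12b_core L hL _ hb
  have hlen := (h1 a ha).1
  have hbl := r12b_blk_len m hm a t
  obtain ⟨r1, hr1⟩ : ∃ r1, a.drop (t * m) = u0 ++ r1 :=
    ⟨r0 ++ (a.drop (t * m)).drop (if t + 1 < a.length / m then m else a.length), by
      rw [← List.append_assoc, ← e, blk, List.take_append_drop]⟩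
  set w := (a.take (t * m)).map (fun x => (n : ℤ) - x) with hw
  have m1 : a.drop (t * m) ++ w ∈ nets n := (h3 _ _).1 (by rwa [List.take_append_drop])
  have m2 : u0 ++ (r1 ++ w) ∈ nets n := by rwa [hr1, List.append_assoc] at m1
  have m3 := r12b_front (nets n) h2 p (r1 ++ w) u0 [] k4 (by simpa using m2)
  rw [List.nil_append] at m3
  have hv : (u0.filter p).length = u0.countP p := List.countP_eq_length_filter.symm
  obtain ⟨x, hx⟩ : ∃ x, x ∈ u0.filter p := List.exists_mem_of_length_pos (by omega)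
  have hx1 := (h1 _ m3).2 x (List.mem_append_left _ hx)
  have hx2 := k3 x (List.mem_filter.1 hx).2
  refine ⟨(t, u0.length, u0.countP p, b0), ?_, (u0.filter p, u0.map p), ?_, _, m3,
    ⟨_, rfl⟩, ?_⟩
  · simp only [mem_product, mem_range, mem_Icc]
    have c1 : a.length / m ≤ a.length := Nat.div_le_self _ _
    have c2 : u0.length ≤ (blk m a t).length := by rw [e, List.length_append]; omega
    push_cast at hx2
    omega
  · simp only [mem_product]
    exact ⟨(r12b_words_mem _ _ _).2 ⟨hv, fun y hy => mem_Icc.2 (k3 y (List.mem_filter.1 hy).2)⟩,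
      r12b_mk_mem p u0⟩
  · simp only []
    rw [List.drop_left' hv, r12b_merge_eq, ← List.append_assoc, ← hr1, r12b_rho]
    have c3 : (a.drop (t * m)).length = NN n - t * m := by rw [List.length_drop, hlen]
    rw [List.drop_left' c3, List.take_left' c3, hw, List.map_map]
    have c4 : ((fun x : ℤ => (n : ℤ) - x) ∘ fun x : ℤ => (n : ℤ) - x) = id := by
      funext x; simp
    rw [c4, List.map_id, List.take_append_drop]

theorem r12b_Bad (h : SpNet) (hS : SpStart) : SpBad := by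
  classical
  intro L hL
  choose Cf nf hf using fun k => hS k (4 * L)
  set C0 : ℝ := ∑ k ∈ range (3 * L + 1), Cf k with hC0
  have hC : 0 ≤ C0 := sum_nonneg fun k _ => (hf k).1
  refine ⟨2 * (2 * L + 1) * (1 + 4 * L) * ((4 * L + 1) ^ (3 * L) * C0),
    ∑ k ∈ range (3 * L + 1), nf k, by positivity, fun n hn m hm hmn => ?_⟩
  have n2 : 2 ≤ n := by omega
  have np : (0 : ℝ) < n := by exact_mod_cast (by omega : 0 < n)
  have n1 : (1 : ℝ) ≤ n := by exact_mod_cast (by omega : 1 ≤ n)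
  set R : ℝ := ((nets n).card : ℝ) with hR
  have R0 : 0 ≤ R := Nat.cast_nonneg _
  set q : ℝ := 2 * (m : ℝ) / n with hq
  have q0 : 0 ≤ q := by positivity
  have q1 : q ≤ 1 := by
    rw [hq, div_le_one np]
    exact_mod_cast hmn
  have key := r12b_union
    (range (NN n) ×ˢ range (2 * m + 1) ×ˢ Icc L (3 * L) ×ˢ Icc (1 - 4 * (L : ℤ)) n)
    ((nets n).filter (fun a => ¬ Good m L a))
    (fun i a =>
      ∃ j ∈ words (Icc i.2.2.2 (i.2.2.2 + ((4 * L : ℕ) : ℤ))) i.2.2.1 ×ˢ r12b_mk i.2.1 i.2.2.1,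
        ∃ c ∈ nets n, j.1 <+: c ∧
          a = r12b_rho n (NN n - i.1 * m) (r12b_merge j.2 j.1 (c.drop i.2.2.1)))
    ((4 * L + 1) ^ (3 * L) * C0 * q ^ L * R)
    (fun a ha => r12b_cover h L hL n m hm a (mem_filter.1 ha).1 (mem_filter.1 ha).2) ?_
  · refine key.trans ?_
    simp only [card_product, card_range, Nat.card_Icc, Int.card_Icc]
    have e1 : ((n : ℤ) + 1 - (1 - 4 * (L : ℤ))).toNat = n + 4 * L := by omega
    have e2 : 3 * L + 1 - L = 2 * L + 1 := by omega
    rw [e1, e2]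
    have b1 : (NN n : ℝ) ≤ (n : ℝ) ^ 2 := by
      have : NN n ≤ n ^ 2 := by
        unfold NN
        refine (Nat.div_le_self _ _).trans ?_
        rw [sq]
        exact Nat.mul_le_mul_left _ (Nat.sub_le _ _)
      exact_mod_cast this
    have b2 : 2 * (m : ℝ) + 1 ≤ 2 * n := by
      have : 2 * m + 1 ≤ 2 * n := by omega
      exact_mod_cast this
    have L0 : (0 : ℝ) ≤ L := Nat.cast_nonneg _
    have b3 : (n : ℝ) + 4 * L ≤ (1 + 4 * L) * n := by nlinarith
    have b4 : (n : ℝ) ^ 4 ≤ (n : ℝ) ^ 5 := pow_le_pow_right₀ n1 (by norm_num)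
    have b5 : (NN n : ℝ) * ((2 * (m : ℝ) + 1) * ((2 * (L : ℝ) + 1) * ((n : ℝ) + 4 * L))) ≤
        2 * (2 * L + 1) * (1 + 4 * L) * (n : ℝ) ^ 5 := by
      calc _ ≤ (n : ℝ) ^ 2 * ((2 * n) * ((2 * (L : ℝ) + 1) * ((1 + 4 * L) * n))) := by gcongr
        _ = 2 * (2 * L + 1) * (1 + 4 * L) * (n : ℝ) ^ 4 := by ring
        _ ≤ _ := by gcongr
    push_cast
    calc _ ≤ 2 * (2 * L + 1) * (1 + 4 * L) * (n : ℝ) ^ 5 *
          ((4 * L + 1) ^ (3 * L) * C0 * q ^ L * R) := by gcongr
      _ = _ := by ring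
  · rintro ⟨t, l, k, b0⟩ hi G hG
    simp only [mem_product, mem_range, mem_Icc] at hi
    obtain ⟨-, hl, ⟨k1, k2⟩, -⟩ := hi
    have hk : k ∈ range (3 * L + 1) := mem_range.2 (by omega)
    have hnk : nf k ≤ n := (single_le_sum (f := nf) (fun _ _ => Nat.zero_le _) hk).trans hn
    have hCk : Cf k ≤ C0 := single_le_sum (f := Cf) (fun j _ => (hf j).1) hk
    have k3 := r12b_union
      (words (Icc b0 (b0 + ((4 * L : ℕ) : ℤ))) k ×ˢ r12b_mk l k) G
      (fun j a => ∃ c ∈ nets n, j.1 <+: c ∧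
          a = r12b_rho n (NN n - t * m) (r12b_merge j.2 j.1 (c.drop k)))
      (C0 * R / (n : ℝ) ^ k) hG ?_
    · refine k3.trans ?_
      rw [card_product]
      have c1 := r12b_words_card (Icc b0 (b0 + ((4 * L : ℕ) : ℤ))) k
      have c2 : (Icc b0 (b0 + ((4 * L : ℕ) : ℤ))).card = 4 * L + 1 := by
        rw [Int.card_Icc]; omega
      rw [c2] at c1
      have c3 : (4 * L + 1) ^ k ≤ (4 * L + 1) ^ (3 * L) := Nat.pow_le_pow_right (by omega) k2
      have c4 : (r12b_mk l k).card ≤ (2 * m) ^ k :=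
        ((r12b_mk_card l k).trans (Nat.choose_le_pow l k)).trans
          (Nat.pow_le_pow_left (by omega) k)
      have c5 : (((words (Icc b0 (b0 + ((4 * L : ℕ) : ℤ))) k).card * (r12b_mk l k).card : ℕ) : ℝ) ≤
          (4 * (L : ℝ) + 1) ^ (3 * L) * (2 * (m : ℝ)) ^ k := by
        exact_mod_cast Nat.mul_le_mul (c1.trans c3) c4
      have c6 : q ^ k ≤ q ^ L := pow_le_pow_of_le_one q0 q1 k1
      calc _ ≤ (4 * (L : ℝ) + 1) ^ (3 * L) * (2 * (m : ℝ)) ^ k * (C0 * R / (n : ℝ) ^ k) := by gcongr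
        _ = (4 * (L : ℝ) + 1) ^ (3 * L) * C0 * q ^ k * R := by
          rw [hq, div_pow]; field_simp
        _ ≤ _ := by gcongr
    · rintro ⟨v, M⟩ hj G' hG'
      obtain ⟨v1, v2⟩ := (r12b_words_mem _ _ _).1 (mem_product.1 hj).1
      have s1 := (hf k).2 n hnk b0 v v1 (fun x hx => mem_Icc.1 (v2 x hx))
      have s2 : G' ⊆ ((nets n).filter (fun a => v <+: a)).image
          (fun c => r12b_rho n (NN n - t * m) (r12b_merge M v (c.drop k))) := by
        intro a ha
        obtain ⟨c, c1, c2, c3⟩ := hG' a ha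
        exact mem_image.2 ⟨c, mem_filter.2 ⟨c1, c2⟩, c3.symm⟩
      have s3 : (G'.card : ℝ) ≤ (((nets n).filter (fun a => v <+: a)).card : ℝ) := by
        exact_mod_cast (card_le_card s2).trans card_image_le
      rw [le_div_iff₀ (by positivity)]
      calc _ ≤ (((nets n).filter (fun a => v <+: a)).card : ℝ) * (n : ℝ) ^ k := by gcongr
        _ ≤ Cf k * R := by convert s1
        _ ≤ _ := by gcongr

end Pool.Agent.MP_a5ded6_pr.POIS
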