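import Pool.Agent.MP_a5ded6_pr.POIS.Spec

set_option autoImplicit false

namespace Pool.Agent.MP_a5ded6_pr.POIS

open Finset Filter Topology

theorem r12c_root (s n : ℕ) (hs : s ≠ 0) : ∃ q : ℕ, q ^ s ≤ n ∧ n < (q + 1) ^ s :=
  ⟨Nat.nthRoot s n, Nat.pow_nthRoot_le (Or.inl hs), Nat.lt_pow_nthRoot_add_one hs n⟩

theorem r12c_Theta (_hN : SpNet) (h1 : SpSw) (h2 : SpBad) : SpTheta := by
  classical
  intro r
  rcases Nat.eq_zero_or_pos r with rfl | hr
  · refine ⟨1, 1, zero_le_one, fun n hn l _ => ?_⟩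
    have a1 : (1 : ℝ) ≤ Real.sqrt n := Real.one_le_sqrt.2 (by exact_mod_cast hn)
    have a2 : (((nets n).filter (Match l)).card : ℝ) ≤ (nets n).card := by
      exact_mod_cast card_filter_le _ _
    have a3 : (0 : ℝ) ≤ (nets n).card := Nat.cast_nonneg _
    rw [pow_zero, mul_one, one_mul]
    nlinarith
  obtain ⟨L, hL⟩ : ∃ L, L = 2 * r * (r + 5) := ⟨_, rfl⟩
  have hL1 : 1 ≤ L := by rw [hL]; exact Nat.mul_pos (by omega) (by omega)
  obtain ⟨C, n₀, hC, hb⟩ := h2 L hL1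
  refine ⟨((r : ℝ) * L) ^ r * 4 ^ r + C * 4 ^ L, max n₀ ((2 * (r * L) + 2) ^ (2 * r)),
    by positivity, fun n hn l hl => ?_⟩
  obtain ⟨q, q1, q2⟩ := r12c_root (2 * r) n (by omega)
  have q3 : 2 * (r * L) + 2 ≤ q :=
    Nat.lt_succ_iff.1 (lt_of_pow_lt_pow_left₀ (2 * r) (Nat.zero_le _)
      (((le_max_right _ _).trans hn).trans_lt q2))
  have q4 : q * q ≤ n := by
    rw [← pow_two]
    exact (Nat.pow_le_pow_right (by omega) (by omega)).trans q1
  obtain ⟨m, hm⟩ : ∃ m, m = n / q := ⟨_, rfl⟩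
  have m1 : q ≤ m := by rw [hm]; exact (Nat.le_div_iff_mul_le (by omega)).2 q4
  have m2 : m * q ≤ n := by rw [hm]; exact Nat.div_mul_le_self n q
  have m3 : n < q * (m + 1) := by rw [hm]; exact Nat.lt_mul_div_succ n (by omega)
  have m4 : 2 * m ≤ n := by
    have : m * 2 ≤ m * q := Nat.mul_le_mul_left m (by omega)
    omega
  have m5 : m ≤ NN n := by
    rw [NN, Nat.le_div_iff_mul_le two_pos]
    have : n * 1 ≤ n * (n - 1) := Nat.mul_le_mul_left n (by omega)
    omega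
  have b1 := h1 n m L r l (by omega) m5 hl
  have b2 := hb n ((le_max_left _ _).trans hn) m (by omega) m4
  have b3 : (((nets n).filter (Match l)).card : ℝ) ≤
      (((nets n).filter (fun a => Match l a ∧ Good m L a)).card : ℝ) +
        (((nets n).filter (fun a => ¬ Good m L a)).card : ℝ) := by
    norm_cast
    refine le_trans (card_le_card fun a ha => ?_) (card_union_le _ _)
    simp only [mem_filter, mem_union] at ha ⊢
    tauto
  generalize (((nets n).filter (Match l)).card : ℝ) = X at b3 ⊢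
  have y0 : (0 : ℝ) ≤ (((nets n).filter (fun a => Match l a ∧ Good m L a)).card : ℝ) :=
    Nat.cast_nonneg _
  generalize (((nets n).filter (fun a => Match l a ∧ Good m L a)).card : ℝ) = Y at b1 b3 y0
  generalize (((nets n).filter (fun a => ¬ Good m L a)).card : ℝ) = Z at b2 b3
  have r0 : (0 : ℝ) ≤ (nets n).card := Nat.cast_nonneg _
  generalize ((nets n).card : ℝ) = R at b1 b2 r0 ⊢
  have hq : (0 : ℝ) < q := by exact_mod_cast (by omega : 0 < q)
  have hn0 : (0 : ℝ) < n := by exact_mod_cast (by omega : 0 < n)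
  have s1 : (1 : ℝ) ≤ Real.sqrt n := Real.one_le_sqrt.2 (by exact_mod_cast (by omega : 1 ≤ n))
  have s2 : (q : ℝ) ^ r ≤ Real.sqrt n := by
    refine Real.le_sqrt_of_sq_le ?_
    rw [← pow_mul, mul_comm]
    exact_mod_cast q1
  have c1 : (n : ℝ) ≤ 4 * q * ((m : ℝ) - r * L) := by
    have e1 : (n : ℝ) ≤ q * (m + 1) := by exact_mod_cast m3.le
    have e2 : 2 * ((r : ℝ) * L) + 2 ≤ m := by exact_mod_cast q3.trans m1
    have e3 : (0 : ℝ) ≤ (r : ℝ) * L := by positivity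
    nlinarith
  have c2 : Y * (n : ℝ) ^ r ≤ ((r : ℝ) * L) ^ r * 4 ^ r * Real.sqrt n * R := by
    calc Y * (n : ℝ) ^ r ≤ Y * (4 * q * ((m : ℝ) - r * L)) ^ r :=
          mul_le_mul_of_nonneg_left (pow_le_pow_left₀ hn0.le c1 r) y0
      _ = 4 ^ r * (q : ℝ) ^ r * (Y * ((m : ℝ) - r * L) ^ r) := by rw [mul_pow, mul_pow]; ring
      _ ≤ 4 ^ r * (q : ℝ) ^ r * (((r : ℝ) * L) ^ r * R) :=
          mul_le_mul_of_nonneg_left b1 (by positivity)
      _ ≤ 4 ^ r * Real.sqrt n * (((r : ℝ) * L) ^ r * R) := by gcongr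
      _ = _ := by ring
  have c3 : (n : ℝ) ^ (r + 5) ≤ (2 * (q : ℝ)) ^ L := by
    have e1 : n ≤ (2 * q) ^ (2 * r) := q2.le.trans (Nat.pow_le_pow_left (by omega) _)
    rw [hL, pow_mul]
    exact pow_le_pow_left₀ hn0.le (by exact_mod_cast e1) _
  have c4 : 2 * (m : ℝ) / n ≤ 2 / q := by
    rw [div_le_div_iff₀ hn0 hq]
    have e1 : (m : ℝ) * q ≤ n := by exact_mod_cast m2
    linarith
  have c5 : Z * (n : ℝ) ^ r ≤ C * 4 ^ L * Real.sqrt n * R := by
    calc Z * (n : ℝ) ^ r ≤ C * (n : ℝ) ^ 5 * (2 * (m : ℝ) / n) ^ L * R * (n : ℝ) ^ r := by gcongr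
      _ = C * ((n : ℝ) ^ (r + 5) * (2 * (m : ℝ) / n) ^ L) * R := by ring
      _ ≤ C * ((2 * (q : ℝ)) ^ L * (2 / (q : ℝ)) ^ L) * R := by gcongr
      _ = C * 4 ^ L * 1 * R := by
          rw [← mul_pow, show 2 * (q : ℝ) * (2 / q) = 4 by field_simp; norm_num, mul_one]
      _ ≤ _ := by gcongr
  calc X * (n : ℝ) ^ r ≤ (Y + Z) * (n : ℝ) ^ r := by gcongr
    _ ≤ _ := by linarith

/-- four prescribed letters from time `t` on -/
def r12c_pat (N : ℕ) (z : ℕ × ℤ × ℤ × ℤ) : List (Option ℤ) :=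
  List.replicate z.1 none ++ some z.2.1 :: some (z.2.1 + z.2.2.1) :: some z.2.1 ::
    some (z.2.1 + z.2.2.2) :: List.replicate (N - z.1 - 4) none

theorem r12c_count (N : ℕ) (z : ℕ × ℤ × ℤ × ℤ) : (r12c_pat N z).countP Option.isSome = 4 := by
  simp [r12c_pat, List.countP_replicate]

theorem r12c_none (p : List ℤ) : Match (List.replicate p.length none) p := by
  induction p with
  | nil => exact List.Forall₂.nil
  | cons x p ih => exact List.Forall₂.cons (Or.inl rfl) ih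

theorem r12c_form {a : List ℤ} (h : Ov a) : ∃ (p s : List ℤ) (x e e' : ℤ),
    a = p ++ x :: (x + e) :: x :: (x + e') :: s ∧ (e = 1 ∨ e = -1) ∧ (e' = 1 ∨ e' = -1) := by
  obtain ⟨u, hu, h1, h2⟩ := h
  obtain ⟨p, rfl⟩ := (List.mem_tails _ _).1 hu
  match u, h1, h2 with
  | [], h1, _ => simp [isBr] at h1
  | [_], h1, _ => simp [isBr] at h1
  | [_, _], h1, _ => simp [isBr] at h1
  | [_, _, _], _, h2 => simp [isBr] at h2
  | [x, y, z, w], h1, h2 =>
    simp [isBr] at h1 h2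
    refine ⟨p, [], x, y - x, w - x, by simp [h1.1], by omega, by omega⟩
  | x :: y :: z :: w :: v :: s, h1, h2 =>
    simp [isBr] at h1 h2
    refine ⟨p, v :: s, x, y - x, w - x, by simp [h1.1], by omega, by omega⟩

theorem r14a_Ov (_hR : SpRed) (hN : SpNet) (h : SpTheta) : SpOv := by
  classical
  obtain ⟨C, n₀, hC, hb⟩ := h 4
  have lim : Tendsto (fun n : ℕ => 4 * C * (Real.sqrt n)⁻¹) atTop (𝓝 0) := by
    simpa using ((Real.tendsto_sqrt_atTop.comp
      tendsto_natCast_atTop_atTop).inv_tendsto_atTop).const_mul (4 * C)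
  refine squeeze_zero' (Eventually.of_forall fun n => by positivity) ?_ lim
  filter_upwards [eventually_ge_atTop n₀, eventually_ge_atTop 1] with n hn hn1
  refine div_le_of_le_mul₀ (Nat.cast_nonneg _) (by positivity) ?_
  obtain ⟨I, hI⟩ : ∃ I : Finset (ℕ × ℤ × ℤ × ℤ),
      I = range (NN n) ×ˢ Icc (1 : ℤ) n ×ˢ {1, -1} ×ˢ {1, -1} := ⟨_, rfl⟩
  have a1 : (nets n).filter Ov ⊆
      I.biUnion fun z => (nets n).filter (Match (r12c_pat (NN n) z)) := by
    intro a ha
    obtain ⟨ha, ho⟩ := mem_filter.1 ha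
    obtain ⟨p, s, x, e, e', rfl, he, he'⟩ := r12c_form ho
    obtain ⟨l1, l2⟩ := (hN n).1 _ ha
    have l3 := l2 x (by simp)
    simp only [List.length_append, List.length_cons] at l1
    refine mem_biUnion.2 ⟨(p.length, x, e, e'), ?_, mem_filter.2 ⟨ha, ?_⟩⟩
    · simp only [hI, mem_product, mem_range, mem_Icc, mem_insert, mem_singleton]
      exact ⟨by omega, by omega, he, he'⟩
    · have l4 : NN n - p.length - 4 = s.length := by omega
      simp only [r12c_pat, l4]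
      exact List.rel_append (r12c_none p) (.cons (Or.inr rfl) (.cons (Or.inr rfl)
        (.cons (Or.inr rfl) (.cons (Or.inr rfl) (r12c_none s)))))
  have hn0 : (0 : ℝ) < n := by exact_mod_cast hn1
  have s0 : 0 < Real.sqrt n := Real.sqrt_pos.2 hn0
  have a2 : (I.card : ℝ) ≤ 4 * (n : ℝ) ^ 3 := by
    have e1 : NN n ≤ n * n := (Nat.div_le_self _ _).trans (Nat.mul_le_mul_left n (by omega))
    have e2 : I.card = NN n * (n * 4) := by simp [hI]
    have e3 : I.card ≤ 4 * n ^ 3 := by rw [e2]; nlinarith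
    exact_mod_cast e3
  have a3 : (((nets n).filter Ov).card : ℝ) ≤
      ∑ z ∈ I, (((nets n).filter (Match (r12c_pat (NN n) z))).card : ℝ) := by
    exact_mod_cast (card_le_card a1).trans card_biUnion_le
  have a4 : (((nets n).filter Ov).card : ℝ) * (n : ℝ) ^ 4 ≤
      4 * (n : ℝ) ^ 3 * (C * Real.sqrt n * (nets n).card) := by
    refine (mul_le_mul_of_nonneg_right a3 (by positivity)).trans ?_
    rw [sum_mul]
    refine (sum_le_card_nsmul _ _ _ fun z _ => hb n hn _ (r12c_count _ z)).trans ?_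
    rw [nsmul_eq_mul]
    gcongr
  refine le_of_mul_le_mul_right (a4.trans_eq ?_) (pow_pos hn0 4)
  have s1 : (n : ℝ) = Real.sqrt n * Real.sqrt n := (Real.mul_self_sqrt hn0.le).symm
  generalize Real.sqrt n = t at s0 s1
  rw [s1]
  field_simp

end Pool.Agent.MP_a5ded6_pr.POIS
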