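import Pool.Agent.MP_a5ded6_pr.POIS.Spec

set_option autoImplicit false

namespace Pool.Agent.MP_a5ded6_pr.POIS

open Finset Filter Topology

theorem r13_ev_add (n : ℕ) (x y : En) : ev n (x + y) = ev n x + ev n y := by
  simp [ev]

theorem r13_ev_sub (n : ℕ) (x y : En) : ev n (x - y) = ev n x - ev n y := by
  simp [ev]

theorem r13_ev_smul (n : ℕ) (c : ℝ) (x : En) : ev n (c • x) = c * ev n x := by
  simp [ev]

open Classical in
theorem r13_evAC (hC : SpCount) (n r K : ℕ) (θ : ℝ) (hθ0 : 0 ≤ θ)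
    (hθ : ∀ l : List (Option ℤ), l.countP Option.isSome = r →
      (((nets n).filter (Match l)).card : ℝ) ≤ θ) (a : ℝ) (x : En)
    (h : AC (Dn n) (Un n) r K a x) : |ev n x| ≤ a * θ := by
  induction h with
  | mono l hr hK =>
    rw [(hC n).1 l, one_mul, abs_of_nonneg (by positivity)]
    exact hθ l hr
  | zero => simp [ev]
  | add _ _ ih1 ih2 =>
    rw [r13_ev_add, add_mul]
    exact (abs_add_le _ _).trans (add_le_add ih1 ih2)
  | smul c _ ih =>
    rw [r13_ev_smul, abs_mul, mul_assoc]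
    exact mul_le_mul_of_nonneg_left ih (abs_nonneg c)
  | le _ hab ih => exact ih.trans (mul_le_mul_of_nonneg_right hab hθ0)

theorem r13_NN_le (n : ℕ) : (NN n : ℝ) ≤ (n : ℝ) ^ 2 := by
  have h : NN n ≤ n ^ 2 := by
    unfold NN
    calc n * (n - 1) / 2 ≤ n * (n - 1) := Nat.div_le_self _ _
      _ ≤ n * n := Nat.mul_le_mul_left _ (Nat.sub_le _ _)
      _ = n ^ 2 := (sq n).symm
  exact_mod_cast h

theorem r13_NN_tendsto : Tendsto NN atTop atTop := by
  refine tendsto_atTop_atTop.2 (fun b => ⟨b + 3, fun n hn => ?_⟩)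
  unfold NN
  have h2 : n * 2 ≤ n * (n - 1) := Nat.mul_le_mul_left _ (by omega)
  omega

theorem r13_sqrt : Tendsto (fun n : ℕ => Real.sqrt n / (n : ℝ)) atTop (𝓝 0) := by
  have h1 : Tendsto (fun n : ℕ => (Real.sqrt n)⁻¹) atTop (𝓝 0) :=
    tendsto_inv_atTop_zero.comp (Real.tendsto_sqrt_atTop.comp tendsto_natCast_atTop_atTop)
  refine h1.congr (fun n => ?_)
  rw [Real.sqrt_div_self]

theorem r13_small (hC : SpCount) (hR : SpRed) (hT : SpTheta) (r j : ℕ) (c : ℝ) (K : ℕ → ℕ)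
    (a : ℕ → ℝ) (x : ℕ → En) (_hc : 0 ≤ c)
    (h : ∀ᶠ n in atTop, AC (Dn n) (Un n) r (K n) (a n) (x n) ∧
      (NN n : ℝ) ^ j * a n * n ≤ c * (n : ℝ) ^ r) :
    Tendsto (fun n : ℕ => (NN n : ℝ) ^ j * ev n (x n) / (nets n).card) atTop (𝓝 0) := by
  obtain ⟨C, n₀, hC0, hθ⟩ := hT r
  have hlim : Tendsto (fun n : ℕ => c * C * (Real.sqrt n / (n : ℝ))) atTop (𝓝 0) := by
    simpa using r13_sqrt.const_mul (c * C)
  refine squeeze_zero_norm' ?_ hlim
  filter_upwards [h, eventually_ge_atTop n₀, eventually_ge_atTop 1] with n hn h0 h1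
  have hn0 : (0 : ℝ) < n := by exact_mod_cast h1
  have hR0 : (0 : ℝ) < (nets n).card := by exact_mod_cast (hR n).1.card_pos
  have hpr : (0 : ℝ) < (n : ℝ) ^ r := pow_pos hn0 r
  have hb := r13_evAC hC n r (K n) (C * Real.sqrt n * (nets n).card / (n : ℝ) ^ r)
    (by positivity) (fun l hl => by rw [le_div_iff₀ hpr]; exact hθ n h0 l hl) _ _ hn.1
  rw [Real.norm_eq_abs, abs_div, abs_mul, abs_of_pos hR0, abs_of_nonneg (by positivity),
    div_le_iff₀ hR0]
  have h2 : (NN n : ℝ) ^ j * a n ≤ c * (n : ℝ) ^ r / n := by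
    rw [le_div_iff₀ hn0]; exact hn.2
  calc (NN n : ℝ) ^ j * |ev n (x n)|
      ≤ (NN n : ℝ) ^ j * (a n * (C * Real.sqrt n * (nets n).card / (n : ℝ) ^ r)) :=
        mul_le_mul_of_nonneg_left hb (by positivity)
    _ = ((NN n : ℝ) ^ j * a n) * (C * Real.sqrt n * (nets n).card / (n : ℝ) ^ r) := by ring
    _ ≤ (c * (n : ℝ) ^ r / n) * (C * Real.sqrt n * (nets n).card / (n : ℝ) ^ r) :=
        mul_le_mul_of_nonneg_right h2 (by positivity)
    _ = c * C * (Real.sqrt n / (n : ℝ)) * (nets n).card := by field_simp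

theorem r13_AC_one (D : ℤ → En) (U : En) : AC D U 0 0 1 1 := by
  have := AC.mono (D := D) (U := U) (r := 0) (K := 0) [] rfl rfl
  simpa [mono] using this

theorem r13_pow (hA : SpAC) (D : ℤ → En) (U p : En) (ω : ℝ) (hp : AC D U 3 0 ω p) (j : ℕ) :
    AC D U (3 * j) 0 (ω ^ j) (p ^ j) := by
  induction j with
  | zero => simpa using r13_AC_one D U
  | succ j ih =>
    have := hA.1 D U _ _ _ _ _ _ _ _ ih hp
    rw [pow_succ, pow_succ]
    exact this

theorem r13_comm (hA : SpAC) (D : ℤ → En) (U p W : En) (ω γ : ℝ) (hp : AC D U 3 0 ω p)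
    (hw : AC D U 5 0 (ω * γ) (p * W - W * p)) (j : ℕ) :
    AC D U (3 * j + 2) 0 (j * γ * ω ^ j) (p ^ j * W - W * p ^ j) := by
  induction j with
  | zero => simpa using (AC.zero : AC D U 2 0 0 0)
  | succ j ih =>
    have h1 := hA.1 D U _ _ _ _ _ _ _ _ ih hp
    have h2 := hA.1 D U _ _ _ _ _ _ _ _ (r13_pow hA D U p ω hp j) hw
    have e1 : 3 * j + 2 + 3 = 3 * (j + 1) + 2 := by ring
    have e2 : 3 * j + 5 = 3 * (j + 1) + 2 := by ring
    rw [e1] at h1
    rw [e2] at h2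
    have h3 := AC.add h1 h2
    have e3 : (p ^ j * W - W * p ^ j) * p + p ^ j * (p * W - W * p) =
        p ^ (j + 1) * W - W * p ^ (j + 1) := by
      rw [pow_succ]; simp only [sub_mul, mul_sub, mul_assoc]; abel
    rw [e3] at h3
    refine AC.le h3 (le_of_eq ?_)
    push_cast; ring

noncomputable def r13_B (n : ℕ) : En := (2 : ℝ) • Bs (Dn n) 1 (n - 1)
noncomputable def r13_p (n : ℕ) : En := (-2 : ℝ) • P3 (Dn n) 1 (n - 1)
noncomputable def r13_W (n : ℕ) : En := WW (Dn n) 1 (n - 1) (((n : ℝ) - 1) / 2)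

theorem r13_facts (hN : SpNC) (h1 : SpA1) (h2 : SpA2) : ∃ C : ℝ, 1 ≤ C ∧ ∀ n : ℕ,
    r13_B n = (2 : ℝ) • (r13_W n * Un n - Un n * r13_W n) + r13_p n ∧
    r13_p n * Un n = Un n * r13_p n ∧
    AC (Dn n) (Un n) 3 0 (C * n) (r13_B n) ∧ AC (Dn n) (Un n) 3 0 (C * n) (r13_p n) ∧
    AC (Dn n) (Un n) 5 0 (C * n * n) (r13_W n * r13_B n - r13_B n * r13_W n) ∧
    AC (Dn n) (Un n) 5 0 (C * n * n) (r13_p n * r13_W n - r13_W n * r13_p n) ∧
    AC (Dn n) (Un n) 6 0 (C * n * 2) (r13_B n * r13_p n - r13_p n * r13_B n) := by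
  obtain ⟨C, hC, h⟩ := h2
  refine ⟨2 * C, by linarith, fun n => ?_⟩
  have hnc : NC (Dn n) 1 ((n : ℤ) - 1) := hN 1 _
  obtain ⟨a1, a2, -⟩ := h1 _ _ _ hnc
  have hn0 : (0 : ℝ) ≤ n := Nat.cast_nonneg n
  obtain ⟨b1, b2, -, b4, b5, b6⟩ := h (Dn n) 1 ((n : ℤ) - 1) (Un n) (((n : ℝ) - 1) / 2) n n hnc hn0
    (by push_cast; linarith) hn0 (fun i hi1 hi2 => by
      have h3 : (1 : ℝ) ≤ i := by exact_mod_cast hi1
      have h4 : (i : ℝ) ≤ (n : ℝ) - 1 := by exact_mod_cast hi2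
      rw [abs_le]; constructor <;> linarith)
  refine ⟨?_, ?_, ?_, ?_, ?_, ?_, ?_⟩
  · unfold r13_B r13_W r13_p Un
    rw [a1]; unfold P3; module
  · unfold r13_p Un
    rw [smul_mul_assoc, mul_smul_comm, a2]
  · refine AC.le (AC.smul 2 b1) (le_of_eq ?_)
    rw [abs_two]; ring
  · refine AC.le (AC.smul (-2) b2) (le_of_eq ?_)
    rw [abs_neg, abs_two]; ring
  · have e : r13_W n * r13_B n - r13_B n * r13_W n = (2 : ℝ) •
        (r13_W n * Bs (Dn n) 1 (n - 1) - Bs (Dn n) 1 (n - 1) * r13_W n) := by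
      unfold r13_B; rw [smul_mul_assoc, mul_smul_comm, smul_sub]
    rw [e]
    refine AC.le (AC.smul 2 b4) (le_of_eq ?_)
    rw [abs_two]; ring
  · have e : r13_p n * r13_W n - r13_W n * r13_p n = (2 : ℝ) •
        (r13_W n * P3 (Dn n) 1 (n - 1) - P3 (Dn n) 1 (n - 1) * r13_W n) := by
      unfold r13_p; rw [smul_mul_assoc, mul_smul_comm]; module
    rw [e]
    refine AC.le (AC.smul 2 b5) (le_of_eq ?_)
    rw [abs_two]; ring
  · have e : r13_B n * r13_p n - r13_p n * r13_B n = (-4 : ℝ) •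
        (Bs (Dn n) 1 (n - 1) * P3 (Dn n) 1 (n - 1) - P3 (Dn n) 1 (n - 1) * Bs (Dn n) 1 (n - 1)) := by
      unfold r13_p r13_B
      simp only [smul_mul_assoc, mul_smul_comm]; module
    rw [e]
    refine AC.le (AC.smul (-4) b6) (le_of_eq ?_)
    rw [abs_neg, abs_of_pos (by norm_num : (0 : ℝ) < 4)]; ring

noncomputable def r13_m (n j k : ℕ) : ℝ :=
  ev n (r13_p n ^ j * SS (Un n) (r13_B n) k (NN n - 3 * j - 3 * k))

theorem r13_ratio (j k : ℕ) : Tendsto (fun n : ℕ =>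
    (((NN n - 3 * j - 3 * (k + 1) : ℕ) : ℝ) + k + 1) / (NN n : ℝ)) atTop (𝓝 1) := by
  have h1 : Tendsto (fun n : ℕ => ((NN n : ℝ))⁻¹) atTop (𝓝 0) :=
    tendsto_inv_atTop_zero.comp (tendsto_natCast_atTop_atTop.comp r13_NN_tendsto)
  have h2 : Tendsto (fun n : ℕ => 1 - (3 * (j : ℝ) + 2 * k + 2) * ((NN n : ℝ))⁻¹) atTop (𝓝 1) := by
    simpa using (h1.const_mul (3 * (j : ℝ) + 2 * k + 2)).const_sub 1
  refine h2.congr' ?_
  filter_upwards [r13_NN_tendsto.eventually_ge_atTop (3 * j + 3 * (k + 1))] with n hn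
  have h0 : (0 : ℝ) < NN n := by
    have : 0 < NN n := by omega
    exact_mod_cast this
  rw [Nat.sub_sub, Nat.cast_sub hn]
  push_cast
  field_simp
  ring

theorem r13_step (hN : SpNC) (h1 : SpA1) (hA : SpAC) (h2 : SpA2) (h3 : SpA3) (hC : SpCount)
    (hR : SpRed) (hT : SpTheta) (j k : ℕ) (v : ℝ)
    (ih : Tendsto (fun n : ℕ => (NN n : ℝ) ^ (j + 1) * r13_m n (j + 1) k / (nets n).card)
      atTop (𝓝 v)) :
    Tendsto (fun n : ℕ => (NN n : ℝ) ^ j * r13_m n j (k + 1) / (nets n).card) atTop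
      (𝓝 (v / ((k : ℝ) + 1))) := by
  obtain ⟨C, hC1, hf⟩ := r13_facts hN h1 h2
  have hC0 : 0 ≤ C := by linarith
  set K : ℕ → ℕ := fun n => NN n - 3 * j - 3 * (k + 1) with hK
  have hw := fun n : ℕ => h3 (Dn n) (Un n) (r13_W n) (r13_B n) (r13_p n) (C * n) n 2
    (by positivity) (by positivity) (by norm_num) (hf n).1 (hf n).2.1 (hf n).2.2.1
    (hf n).2.2.2.2.1 (hf n).2.2.2.2.2.2 k
  choose E₁ E₂ hE hE1 hE2 using fun n => (hw n (K n)).2
  have hS := fun n => (hw n (K n + 1)).1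
  have hP := fun n : ℕ => r13_pow hA (Dn n) (Un n) (r13_p n) (C * n) (hf n).2.2.2.1 j
  have hcm := fun n : ℕ => r13_comm hA (Dn n) (Un n) (r13_p n) (r13_W n) (C * n) n
    (hf n).2.2.2.1 (hf n).2.2.2.2.2.1 j
  have hKle : ∀ᶠ n : ℕ in atTop, (K n : ℝ) + 2 ≤ (n : ℝ) ^ 2 := by
    filter_upwards [r13_NN_tendsto.eventually_ge_atTop (3 * j + 3 * (k + 1))] with n hn
    have h5 : K n + 2 ≤ NN n := by simp only [hK]; omega
    have h6 : (K n : ℝ) + 2 ≤ NN n := by exact_mod_cast h5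
    exact h6.trans (r13_NN_le n)
  have t1 := r13_small hC hR hT (3 * j + 2 + 3 * k) j (j * C ^ j * C ^ k) (fun n => 0 + (K n + 1))
    (fun n => (j * n * (C * n) ^ j) * ((C * n) ^ k * (((K n + 1 : ℕ) : ℝ) + 1) ^ k))
    (fun n => (r13_p n ^ j * r13_W n - r13_W n * r13_p n ^ j) *
      SS (Un n) (r13_B n) k (K n + 1)) (by positivity) (by
      filter_upwards [hKle] with n hn
      refine ⟨hA.1 _ _ _ _ _ _ _ _ _ _ (hcm n) (hS n), ?_⟩
      calc (NN n : ℝ) ^ j * ((j * n * (C * n) ^ j) *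
              ((C * n) ^ k * (((K n + 1 : ℕ) : ℝ) + 1) ^ k)) * n
          ≤ ((n : ℝ) ^ 2) ^ j * ((j * n * (C * n) ^ j) * ((C * n) ^ k * ((n : ℝ) ^ 2) ^ k)) * n := by
            gcongr
            all_goals first | exact r13_NN_le n | (push_cast; linarith) | linarith
        _ = j * C ^ j * C ^ k * (n : ℝ) ^ (3 * j + 2 + 3 * k) := by ring)
  have t2 := r13_small hC hR hT (3 * j + (3 * k + 2)) j (2 * k * C ^ j * C ^ k)
    (fun n => 0 + (K n + 1))
    (fun n => (C * n) ^ j * (2 * k * n * (C * n) ^ k * ((K n : ℝ) + 2) ^ k))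
    (fun n => r13_p n ^ j * E₁ n) (by positivity) (by
      filter_upwards [hKle] with n hn
      refine ⟨hA.1 _ _ _ _ _ _ _ _ _ _ (hP n) (hE1 n), ?_⟩
      calc (NN n : ℝ) ^ j * ((C * n) ^ j * (2 * k * n * (C * n) ^ k * ((K n : ℝ) + 2) ^ k)) * n
          ≤ ((n : ℝ) ^ 2) ^ j * ((C * n) ^ j * (2 * k * n * (C * n) ^ k * ((n : ℝ) ^ 2) ^ k)) * n := by
            gcongr
            all_goals first | exact r13_NN_le n | (push_cast; linarith) | linarith
        _ = 2 * k * C ^ j * C ^ k * (n : ℝ) ^ (3 * j + (3 * k + 2)) := by ring)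
  have t3 := r13_small hC hR hT (3 * j + (3 * k + 3)) j (((k : ℝ) + 1) ^ 2 * 2 * C ^ j * C ^ k)
    (fun n => 0 + K n)
    (fun n => (C * n) ^ j * (((k : ℝ) + 1) ^ 2 * 2 * (C * n) ^ k * ((K n : ℝ) + 1) ^ (k + 1)))
    (fun n => r13_p n ^ j * E₂ n) (by positivity) (by
      filter_upwards [hKle] with n hn
      refine ⟨hA.1 _ _ _ _ _ _ _ _ _ _ (hP n) (hE2 n), ?_⟩
      calc (NN n : ℝ) ^ j * ((C * n) ^ j *
              (((k : ℝ) + 1) ^ 2 * 2 * (C * n) ^ k * ((K n : ℝ) + 1) ^ (k + 1))) * n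
          ≤ ((n : ℝ) ^ 2) ^ j * ((C * n) ^ j *
              (((k : ℝ) + 1) ^ 2 * 2 * (C * n) ^ k * ((n : ℝ) ^ 2) ^ (k + 1))) * n := by
            gcongr
            all_goals first | exact r13_NN_le n | (push_cast; linarith) | linarith
        _ = ((k : ℝ) + 1) ^ 2 * 2 * C ^ j * C ^ k * (n : ℝ) ^ (3 * j + (3 * k + 3)) := by ring)
  have tm := (r13_ratio j k).mul ih
  have tall := (((tm.add (t1.const_mul 2)).add t2).add t3).div_const ((k : ℝ) + 1)
  simp only [one_mul, mul_zero, add_zero] at tall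
  refine tall.congr' ?_
  filter_upwards [r13_NN_tendsto.eventually_ge_atTop 1] with n hn
  have h0 : (0 : ℝ) < NN n := by exact_mod_cast hn
  have hR0 : (0 : ℝ) < (nets n).card := by exact_mod_cast (hR n).1.card_pos
  have hk0 : (0 : ℝ) < (k : ℝ) + 1 := by positivity
  have hKe : NN n - 3 * (j + 1) - 3 * k = K n := by simp only [hK]; omega
  have hcyc := (hC n).2.2 _ _ _ _ (hA.1 _ _ _ _ _ _ _ _ _ _ (hP n) (hS n))
  have hmain : ((k : ℝ) + 1) * r13_m n j (k + 1) =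
      ((K n : ℝ) + k + 1) * r13_m n (j + 1) k +
        2 * ev n ((r13_p n ^ j * r13_W n - r13_W n * r13_p n ^ j) *
          SS (Un n) (r13_B n) k (K n + 1)) +
        ev n (r13_p n ^ j * E₁ n) + ev n (r13_p n ^ j * E₂ n) := by
    have e0 := congrArg (fun y => ev n (r13_p n ^ j * y)) (hE n)
    simp only [mul_add, mul_smul_comm, r13_ev_add, r13_ev_smul, mul_sub, r13_ev_sub] at e0
    unfold r13_m
    rw [hKe, pow_succ, mul_assoc, sub_mul, r13_ev_sub, mul_assoc, mul_assoc]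
    have e1 : ev n (r13_p n ^ j * (SS (Un n) (r13_B n) k (K n + 1) * r13_W n)) =
        ev n (r13_W n * (r13_p n ^ j * SS (Un n) (r13_B n) k (K n + 1))) := by
      rw [← mul_assoc]; exact hcyc
    rw [e1] at e0
    linarith
  have hm2 : r13_m n j (k + 1) = (((K n : ℝ) + k + 1) * r13_m n (j + 1) k +
        2 * ev n ((r13_p n ^ j * r13_W n - r13_W n * r13_p n ^ j) *
          SS (Un n) (r13_B n) k (K n + 1)) +
        ev n (r13_p n ^ j * E₁ n) + ev n (r13_p n ^ j * E₂ n)) / ((k : ℝ) + 1) := by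
    rw [← hmain]; field_simp
  rw [hm2]
  simp only [hK]
  field_simp
  ring

theorem r13_Mom (hN : SpNC) (h1 : SpA1) (hA : SpAC) (h2 : SpA2) (h3 : SpA3) (hC : SpCount)
    (hR : SpRed) (hT : SpTheta) (hE : SpEpsW) : SpMom := by
  have key : ∀ k j : ℕ, Tendsto (fun n : ℕ => (NN n : ℝ) ^ j * r13_m n j k / (nets n).card)
      atTop (𝓝 (1 / (k.factorial : ℝ))) := by
    intro k
    induction k with
    | zero =>
      intro j
      have := hE j
      simpa [r13_m, r13_p, SS] using this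
    | succ k ih =>
      intro j
      have := r13_step hN h1 hA h2 h3 hC hR hT j k _ (ih (j + 1))
      have e : 1 / (k.factorial : ℝ) / ((k : ℝ) + 1) = 1 / ((k + 1).factorial : ℝ) := by
        rw [Nat.factorial_succ]; push_cast; field_simp
      rwa [e] at this
  intro k
  refine (key k 0).congr' ?_
  filter_upwards [r13_NN_tendsto.eventually_ge_atTop (3 * k)] with n hn
  have := (hC n).2.1 k (NN n - 3 * k)
  rw [if_pos (by omega)] at this
  simp only [r13_m, pow_zero, one_mul, mul_zero, Nat.sub_zero, r13_B]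
  rw [this]

end Pool.Agent.MP_a5ded6_pr.POIS
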