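import Pool.Agent.MP_a5ded6_pr.POIS.Spec

set_option autoImplicit false

namespace Pool.Agent.MP_a5ded6_pr.POIS

open Finset Filter Topology

theorem r14_braids_nil : braids [] = 0 := by simp [braids, isBr]

theorem r14_braids_cons (x : ℤ) (l : List ℤ) :
    braids (x :: l) = braids l + if isBr (x :: l) then 1 else 0 := by
  simp only [braids, List.tails_cons, List.countP_cons]

theorem r14_Y_zero (a : List ℤ) : Y 0 a = 1 := rfl

theorem r14_Y_nil (k : ℕ) : Y (k + 1) [] = 0 := by simp [Y, isBr]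

theorem r14_Y_cons (k : ℕ) (x : ℤ) (l : List ℤ) :
    Y (k + 1) (x :: l) = (if isBr (x :: l) then Y k (l.drop 2) else 0) + Y (k + 1) l := by
  simp only [Y, List.tails_cons, List.map_cons, List.sum_cons, List.drop_succ_cons]

theorem r14_Ov_cons {x : ℤ} {l : List ℤ} (h : Ov l) : Ov (x :: l) := by
  obtain ⟨u, hu, h⟩ := h
  exact ⟨u, by rw [List.tails_cons]; exact List.mem_cons_of_mem _ hu, h⟩

theorem r14_Ov_tail {l : List ℤ} (h : Ov (l.drop 1)) : Ov l := by
  cases l with
  | nil => exact h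
  | cons x l => exact r14_Ov_cons h

theorem r14_drop_two (l : List ℤ) : l.drop 2 = (l.drop 1).drop 1 := by
  rw [List.drop_drop]

theorem r14_braids_tail (l : List ℤ) :
    braids l = braids (l.drop 1) + if isBr l then 1 else 0 := by
  cases l with
  | nil => simp [r14_braids_nil, isBr]
  | cons x l => exact r14_braids_cons x l

theorem r14_Y_tail (k : ℕ) (l : List ℤ) : Y k (l.drop 1) ≤ Y k l := by
  cases k with
  | zero => exact le_rfl
  | succ k =>
    cases l with
    | nil => exact le_rfl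
    | cons x l => rw [r14_Y_cons]; exact Nat.le_add_left _ _

theorem r14_Y_eq : ∀ (n : ℕ) (a : List ℤ), a.length ≤ n → ¬ Ov a →
    ∀ k, Y k a = (braids a).choose k := by
  intro n
  induction n with
  | zero =>
    intro a ha _ k
    obtain rfl := List.length_eq_zero_iff.1 (Nat.le_zero.1 ha)
    cases k with
    | zero => simp [r14_Y_zero]
    | succ k => simp [r14_Y_nil, r14_braids_nil]
  | succ n ih =>
    intro a ha ho k
    cases a with
    | nil => exact ih [] (Nat.zero_le _) ho k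
    | cons x l =>
      cases k with
      | zero => simp [r14_Y_zero]
      | succ k =>
        have hl : l.length ≤ n := by simpa using ha
        have h1 : ¬ Ov l := fun h => ho (r14_Ov_cons h)
        have h2 : ¬ Ov (l.drop 2) := fun h =>
          h1 (r14_Ov_tail (r14_Ov_tail (by rwa [r14_drop_two] at h)))
        rw [r14_Y_cons, r14_braids_cons, ih l hl h1]
        by_cases hb : isBr (x :: l) = true
        · have h3 : ¬ isBr l = true := fun h =>
            ho ⟨x :: l, by rw [List.tails_cons]; exact List.mem_cons_self, hb, Or.inl h⟩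
          have h4 : ¬ isBr (l.drop 1) = true := fun h =>
            ho ⟨x :: l, by rw [List.tails_cons]; exact List.mem_cons_self, hb, Or.inr h⟩
          have h5 : braids (l.drop 2) = braids l := by
            rw [r14_braids_tail l, r14_braids_tail (l.drop 1), if_neg h3, if_neg h4, r14_drop_two]
            rfl
          rw [if_pos hb, if_pos hb, ih (l.drop 2) (by rw [List.length_drop]; omega) h2, h5,
            Nat.choose_succ_succ]
        · rw [if_neg hb, if_neg hb, zero_add, add_zero]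

theorem r14_braids_two (l : List ℤ) : braids (l.drop 2) ≤ braids l ∧
    braids l ≤ braids (l.drop 2) + 2 := by
  have h1 := r14_braids_tail l
  have h2 := r14_braids_tail (l.drop 1)
  rw [← r14_drop_two] at h2
  constructor <;> split_ifs at h1 h2 <;> omega

theorem r14_Y_le : ∀ (k : ℕ) (a : List ℤ), Y k a ≤ (braids a).choose k := by
  intro k
  induction k with
  | zero => intro a; simp [r14_Y_zero]
  | succ k ih =>
    intro a
    induction a with
    | nil => simp [r14_Y_nil]
    | cons x l ihl =>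
      rw [r14_Y_cons, r14_braids_cons]
      by_cases hb : isBr (x :: l) = true
      · rw [if_pos hb, if_pos hb, Nat.choose_succ_succ]
        exact Nat.add_le_add ((ih _).trans (Nat.choose_le_choose k (r14_braids_two l).1)) ihl
      · rw [if_neg hb, if_neg hb, zero_add, add_zero]; exact ihl

theorem r14_greedy : ∀ (n : ℕ) (a : List ℤ), a.length ≤ n →
    ∃ g : ℕ, braids a ≤ 3 * g ∧ ∀ k, g.choose k ≤ Y k a := by
  intro n
  have h0 : ∃ g : ℕ, braids [] ≤ 3 * g ∧ ∀ k, g.choose k ≤ Y k [] :=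
    ⟨0, by simp [r14_braids_nil], fun k => by
      cases k with
      | zero => simp [r14_Y_zero]
      | succ k => simp⟩
  induction n with
  | zero =>
    intro a ha
    obtain rfl := List.length_eq_zero_iff.1 (Nat.le_zero.1 ha)
    exact h0
  | succ n ih =>
    intro a ha
    cases a with
    | nil => exact h0
    | cons x l =>
      have hl : l.length ≤ n := by simpa using ha
      by_cases hb : isBr (x :: l) = true
      · obtain ⟨g, hg, hk⟩ := ih (l.drop 2) (by rw [List.length_drop]; omega)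
        refine ⟨g + 1, ?_, fun k => ?_⟩
        · rw [r14_braids_cons, if_pos hb]
          have := (r14_braids_two l).2
          omega
        · cases k with
          | zero => simp [r14_Y_zero]
          | succ k =>
            rw [r14_Y_cons, if_pos hb, Nat.choose_succ_succ]
            refine Nat.add_le_add (hk k) ((hk (k + 1)).trans ?_)
            rw [r14_drop_two]
            exact (r14_Y_tail _ _).trans (r14_Y_tail _ _)
      · obtain ⟨g, hg, hk⟩ := ih l hl
        refine ⟨g, ?_, fun k => (hk k).trans (r14_Y_tail k (x :: l))⟩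
        rw [r14_braids_cons, if_neg hb]; exact hg

theorem r14_pow_le (k : ℕ) {ε : ℝ} (hε : 0 < ε) :
    ∃ T : ℝ, 0 ≤ T ∧ ∀ g : ℕ, (3 * (g : ℝ)) ^ k ≤ T + ε * (g.choose (k + 1) : ℝ) := by
  obtain ⟨G, hG⟩ := exists_nat_ge (2 * (k : ℝ) + 2 * 6 ^ k * ((k + 1).factorial : ℝ) / ε)
  have hf : (0 : ℝ) < ((k + 1).factorial : ℝ) := by exact_mod_cast Nat.factorial_pos _
  have hp : 0 ≤ 2 * 6 ^ k * ((k + 1).factorial : ℝ) / ε := by positivity
  have hk0 : (0 : ℝ) ≤ k := Nat.cast_nonneg k
  refine ⟨(3 * (G : ℝ)) ^ k, by positivity, fun g => ?_⟩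
  rcases le_total g G with h | h
  · have h1 : (g : ℝ) ≤ G := by exact_mod_cast h
    have h2 : (3 * (g : ℝ)) ^ k ≤ (3 * (G : ℝ)) ^ k := by gcongr
    have h3 : 0 ≤ ε * (g.choose (k + 1) : ℝ) := by positivity
    linarith
  · have h1 : (G : ℝ) ≤ g := by exact_mod_cast h
    have h2 : 2 * (k : ℝ) ≤ g := by linarith
    have h2' : k ≤ g := by
      have : (k : ℝ) ≤ g := by linarith
      exact_mod_cast this
    have h3 := Nat.pow_le_choose (α := ℝ) (k + 1) g
    have h4 : ((g + 1 - (k + 1) : ℕ) : ℝ) = g - k := by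
      rw [Nat.add_sub_add_right, Nat.cast_sub h2']
    rw [h4] at h3
    have hg0 : (0 : ℝ) ≤ g := Nat.cast_nonneg g
    have h5 : ((g : ℝ) / 2) ^ (k + 1) ≤ ((g : ℝ) - k) ^ (k + 1) := by
      gcongr; linarith
    have h6 : 2 * 6 ^ k * ((k + 1).factorial : ℝ) ≤ g * ε := by
      rw [← div_le_iff₀ hε]; linarith
    have h7 : (3 * (g : ℝ)) ^ k = 6 ^ k * ((g : ℝ) / 2) ^ k := by
      rw [← mul_pow]; congr 1; ring
    rw [div_le_iff₀ hf] at h3
    have h8 : (3 * (g : ℝ)) ^ k ≤ ε * (g.choose (k + 1) : ℝ) := by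
      refine le_of_mul_le_mul_right ?_ hf
      have h9 : 0 ≤ ((g : ℝ) / 2) ^ k := by positivity
      have h10 := mul_le_mul_of_nonneg_left h6 h9
      have h11 := mul_le_mul_of_nonneg_left (h5.trans h3) hε.le
      rw [pow_succ] at h11
      rw [h7]
      nlinarith
    have h9 : 0 ≤ (3 * (G : ℝ)) ^ k := by positivity
    linarith

theorem r14_Y_bound (k : ℕ) {ε : ℝ} (hε : 0 < ε) :
    ∃ T : ℝ, 0 ≤ T ∧ ∀ a : List ℤ, (Y k a : ℝ) ≤ T + ε * (Y (k + 1) a : ℝ) := by
  obtain ⟨T, hT, h⟩ := r14_pow_le k hε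
  refine ⟨T, hT, fun a => ?_⟩
  obtain ⟨g, hg, hk⟩ := r14_greedy a.length a le_rfl
  have h1 : Y k a ≤ (3 * g) ^ k :=
    (r14_Y_le k a).trans ((Nat.choose_le_choose k hg).trans (Nat.choose_le_pow _ _))
  have h2 : (Y k a : ℝ) ≤ (3 * (g : ℝ)) ^ k := by exact_mod_cast h1
  have h3 : (g.choose (k + 1) : ℝ) ≤ Y (k + 1) a := by exact_mod_cast hk (k + 1)
  have h4 := mul_le_mul_of_nonneg_left h3 hε.le
  linarith [h g]

theorem r14_approx (f : ℕ → ℝ) (L : ℝ)
    (h : ∀ ε : ℝ, 0 < ε → ∃ (u v : ℕ → ℝ) (a b : ℝ), Tendsto u atTop (𝓝 a) ∧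
      Tendsto v atTop (𝓝 b) ∧ |a - L| + b < ε ∧ ∀ n, |f n - u n| ≤ v n) :
    Tendsto f atTop (𝓝 L) := by
  rw [Metric.tendsto_nhds]
  intro ε hε
  obtain ⟨u, v, a, b, hu, hv, hab, hf⟩ := h ε hε
  have h1 : Tendsto (fun n => |u n - L| + v n) atTop (𝓝 (|a - L| + b)) :=
    ((hu.sub_const L).abs).add hv
  filter_upwards [h1.eventually (gt_mem_nhds hab)] with n hn
  rw [Real.dist_eq]
  have h2 := abs_sub_le (f n) (u n) L
  linarith [hf n]

open Classical in
theorem r14_UI : SpUI := by
  intro Ω hΩ hm ho k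
  refine r14_approx _ _ fun ε hε => ?_
  obtain ⟨T, hT, hb⟩ := r14_Y_bound k (half_pos hε)
  have hf : (1 : ℝ) ≤ ((k + 1).factorial : ℝ) := by exact_mod_cast Nat.factorial_pos _
  refine ⟨_, _, _, _, hm k, (ho.const_mul T).add ((hm (k + 1)).const_mul (ε / 2)), ?_, fun n => ?_⟩
  · have h1 : 1 / ((k + 1).factorial : ℝ) ≤ 1 := by rw [div_le_one (by linarith)]; exact hf
    rw [sub_self, abs_zero]
    nlinarith
  · have hc : (0 : ℝ) < (Ω n).card := by exact_mod_cast (hΩ n).card_pos
    have e1 : ∑ a ∈ (Ω n).filter (fun a => ¬ Ov a), (((braids a).choose k : ℕ) : ℝ) =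
        ∑ a ∈ (Ω n).filter (fun a => ¬ Ov a), (Y k a : ℝ) :=
      sum_congr rfl fun a ha => by rw [r14_Y_eq a.length a le_rfl (mem_filter.1 ha).2]
    have e2 := sum_filter_add_sum_filter_not (Ω n) Ov (fun a => (Y k a : ℝ))
    have e3 : 0 ≤ ∑ a ∈ (Ω n).filter Ov, (Y k a : ℝ) := sum_nonneg fun _ _ => Nat.cast_nonneg _
    have e4 : ∑ a ∈ (Ω n).filter Ov, (Y k a : ℝ) ≤
        ∑ a ∈ (Ω n).filter Ov, (T + ε / 2 * (Y (k + 1) a : ℝ)) := sum_le_sum fun a _ => hb a
    rw [sum_add_distrib, sum_const, nsmul_eq_mul, ← mul_sum] at e4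
    have e5 : ∑ a ∈ (Ω n).filter Ov, (Y (k + 1) a : ℝ) ≤ ∑ a ∈ Ω n, (Y (k + 1) a : ℝ) :=
      sum_le_sum_of_subset_of_nonneg (filter_subset _ _) fun _ _ _ => Nat.cast_nonneg _
    have e6 := mul_le_mul_of_nonneg_left e5 (half_pos hε).le
    rw [e1, ← sub_div, abs_div, abs_of_pos hc, ← mul_div_assoc, ← mul_div_assoc, ← add_div]
    refine div_le_div_of_nonneg_right ?_ hc.le
    rw [abs_le]
    constructor <;> nlinarith

theorem r14_alt (y s : ℕ) :
    |(if y = 0 then (1 : ℝ) else 0) - ∑ i ∈ range (s + 1), (-1 : ℝ) ^ i * (y.choose i : ℝ)| ≤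
      (y.choose (s + 1) : ℝ) := by
  cases y with
  | zero =>
    rw [if_pos rfl, sum_range_succ']
    simp
  | succ y =>
    have h1 := Int.alternating_sum_range_choose_eq_choose (n := y) (m := s)
    have h2 : ∑ i ∈ range (s + 1), (-1 : ℝ) ^ i * ((y + 1).choose i : ℝ) =
        (-1) ^ s * (y.choose s : ℝ) := by exact_mod_cast h1
    rw [if_neg (Nat.succ_ne_zero y), h2, zero_sub, abs_neg, abs_mul, abs_pow, abs_neg, abs_one,
      one_pow, one_mul, Nat.abs_cast, Nat.choose_succ_succ]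
    push_cast
    have : (0 : ℝ) ≤ y.choose (s + 1) := Nat.cast_nonneg _
    linarith

theorem r14_point (x j s : ℕ) :
    |(if x = j then (1 : ℝ) else 0) - ∑ i ∈ range (s + 1),
        (-1 : ℝ) ^ i * ((j + i).choose j : ℝ) * (x.choose (j + i) : ℝ)| ≤
      ((j + (s + 1)).choose j : ℝ) * (x.choose (j + (s + 1)) : ℝ) := by
  have e : ∀ i, ((j + i).choose j : ℝ) * (x.choose (j + i) : ℝ) =
      (x.choose j : ℝ) * ((x - j).choose i : ℝ) := fun i => by
    have h := Nat.choose_mul (n := x) (k := j + i) (s := j) (Nat.le_add_right _ _)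
    rw [Nat.add_sub_cancel_left] at h
    rw [mul_comm]
    exact_mod_cast h
  have e1 : (if x = j then (1 : ℝ) else 0) = (x.choose j : ℝ) * if x - j = 0 then 1 else 0 := by
    rcases lt_trichotomy x j with h | h | h
    · rw [if_neg h.ne, Nat.choose_eq_zero_of_lt h]; simp
    · subst h; simp
    · rw [if_neg h.ne', if_neg (by omega), mul_zero]
  have e2 : ∑ i ∈ range (s + 1), (-1 : ℝ) ^ i * ((j + i).choose j : ℝ) * (x.choose (j + i) : ℝ) =
      (x.choose j : ℝ) * ∑ i ∈ range (s + 1), (-1 : ℝ) ^ i * ((x - j).choose i : ℝ) := by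
    rw [mul_sum]
    exact sum_congr rfl fun i _ => by rw [mul_assoc, e]; ring
  rw [e, e1, e2, ← mul_sub, abs_mul, Nat.abs_cast]
  exact mul_le_mul_of_nonneg_left (r14_alt _ _) (Nat.cast_nonneg _)

theorem r14_choose_div (j i : ℕ) :
    ((j + i).choose j : ℝ) * (1 / ((j + i).factorial : ℝ)) =
      1 / (i.factorial : ℝ) / (j.factorial : ℝ) := by
  have h := Nat.add_choose_mul_factorial_mul_factorial i j
  rw [add_comm i j] at h
  have h1 : ((j + i).choose j : ℝ) * (i.factorial : ℝ) * (j.factorial : ℝ) =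
      ((j + i).factorial : ℝ) := by exact_mod_cast h
  have h2 : (i.factorial : ℝ) ≠ 0 := by exact_mod_cast Nat.factorial_ne_zero _
  have h3 : (j.factorial : ℝ) ≠ 0 := by exact_mod_cast Nat.factorial_ne_zero _
  have h4 : ((j + i).factorial : ℝ) ≠ 0 := by exact_mod_cast Nat.factorial_ne_zero _
  field_simp
  linarith

open Classical in
theorem r14_Bon : SpBon := by
  intro Ω X B hΩ hB hm j
  refine r14_approx _ _ fun ε hε => ?_
  have hs : HasSum (fun i : ℕ => (-1 : ℝ) ^ i / (i.factorial : ℝ)) (Real.exp (-1)) := by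
    rw [Real.exp_eq_exp_ℝ]
    exact NormedSpace.expSeries_div_hasSum_exp (-1 : ℝ)
  have t1 : Tendsto (fun s : ℕ => ∑ i ∈ range (s + 1), (-1 : ℝ) ^ i / (i.factorial : ℝ))
      atTop (𝓝 (Real.exp (-1))) := hs.tendsto_sum_nat.comp (tendsto_add_atTop_nat 1)
  have t2 : Tendsto (fun s : ℕ => 1 / ((s + 1).factorial : ℝ)) atTop (𝓝 0) := by
    have h := (FloorSemiring.tendsto_pow_div_factorial_atTop (1 : ℝ)).comp (tendsto_add_atTop_nat 1)
    simpa only [Function.comp_def, one_pow] using h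
  have t3 : Tendsto (fun s : ℕ =>
      |(∑ i ∈ range (s + 1), (-1 : ℝ) ^ i / (i.factorial : ℝ)) / (j.factorial : ℝ) -
        Real.exp (-1) / (j.factorial : ℝ)| + 1 / ((s + 1).factorial : ℝ) / (j.factorial : ℝ))
      atTop (𝓝 0) := by
    have h := (((t1.div_const (j.factorial : ℝ)).sub_const
      (Real.exp (-1) / (j.factorial : ℝ))).abs).add (t2.div_const (j.factorial : ℝ))
    simpa only [sub_self, abs_zero, zero_div, add_zero] using h
  obtain ⟨s, hs'⟩ := (t3.eventually (gt_mem_nhds hε)).exists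
  have tu := tendsto_finsetSum (range (s + 1)) fun i _ =>
    (hm (j + i)).const_mul ((-1 : ℝ) ^ i * ((j + i).choose j : ℝ))
  have tv := hB.add ((hm (j + (s + 1))).const_mul (((j + (s + 1)).choose j : ℕ) : ℝ))
  refine ⟨_, _, _, _, tu, tv, ?_, fun n => ?_⟩
  · have e1 : ∑ i ∈ range (s + 1), (-1 : ℝ) ^ i * ((j + i).choose j : ℝ) *
        (1 / ((j + i).factorial : ℝ)) =
        (∑ i ∈ range (s + 1), (-1 : ℝ) ^ i / (i.factorial : ℝ)) / (j.factorial : ℝ) := by
      rw [sum_div]
      exact sum_congr rfl fun i _ => by rw [mul_assoc, r14_choose_div]; ring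
    rw [e1, zero_add, r14_choose_div]
    exact hs'
  · have hc : (0 : ℝ) < (Ω n).card := by exact_mod_cast (hΩ n).card_pos
    have e0 : (((Ω n).filter (fun a => X a = j)).card : ℝ) =
        ∑ a ∈ Ω n, if X a = j then (1 : ℝ) else 0 := by
      rw [sum_boole]
    have e1 := sum_filter_add_sum_filter_not (Ω n) B (fun a => if X a = j then (1 : ℝ) else 0)
    have e2 : |∑ a ∈ (Ω n).filter B, if X a = j then (1 : ℝ) else 0| ≤
        (((Ω n).filter B).card : ℝ) := by
      refine (abs_sum_le_sum_abs _ _).trans ?_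
      refine (sum_le_sum (g := fun _ => (1 : ℝ)) fun a _ => ?_).trans_eq (by simp)
      split_ifs <;> simp
    have e3 := (abs_sum_le_sum_abs _ _).trans
      (sum_le_sum fun a (_ : a ∈ (Ω n).filter (fun a => ¬ B a)) => r14_point (X a) j s)
    rw [sum_sub_distrib, sum_comm, ← mul_sum] at e3
    simp only [← mul_sum] at e3
    simp only [← mul_div_assoc]
    rw [← sum_div, ← sub_div, ← add_div, abs_div, abs_of_pos hc, e0, ← e1]
    refine div_le_div_of_nonneg_right ?_ hc.le
    rw [add_sub_assoc]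
    exact (abs_add_le _ _).trans (add_le_add e2 e3)

end Pool.Agent.MP_a5ded6_pr.POIS
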