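import Pool.Agent.MP_a5ded6_pr.POIS.Spec

set_option autoImplicit false

namespace Pool.Agent.MP_a5ded6_pr.POIS

open Finset

theorem r2_nonneg {D : ℤ → En} {U : En} {r K : ℕ} {a : ℝ} {x : En} (h : AC D U r K a x) :
    0 ≤ a := by
  induction h with
  | mono l hr hK => exact zero_le_one
  | zero => exact le_rfl
  | add _ _ h1 h2 => exact add_nonneg h1 h2
  | smul c _ h1 => exact mul_nonneg (abs_nonneg c) h1
  | le _ h1 h2 => exact h2.trans h1

theorem r2_mono_append (D : ℤ → En) (U : En) (l l' : List (Option ℤ)) :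
    mono D U (l ++ l') = mono D U l * mono D U l' := by
  simp [mono]

theorem r2_mul_mono {D : ℤ → En} {U : En} {r K r' K' : ℕ} (l : List (Option ℤ))
    (hr : l.countP Option.isSome = r) (hK : l.count none = K) {b : ℝ} {y : En}
    (h : AC D U r' K' b y) : AC D U (r + r') (K + K') b (mono D U l * y) := by
  induction h with
  | mono l' hr' hK' =>
    rw [← r2_mono_append]
    exact AC.mono _ (by rw [List.countP_append, hr, hr']) (by rw [List.count_append, hK, hK'])
  | zero => rw [mul_zero]; exact AC.zero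
  | add _ _ h1 h2 => rw [mul_add]; exact AC.add h1 h2
  | smul c _ h1 => rw [mul_smul_comm]; exact AC.smul c h1
  | le _ h1 h2 => exact AC.le h2 h1

theorem r2_mul {D : ℤ → En} {U : En} {r K r' K' : ℕ} {a b : ℝ} {x y : En}
    (hx : AC D U r K a x) (hy : AC D U r' K' b y) :
    AC D U (r + r') (K + K') (a * b) (x * y) := by
  induction hx with
  | mono l hr hK => rw [one_mul]; exact r2_mul_mono l hr hK hy
  | zero => rw [zero_mul, zero_mul]; exact AC.zero
  | add _ _ h1 h2 => rw [add_mul, add_mul]; exact AC.add h1 h2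
  | smul c _ h1 => rw [smul_mul_assoc, mul_assoc]; exact AC.smul c h1
  | le _ h1 h2 => exact AC.le h2 (mul_le_mul_of_nonneg_right h1 (r2_nonneg hy))

theorem r2_AC : SpAC :=
  ⟨fun _ _ _ _ _ _ _ _ _ _ hx hy => r2_mul hx hy, fun _ _ _ _ _ _ h => r2_nonneg h⟩

theorem r2_sub {D : ℤ → En} {U : En} {r K : ℕ} {a b : ℝ} {x y : En}
    (hx : AC D U r K a x) (hy : AC D U r K b y) : AC D U r K (a + b) (x - y) := by
  have h := AC.add hx (AC.smul (-1) hy)
  have e1 : a + |(-1 : ℝ)| * b = a + b := by simp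
  have e2 : x + (-1 : ℝ) • y = x - y := by
    rw [sub_eq_add_neg]; exact congrArg (fun z => x + z) (neg_one_smul ℝ y)
  rwa [e1, e2] at h

theorem r2_sum {D : ℤ → En} {U : En} {r K : ℕ} {a : ℝ} (s : Finset ℤ) (f : ℤ → En)
    (h : ∀ i ∈ s, AC D U r K a (f i)) : AC D U r K (s.card * a) (∑ i ∈ s, f i) := by
  induction s using Finset.induction_on with
  | empty => simpa using AC.zero
  | insert i s hi ih =>
    rw [Finset.sum_insert hi, Finset.card_insert_of_notMem hi]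
    have h1 := AC.add (h i (Finset.mem_insert_self i s))
      (ih (fun j hj => h j (Finset.mem_insert_of_mem hj)))
    refine AC.le h1 (le_of_eq ?_)
    push_cast
    ring

theorem r2_D (D : ℤ → En) (U : En) (i : ℤ) : AC D U 1 0 1 (D i) := by
  have h := AC.mono (D := D) (U := U) (r := 1) (K := 0) [some i] (by simp) (by simp)
  simpa [mono] using h

theorem r2_cc (D : ℤ → En) (U : En) (i : ℤ) : AC D U 2 0 2 (cc D i) := by
  have h := r2_sub (r2_mul (r2_D D U i) (r2_D D U (i + 1))) (r2_mul (r2_D D U (i + 1)) (r2_D D U i))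
  exact AC.le h (by norm_num)

theorem r2_bb (D : ℤ → En) (U : En) (i : ℤ) : AC D U 3 0 1 (bb D i) := by
  have h := r2_mul (r2_mul (r2_D D U i) (r2_D D U (i + 1))) (r2_D D U i)
  exact AC.le h (by norm_num)

theorem r2_dd (D : ℤ → En) (U : En) (i : ℤ) : AC D U 3 0 4 (dd D i) := by
  have h1 : AC D U 3 0 (2 * 1) (cc D i * D (i + 2)) := r2_mul (r2_cc D U i) (r2_D D U (i + 2))
  have h2 : AC D U 3 0 (1 * 2) (D (i + 2) * cc D i) := r2_mul (r2_D D U (i + 2)) (r2_cc D U i)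
  exact AC.le (r2_sub h1 h2) (by norm_num)

theorem r2_pp (D : ℤ → En) (U : En) (i : ℤ) : AC D U 3 0 5 (dd D i - bb D i) :=
  AC.le (r2_sub (r2_dd D U i) (r2_bb D U i)) (by norm_num)

theorem r2_card {lo hi : ℤ} {M : ℝ} (h0 : 0 ≤ M) (hM : ((hi - lo + 1 : ℤ) : ℝ) ≤ M) :
    ((Icc lo hi).card : ℝ) ≤ M := by
  rw [Int.card_Icc]
  rcases le_or_gt 0 (hi + 1 - lo) with h | h
  · have e : (((hi + 1 - lo).toNat : ℕ) : ℝ) = ((hi - lo + 1 : ℤ) : ℝ) := by
      have : (((hi + 1 - lo).toNat : ℕ) : ℤ) = hi - lo + 1 := by omega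
      exact_mod_cast this
    rw [e]; exact hM
  · have : (hi + 1 - lo).toNat = 0 := by omega
    rw [this]; simpa using h0

theorem r2_comm_sum {D : ℤ → En} {U : En} {r r' : ℕ} {α β : ℝ} (hα : 0 ≤ α) (hβ : 0 ≤ β)
    (s : Finset ℤ) (x y : ℤ → En) (hx : ∀ i ∈ s, AC D U r 0 α (x i))
    (hy : ∀ j ∈ s, AC D U r' 0 β (y j))
    (hc : ∀ i j, i + 4 ≤ j ∨ j + 4 ≤ i → Commute (x i) (y j)) :
    AC D U (r + r') 0 (s.card * (14 * (α * β)))
      ((∑ i ∈ s, x i) * (∑ j ∈ s, y j) - (∑ j ∈ s, y j) * (∑ i ∈ s, x i)) := by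
  have e : (∑ i ∈ s, x i) * (∑ j ∈ s, y j) - (∑ j ∈ s, y j) * (∑ i ∈ s, x i) =
      ∑ i ∈ s, ∑ j ∈ s.filter (fun j => j ∈ Icc (i - 3) (i + 3)), (x i * y j - y j * x i) := by
    rw [Finset.sum_mul, Finset.mul_sum, ← Finset.sum_sub_distrib]
    refine Finset.sum_congr rfl (fun i _ => ?_)
    rw [Finset.mul_sum, Finset.sum_mul, ← Finset.sum_sub_distrib, Finset.sum_filter]
    refine Finset.sum_congr rfl (fun j _ => ?_)
    split_ifs with h
    · rfl
    · have h' : i + 4 ≤ j ∨ j + 4 ≤ i := by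
        rw [Finset.mem_Icc] at h
        omega
      rw [(hc i j h').eq, sub_self]
  rw [e]
  refine r2_sum s _ (fun i hi => ?_)
  have h1 := r2_sum (D := D) (U := U) (r := r + r') (K := 0) (a := α * β + α * β)
    (s.filter (fun j => j ∈ Icc (i - 3) (i + 3))) (fun j => x i * y j - y j * x i) (by
      intro j hj
      have hj' := (Finset.mem_filter.1 hj).1
      have a1 : AC D U (r + r') 0 (α * β) (x i * y j) := r2_mul (hx i hi) (hy j hj')
      have a2 : AC D U (r' + r) 0 (β * α) (y j * x i) := r2_mul (hy j hj') (hx i hi)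
      rw [Nat.add_comm r' r, mul_comm β α] at a2
      exact r2_sub a1 a2)
  refine AC.le h1 ?_
  have hcard : (s.filter (fun j => j ∈ Icc (i - 3) (i + 3))).card ≤ 7 := by
    have : (s.filter (fun j => j ∈ Icc (i - 3) (i + 3))).card ≤ (Icc (i - 3) (i + 3)).card :=
      Finset.card_le_card (fun j hj => (Finset.mem_filter.1 hj).2)
    rw [Int.card_Icc] at this
    omega
  have hcard' : ((s.filter (fun j => j ∈ Icc (i - 3) (i + 3))).card : ℝ) ≤ 7 := by
    exact_mod_cast hcard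
  have hab : 0 ≤ α * β := mul_nonneg hα hβ
  nlinarith

theorem r2_c1 {D : ℤ → En} {lo hi : ℤ} (hD : NC D lo hi) (a b : ℤ) (h : a + 2 ≤ b ∨ b + 2 ≤ a) :
    Commute (D a) (D b) := by
  rcases h with h | h
  · exact hD.comm a b h
  · exact (hD.comm b a h).symm

theorem r2_c2 (D : ℤ → En) (i : ℤ) (x : En) (h0 : Commute x (D i)) (h1 : Commute x (D (i + 1)))
    (h2 : Commute x (D (i + 2))) :
    Commute x (cc D i) ∧ Commute x (bb D i) ∧ Commute x (dd D i - bb D i) := by
  have hc : Commute x (cc D i) := (h0.mul_right h1).sub_right (h1.mul_right h0)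
  have hb : Commute x (bb D i) := (h0.mul_right h1).mul_right h0
  have hd : Commute x (dd D i) := (hc.mul_right h2).sub_right (h2.mul_right hc)
  exact ⟨hc, hb, hd.sub_right hb⟩

theorem r2_c3 {D : ℤ → En} {lo hi : ℤ} (hD : NC D lo hi) (i j : ℤ) (h : i + 4 ≤ j ∨ j + 4 ≤ i) :
    Commute (cc D i) (bb D j) ∧ Commute (cc D i) (dd D j - bb D j) ∧
      Commute (bb D i) (dd D j - bb D j) := by
  have g : ∀ k, k + 2 ≤ i ∨ i + 4 ≤ k →
      Commute (D k) (cc D i) ∧ Commute (D k) (bb D i) ∧ Commute (D k) (dd D i - bb D i) :=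
    fun k hk => r2_c2 D i (D k) (r2_c1 hD _ _ (by omega)) (r2_c1 hD _ _ (by omega))
      (r2_c1 hD _ _ (by omega))
  have g0 := g j (by omega)
  have g1 := g (j + 1) (by omega)
  have g2 := g (j + 2) (by omega)
  have a := r2_c2 D j (cc D i) g0.1.symm g1.1.symm g2.1.symm
  have b := r2_c2 D j (bb D i) g0.2.1.symm g1.2.1.symm g2.2.1.symm
  exact ⟨a.2.1, a.2.2, b.2.2⟩

theorem r2_A2 (_h : SpAC) : SpA2 := by
  refine ⟨140, by norm_num, ?_⟩
  intro D lo hi U κ M Γ hD hM0 hM hΓ hκ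
  have hcard := r2_card hM0 hM
  have hP : P3 D lo hi = ∑ i ∈ Icc lo hi, (dd D i - bb D i) := by
    rw [Finset.sum_sub_distrib]; rfl
  have hw : ∀ i ∈ Icc lo hi, AC D U 2 0 (Γ * 2) ((κ - (i : ℝ)) • cc D i) := by
    intro i hi'
    rw [Finset.mem_Icc] at hi'
    refine AC.le (AC.smul _ (r2_cc D U i)) ?_
    have := hκ i hi'.1 hi'.2
    linarith
  have hMΓ : ((Icc lo hi).card : ℝ) * Γ ≤ M * Γ := mul_le_mul_of_nonneg_right hcard hΓ
  have hMΓ0 : 0 ≤ M * Γ := mul_nonneg hM0 hΓ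
  refine ⟨?_, ?_, ?_, ?_, ?_, ?_⟩
  · refine AC.le (r2_sum (Icc lo hi) _ (fun i _ => r2_bb D U i)) ?_
    linarith
  · rw [hP]
    refine AC.le (r2_sum (Icc lo hi) _ (fun i _ => r2_pp D U i)) ?_
    linarith
  · refine AC.le (r2_sum (Icc lo hi) _ hw) ?_
    nlinarith
  · have h := r2_comm_sum (D := D) (U := U) (by positivity : 0 ≤ Γ * 2) zero_le_one (Icc lo hi)
      (fun i => (κ - (i : ℝ)) • cc D i) (fun j => bb D j) hw (fun j _ => r2_bb D U j)
      (fun i j hij => ((r2_c3 hD i j hij).1).smul_left _)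
    refine AC.le h ?_
    nlinarith
  · rw [hP]
    have h := r2_comm_sum (D := D) (U := U) (by positivity : 0 ≤ Γ * 2)
      (by norm_num : (0 : ℝ) ≤ 5) (Icc lo hi)
      (fun i => (κ - (i : ℝ)) • cc D i) (fun j => dd D j - bb D j) hw (fun j _ => r2_pp D U j)
      (fun i j hij => ((r2_c3 hD i j hij).2.1).smul_left _)
    refine AC.le h ?_
    nlinarith
  · rw [hP]
    have h := r2_comm_sum (D := D) (U := U) zero_le_one (by norm_num : (0 : ℝ) ≤ 5) (Icc lo hi)
      (fun i => bb D i) (fun j => dd D j - bb D j) (fun i _ => r2_bb D U i)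
      (fun j _ => r2_pp D U j) (fun i j hij => (r2_c3 hD i j hij).2.2)
    refine AC.le h ?_
    nlinarith

end Pool.Agent.MP_a5ded6_pr.POIS
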