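import Pool.Agent.MP_a5ded6_pr.POIS.Spec

set_option autoImplicit false

namespace Pool.Agent.MP_a5ded6_pr.POIS

open Finset

theorem r3_S0 (U Br : En) (K : ℕ) : SS U Br 0 (K + 1) = U * SS U Br 0 K := by
  simp only [SS, pow_succ']

theorem r3_S00 (U Br : En) : SS U Br 0 0 = 1 := by
  simp only [SS, pow_zero]

theorem r3_S1 (U Br : En) (k : ℕ) : SS U Br (k + 1) 0 = Br * SS U Br k 0 := by
  simp [SS]

theorem r3_S2 (U Br : En) (k K : ℕ) :
    SS U Br (k + 1) (K + 1) = Br * SS U Br k (K + 1) + U * SS U Br (k + 1) K := by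
  have e : ∀ K, SS U Br (k + 1) K = ∑ a ∈ range (K + 1), U ^ a * Br * SS U Br k (K - a) :=
    fun _ => rfl
  rw [e, e, sum_range_succ', mul_sum, pow_zero, one_mul, Nat.sub_zero]
  refine (add_comm _ _).trans (congrArg _ (sum_congr rfl fun a _ => ?_))
  rw [Nat.add_sub_add_right, pow_succ']
  simp only [mul_assoc]

theorem r3_cast {D : ℤ → En} {U : En} {r K r' K' : ℕ} {a b : ℝ} {x : En} (h : AC D U r K a x)
    (hr : r = r') (hK : K = K') (hab : a ≤ b) : AC D U r' K' b x := by
  subst hr hK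
  exact h.le hab

theorem r3_one (D : ℤ → En) (U : En) : AC D U 0 0 1 1 := by
  simpa [mono] using AC.mono (D := D) (U := U) (r := 0) (K := 0) [] rfl rfl

theorem r3_U (D : ℤ → En) (U : En) : AC D U 0 1 1 U := by
  simpa [mono] using AC.mono (D := D) (U := U) (r := 0) (K := 1) [none] rfl rfl

theorem r3_mulU (h : SpAC) {D : ℤ → En} {U : En} {r K : ℕ} {a : ℝ} {x : En}
    (hx : AC D U r K a x) : AC D U r (K + 1) a (U * x) :=
  r3_cast (h.1 D U 0 1 r K 1 a U x (r3_U D U) hx) (by omega) (by omega) (by linarith)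

theorem r3_mul (h : SpAC) {D : ℤ → En} {U y : En} {s r K : ℕ} {a b : ℝ} {x : En}
    (hy : AC D U s 0 b y) (hx : AC D U r K a x) : AC D U (r + s) K (b * a) (y * x) :=
  r3_cast (h.1 D U s 0 r K b a y x hy hx) (by omega) (by omega) le_rfl

theorem r3_ineq {x : ℝ} (hx : 0 ≤ x) (k : ℕ) : (x + 1) ^ k + x ^ (k + 1) ≤ (x + 1) ^ (k + 1) := by
  have h1 : x ^ k ≤ (x + 1) ^ k := pow_le_pow_left₀ hx (by linarith) k
  have h2 := mul_le_mul_of_nonneg_left h1 hx
  rw [pow_succ, pow_succ]
  nlinarith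

theorem r3_S (h : SpAC) {D : ℤ → En} {U Br : En} {ω : ℝ} (hω : 0 ≤ ω) (hB : AC D U 3 0 ω Br)
    (k K : ℕ) : AC D U (3 * k) K (ω ^ k * ((K : ℝ) + 1) ^ k) (SS U Br k K) := by
  induction k generalizing K with
  | zero =>
    induction K with
    | zero => rw [r3_S00]; exact r3_cast (r3_one D U) rfl rfl (by simp)
    | succ K ih => rw [r3_S0]; exact r3_cast (r3_mulU h ih) rfl rfl (by simp)
  | succ k ihk =>
    induction K with
    | zero =>
      rw [r3_S1]
      refine r3_cast (r3_mul h hB (ihk 0)) (by ring) rfl (le_of_eq ?_)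
      simp [pow_succ']
    | succ K ih =>
      rw [r3_S2]
      refine r3_cast ((r3_cast (r3_mul h hB (ihk (K + 1))) (r' := 3 * (k + 1)) (by ring) rfl
        le_rfl).add (r3_mulU h ih)) rfl rfl ?_
      have h1 := r3_ineq (x := (K : ℝ) + 1) (by positivity) k
      have h2 := mul_le_mul_of_nonneg_left h1 (pow_nonneg hω (k + 1))
      push_cast
      calc _ = ω ^ (k + 1) * (((K : ℝ) + 1 + 1) ^ k + ((K : ℝ) + 1) ^ (k + 1)) := by ring
        _ ≤ _ := h2

theorem r3_C (h : SpAC) {D : ℤ → En} {U W Br : En} {ω γ₁ : ℝ} (hω : 0 ≤ ω)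
    (hB : AC D U 3 0 ω Br) (hW : AC D U 5 0 (ω * γ₁) (W * Br - Br * W)) (k : ℕ) :
    AC D U (3 * k + 2) 0 (k * γ₁ * ω ^ k) (W * SS U Br k 0 - SS U Br k 0 * W) := by
  induction k with
  | zero =>
    rw [r3_S00, mul_one, one_mul, sub_self]
    exact r3_cast AC.zero rfl rfl (by simp)
  | succ k ih =>
    have e : W * SS U Br (k + 1) 0 - SS U Br (k + 1) 0 * W =
        (W * Br - Br * W) * SS U Br k 0 + Br * (W * SS U Br k 0 - SS U Br k 0 * W) := by
      rw [r3_S1]
      simp only [mul_sub, sub_mul, mul_assoc]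
      abel
    rw [e]
    refine r3_cast ((r3_cast (r3_mul h hW (r3_S h hω hB k 0)) (r' := 3 * (k + 1) + 2) (by ring) rfl
      le_rfl).add (r3_cast (r3_mul h hB ih) (by ring) rfl le_rfl)) rfl rfl (le_of_eq ?_)
    push_cast
    ring

theorem r3_A3 (h : SpAC) : SpA3 := by
  intro D U W Br p ω γ₁ γ₂ hω hγ₁ hγ₂ hBr hp hB hW hP k K
  refine ⟨r3_S h hω hB k K, ?_⟩
  have hS := r3_S h hω hB
  have hBr' : ∀ x : En, Br * x = (2 : ℝ) • (W * (U * x) - U * (W * x)) + p * x := fun x => by
    conv_lhs => rw [hBr]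
    simp only [add_mul, smul_mul_assoc, sub_mul, mul_assoc]
  have hp' : ∀ x : En, p * (U * x) = U * (p * x) := fun x => by
    rw [← mul_assoc, hp, mul_assoc]
  induction k generalizing K with
  | zero =>
    induction K with
    | zero =>
      refine ⟨0, 0, ?_, r3_cast AC.zero rfl rfl (by simp), r3_cast AC.zero rfl rfl (by positivity)⟩
      rw [r3_S1, r3_S0, r3_S00, hBr']
      simp only [mul_one]
      push_cast
      module
    | succ K ih =>
      obtain ⟨E₁, E₂, e, h1, h2⟩ := ih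
      refine ⟨U * E₁, U * E₂, ?_, r3_cast (r3_mulU h h1) rfl rfl (by simp),
        r3_cast (r3_mulU h h2) rfl rfl ?_⟩
      · have e' := congrArg (fun x => U * x) e
        rw [r3_S2, r3_S0 U Br (K + 1), hBr']
        have e0 := r3_S0 U Br K
        set a := SS U Br 0 (K + 1)
        set b := SS U Br (0 + 1) K
        set c := SS U Br 0 K
        have e1 : U * (p * c) = p * a := by rw [e0, hp']
        simp only [mul_add, mul_sub, mul_smul_comm, e1] at e'
        simp only [mul_assoc]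
        push_cast at e' ⊢
        linear_combination (norm := module) e'
      · push_cast
        gcongr
        linarith
  | succ k ihk =>
    have hWS := fun K => r3_mul h hW (hS k K)
    have hPS := fun K => r3_mul h hP (hS k K)
    have hωk : 0 ≤ ω ^ (k + 1) := pow_nonneg hω _
    induction K with
    | zero =>
      obtain ⟨F₁, F₂, f, g1, g2⟩ := ihk 0
      have hC := r3_C h hω hB hW (k + 1)
      refine ⟨(-2 : ℝ) • (U * (W * SS U Br (k + 1) 0 - SS U Br (k + 1) 0 * W)) + Br * F₁ +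
          (-2 : ℝ) • ((W * Br - Br * W) * SS U Br k (0 + 1)),
        Br * F₂ + ((k : ℝ) + 1) • ((Br * p - p * Br) * SS U Br k 0), ?_, ?_, ?_⟩
      · have f' := congrArg (fun x => Br * x) f
        rw [r3_S1 U Br (k + 1), r3_S2]
        have e0 := r3_S1 U Br k
        set a := SS U Br (k + 1) 0
        set b := SS U Br k (0 + 1)
        set c := SS U Br k 0
        have e1 : p * (Br * c) = p * a := by rw [e0]
        have e2 := hBr' a
        simp only [mul_add, mul_sub, mul_smul_comm] at f'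
        simp only [mul_add, add_mul, mul_sub, sub_mul, mul_assoc, e1]
        push_cast at f' ⊢
        linear_combination (norm := module) f' + e2
      · refine r3_cast ((((r3_mulU h hC).smul (-2)).add
          (r3_cast (r3_mul h hB g1) (by ring) rfl le_rfl)).add
          (r3_cast ((hWS (0 + 1)).smul (-2)) (by ring) rfl le_rfl)) rfl rfl ?_
        have h1 := r3_ineq (x := (1 : ℝ)) zero_le_one k
        have h2 := mul_le_mul_of_nonneg_left h1
          (show 0 ≤ 2 * ((k : ℝ) + 1) * γ₁ * ω ^ (k + 1) by positivity)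
        rw [abs_neg, abs_two]
        push_cast
        calc _ = 2 * ((k : ℝ) + 1) * γ₁ * ω ^ (k + 1) * ((1 + 1) ^ k + 1 ^ (k + 1)) := by ring
          _ ≤ _ := h2
          _ = _ := by ring
      · refine r3_cast ((r3_cast (r3_mul h hB g2) (r' := 3 * (k + 1) + 3) (by ring) rfl le_rfl).add
          (r3_cast ((hPS 0).smul ((k : ℝ) + 1)) (by ring) rfl le_rfl)) rfl rfl ?_
        rw [abs_of_nonneg (by positivity)]
        have h2 : 0 ≤ γ₂ * ω ^ (k + 1) * ((k : ℝ) + 2) := by positivity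
        push_cast
        calc _ = γ₂ * ω ^ (k + 1) * (((k : ℝ) + 1) ^ 2 + (k + 1)) := by ring
          _ ≤ γ₂ * ω ^ (k + 1) * (((k : ℝ) + 1) ^ 2 + (k + 1)) +
              γ₂ * ω ^ (k + 1) * ((k : ℝ) + 2) := by linarith
          _ = _ := by ring
    | succ K ih =>
      obtain ⟨E₁, E₂, e, h1, h2⟩ := ih
      obtain ⟨F₁, F₂, f, g1, g2⟩ := ihk (K + 1)
      refine ⟨U * E₁ + Br * F₁ + (-2 : ℝ) • ((W * Br - Br * W) * SS U Br k (K + 1 + 1)),
        U * E₂ + Br * F₂ + ((K : ℝ) + k + 2) • ((Br * p - p * Br) * SS U Br k (K + 1)), ?_, ?_, ?_⟩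
      · have e' := congrArg (fun x => U * x) e
        have f' := congrArg (fun x => Br * x) f
        rw [r3_S2 U Br (k + 1) K, r3_S2 U Br k (K + 1)]
        have e0 := r3_S2 U Br k K
        set a := SS U Br (k + 1) (K + 1)
        set b := SS U Br k (K + 1 + 1)
        set c := SS U Br k (K + 1)
        set d := SS U Br (k + 1) K
        set a' := SS U Br (k + 1 + 1) K
        have e1 : p * a = p * (Br * c) + U * (p * d) := by rw [e0, mul_add, hp']
        have e2 := hBr' a
        simp only [mul_add, mul_sub, mul_smul_comm] at e' f'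
        simp only [mul_add, add_mul, mul_sub, sub_mul, mul_assoc]
        push_cast at e' f' ⊢
        linear_combination (norm := module) e' + f' + e2 - ((K : ℝ) + k + 2) • e1
      · refine r3_cast (((r3_mulU h h1).add
          (r3_cast (r3_mul h hB g1) (by ring) rfl le_rfl)).add
          (r3_cast ((hWS (K + 1 + 1)).smul (-2)) (by ring) rfl le_rfl)) rfl rfl ?_
        have i1 := r3_ineq (x := (K : ℝ) + 2) (by positivity) k
        have i2 := mul_le_mul_of_nonneg_left i1
          (show 0 ≤ 2 * ((k : ℝ) + 1) * γ₁ * ω ^ (k + 1) by positivity)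
        rw [abs_neg, abs_two]
        push_cast
        calc _ = 2 * ((k : ℝ) + 1) * γ₁ * ω ^ (k + 1) *
              (((K : ℝ) + 2 + 1) ^ k + ((K : ℝ) + 2) ^ (k + 1)) := by ring
          _ ≤ _ := i2
          _ = _ := by ring
      · refine r3_cast (((r3_mulU h h2).add
          (r3_cast (r3_mul h hB g2) (by ring) rfl le_rfl)).add
          (r3_cast ((hPS (K + 1)).smul ((K : ℝ) + k + 2)) (by ring) rfl le_rfl)) rfl rfl ?_
        rw [abs_of_nonneg (by positivity)]
        have i1 := r3_ineq (x := (K : ℝ) + 1) (by positivity) (k + 1)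
        have i2 := mul_le_mul_of_nonneg_left i1
          (show 0 ≤ ((k : ℝ) + 2) ^ 2 * γ₂ * ω ^ (k + 1) by positivity)
        have i3 : 0 ≤ γ₂ * ω ^ (k + 1) * ((K : ℝ) + 2) ^ k *
            ((2 * k + 2) * (K : ℝ) + 3 * k + 4) := by positivity
        push_cast
        calc _ = ((k : ℝ) + 2) ^ 2 * γ₂ * ω ^ (k + 1) *
              (((K : ℝ) + 1 + 1) ^ (k + 1) + ((K : ℝ) + 1) ^ (k + 1 + 1)) -
              γ₂ * ω ^ (k + 1) * ((K : ℝ) + 2) ^ k * ((2 * k + 2) * (K : ℝ) + 3 * k + 4) := by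
              ring
          _ ≤ ((k : ℝ) + 2) ^ 2 * γ₂ * ω ^ (k + 1) * ((K : ℝ) + 1 + 1) ^ (k + 1 + 1) := by
              linarith
          _ = _ := by ring

end Pool.Agent.MP_a5ded6_pr.POIS
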