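import Pool.Agent.MP_a5ded6_pr.POIS.Spec

set_option autoImplicit false

namespace Pool.Agent.MP_a5ded6_pr.POIS

open Finset

theorem r4a_desc (i j : ℤ) (w : Pm) :
    Desc j (sw i * w) ↔ w⁻¹ (sw i (j + 1)) < w⁻¹ (sw i j) := by
  simp [Desc, sw, mul_inv_rev]

theorem r4a_app (i : ℤ) (f : Fn) (w : Pm) :
    Dop i f w = if Desc i w then f (sw i * w) else 0 := rfl

theorem r4a_sw (i x : ℤ) : sw i x = if x = i then i + 1 else if x = i + 1 then i else x := by
  simp [sw, Equiv.swap_apply_def]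

theorem r4a_sq (i : ℤ) : Dop i * Dop i = 0 := by
  ext f w
  simp only [Module.End.mul_apply, r4a_app, r4a_desc, LinearMap.zero_apply, Pi.zero_apply]
  have h1 : sw i (i + 1) = i := by rw [r4a_sw]; split_ifs <;> omega
  have h2 : sw i i = i + 1 := by rw [r4a_sw]; simp
  rw [h1, h2]
  unfold Desc
  split_ifs <;> first | rfl | omega

theorem r4a_comm (i j : ℤ) (h : i + 2 ≤ j) : Dop i * Dop j = Dop j * Dop i := by
  ext f w
  simp only [Module.End.mul_apply, r4a_app, r4a_desc]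
  have h1 : sw i (j + 1) = j + 1 := by rw [r4a_sw]; split_ifs <;> omega
  have h2 : sw i j = j := by rw [r4a_sw]; split_ifs <;> omega
  have h3 : sw j (i + 1) = i + 1 := by rw [r4a_sw]; split_ifs <;> omega
  have h4 : sw j i = i := by rw [r4a_sw]; split_ifs <;> omega
  have h5 : sw j * (sw i * w) = sw i * (sw j * w) := by
    ext x
    simp only [Equiv.Perm.mul_apply, r4a_sw]
    split_ifs <;> omega
  rw [h1, h2, h3, h4, h5]
  unfold Desc
  split_ifs <;> rfl

theorem r4a_braid (i : ℤ) : Dop i * Dop (i + 1) * Dop i = Dop (i + 1) * Dop i * Dop (i + 1) := by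
  ext f w
  have e : ∀ (a b j : ℤ), Desc j (sw a * (sw b * w)) ↔
      w⁻¹ (sw b (sw a (j + 1))) < w⁻¹ (sw b (sw a j)) := fun a b j => by
    simp [Desc, sw, mul_inv_rev]
  simp only [Module.End.mul_apply, r4a_app]
  simp only [e]
  simp only [r4a_desc]
  have h1 : sw i (i + 1) = i := by rw [r4a_sw]; split_ifs <;> omega
  have h2 : sw i i = i + 1 := by rw [r4a_sw]; simp
  have h3 : sw i (i + 1 + 1) = i + 1 + 1 := by rw [r4a_sw]; split_ifs <;> omega
  have h4 : sw (i + 1) (i + 1) = i + 1 + 1 := by rw [r4a_sw]; simp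
  have h5 : sw (i + 1) i = i := by rw [r4a_sw]; split_ifs <;> omega
  have h6 : sw (i + 1) (i + 1 + 1) = i + 1 := by rw [r4a_sw]; split_ifs <;> omega
  have h7 : sw i * (sw (i + 1) * (sw i * w)) = sw (i + 1) * (sw i * (sw (i + 1) * w)) := by
    ext x
    simp only [Equiv.Perm.mul_apply, r4a_sw]
    split_ifs <;> omega
  simp only [h1, h2, h3, h4, h5, h6, h7]
  unfold Desc
  split_ifs <;> rfl

theorem r4a_NC : SpNC := fun lo hi =>
  { sq := fun i => by
      unfold Dtr
      split_ifs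
      · exact r4a_sq i
      · simp
    comm := fun i j h => by
      unfold Dtr
      split_ifs
      · exact r4a_comm i j h
      all_goals simp
    braid := fun i => by
      unfold Dtr
      split_ifs
      · exact r4a_braid i
      all_goals simp
    out := fun i h => if_neg (by omega) }

/-- the two operators agree on the permutations supported in `a, …, b + 1`. -/
def r4a_Ag (a b : ℤ) (X Y : En) : Prop :=
  ∀ f g : Fn, (∀ w, Supp w a (b + 1) → f w = g w) → ∀ w, Supp w a (b + 1) → X f w = Y g w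

theorem r4a_mul {a b : ℤ} {X Y X' Y' : En} (h : r4a_Ag a b X Y) (h' : r4a_Ag a b X' Y') :
    r4a_Ag a b (X * X') (Y * Y') := fun f g e => h _ _ (h' f g e)

theorem r4a_sub {a b : ℤ} {X Y X' Y' : En} (h : r4a_Ag a b X Y) (h' : r4a_Ag a b X' Y') :
    r4a_Ag a b (X - X') (Y - Y') := fun f g e w hw => by
  simp only [LinearMap.sub_apply, Pi.sub_apply, h f g e w hw, h' f g e w hw]

theorem r4a_pow {a b : ℤ} {X Y : En} (h : r4a_Ag a b X Y) (n : ℕ) :
    r4a_Ag a b (X ^ n) (Y ^ n) := by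
  induction n with
  | zero => exact fun f g e => e
  | succ n ih => rw [pow_succ, pow_succ]; exact r4a_mul ih h

theorem r4a_sum {lo hi a b : ℤ} (h1 : lo ≤ a) (h2 : b ≤ hi) {X Y : ℤ → En}
    (h : ∀ i, r4a_Ag a b (X i) (Y i)) (h0 : ∀ i, i < a ∨ b < i → Y i = 0) :
    r4a_Ag a b (∑ i ∈ Icc lo hi, X i) (∑ i ∈ Icc a b, Y i) := fun f g e w hw => by
  rw [sum_subset (Icc_subset_Icc h1 h2) fun i _ hi => h0 i (by rw [mem_Icc] at hi; omega)]
  simp only [LinearMap.sum_apply, Finset.sum_apply]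
  exact sum_congr rfl fun i _ => h i f g e w hw

theorem r4a_nd {a b i : ℤ} {w : Pm} (hw : Supp w a (b + 1)) (hi : ¬ (a ≤ i ∧ i ≤ b)) :
    ¬ Desc i w := fun h => by
  unfold Desc at h
  have e : ∀ x, x < a ∨ b + 1 < x → w⁻¹ x = x := fun x hx =>
    Equiv.Perm.inv_eq_iff_eq.2 (hw x hx).symm
  have e' : ∀ x, w⁻¹ x < a ∨ b + 1 < w⁻¹ x → x = w⁻¹ x := fun x hx => by
    simpa using hw _ hx
  by_cases hc : i < a
  · have := e i (Or.inl hc)
    have := e' (i + 1) (Or.inl (by omega))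
    omega
  · have := e (i + 1) (Or.inr (by omega))
    have := e' i (Or.inr (by omega))
    omega

theorem r4a_gen {lo hi a b : ℤ} (h1 : lo ≤ a) (h2 : b ≤ hi) (i : ℤ) :
    r4a_Ag a b (Dtr lo hi i) (Dtr a b i) := fun f g e w hw => by
  unfold Dtr
  by_cases hi' : a ≤ i ∧ i ≤ b
  · rw [if_pos hi', if_pos (by omega), r4a_app, r4a_app]
    split_ifs
    · refine e _ fun x hx => ?_
      rw [Equiv.Perm.mul_apply, hw x hx, r4a_sw]
      split_ifs <;> omega
    · rfl
  · rw [if_neg hi']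
    split_ifs
    · rw [r4a_app, if_neg (r4a_nd hw hi')]
      rfl
    · rfl

theorem r4a_Tr : SpTr := fun lo hi a b j m w hw h1 h2 => by
  have g := r4a_gen h1 h2
  have z : ∀ i, i < a ∨ b < i → Dtr a b i = 0 := (r4a_NC a b).out
  have c : ∀ i, r4a_Ag a b (cc (Dtr lo hi) i) (cc (Dtr a b) i) := fun i =>
    r4a_sub (r4a_mul (g _) (g _)) (r4a_mul (g _) (g _))
  have hP : r4a_Ag a b (P3 (Dtr lo hi) lo hi) (P3 (Dtr a b) a b) :=
    r4a_sub
      (r4a_sum h1 h2 (fun i => r4a_sub (r4a_mul (c _) (g _)) (r4a_mul (g _) (c _)))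
        fun i hi => by simp [dd, cc, z i hi])
      (r4a_sum h1 h2 (fun i => r4a_mul (r4a_mul (g _) (g _)) (g _))
        fun i hi => by simp [bb, z i hi])
  exact r4a_mul (r4a_pow hP j) (r4a_pow (r4a_sum h1 h2 g z) m) _ _ (fun _ _ => rfl) w hw

end Pool.Agent.MP_a5ded6_pr.POIS
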