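import Pool.Agent.MP_a5ded6_pr.POIS.Spec

set_option autoImplicit false

namespace Pool.Agent.MP_a5ded6_pr.POIS

open Finset

theorem r4b_words (s : Finset ℤ) (m : ℕ) (a : List ℤ) :
    a ∈ words s m ↔ a.length = m ∧ ∀ x ∈ a, x ∈ s := by
  induction m generalizing a with
  | zero =>
    simp only [words, mem_singleton, List.length_eq_zero_iff]
    exact ⟨fun h => by subst h; simp, fun h => h.1⟩
  | succ m ih =>
    simp only [words, mem_image, mem_product, Prod.exists]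
    constructor
    · rintro ⟨x, b, ⟨h1, h2⟩, rfl⟩
      obtain ⟨h3, h4⟩ := (ih b).1 h2
      exact ⟨by simp [h3], by simpa [h1] using h4⟩
    · rintro ⟨h1, h2⟩
      cases a with
      | nil => simp at h1
      | cons x b =>
        exact ⟨x, b, ⟨h2 x (by simp), (ih b).2 ⟨by simpa using h1,
          fun y hy => h2 y (by simp [hy])⟩⟩, rfl⟩

theorem r4b_mem (n : ℕ) (a : List ℤ) : a ∈ nets n ↔
    (a.length = NN n ∧ ∀ x ∈ a, 1 ≤ x ∧ x ≤ (n : ℤ) - 1) ∧ (a.map sw).prod = w0 n := by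
  simp only [nets, mem_filter, r4b_words, mem_Icc]

theorem r4b_sw (i x : ℤ) : sw i x = if x = i then i + 1 else if x = i + 1 then i else x :=
  Equiv.swap_apply_def _ _ _

theorem r4b_sw2 (i : ℤ) : sw i * sw i = 1 := Equiv.swap_mul_self _ _

theorem r4b_w0 (n : ℕ) (x : ℤ) : w0 n x = if 1 ≤ x ∧ x ≤ n then n + 1 - x else x := rfl

theorem r4b_w02 (n : ℕ) : w0 n * w0 n = 1 := Equiv.ext fun x => w0fun_invol n x

/-- descending chains -/
def r4b_Ch (n : ℕ) : List ℤ → Pm → Prop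
  | [] => fun w => w = 1
  | x :: a => fun w => (1 ≤ x ∧ x ≤ (n : ℤ) - 1) ∧ Desc x w ∧ r4b_Ch n a (sw x * w)

open Classical in
theorem r4b_ev (n : ℕ) (a : List ℤ) (w : Pm) :
    Dw (Dn n) a delta w = if r4b_Ch n a w then 1 else 0 := by
  induction a generalizing w with
  | nil => by_cases h : w = 1 <;> simp [Dw, delta, r4b_Ch, h]
  | cons x a ih =>
    have e : Dw (Dn n) (x :: a) delta w = Dn n x (Dw (Dn n) a delta) w := by
      simp [Dw]
    rw [e]
    by_cases h : 1 ≤ x ∧ x ≤ (n : ℤ) - 1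
    · have e2 : Dn n x = Dop x := if_pos h
      have e3 : ∀ f : Fn, Dop x f w = if Desc x w then f (sw x * w) else 0 := fun _ => rfl
      rw [e2, e3, ih]
      by_cases h2 : Desc x w <;> simp [r4b_Ch, h, h2]
    · have e2 : Dn n x = 0 := if_neg h
      rw [e2, if_neg fun k => h k.1]
      rfl

/-- number of inversions -/
noncomputable def r4b_inv (n : ℕ) (w : Pm) : ℤ :=
  ∑ p ∈ Icc (1 : ℤ) n, ∑ q ∈ Icc (1 : ℤ) n, if p < q ∧ w⁻¹ q < w⁻¹ p then 1 else 0

theorem r4b_inv_nn (n : ℕ) (w : Pm) : 0 ≤ r4b_inv n w :=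
  sum_nonneg fun _ _ => sum_nonneg fun _ _ => by split_ifs <;> omega

theorem r4b_inv_one (n : ℕ) : r4b_inv n 1 = 0 :=
  sum_eq_zero fun p _ => sum_eq_zero fun q _ => if_neg (by simp; omega)

theorem r4b_re (n : ℕ) {x : ℤ} (h : 1 ≤ x ∧ x ≤ (n : ℤ) - 1) (F : ℤ → ℤ) :
    ∑ p ∈ Icc (1 : ℤ) n, F (sw x p) = ∑ p ∈ Icc (1 : ℤ) n, F p :=
  sum_equiv (sw x) (fun p => by simp only [mem_Icc, r4b_sw]; split_ifs <;> omega) fun _ _ => rfl

theorem r4b_step (n : ℕ) {x : ℤ} (h : 1 ≤ x ∧ x ≤ (n : ℤ) - 1) (w : Pm) :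
    r4b_inv n (sw x * w) = r4b_inv n w + if Desc x w then -1 else 1 := by
  have e : ∀ y, (sw x * w)⁻¹ y = w⁻¹ (sw x y) := fun y => by
    rw [mul_inv_rev]; rfl
  have ss : ∀ y, sw x (sw x y) = y := fun y => Equiv.swap_apply_self _ _ _
  have h1 : r4b_inv n (sw x * w) = ∑ p ∈ Icc (1 : ℤ) n, ∑ q ∈ Icc (1 : ℤ) n,
      if sw x p < sw x q ∧ w⁻¹ q < w⁻¹ p then (1 : ℤ) else 0 := by
    unfold r4b_inv
    rw [← r4b_re n h]
    refine sum_congr rfl fun p _ => ?_
    rw [← r4b_re n h]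
    simp only [e, ss]
  have hne : w⁻¹ x ≠ w⁻¹ (x + 1) := fun k => by have := w⁻¹.injective k; omega
  have h2 : ∀ p q : ℤ, (if sw x p < sw x q ∧ w⁻¹ q < w⁻¹ p then (1 : ℤ) else 0) =
      (if p < q ∧ w⁻¹ q < w⁻¹ p then (1 : ℤ) else 0) +
      ((if q = x + 1 then (if p = x then (if Desc x w then -1 else 0) else 0) else 0) +
      (if q = x then (if p = x + 1 then (if Desc x w then 0 else 1) else 0) else 0)) := by
    intro p q
    unfold Desc
    by_cases a1 : p = x ∧ q = x + 1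
    · obtain ⟨rfl, rfl⟩ := a1
      simp [r4b_sw]
      split_ifs <;> omega
    · by_cases a2 : p = x + 1 ∧ q = x
      · obtain ⟨rfl, rfl⟩ := a2
        rcases lt_or_gt_of_ne hne with k | k <;> simp only [r4b_sw, k, k.not_gt] <;> simp
      · have a3 : sw x p < sw x q ↔ p < q := by
          simp only [r4b_sw]
          split_ifs <;> omega
        simp only [a3, ← ite_and, and_comm (a := q = x + 1), and_comm (a := q = x)]
        split_ifs <;> omega
  have m1 : x ∈ Icc (1 : ℤ) n := by simp; omega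
  have m2 : x + 1 ∈ Icc (1 : ℤ) n := by simp; omega
  rw [h1]
  simp only [h2, sum_add_distrib, sum_ite_eq', m1, m2, if_true]
  unfold r4b_inv
  split_ifs <;> simp

theorem r4b_inv_w0 (n : ℕ) : r4b_inv n (w0 n) = NN n := by
  have e : (w0 n)⁻¹ = w0 n := inv_eq_of_mul_eq_one_right (r4b_w02 n)
  have h1 : r4b_inv n (w0 n) = ∑ p ∈ Icc (1 : ℤ) n, ∑ q ∈ Icc (1 : ℤ) n,
      if p < q then (1 : ℤ) else 0 := by
    refine sum_congr rfl fun p hp => sum_congr rfl fun q hq => ?_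
    rw [mem_Icc] at hp hq
    simp only [e, r4b_w0, hp, hq, and_self, if_true]
    split_ifs <;> omega
  have h2 : ∑ p ∈ Icc (1 : ℤ) n, ∑ q ∈ Icc (1 : ℤ) n, ((if p < q then (1 : ℤ) else 0) +
      (if q < p then (1 : ℤ) else 0) + if q = p then (1 : ℤ) else 0) = n * n := by
    rw [sum_congr rfl fun p _ => sum_congr rfl (g := fun _ => (1 : ℤ)) fun q _ => by
      split_ifs <;> omega]
    simp
  simp only [sum_add_distrib] at h2
  rw [sum_comm (f := fun p q : ℤ => if q < p then (1 : ℤ) else 0), ← h1,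
    sum_congr rfl (g := fun _ => (1 : ℤ)) fun p hp => by simp [sum_ite_eq', hp]] at h2
  have h3 : ((NN n * 2 : ℕ) : ℤ) = n * n - n := by
    unfold NN
    rw [Nat.div_mul_cancel (Nat.even_mul_pred_self n).two_dvd]
    cases n with
    | zero => simp
    | succ m => simp; ring
  simp at h2
  push_cast at h3
  omega

theorem r4b_of_ch (n : ℕ) (a : List ℤ) (w : Pm) (h : r4b_Ch n a w) :
    ((a.length : ℤ) = r4b_inv n w ∧ ∀ x ∈ a, 1 ≤ x ∧ x ≤ (n : ℤ) - 1) ∧ (a.map sw).prod = w := by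
  induction a generalizing w with
  | nil =>
    obtain rfl : w = 1 := h
    simp [r4b_inv_one]
  | cons x a ih =>
    obtain ⟨h1, h2, h3⟩ := h
    obtain ⟨⟨k1, k2⟩, k3⟩ := ih _ h3
    rw [r4b_step n h1, if_pos h2] at k1
    refine ⟨⟨by simp; omega, ?_⟩, ?_⟩
    · intro y hy
      rcases List.mem_cons.1 hy with rfl | hy
      exacts [h1, k2 y hy]
    · rw [List.map_cons, List.prod_cons, k3, ← mul_assoc, r4b_sw2, one_mul]

theorem r4b_to_ch (n : ℕ) (a : List ℤ) (h : ∀ x ∈ a, 1 ≤ x ∧ x ≤ (n : ℤ) - 1) :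
    r4b_inv n (a.map sw).prod ≤ a.length ∧
      ((a.length : ℤ) = r4b_inv n (a.map sw).prod → r4b_Ch n a (a.map sw).prod) := by
  induction a with
  | nil => simp [r4b_inv_one, r4b_Ch]
  | cons x a ih =>
    obtain ⟨k1, k2⟩ := ih fun y hy => h y (by simp [hy])
    have hx := h x (by simp)
    have e : sw x * ((x :: a).map sw).prod = (a.map sw).prod := by
      rw [List.map_cons, List.prod_cons, ← mul_assoc, r4b_sw2, one_mul]
    have s := r4b_step n hx ((x :: a).map sw).prod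
    rw [e] at s
    simp only [List.length_cons, Nat.cast_add, Nat.cast_one]
    by_cases d : Desc x ((x :: a).map sw).prod
    · rw [if_pos d] at s
      exact ⟨by omega, fun k => ⟨hx, d, by rw [e]; exact k2 (by omega)⟩⟩
    · rw [if_neg d] at s
      exact ⟨by omega, fun k => by omega⟩

theorem r4b_iff (n : ℕ) (a : List ℤ) : r4b_Ch n a (w0 n) ↔ a ∈ nets n := by
  rw [r4b_mem]
  constructor
  · intro h
    have := r4b_of_ch n a _ h
    rw [r4b_inv_w0] at this
    exact ⟨⟨by exact_mod_cast this.1.1, this.1.2⟩, this.2⟩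
  · rintro ⟨⟨h1, h2⟩, h3⟩
    have := (r4b_to_ch n a h2).2
    rw [h3, r4b_inv_w0, h1] at this
    exact this rfl

theorem r4b_desc (n : ℕ) (w : Pm) (h : Supp w 1 n)
    (hd : ∀ x, 1 ≤ x ∧ x ≤ (n : ℤ) - 1 → ¬ Desc x w) : w = 1 := by
  have g1 : ∀ x, x < 1 ∨ (n : ℤ) < x → w⁻¹ x = x := fun x hx =>
    Equiv.Perm.inv_eq_iff_eq.2 (h x hx).symm
  have g2 : ∀ x, w⁻¹ x < 1 ∨ (n : ℤ) < w⁻¹ x → w⁻¹ x = x := fun x hx =>
    w⁻¹.injective (g1 _ hx)
  have g3 : ∀ y, w⁻¹ y < w⁻¹ (y + 1) := fun y => by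
    have hne : w⁻¹ y ≠ w⁻¹ (y + 1) := fun k => by have := w⁻¹.injective k; omega
    have := hd y
    have := g1 y
    have := g1 (y + 1)
    have := g2 y
    have := g2 (y + 1)
    unfold Desc at *
    omega
  have g4 : ∀ (k : ℕ) (y : ℤ), w⁻¹ y + k ≤ w⁻¹ (y + k) := fun k y => by
    induction k with
    | zero => simp
    | succ k ih =>
      have := g3 (y + k)
      push_cast
      rw [← add_assoc y]
      omega
  refine inv_eq_one.1 (Equiv.ext fun x => ?_)
  by_cases hx : x < 1 ∨ (n : ℤ) < x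
  · exact g1 x hx
  · have a1 := g4 x.toNat 0
    have a2 := g4 (n + 1 - x).toNat x
    rw [g1 0 (by omega), show (0 : ℤ) + x.toNat = x by omega] at a1
    rw [show x + ((n + 1 - x).toNat : ℤ) = n + 1 by omega, g1 (n + 1) (by omega)] at a2
    show w⁻¹ x = x
    omega

theorem r4b_ex (n k : ℕ) : ∀ w : Pm, Supp w 1 n → r4b_inv n w < k → ∃ a, r4b_Ch n a w := by
  induction k with
  | zero => intro w _ h; have := r4b_inv_nn n w; omega
  | succ k ih =>
    intro w h1 h2
    by_cases hd : ∀ x, 1 ≤ x ∧ x ≤ (n : ℤ) - 1 → ¬ Desc x w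
    · exact ⟨[], r4b_desc n w h1 hd⟩
    · push Not at hd
      obtain ⟨x, hx, d⟩ := hd
      have s := r4b_step n hx w
      rw [if_pos d] at s
      obtain ⟨a, ha⟩ := ih (sw x * w) (fun y hy => by
        rw [Equiv.Perm.mul_apply, h1 y hy, r4b_sw]; split_ifs <;> omega) (by push_cast at h2; omega)
      exact ⟨x :: a, hx, d, ha⟩

theorem r4b_Red : SpRed := by
  intro n
  refine ⟨?_, fun a => ?_⟩
  · obtain ⟨a, ha⟩ := r4b_ex n (NN n + 1) (w0 n) (fun x hx => by
      rw [r4b_w0, if_neg (by omega)]) (by rw [r4b_inv_w0]; push_cast; omega)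
    exact ⟨a, (r4b_iff n a).1 ha⟩
  · unfold ev
    rw [r4b_ev]
    simp only [r4b_iff]

theorem r4b_conj (n : ℕ) (u : List ℤ) (h : ∀ x ∈ u, 1 ≤ x ∧ x ≤ (n : ℤ) - 1) :
    ((u.map (fun x => (n : ℤ) - x)).map sw).prod = w0 n * (u.map sw).prod * w0 n := by
  induction u with
  | nil => simp [r4b_w02]
  | cons x u ih =>
    have hx := h x (by simp)
    have e : sw (n - x) * w0 n = w0 n * sw x := Equiv.ext fun y => by
      simp only [Equiv.Perm.mul_apply, r4b_sw, r4b_w0]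
      split_ifs <;> omega
    simp only [List.map_cons, List.prod_cons]
    rw [ih fun y hy => h y (by simp [hy]), ← mul_assoc, ← mul_assoc, e, mul_assoc (w0 n)]

theorem r4b_Net : SpNet := by
  intro n
  refine ⟨fun a ha => ((r4b_mem n a).1 ha).1, fun u v x y h hm => ?_, fun u v => ?_⟩
  · obtain ⟨⟨h1, h2⟩, h3⟩ := (r4b_mem n _).1 hm
    have e : sw y * sw x = sw x * sw y := Equiv.ext fun z => by
      simp only [Equiv.Perm.mul_apply, r4b_sw]
      rcases le_abs.1 h with h | h <;> split_ifs <;> omega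
    refine (r4b_mem n _).2 ⟨⟨by simpa using h1, fun z hz => h2 z ?_⟩, ?_⟩
    · simp only [List.mem_append, List.mem_cons] at hz ⊢
      tauto
    · simp only [List.map_append, List.map_cons, List.prod_append, List.prod_cons] at h3 ⊢
      rw [← mul_assoc (sw y), e, mul_assoc (sw x), h3]
  · rw [r4b_mem, r4b_mem]
    have e1 : (∀ x ∈ u ++ v, 1 ≤ x ∧ x ≤ (n : ℤ) - 1) ↔
        ∀ x ∈ v ++ u.map (fun x => (n : ℤ) - x), 1 ≤ x ∧ x ≤ (n : ℤ) - 1 := by
      simp only [List.forall_mem_append, List.forall_mem_map]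
      exact ⟨fun k => ⟨k.2, fun x hx => by have := k.1 x hx; omega⟩,
        fun k => ⟨fun x hx => by have := k.2 x hx; omega, k.1⟩⟩
    rw [← e1]
    simp only [List.length_append, List.length_map, add_comm v.length]
    refine and_congr_right fun k => ?_
    rw [List.map_append, List.map_append, List.prod_append, List.prod_append,
      r4b_conj n u fun x hx => k.2 x (by simp [hx]), ← mul_assoc, mul_eq_right, ← mul_assoc,
      mul_eq_one_comm, ← mul_assoc, mul_eq_one_iff_eq_inv,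
      inv_eq_of_mul_eq_one_right (r4b_w02 n)]

end Pool.Agent.MP_a5ded6_pr.POIS
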