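import Pool.Agent.MP_a5ded6_pr.POIS.Spec

set_option autoImplicit false

namespace Pool.Agent.MP_a5ded6_pr.POIS

open Finset

theorem r4c_sum {M : Type} [AddCommMonoid M] (s : Finset ℤ) (m : ℕ) (f : List ℤ → M) :
    ∑ a ∈ words s (m + 1), f a = ∑ i ∈ s, ∑ a ∈ words s m, f (i :: a) := by
  rw [words, sum_image, sum_product]
  rintro ⟨a, b⟩ - ⟨c, d⟩ - h
  simpa using h

theorem r4c_mem (s : Finset ℤ) (m : ℕ) (a : List ℤ) :
    a ∈ words s m ↔ a.length = m ∧ ∀ x ∈ a, x ∈ s := by
  induction m generalizing a with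
  | zero =>
    simp only [words, mem_singleton, List.length_eq_zero_iff]
    exact ⟨fun h => by simp [h], fun h => h.1⟩
  | succ m ih =>
    simp only [words, mem_image, mem_product, Prod.exists]
    constructor
    · rintro ⟨x, b, ⟨hx, hb⟩, rfl⟩
      obtain ⟨h1, h2⟩ := (ih b).1 hb
      refine ⟨by simp [h1], fun y hy => ?_⟩
      rcases List.mem_cons.1 hy with rfl | hy
      · exact hx
      · exact h2 y hy
    · rintro ⟨h1, h2⟩
      cases a with
      | nil => simp at h1
      | cons x b =>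
        exact ⟨x, b, ⟨h2 x (by simp), (ih b).2 ⟨by simpa using h1,
          fun y hy => h2 y (by simp [hy])⟩⟩, rfl⟩

theorem r4c_cons (D : ℤ → En) (x : ℤ) (a : List ℤ) : Dw D (x :: a) = D x * Dw D a := by
  simp [Dw]

theorem r4c_app (D : ℤ → En) (u v : List ℤ) : Dw D (u ++ v) = Dw D u * Dw D v := by
  simp [Dw]

open Classical in
theorem r4c_mono {D : ℤ → En} {lo hi : ℤ} (h : NC D lo hi) (l : List (Option ℤ)) :
    mono D (UU D lo hi) l =
      ∑ a ∈ words (Icc lo hi) l.length, (if Match l a then (1 : ℝ) else 0) • Dw D a := by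
  induction l with
  | nil => simp [mono, words, Match, Dw]
  | cons o l ih =>
    have e : mono D (UU D lo hi) (o :: l) = o.elim (UU D lo hi) D * mono D (UU D lo hi) l := by
      simp [mono]
    rw [e, ih, List.length_cons, r4c_sum]
    cases o with
    | none =>
      rw [Option.elim_none, UU, sum_mul]
      refine sum_congr rfl fun i _ => ?_
      rw [mul_sum]
      refine sum_congr rfl fun a _ => ?_
      have : Match (none :: l) (i :: a) ↔ Match l a := by simp [Match]
      rw [r4c_cons, mul_smul_comm, if_congr this rfl rfl]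
    | some x =>
      have k : ∀ i a, (if Match (some x :: l) (i :: a) then (1 : ℝ) else 0) • Dw D (i :: a) =
          if x = i then D x * ((if Match l a then (1 : ℝ) else 0) • Dw D a) else 0 := by
        intro i a
        have : Match (some x :: l) (i :: a) ↔ x = i ∧ Match l a := by simp [Match]
        by_cases hx : x = i
        · subst hx
          rw [if_pos rfl, r4c_cons, mul_smul_comm,
            if_congr (this.trans (and_iff_right rfl)) rfl rfl]
        · rw [if_neg hx, if_neg (fun hh => hx (this.1 hh).1), zero_smul]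
      simp only [k, Option.elim_some]
      rw [sum_comm]
      simp only [sum_ite_eq, mul_sum]
      refine sum_congr rfl fun a _ => ?_
      split_ifs with h1 h2 h3
      · rfl
      · rw [h.out x (by simp only [mem_Icc] at h2; omega), zero_mul]
      · rfl
      · rw [h.out x (by simp only [mem_Icc] at h3; omega), zero_mul]

theorem r4c_Y (k : ℕ) (x : ℤ) (a : List ℤ) :
    Y (k + 1) (x :: a) = (if isBr (x :: a) then Y k ((x :: a).drop 3) else 0) + Y (k + 1) a := by
  simp only [Y, List.tails_cons, List.map_cons, List.sum_cons]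

theorem r4c_len {a : List ℤ} (h : isBr a = true) : 3 ≤ a.length := by
  match a, h with
  | _ :: _ :: _ :: _, _ => simp

theorem r4c_Y0 (k : ℕ) : ∀ a : List ℤ, a.length < 3 * k → Y k a = 0 := by
  induction k with
  | zero => intro a h; omega
  | succ k ih =>
    intro a
    induction a with
    | nil => intro _; simp [Y, isBr]
    | cons x a iha =>
      intro h
      rw [r4c_Y, iha (by simp only [List.length_cons] at h; omega), add_zero]
      split_ifs with hb
      · have := r4c_len hb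
        exact ih _ (by rw [List.length_drop]; omega)
      · rfl

/-- the weighted sum over all words. -/
noncomputable def r4c_T (D : ℤ → En) (s : Finset ℤ) (k m : ℕ) : En :=
  ∑ a ∈ words s m, (Y k a : ℝ) • Dw D a

theorem r4c_br {D : ℤ → En} {lo hi : ℤ} (h : NC D lo hi) :
    ∑ x ∈ Icc lo hi, ∑ y ∈ Icc lo hi, ∑ z ∈ Icc lo hi,
      (if x = z ∧ (y = x + 1 ∨ x = y + 1) then D x * D y * D z else 0) = (2 : ℝ) • Bs D lo hi := by
  have e1 : ∀ x ∈ Icc lo hi, ∀ y, ∑ z ∈ Icc lo hi,
      (if x = z ∧ (y = x + 1 ∨ x = y + 1) then D x * D y * D z else 0) =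
      (if y = x + 1 then D x * D y * D x else 0) + (if x = y + 1 then D x * D y * D x else 0) := by
    intro x hx y
    rw [sum_eq_single x (fun z _ hz => if_neg fun hh => hz hh.1.symm) (fun hh => absurd hx hh)]
    by_cases h1 : y = x + 1
    · rw [if_pos ⟨rfl, Or.inl h1⟩, if_pos h1, if_neg (by omega), add_zero]
    · by_cases h2 : x = y + 1
      · rw [if_pos ⟨rfl, Or.inr h2⟩, if_neg h1, if_pos h2, zero_add]
      · rw [if_neg (by tauto), if_neg h1, if_neg h2, add_zero]
  have z : ∀ x ∈ Icc lo hi, x + 1 ∉ Icc lo hi → D (x + 1) = 0 := fun x hx hx' =>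
    h.out _ (by simp only [mem_Icc] at hx hx'; omega)
  rw [sum_congr rfl fun x hx => sum_congr rfl fun y _ => e1 x hx y]
  simp only [sum_add_distrib]
  rw [two_smul, sum_comm (f := fun x y => if x = y + 1 then D x * D y * D x else 0)]
  simp only [sum_ite_eq', Bs, bb]
  refine congrArg₂ (· + ·) (sum_congr rfl fun x hx => ?_) (sum_congr rfl fun x hx => ?_)
  · split_ifs with h1
    · rfl
    · rw [z x hx h1]; simp
  · split_ifs with h1
    · exact (h.braid x).symm
    · rw [z x hx h1]; simp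

theorem r4c_step {D : ℤ → En} {lo hi : ℤ} (h : NC D lo hi) (k j : ℕ) :
    r4c_T D (Icc lo hi) (k + 1) (j + 3) = (2 : ℝ) • Bs D lo hi * r4c_T D (Icc lo hi) k j +
      UU D lo hi * r4c_T D (Icc lo hi) (k + 1) (j + 2) := by
  rw [← r4c_br h]
  unfold r4c_T
  rw [r4c_sum]
  simp only [r4c_Y, Nat.cast_add, add_smul, sum_add_distrib]
  refine congrArg₂ (· + ·) ?_ ?_
  · rw [sum_mul]
    refine sum_congr rfl fun x _ => ?_
    rw [r4c_sum, sum_mul]
    refine sum_congr rfl fun y _ => ?_
    rw [r4c_sum, sum_mul]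
    refine sum_congr rfl fun z _ => ?_
    rw [mul_sum]
    refine sum_congr rfl fun a _ => ?_
    have e : isBr (x :: y :: z :: a) = decide (x = z ∧ (y = x + 1 ∨ x = y + 1)) := rfl
    rw [e]
    by_cases hb : x = z ∧ (y = x + 1 ∨ x = y + 1)
    · rw [if_pos (decide_eq_true hb), if_pos hb, mul_smul_comm]
      simp only [r4c_cons, mul_assoc, List.drop_succ_cons, List.drop_zero]
    · rw [if_neg (by simpa using hb), if_neg hb]
      simp
  · rw [UU, sum_mul]
    simp only [mul_sum, r4c_cons, mul_smul_comm]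

theorem r4c_SS {D : ℤ → En} {lo hi : ℤ} (h : NC D lo hi) (k : ℕ) : ∀ K : ℕ,
    SS (UU D lo hi) ((2 : ℝ) • Bs D lo hi) k K = r4c_T D (Icc lo hi) k (3 * k + K) := by
  induction k with
  | zero =>
    intro K
    simp only [SS, r4c_T, Y, Nat.cast_one, one_smul, mul_zero, zero_add]
    induction K with
    | zero => simp [words, Dw]
    | succ K ih =>
      rw [pow_succ', ih, r4c_sum]
      rw [UU, sum_mul]
      simp only [mul_sum, r4c_cons]
  | succ k ih =>
    intro K
    induction K with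
    | zero =>
      have z : r4c_T D (Icc lo hi) (k + 1) (3 * k + 2) = 0 :=
        sum_eq_zero fun a ha => by
          rw [r4c_Y0 _ a (by rw [((r4c_mem _ _ _).1 ha).1]; omega)]; simp
      rw [show 3 * (k + 1) + 0 = 3 * k + 3 by ring, r4c_step h, z, mul_zero, add_zero]
      simp [SS, ih]
    | succ K ihK =>
      rw [show 3 * (k + 1) + (K + 1) = 3 * k + (K + 1) + 3 by ring, r4c_step h, ← ih,
        show 3 * k + (K + 1) + 2 = 3 * (k + 1) + K by ring, ← ihK]
      simp only [SS]
      rw [sum_range_succ', add_comm, mul_sum]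
      simp only [pow_zero, one_mul, Nat.sub_zero, Nat.add_sub_add_right, pow_succ', mul_assoc]

/-- evaluation as a linear map. -/
noncomputable def r4c_ev (n : ℕ) : En →ₗ[ℝ] ℝ where
  toFun := ev n
  map_add' _ _ := rfl
  map_smul' _ _ := rfl

theorem r4c_eval (h2 : SpRed) (h3 : SpNet) (n m : ℕ) (c : List ℤ → ℝ) :
    ev n (∑ a ∈ words (Icc 1 ((n : ℤ) - 1)) m, c a • Dw (Dn n) a) =
      if m = NN n then ∑ a ∈ nets n, c a else 0 := by
  classical
  change r4c_ev n _ = _
  rw [map_sum]
  have e : ∀ a, r4c_ev n (c a • Dw (Dn n) a) = if a ∈ nets n then c a else 0 := fun a => by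
    rw [map_smul]
    change c a • ev n _ = _
    rw [(h2 n).2 a]
    split_ifs <;> simp
  simp only [e]
  rw [sum_ite_mem]
  split_ifs with hm
  · refine sum_congr (inter_eq_right.2 fun a ha => (r4c_mem _ _ _).2 ?_) fun _ _ => rfl
    obtain ⟨k1, k2⟩ := (h3 n).1 a ha
    exact ⟨k1.trans hm.symm, fun x hx => mem_Icc.2 (k2 x hx)⟩
  · refine sum_eq_zero fun a ha => absurd ?_ hm
    rw [← ((r4c_mem _ _ _).1 (mem_inter.1 ha).1).1, ((h3 n).1 a (mem_inter.1 ha).2).1]

theorem r4c_rot (h1 : SpNC) (h2 : SpRed) (h3 : SpNet) (n : ℕ) {r K : ℕ} {ω : ℝ} {y : En}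
    (hy : AC (Dn n) (Un n) r K ω y) (v : List ℤ) :
    r4c_ev n (y * Dw (Dn n) v) = r4c_ev n (Dw (Dn n) (v.map fun x => (n : ℤ) - x) * y) := by
  induction hy with
  | mono l _ _ =>
    have e := r4c_mono (h1 1 ((n : ℤ) - 1)) l
    change mono (Dn n) (Un n) l = _ at e
    rw [e, sum_mul, mul_sum, map_sum, map_sum]
    refine sum_congr rfl fun a _ => ?_
    rw [smul_mul_assoc, mul_smul_comm, map_smul, map_smul]
    refine congrArg _ ?_
    change ev n (Dw (Dn n) a * _) = ev n (_ * Dw (Dn n) a)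
    rw [← r4c_app, ← r4c_app, (h2 n).2, (h2 n).2]
    have := (h3 n).2.2 (v.map fun x => (n : ℤ) - x) a
    rw [List.map_map, show ((fun x => (n : ℤ) - x) ∘ fun x => (n : ℤ) - x) = id from
      funext fun x => by simp, List.map_id] at this
    exact if_congr this.symm rfl rfl
  | zero => simp
  | add _ _ i1 i2 => rw [add_mul, mul_add, map_add, map_add, i1, i2]
  | smul c _ i1 => rw [smul_mul_assoc, mul_smul_comm, map_smul, map_smul, i1]
  | le _ _ i1 => exact i1

theorem r4c_Count (h1 : SpNC) (h2 : SpRed) (h3 : SpNet) : SpCount := by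
  classical
  intro n
  have hN : NC (Dn n) 1 ((n : ℤ) - 1) := h1 _ _
  refine ⟨fun l => ?_, fun k K => ?_, fun r K ω y hy => ?_⟩
  · rw [Un, r4c_mono hN, r4c_eval h2 h3]
    split_ifs with hm
    · rw [sum_boole]
    · have : (nets n).filter (Match l) = ∅ := filter_eq_empty_iff.2 fun a ha hl =>
        hm ((List.Forall₂.length_eq hl).trans ((h3 n).1 a ha).1)
      rw [this]
      simp
  · rw [Un, r4c_SS hN, r4c_T, r4c_eval h2 h3]
  · change r4c_ev n (y * WW (Dn n) 1 (n - 1) (((n : ℝ) - 1) / 2)) =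
      r4c_ev n (WW (Dn n) 1 (n - 1) (((n : ℝ) - 1) / 2) * y)
    let g : ℤ → ℝ := fun j => (((n : ℝ) - 1) / 2 - j) * r4c_ev n (cc (Dn n) j * y)
    have g0 : g 0 = 0 := by simp [g, cc, hN.out 0 (Or.inl one_pos)]
    have g1 : g (n - 1) = 0 := by simp [g, cc, hN.out n (Or.inr (by omega))]
    have l1 : r4c_ev n (y * WW (Dn n) 1 (n - 1) (((n : ℝ) - 1) / 2)) =
        ∑ i ∈ Icc (1 : ℤ) (n - 1), g (n - 1 - i) := by
      rw [WW, mul_sum, map_sum]
      refine sum_congr rfl fun i _ => ?_
      have a1 := r4c_rot h1 h2 h3 n hy [i, i + 1]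
      have a2 := r4c_rot h1 h2 h3 n hy [i + 1, i]
      simp only [Dw, List.map_cons, List.map_nil, List.prod_cons, List.prod_nil, mul_one] at a1 a2
      simp only [g, cc, mul_smul_comm, map_smul, mul_sub, sub_mul, map_sub, smul_eq_mul, a1, a2]
      rw [show (n : ℤ) - 1 - i + 1 = n - i by ring, show (n : ℤ) - (i + 1) = n - 1 - i by ring]
      push_cast
      ring
    have l2 : r4c_ev n (WW (Dn n) 1 (n - 1) (((n : ℝ) - 1) / 2) * y) =
        ∑ i ∈ Icc (1 : ℤ) (n - 1), g i := by
      rw [WW, sum_mul, map_sum]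
      refine sum_congr rfl fun i _ => ?_
      rw [smul_mul_assoc, map_smul, smul_eq_mul]
    have sub : Icc (1 : ℤ) (n - 1) ⊆ Icc (0 : ℤ) (n - 1) := Icc_subset_Icc_left zero_le_one
    have ex : ∀ i ∈ Icc (0 : ℤ) (n - 1), i ∉ Icc (1 : ℤ) (n - 1) → i = 0 := fun i a b => by
      simp only [mem_Icc] at a b; omega
    rw [l1, l2, sum_subset sub fun i a b => by rw [ex i a b, sub_zero, g1],
      sum_subset sub fun i a b => by rw [ex i a b, g0]]
    refine sum_nbij' (fun i => (n : ℤ) - 1 - i) (fun i => (n : ℤ) - 1 - i) ?_ ?_ ?_ ?_ ?_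
    · intro i hi; simp only [mem_Icc] at hi ⊢; omega
    · intro i hi; simp only [mem_Icc] at hi ⊢; omega
    · intro i _; ring
    · intro i _; ring
    · intro i _; rfl

end Pool.Agent.MP_a5ded6_pr.POIS
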