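import Pool.Agent.MP_a5ded6_pr.POIS.Spec

set_option autoImplicit false

namespace Pool.Agent.MP_a5ded6_pr.POIS

open Finset

/-- the wires `0, …, n` placed at `1, …, n+1` -/
def r4d_emb (n : ℕ) : Fin (n + 1) ↪ ℤ :=
  ⟨fun i => ((i : ℕ) : ℤ) + 1, fun i j h => by
    apply Fin.ext
    have h' : ((i : ℕ) : ℤ) + 1 = ((j : ℕ) : ℤ) + 1 := h
    omega⟩

theorem r4d_emb_apply (n : ℕ) (i : Fin (n + 1)) : r4d_emb n i = ((i : ℕ) : ℤ) + 1 := rfl

theorem r4d_mem_range (n : ℕ) (x : ℤ) (h1 : 1 ≤ x) (h2 : x ≤ (n : ℤ) + 1) :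
    ∃ i : Fin (n + 1), r4d_emb n i = x := by
  refine ⟨⟨(x - 1).toNat, by omega⟩, ?_⟩
  rw [r4d_emb_apply]
  show (((x - 1).toNat : ℕ) : ℤ) + 1 = x
  omega

theorem r4d_not_mem_range (n : ℕ) (x : ℤ) (h : ¬ (1 ≤ x ∧ x ≤ (n : ℤ) + 1)) :
    x ∉ Set.range (r4d_emb n) := by
  rintro ⟨i, hi⟩
  rw [r4d_emb_apply] at hi
  have := i.2
  omega

theorem r4d_hom_swap (n : ℕ) (a : Fin n) :
    Equiv.Perm.viaEmbeddingHom (r4d_emb n) (Equiv.swap a.castSucc a.succ) =
      sw (((a : ℕ) : ℤ) + 1) := by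
  rw [Equiv.Perm.viaEmbeddingHom_apply]
  ext x
  have ha := a.2
  by_cases hx : 1 ≤ x ∧ x ≤ (n : ℤ) + 1
  · obtain ⟨i, rfl⟩ := r4d_mem_range n x hx.1 hx.2
    rw [Equiv.Perm.viaEmbedding_apply]
    have e1 : r4d_emb n a.castSucc = ((a : ℕ) : ℤ) + 1 := by
      rw [r4d_emb_apply, Fin.val_castSucc]
    have e2 : r4d_emb n a.succ = ((a : ℕ) : ℤ) + 1 + 1 := by
      rw [r4d_emb_apply, Fin.val_succ]; push_cast; ring
    unfold sw
    rw [← e2, ← e1]
    exact ((r4d_emb n).injective.swap_apply _ _ _).symm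
  · rw [Equiv.Perm.viaEmbedding_apply_of_notMem _ _ _ (r4d_not_mem_range n x hx)]
    unfold sw
    rw [Equiv.swap_apply_of_ne_of_ne] <;> omega

theorem r4d_hom_rev (n : ℕ) :
    Equiv.Perm.viaEmbeddingHom (r4d_emb n) Fin.revPerm = w0 (n + 1) := by
  rw [Equiv.Perm.viaEmbeddingHom_apply]
  ext x
  have hw : (w0 (n + 1)) x = w0fun (n + 1) x := rfl
  rw [hw]
  unfold w0fun
  by_cases hx : 1 ≤ x ∧ x ≤ (n : ℤ) + 1
  · obtain ⟨i, rfl⟩ := r4d_mem_range n x hx.1 hx.2
    rw [Equiv.Perm.viaEmbedding_apply, if_pos (by push_cast; exact hx)]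
    have hi := i.2
    rw [r4d_emb_apply, r4d_emb_apply, Fin.revPerm_apply, Fin.val_rev]
    push_cast
    omega
  · rw [Equiv.Perm.viaEmbedding_apply_of_notMem _ _ _ (r4d_not_mem_range n x hx),
      if_neg (by push_cast; exact hx)]

theorem r4d_mem_words (s : Finset ℤ) (m : ℕ) (a : List ℤ) :
    a ∈ words s m ↔ a.length = m ∧ ∀ x ∈ a, x ∈ s := by
  induction m generalizing a with
  | zero =>
    simp only [words, mem_singleton, List.length_eq_zero_iff]
    constructor
    · rintro rfl; simp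
    · exact fun h => h.1
  | succ m ih =>
    simp only [words, mem_image, mem_product, Prod.exists]
    constructor
    · rintro ⟨x, u, ⟨hx, hu⟩, rfl⟩
      obtain ⟨h1, h2⟩ := (ih u).1 hu
      refine ⟨by simp [h1], ?_⟩
      intro y hy
      rcases List.mem_cons.1 hy with rfl | hy
      · exact hx
      · exact h2 y hy
    · rintro ⟨h1, h2⟩
      cases a with
      | nil => simp at h1
      | cons x u =>
        refine ⟨x, u, ⟨h2 x (by simp), (ih u).2 ⟨by simpa using h1, fun y hy => h2 y (by simp [hy])⟩⟩,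
          rfl⟩

theorem r4d_isBr_shift (u : List ℤ) : isBr (u.map (fun x => x + 1)) = isBr u := by
  match u with
  | [] => rfl
  | [_] => rfl
  | [_, _] => rfl
  | a :: b :: c :: _ =>
    simp only [List.map_cons, isBr]
    apply decide_eq_decide.2
    constructor <;> intro h <;> omega

theorem r4d_braids_shift (u : List ℤ) : braids (u.map (fun x => x + 1)) = braids u := by
  unfold braids
  induction u with
  | nil => rfl
  | cons x u ih =>
    have h := r4d_isBr_shift (x :: u)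
    rw [List.map_cons] at h
    rw [List.map_cons, List.tails_cons, List.tails_cons, List.countP_cons, List.countP_cons, ih, h]

/-- the word attached to a function -/
def r4d_word {n m : ℕ} (k : Fin m → Fin n) : List ℤ :=
  (List.ofFn k).map (fun a : Fin n => ((a : ℕ) : ℤ) + 1)

theorem r4d_word_inj {n m : ℕ} : Function.Injective (r4d_word : (Fin m → Fin n) → List ℤ) := by
  intro k l h
  unfold r4d_word at h
  have hi : Function.Injective (fun a : Fin n => ((a : ℕ) : ℤ) + 1) := by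
    intro i j hij
    apply Fin.ext
    have h' : ((i : ℕ) : ℤ) + 1 = ((j : ℕ) : ℤ) + 1 := hij
    omega
  exact List.ofFn_injective (List.map_injective_iff.2 hi h)

theorem r4d_word_mem {n m : ℕ} (k : Fin m → Fin n) :
    r4d_word k ∈ words (Icc 1 (((n + 1 : ℕ) : ℤ) - 1)) m := by
  rw [r4d_mem_words]
  refine ⟨by simp [r4d_word], ?_⟩
  intro x hx
  unfold r4d_word at hx
  obtain ⟨a, -, rfl⟩ := List.mem_map.1 hx
  have := a.2
  rw [mem_Icc]
  push_cast
  omega

theorem r4d_word_surj {n m : ℕ} (a : List ℤ)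
    (ha : a ∈ words (Icc 1 (((n + 1 : ℕ) : ℤ) - 1)) m) :
    ∃ k : Fin m → Fin n, r4d_word k = a := by
  rw [r4d_mem_words] at ha
  obtain ⟨h1, h2⟩ := ha
  subst h1
  have hb : ∀ i : Fin a.length, 1 ≤ a.get i ∧ a.get i ≤ (n : ℤ) := by
    intro i
    have := h2 (a.get i) (List.get_mem _ _)
    rw [mem_Icc] at this
    push_cast at this
    omega
  refine ⟨fun i => ⟨(a.get i - 1).toNat, by have := hb i; omega⟩, ?_⟩
  unfold r4d_word
  rw [List.map_ofFn]
  conv_rhs => rw [← List.ofFn_get a]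
  congr 1
  funext i
  have := hb i
  show ((((a.get i - 1).toNat : ℕ)) : ℤ) + 1 = a.get i
  omega

theorem r4d_prod_iff {n m : ℕ} (k : Fin m → Fin n) :
    ((List.ofFn k).map (fun a : Fin n => Equiv.swap a.castSucc a.succ)).prod = Fin.revPerm ↔
      ((r4d_word k).map sw).prod = w0 (n + 1) := by
  have h : ((r4d_word k).map sw).prod = Equiv.Perm.viaEmbeddingHom (r4d_emb n)
      ((List.ofFn k).map (fun a : Fin n => Equiv.swap a.castSucc a.succ)).prod := by
    rw [map_list_prod, List.map_map]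
    unfold r4d_word
    rw [List.map_map]
    congr 1
    apply List.map_congr_left
    intro a _
    exact (r4d_hom_swap n a).symm
  rw [h, ← r4d_hom_rev]
  exact (Equiv.Perm.viaEmbeddingHom_injective (r4d_emb n)).eq_iff.symm

theorem r4d_braids_word {n m : ℕ} (k : Fin m → Fin n) :
    braids (r4d_word k) = braids ((List.ofFn k).map (fun a : Fin n => ((a : ℕ) : ℤ))) := by
  rw [← r4d_braids_shift ((List.ofFn k).map (fun a : Fin n => ((a : ℕ) : ℤ))), List.map_map]
  rfl

theorem r4d_mem_nets (n : ℕ) (a : List ℤ) :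
    a ∈ nets (n + 1) ↔
      a ∈ words (Icc 1 (((n + 1 : ℕ) : ℤ) - 1)) ((n + 1) * n / 2) ∧
        (a.map sw).prod = w0 (n + 1) := by
  classical
  unfold nets
  simp only [mem_filter]
  rfl

theorem r4d_Link : SpLink := by
  intro n
  refine ⟨?_, fun j => ?_⟩
  · apply card_bij (fun k _ => r4d_word k)
    · intro k hk
      rw [mem_filter] at hk
      rw [r4d_mem_nets]
      exact ⟨r4d_word_mem k, (r4d_prod_iff k).1 hk.2⟩
    · intro k _ l _ h
      exact r4d_word_inj h
    · intro a ha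
      rw [r4d_mem_nets] at ha
      obtain ⟨k, rfl⟩ := r4d_word_surj a ha.1
      exact ⟨k, mem_filter.2 ⟨mem_univ _, (r4d_prod_iff k).2 ha.2⟩, rfl⟩
  · apply card_bij (fun k _ => r4d_word k)
    · intro k hk
      rw [mem_filter] at hk
      rw [mem_filter, r4d_mem_nets, r4d_braids_word]
      exact ⟨⟨r4d_word_mem k, (r4d_prod_iff k).1 hk.2.1⟩, hk.2.2⟩
    · intro k _ l _ h
      exact r4d_word_inj h
    · intro a ha
      rw [mem_filter, r4d_mem_nets] at ha
      obtain ⟨k, rfl⟩ := r4d_word_surj a ha.1.1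
      refine ⟨k, mem_filter.2 ⟨mem_univ _, (r4d_prod_iff k).2 ha.1.2, ?_⟩, rfl⟩
      rw [← r4d_braids_word]
      exact ha.2

end Pool.Agent.MP_a5ded6_pr.POIS
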