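import Pool.Agent.MP_a5ded6_pr.POIS.Spec

set_option autoImplicit false

namespace Pool.Agent.MP_a5ded6_pr.POIS

open Finset

theorem r5a_swap (a b x : ℤ) :
    (x = a ∧ Equiv.swap a b x = b) ∨ (x = b ∧ Equiv.swap a b x = a) ∨
      (x ≠ a ∧ x ≠ b ∧ Equiv.swap a b x = x) := by
  by_cases h1 : x = a
  · left; subst h1; simp
  · by_cases h2 : x = b
    · right; left; subst h2; simp
    · right; right; exact ⟨h1, h2, Equiv.swap_apply_of_ne_of_ne h1 h2⟩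

theorem r5a_val (π : Pm) (i c : ℤ) :
    (c = π⁻¹ i ∧ π c = i ∧ (sw i * π) c = i + 1) ∨
      (c = π⁻¹ (i + 1) ∧ π c = i + 1 ∧ (sw i * π) c = i) ∨
      (c ≠ π⁻¹ i ∧ c ≠ π⁻¹ (i + 1) ∧ π c ≠ i ∧ π c ≠ i + 1 ∧ (sw i * π) c = π c) := by
  have e : ∀ x, c = π⁻¹ x ↔ π c = x := by
    intro x
    constructor
    · intro h; rw [h]; simp
    · intro h; rw [← h]; simp
  rcases r5a_swap i (i + 1) (π c) with ⟨h1, h2⟩ | ⟨h1, h2⟩ | ⟨h1, h2, h3⟩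
  · left; exact ⟨(e _).2 h1, h1, h2⟩
  · right; left; exact ⟨(e _).2 h1, h1, h2⟩
  · right; right
    exact ⟨fun h => h1 ((e _).1 h), fun h => h2 ((e _).1 h), h1, h2, h3⟩

theorem r5a_desc (π : Pm) (i a b : ℤ) :
    Desc i (π * Equiv.swap a b) ↔
      Equiv.swap a b (π⁻¹ (i + 1)) < Equiv.swap a b (π⁻¹ i) := by
  simp [Desc]

theorem r5a_key (π : Pm) (i a b : ℤ)
    (h1 : ¬ (a = π⁻¹ i ∧ b = π⁻¹ (i + 1))) (h2 : ¬ (a = π⁻¹ (i + 1) ∧ b = π⁻¹ i)) :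
    (Cover π a b ∧ Desc i (π * Equiv.swap a b)) ↔ (Desc i π ∧ Cover (sw i * π) a b) := by
  rw [r5a_desc]
  unfold Cover Desc
  have ta := r5a_swap a b (π⁻¹ i)
  have tb := r5a_swap a b (π⁻¹ (i + 1))
  have va := r5a_val π i a
  have vb := r5a_val π i b
  have p1 : π (π⁻¹ i) = i := by simp
  have p2 : π (π⁻¹ (i + 1)) = i + 1 := by simp
  have s1 : (sw i * π) (π⁻¹ i) = i + 1 := by simp [sw]
  have s2 : (sw i * π) (π⁻¹ (i + 1)) = i := by simp [sw]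
  have hne : π⁻¹ i ≠ π⁻¹ (i + 1) := by
    intro h
    have := π⁻¹.injective h
    omega
  constructor
  · rintro ⟨⟨hab, hv, H⟩, hd⟩
    have Ha := H (π⁻¹ i)
    have Hb := H (π⁻¹ (i + 1))
    rw [p1] at Ha
    rw [p2] at Hb
    refine ⟨by omega, hab, by omega, fun c hc1 hc2 => ?_⟩
    have Hc := H c hc1 hc2
    have vc := r5a_val π i c
    omega
  · rintro ⟨hd, hab, hv, H⟩
    have Ha := H (π⁻¹ i)
    have Hb := H (π⁻¹ (i + 1))
    rw [s1] at Ha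
    rw [s2] at Hb
    refine ⟨⟨hab, by omega, fun c hc1 hc2 => ?_⟩, by omega⟩
    have Hc := H c hc1 hc2
    have vc := r5a_val π i c
    omega

theorem r5a_diag (π : Pm) (i : ℤ) :
    sw i * (π * Equiv.swap (π⁻¹ i) (π⁻¹ (i + 1))) = π := by
  have h : π * Equiv.swap (π⁻¹ i) (π⁻¹ (i + 1)) = sw i * π := by
    rw [Equiv.mul_swap_eq_swap_mul]; simp [sw]
  rw [h, ← mul_assoc, sw, Equiv.swap_mul_self, one_mul]

open Classical in
theorem r5a_term (π : Pm) (i a b : ℤ) (f : Fn) :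
    (if Cover π a b then Dop i f (π * Equiv.swap a b) else 0) =
      (if Desc i π then (if Cover (sw i * π) a b then f (sw i * π * Equiv.swap a b) else 0) else 0) +
      (if a = π⁻¹ i ∧ b = π⁻¹ (i + 1) ∧ a < b then f π else 0) -
      (if a = π⁻¹ (i + 1) ∧ b = π⁻¹ i ∧ a < b then f π else 0) := by
  have hD : Dop i f (π * Equiv.swap a b) =
      if Desc i (π * Equiv.swap a b) then f (sw i * (π * Equiv.swap a b)) else 0 := rfl
  have hne : π⁻¹ i ≠ π⁻¹ (i + 1) := by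
    intro h
    have := π⁻¹.injective h
    omega
  have p1 : π (π⁻¹ i) = i := by simp
  have p2 : π (π⁻¹ (i + 1)) = i + 1 := by simp
  have s1 : (sw i * π) (π⁻¹ i) = i + 1 := by simp [sw]
  have s2 : (sw i * π) (π⁻¹ (i + 1)) = i := by simp [sw]
  rw [hD]
  by_cases h1 : a = π⁻¹ i ∧ b = π⁻¹ (i + 1)
  · obtain ⟨rfl, rfl⟩ := h1
    have c2 : ¬ Cover (sw i * π) (π⁻¹ i) (π⁻¹ (i + 1)) := by
      rintro ⟨_, h, _⟩
      rw [s1, s2] at h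
      omega
    have c3 : ¬ (π⁻¹ i = π⁻¹ (i + 1) ∧ π⁻¹ (i + 1) = π⁻¹ i ∧ π⁻¹ i < π⁻¹ (i + 1)) :=
      fun h => hne h.1
    rw [if_neg c2, if_neg c3, r5a_diag]
    by_cases hl : π⁻¹ i < π⁻¹ (i + 1)
    · have c1 : Cover π (π⁻¹ i) (π⁻¹ (i + 1)) := by
        refine ⟨hl, by rw [p1, p2]; omega, fun c _ _ => ?_⟩
        rw [p1, p2]; omega
      have d1 : Desc i (π * Equiv.swap (π⁻¹ i) (π⁻¹ (i + 1))) := by
        rw [r5a_desc, Equiv.swap_apply_left, Equiv.swap_apply_right]; exact hl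
      have c4 : π⁻¹ i = π⁻¹ i ∧ π⁻¹ (i + 1) = π⁻¹ (i + 1) ∧ π⁻¹ i < π⁻¹ (i + 1) := ⟨rfl, rfl, hl⟩
      rw [if_pos c1, if_pos d1, if_pos c4]
      simp
    · have c1 : ¬ Cover π (π⁻¹ i) (π⁻¹ (i + 1)) := fun h => hl h.1
      have c4 : ¬ (π⁻¹ i = π⁻¹ i ∧ π⁻¹ (i + 1) = π⁻¹ (i + 1) ∧ π⁻¹ i < π⁻¹ (i + 1)) :=
        fun h => hl h.2.2
      rw [if_neg c1, if_neg c4]
      simp
  · by_cases h2 : a = π⁻¹ (i + 1) ∧ b = π⁻¹ i
    · obtain ⟨rfl, rfl⟩ := h2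
      have c1 : ¬ Cover π (π⁻¹ (i + 1)) (π⁻¹ i) := by
        rintro ⟨_, h, _⟩
        rw [p1, p2] at h
        omega
      have c3 : ¬ (π⁻¹ (i + 1) = π⁻¹ i ∧ π⁻¹ i = π⁻¹ (i + 1) ∧ π⁻¹ (i + 1) < π⁻¹ i) :=
        fun h => hne h.1.symm
      rw [if_neg c1, if_neg c3, mul_assoc, Equiv.swap_comm, r5a_diag]
      by_cases hl : π⁻¹ (i + 1) < π⁻¹ i
      · have c2 : Cover (sw i * π) (π⁻¹ (i + 1)) (π⁻¹ i) := by
          refine ⟨hl, by rw [s1, s2]; omega, fun c _ _ => ?_⟩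
          rw [s1, s2]; omega
        have d1 : Desc i π := hl
        have c4 : π⁻¹ (i + 1) = π⁻¹ (i + 1) ∧ π⁻¹ i = π⁻¹ i ∧ π⁻¹ (i + 1) < π⁻¹ i := ⟨rfl, rfl, hl⟩
        rw [if_pos d1, if_pos c2, if_pos c4]
        simp
      · have d1 : ¬ Desc i π := hl
        have c4 : ¬ (π⁻¹ (i + 1) = π⁻¹ (i + 1) ∧ π⁻¹ i = π⁻¹ i ∧ π⁻¹ (i + 1) < π⁻¹ i) :=
          fun h => hl h.2.2
        rw [if_neg d1, if_neg c4]
        simp
    · have k := r5a_key π i a b h1 h2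
      have c3 : ¬ (a = π⁻¹ i ∧ b = π⁻¹ (i + 1) ∧ a < b) := fun h => h1 ⟨h.1, h.2.1⟩
      have c4 : ¬ (a = π⁻¹ (i + 1) ∧ b = π⁻¹ i ∧ a < b) := fun h => h2 ⟨h.1, h.2.1⟩
      rw [if_neg c3, if_neg c4, mul_assoc]
      by_cases c1 : Cover π a b <;> by_cases d1 : Desc i (π * Equiv.swap a b) <;>
        by_cases d2 : Desc i π <;> by_cases c2 : Cover (sw i * π) a b <;>
        simp only [c1, d1, d2, c2, if_true, if_false, add_zero, sub_zero] <;>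
        simp [c1, d1, d2, c2] at k

theorem r5a_mem (π : Pm) (lo hi x : ℤ) (h : Supp π lo hi) (h1 : lo ≤ x) (h2 : x ≤ hi) :
    π⁻¹ x ∈ Icc lo hi := by
  rw [mem_Icc]
  by_contra hc
  have h3 := h (π⁻¹ x) (by omega)
  have h4 : π (π⁻¹ x) = x := by simp
  omega

theorem r5a_ind (S : Finset ℤ) (b : ℤ) (hb : b ∈ S) (P : ℤ → Prop) [DecidablePred P] (y : ℝ)
    (hP : ∀ s, P s → s = b) : ∑ s ∈ S, (if P s then y else 0) = if P b then y else 0 := by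
  rw [sum_eq_single_of_mem b hb]
  intro s _ hs
  exact if_neg (fun h => hs (hP s h))

theorem r5a_Leib : SpLeib := by
  classical
  intro lo hi r i f π hs h1 h2 h3 h4
  have ha := r5a_mem π lo (hi + 1) i hs h1 (by omega)
  have hb := r5a_mem π lo (hi + 1) (i + 1) hs (by omega) (by omega)
  have hne : π⁻¹ i ≠ π⁻¹ (i + 1) := by
    intro h
    have := π⁻¹.injective h
    omega
  have hD : Dop i (Xf lo hi r f) π = if Desc i π then Xf lo hi r f (sw i * π) else 0 := rfl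
  have vr := r5a_val π i r
  rw [hD]
  unfold Xf
  simp only [sum_filter, r5a_term, sum_add_distrib, sum_sub_distrib]
  rw [r5a_ind _ _ hb (fun s => r = π⁻¹ i ∧ s = π⁻¹ (i + 1) ∧ r < s) _ (fun s h => h.2.1),
    r5a_ind _ _ ha (fun s => r = π⁻¹ (i + 1) ∧ s = π⁻¹ i ∧ r < s) _ (fun s h => h.2.1),
    r5a_ind _ _ ha (fun q => q = π⁻¹ i ∧ r = π⁻¹ (i + 1) ∧ q < r) _ (fun s h => h.1),
    r5a_ind _ _ hb (fun q => q = π⁻¹ (i + 1) ∧ r = π⁻¹ i ∧ q < r) _ (fun s h => h.1)]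
  have e : (if r = π⁻¹ i ∧ π⁻¹ (i + 1) = π⁻¹ (i + 1) ∧ r < π⁻¹ (i + 1) then f π else 0) -
      (if r = π⁻¹ (i + 1) ∧ π⁻¹ i = π⁻¹ i ∧ r < π⁻¹ i then f π else 0) -
      (if π⁻¹ i = π⁻¹ i ∧ r = π⁻¹ (i + 1) ∧ π⁻¹ i < r then f π else 0) +
      (if π⁻¹ (i + 1) = π⁻¹ (i + 1) ∧ r = π⁻¹ i ∧ π⁻¹ (i + 1) < r then f π else 0) =
      (if π r = i then f π else 0) - (if π r = i + 1 then f π else 0) := by
    split_ifs <;> first | (exfalso; omega) | ring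
  by_cases d : Desc i π
  · simp only [d, if_true]
    linarith [e]
  · simp only [d, if_false, sum_const_zero]
    linarith [e]

end Pool.Agent.MP_a5ded6_pr.POIS
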