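import Pool.Agent.MP_a5ded6_pr.POIS.Spec

set_option autoImplicit false

namespace Pool.Agent.MP_a5ded6_pr.POIS

open Finset

/-- the transposition as an explicit function -/
def r5b_sr (a t : ℤ) : ℤ := if t = a then a + 1 else if t = a + 1 then a else t

/-- the sign in the Leibniz rule -/
def r5b_ep (t a : ℤ) : ℝ := (if t = a then 1 else 0) - (if t = a + 1 then 1 else 0)

theorem r5b_sw_apply (a t : ℤ) : sw a t = r5b_sr a t := by
  unfold sw r5b_sr
  rw [Equiv.swap_apply_def]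

theorem r5b_sr_add (i a t : ℤ) : r5b_sr (i + a) (i + t) = i + r5b_sr a t := by
  unfold r5b_sr; split_ifs <;> omega

theorem r5b_ep_add (i a t : ℤ) : r5b_ep (i + t) (i + a) = r5b_ep t a := by
  unfold r5b_ep
  simp only [add_assoc, add_right_inj]

theorem r5b_sr_bd (a t : ℤ) : t - 1 ≤ r5b_sr a t ∧ r5b_sr a t ≤ t + 1 := by
  unfold r5b_sr; split_ifs <;> omega

theorem r5b_supp_sw {w : Pm} {a b i : ℤ} (h1 : a ≤ i) (h2 : i + 1 ≤ b) (h : Supp w a b) :
    Supp (sw i * w) a b := fun x hx => by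
  rw [Equiv.Perm.mul_apply, h x hx, r5b_sw_apply, r5b_sr, if_neg (by omega), if_neg (by omega)]

theorem r5b_supp_iff {w : Pm} {a b i : ℤ} (h1 : a ≤ i) (h2 : i + 1 ≤ b) :
    Supp (sw i * w) a b ↔ Supp w a b := by
  refine ⟨fun h => ?_, r5b_supp_sw h1 h2⟩
  have := r5b_supp_sw h1 h2 h
  rwa [← mul_assoc, sw, Equiv.swap_mul_self, one_mul] at this

theorem r5b_desc {w : Pm} {a b i : ℤ} (h : Supp w a b) (hd : Desc i w) : a ≤ i ∧ i + 1 ≤ b := by
  have k : ∀ x, x < a ∨ b < x → w⁻¹ x = x := fun x hx => by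
    rw [Equiv.Perm.inv_eq_iff_eq]; exact (h x hx).symm
  have k' : ∀ x, w⁻¹ x < a ∨ b < w⁻¹ x → w⁻¹ x = x := fun x hx => by
    have := h _ hx
    rw [Equiv.Perm.coe_inv, Equiv.apply_symm_apply] at this
    exact this.symm
  unfold Desc at hd
  constructor
  · by_contra hn
    have e1 := k i (by omega)
    have e2 := k' (i + 1) (by omega)
    omega
  · by_contra hn
    have e1 := k (i + 1) (by omega)
    have e2 := k' i (by omega)
    omega

theorem r5b_val {w : Pm} {a b r : ℤ} (h : Supp w a b) (h1 : a ≤ r) (h2 : r ≤ b) :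
    a ≤ w r ∧ w r ≤ b := by
  by_contra hn
  have := w.injective (h (w r) (by omega))
  omega

open Classical in
/-- the transition operator, cut off outside the support condition -/
noncomputable def r5b_X (lo hi r : ℤ) : En where
  toFun f := fun π => if Supp π lo (hi + 1) then Xf lo hi r f π else 0
  map_add' f g := by
    funext π
    by_cases h : Supp π lo (hi + 1) <;> simp [h, Xf, sum_add_distrib]
    ring
  map_smul' c f := by
    funext π
    by_cases h : Supp π lo (hi + 1) <;> simp [h, Xf, mul_sum, mul_sub]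

open Classical in
/-- multiplication by the indicator of `π r = j` -/
noncomputable def r5b_E (lo hi r j : ℤ) : En where
  toFun f := fun π => if Supp π lo (hi + 1) ∧ π r = j then f π else 0
  map_add' f g := by
    funext π
    by_cases h : Supp π lo (hi + 1) ∧ π r = j <;> simp [h]
  map_smul' c f := by
    funext π
    by_cases h : Supp π lo (hi + 1) ∧ π r = j <;> simp [h]

open Classical in
theorem r5b_X_apply (lo hi r : ℤ) (f : Fn) (π : Pm) :
    r5b_X lo hi r f π = if Supp π lo (hi + 1) then Xf lo hi r f π else 0 := rfl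

open Classical in
theorem r5b_E_apply (lo hi r j : ℤ) (f : Fn) (π : Pm) :
    r5b_E lo hi r j f π = if Supp π lo (hi + 1) ∧ π r = j then f π else 0 := rfl

theorem r5b_D_apply (i : ℤ) (f : Fn) (π : Pm) :
    Dop i f π = if Desc i π then f (sw i * π) else 0 := rfl

theorem r5b_ED (lo hi r j i : ℤ) :
    r5b_E lo hi r j * Dtr lo hi i = Dtr lo hi i * r5b_E lo hi r (r5b_sr i j) := by
  unfold Dtr
  split_ifs with h
  · ext f π
    have k : (Supp (sw i * π) lo (hi + 1) ∧ (sw i * π) r = r5b_sr i j) ↔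
        (Supp π lo (hi + 1) ∧ π r = j) := by
      rw [r5b_supp_iff h.1 (show i + 1 ≤ hi + 1 by omega), Equiv.Perm.mul_apply, ← r5b_sw_apply,
        (sw i).apply_eq_iff_eq]
    rw [Module.End.mul_apply, Module.End.mul_apply, r5b_E_apply, r5b_D_apply, r5b_D_apply,
      r5b_E_apply]
    by_cases hp : Supp π lo (hi + 1) ∧ π r = j
    · rw [if_pos hp, if_pos (k.2 hp)]
    · rw [if_neg hp, if_neg (mt k.1 hp), ite_self]
  · rw [mul_zero, zero_mul]

theorem r5b_one (h2 : SpLeib) {lo hi r j : ℤ} (r1 : lo ≤ r) (r2 : r ≤ hi + 1) (j1 : lo + 1 ≤ j)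
    (j2 : j ≤ hi) (i : ℤ) :
    r5b_E lo hi r j * (r5b_X lo hi r * Dtr lo hi i - Dtr lo hi i * r5b_X lo hi r) =
      r5b_ep j i • r5b_E lo hi r j := by
  unfold Dtr
  split_ifs with h
  · ext f π
    simp only [Module.End.mul_apply, LinearMap.sub_apply, LinearMap.smul_apply, r5b_E_apply,
      Pi.smul_apply, Pi.sub_apply, smul_eq_mul]
    split_ifs with hp
    · rw [r5b_X_apply, if_pos hp.1, h2 lo hi r i f π hp.1 h.1 h.2 r1 r2, r5b_D_apply, r5b_D_apply,
        r5b_X_apply, if_pos (r5b_supp_sw h.1 (by omega) hp.1), hp.2, r5b_ep]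
      split_ifs <;> ring
    · rw [mul_zero]
  · rw [mul_zero, zero_mul, sub_zero, mul_zero, r5b_ep, if_neg (by omega), if_neg (by omega),
      sub_zero, zero_smul]

/-- the commutator with a word of three letters -/
noncomputable def r5b_T (a b c t : ℤ) (x y z : En) : En :=
  r5b_ep t a • (y * z) + r5b_ep (r5b_sr a t) b • (x * z) +
    r5b_ep (r5b_sr b (r5b_sr a t)) c • (x * y)

theorem r5b_three (h2 : SpLeib) {lo hi r j : ℤ} (r1 : lo ≤ r) (r2 : r ≤ hi + 1) (j1 : lo + 3 ≤ j)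
    (j2 : j + 2 ≤ hi) (a b c : ℤ) :
    r5b_E lo hi r j * (r5b_X lo hi r * (Dtr lo hi a * Dtr lo hi b * Dtr lo hi c) -
      Dtr lo hi a * Dtr lo hi b * Dtr lo hi c * r5b_X lo hi r) =
      r5b_E lo hi r j * r5b_T a b c j (Dtr lo hi a) (Dtr lo hi b) (Dtr lo hi c) := by
  have b1 := r5b_sr_bd a j
  have b2 := r5b_sr_bd b (r5b_sr a j)
  have o1 := r5b_one h2 r1 r2 (j := j) (by omega) (by omega) a
  have o2 := r5b_one h2 r1 r2 (j := r5b_sr a j) (by omega) (by omega) b
  have o3 := r5b_one h2 r1 r2 (j := r5b_sr b (r5b_sr a j)) (by omega) (by omega) c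
  have e1 := r5b_ED lo hi r j a
  have e2 := r5b_ED lo hi r (r5b_sr a j) b
  unfold r5b_T
  generalize r5b_E lo hi r (r5b_sr b (r5b_sr a j)) = E2 at *
  generalize r5b_E lo hi r (r5b_sr a j) = E1 at *
  generalize r5b_E lo hi r j = E0 at *
  generalize r5b_X lo hi r = X at *
  generalize Dtr lo hi a = x at *
  generalize Dtr lo hi b = y at o2 e2 ⊢
  generalize Dtr lo hi c = z at o3 ⊢
  have s : E0 * (X * (x * y * z) - x * y * z * X) = E0 * (X * x - x * X) * (y * z) +
      E0 * x * (X * y - y * X) * z + E0 * x * y * (X * z - z * X) := by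
    simp only [mul_sub, sub_mul, mul_assoc]; abel
  have s2 : E0 * x * (X * y - y * X) * z = r5b_ep (r5b_sr a j) b • (E0 * (x * z)) := by
    rw [e1, mul_assoc x, o2, mul_smul_comm, ← e1, smul_mul_assoc, mul_assoc]
  have e3 : E0 * x * y = x * y * E2 := by rw [e1, mul_assoc, e2, mul_assoc]
  have s3 : E0 * x * y * (X * z - z * X) =
      r5b_ep (r5b_sr b (r5b_sr a j)) c • (E0 * (x * y)) := by
    rw [e3, mul_assoc (x * y), o3, mul_smul_comm, ← e3, mul_assoc]
  rw [s, s2, s3, o1, smul_mul_assoc, mul_add, mul_add, mul_smul_comm, mul_smul_comm, mul_smul_comm]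

theorem r5b_T_add (i a b c t : ℤ) (x y z : En) :
    r5b_T (i + a) (i + b) (i + c) (i + t) x y z = r5b_T a b c t x y z := by
  simp only [r5b_T, r5b_sr_add, r5b_ep_add]

/-- the commutator with one local term of the power sum -/
noncomputable def r5b_K (t : ℤ) (x y z : En) : En :=
  r5b_T 0 1 2 t x y z - r5b_T 1 0 2 t y x z - r5b_T 2 0 1 t z x y + r5b_T 2 1 0 t z y x -
    r5b_T 0 1 0 t x y x

theorem r5b_K_out {t : ℤ} (h : t < 0 ∨ 3 < t) (x y z : En) : r5b_K t x y z = 0 := by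
  have h0 : t ≠ 0 := by omega
  have h1 : t ≠ 1 := by omega
  have h2 : t ≠ 2 := by omega
  have h3 : t ≠ 3 := by omega
  simp [r5b_K, r5b_T, r5b_ep, r5b_sr, h0, h1, h2, h3]

theorem r5b_K0 (x y z : En) : r5b_K 0 x y z = x * z - z * x + x * y - y * x - x * x := by
  simp [r5b_K, r5b_T, r5b_ep, r5b_sr]; module

theorem r5b_K1 (x y z : En) : r5b_K 1 x y z = z * x - x * z + z * y - y * z - x * y := by
  simp [r5b_K, r5b_T, r5b_ep, r5b_sr]; module

theorem r5b_K2 (x y z : En) : r5b_K 2 x y z = y * z + y * x + x * x := by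
  simp [r5b_K, r5b_T, r5b_ep, r5b_sr]; module

theorem r5b_K3 (x y z : En) : r5b_K 3 x y z = -(z * y) := by
  simp [r5b_K, r5b_T, r5b_ep, r5b_sr]; module

theorem r5b_loc (h2 : SpLeib) {lo hi r j : ℤ} (r1 : lo ≤ r) (r2 : r ≤ hi + 1) (j1 : lo + 3 ≤ j)
    (j2 : j + 2 ≤ hi) (i : ℤ) :
    r5b_E lo hi r j * (r5b_X lo hi r * (dd (Dtr lo hi) i - bb (Dtr lo hi) i) -
      (dd (Dtr lo hi) i - bb (Dtr lo hi) i) * r5b_X lo hi r) =
      r5b_E lo hi r j *
        r5b_K (j - i) (Dtr lo hi i) (Dtr lo hi (i + 1)) (Dtr lo hi (i + 2)) := by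
  have k : ∀ (a b c : ℤ) (x y z : En), r5b_T a b c (j - i) x y z =
      r5b_T (i + a) (i + b) (i + c) j x y z := fun a b c x y z => by
    rw [← r5b_T_add i, add_sub_cancel]
  have t := r5b_three h2 r1 r2 j1 j2
  simp only [r5b_K, k, add_zero, mul_sub, mul_add, ← t, dd, cc, bb, sub_mul, mul_assoc]
  abel

theorem r5b_P (h1 : SpNC) (h2 : SpLeib) {lo hi r j : ℤ} (r1 : lo ≤ r) (r2 : r ≤ hi + 1)
    (j1 : lo + 3 ≤ j) (j2 : j + 2 ≤ hi) :
    r5b_E lo hi r j * (r5b_X lo hi r * P3 (Dtr lo hi) lo hi -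
      P3 (Dtr lo hi) lo hi * r5b_X lo hi r) = 0 := by
  have e : P3 (Dtr lo hi) lo hi = ∑ i ∈ Icc lo hi, (dd (Dtr lo hi) i - bb (Dtr lo hi) i) := by
    rw [sum_sub_distrib]; rfl
  rw [e, mul_sum, sum_mul, ← sum_sub_distrib, mul_sum,
    sum_congr rfl fun i _ => r5b_loc h2 r1 r2 j1 j2 i, ← mul_sum]
  obtain ⟨i, rfl⟩ : ∃ i, j = i + 3 := ⟨j - 3, by omega⟩
  have hs : ({i, i + 1, i + 2, i + 3} : Finset ℤ) ⊆ Icc lo hi := by
    intro x hx
    simp only [mem_insert, mem_singleton] at hx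
    rw [mem_Icc]; omega
  rw [← sum_subset hs fun x _ hx => r5b_K_out (by
      simp only [mem_insert, mem_singleton] at hx; omega) _ _ _,
    sum_insert (by simp only [mem_insert, mem_singleton]; omega),
    sum_insert (by simp only [mem_insert, mem_singleton]; omega),
    sum_insert (by simp only [mem_singleton]; omega), sum_singleton,
    show i + 3 - i = 3 by ring, show i + 3 - (i + 1) = 2 by ring,
    show i + 3 - (i + 2) = 1 by ring, show i + 3 - (i + 3) = 0 by ring,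
    r5b_K0, r5b_K1, r5b_K2, r5b_K3,
    show i + 1 + 1 = i + 2 by ring, show i + 1 + 2 = i + 3 by ring,
    show i + 2 + 1 = i + 3 by ring, show i + 2 + 2 = i + 4 by ring,
    show i + 3 + 1 = i + 4 by ring, show i + 3 + 2 = i + 5 by ring,
    (h1 lo hi).sq, (h1 lo hi).sq, (h1 lo hi).comm (i + 3) (i + 5) (by omega),
    (h1 lo hi).comm (i + 2) (i + 4) (by omega)]
  refine mul_eq_zero_of_right _ ?_
  abel

theorem r5b_U (h2 : SpLeib) {lo hi r j : ℤ} (r1 : lo ≤ r) (r2 : r ≤ hi + 1)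
    (j1 : lo + 1 ≤ j) (j2 : j ≤ hi) :
    r5b_E lo hi r j * (r5b_X lo hi r * UU (Dtr lo hi) lo hi -
      UU (Dtr lo hi) lo hi * r5b_X lo hi r) = 0 := by
  rw [UU, mul_sum, sum_mul, ← sum_sub_distrib, mul_sum,
    sum_congr rfl fun i _ => r5b_one h2 r1 r2 j1 j2 i, ← sum_smul]
  have k : ∀ i : ℤ, (j = i + 1) = (j - 1 = i) := fun i => propext (by omega)
  simp only [r5b_ep, k, sum_sub_distrib, sum_ite_eq, mem_Icc]
  rw [if_pos (by omega), if_pos (by omega), sub_self, zero_smul]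

/-- operators that keep the functions vanishing on a support class -/
def r5b_Z (a b : ℤ) (y : En) : Prop :=
  ∀ g : Fn, (∀ π, Supp π a b → g π = 0) → ∀ π, Supp π a b → y g π = 0

theorem r5b_Z_D (a b lo hi i : ℤ) : r5b_Z a b (Dtr lo hi i) := by
  intro g hg π hπ
  unfold Dtr
  split_ifs
  · rw [r5b_D_apply]
    split_ifs with hd
    · exact hg _ (r5b_supp_sw (r5b_desc hπ hd).1 (r5b_desc hπ hd).2 hπ)
    · rfl
  · rfl

theorem r5b_Z_mul {a b : ℤ} {x y : En} (hx : r5b_Z a b x) (hy : r5b_Z a b y) :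
    r5b_Z a b (x * y) := fun g hg => hx _ (hy g hg)

theorem r5b_Z_sub {a b : ℤ} {x y : En} (hx : r5b_Z a b x) (hy : r5b_Z a b y) :
    r5b_Z a b (x - y) := fun g hg π hπ => by
  rw [LinearMap.sub_apply, Pi.sub_apply, hx g hg π hπ, hy g hg π hπ, sub_zero]

theorem r5b_Z_sum {a b : ℤ} (s : Finset ℤ) {x : ℤ → En} (hx : ∀ i, r5b_Z a b (x i)) :
    r5b_Z a b (∑ i ∈ s, x i) := fun g hg π hπ => by
  rw [LinearMap.sum_apply, Finset.sum_apply]
  exact sum_eq_zero fun i _ => hx i g hg π hπ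

theorem r5b_step {lo hi : ℤ} {y : En} (hz : r5b_Z (lo + 4) (hi - 3) y)
    (hc : ∀ r j, lo + 4 ≤ r → r ≤ hi - 3 → lo + 4 ≤ j → j ≤ hi - 3 →
      r5b_E lo hi r j * (r5b_X lo hi r * y - y * r5b_X lo hi r) = 0) (k : ℕ) {f : Fn}
    (hf : Harm lo hi f) : Harm lo hi ((y ^ k) f) := by
  induction k with
  | zero => exact hf
  | succ k ih =>
    intro π r hπ r1 r2
    have big : ∀ w : Pm, Supp w (lo + 4) (hi - 3) → Supp w lo (hi + 1) :=
      fun w hw x hx => hw x (by omega)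
    have v := r5b_val hπ r1 r2
    have e := congrFun (LinearMap.congr_fun (hc r (π r) r1 r2 v.1 v.2) ((y ^ k) f)) π
    rw [Module.End.mul_apply, r5b_E_apply, if_pos ⟨big π hπ, rfl⟩, LinearMap.sub_apply,
      Pi.sub_apply, Module.End.mul_apply, Module.End.mul_apply,
      hz _ (fun w hw => by rw [r5b_X_apply, if_pos (big w hw)]; exact ih w r hw r1 r2) π hπ,
      r5b_X_apply, if_pos (big π hπ), sub_zero] at e
    rw [pow_succ', Module.End.mul_apply]
    exact e

theorem r5b_delta (lo hi : ℤ) : Harm lo hi delta := by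
  classical
  have k : ∀ (π : Pm) (a b : ℤ), Cover π a b → delta (π * Equiv.swap a b) = 0 := by
    intro π a b h
    refine if_neg fun e => ?_
    have e1 := DFunLike.congr_fun e a
    have e2 := DFunLike.congr_fun e b
    simp only [Equiv.Perm.mul_apply, Equiv.swap_apply_left, Equiv.swap_apply_right,
      Equiv.Perm.one_apply] at e1 e2
    have := h.1
    have := h.2.1
    omega
  intro π r _ _ _
  unfold Xf
  rw [sum_eq_zero fun s hs => k π r s (mem_filter.1 hs).2,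
    sum_eq_zero fun s hs => k π s r (mem_filter.1 hs).2, sub_zero]

theorem r5b_Harm (h1 : SpNC) (h2 : SpLeib) : SpHarm := by
  intro lo hi j m
  have z := r5b_Z_D (lo + 4) (hi - 3) lo hi
  have zc : ∀ i, r5b_Z (lo + 4) (hi - 3) (cc (Dtr lo hi) i) := fun i =>
    r5b_Z_sub (r5b_Z_mul (z _) (z _)) (r5b_Z_mul (z _) (z _))
  rw [ff, Module.End.mul_apply]
  refine r5b_step ?_ (fun r t _ _ _ _ => r5b_P h1 h2 (by omega) (by omega) (by omega) (by omega)) j
    (r5b_step (r5b_Z_sum _ z)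
      (fun r t _ _ _ _ => r5b_U h2 (by omega) (by omega) (by omega) (by omega)) m (r5b_delta lo hi))
  exact r5b_Z_sub
    (r5b_Z_sum _ fun i => r5b_Z_sub (r5b_Z_mul (zc _) (z _)) (r5b_Z_mul (z _) (zc _)))
    (r5b_Z_sum _ fun i => r5b_Z_mul (r5b_Z_mul (z _) (z _)) (z _))

end Pool.Agent.MP_a5ded6_pr.POIS
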