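import Pool.Agent.MP_a5ded6_pr.POIS.Spec

set_option autoImplicit false

namespace Pool.Agent.MP_a5ded6_pr.POIS

open Finset

theorem r6_mem {n : ℕ} {w : Pm} (h : Supp w 1 n) {x : ℤ} (h1 : 1 ≤ x) (h2 : x ≤ n) :
    1 ≤ w x ∧ w x ≤ n := by
  by_contra hn
  have h3 := w.injective (h (w x) (by omega))
  omega

theorem r6_w0 (n : ℕ) (x : ℤ) : w0 n x = if 1 ≤ x ∧ x ≤ n then (n : ℤ) + 1 - x else x := rfl

theorem r6_val {n Dm : ℕ} {e : ℤ} {w : Pm} (hS : Supp w 1 n)
    (hB : ∀ x, x < e ∨ e + Dm < x → w x = w0 n x) {x : ℤ} (h1 : 1 ≤ x) (h2 : x ≤ n) (h3 : e ≤ x)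
    (h4 : x ≤ e + Dm) : e ≤ n + 1 - w x ∧ n + 1 - w x ≤ e + Dm := by
  by_contra hn
  have h0 := r6_mem hS h1 h2
  have h5 := hB (n + 1 - w x) (by omega)
  rw [r6_w0, if_pos (by omega), sub_sub_cancel] at h5
  have h6 := w.injective h5
  omega

/-- non-inversions lie in the block -/
theorem r6_blk {n Dm : ℕ} {e : ℤ} {w : Pm} (hS : Supp w 1 n)
    (hB : ∀ x, x < e ∨ e + Dm < x → w x = w0 n x) {a b : ℤ} (h1 : 1 ≤ a) (hab : a < b)
    (h2 : b ≤ n) (h : w a < w b) : e ≤ a ∧ b ≤ e + Dm := by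
  have ha := hB a
  have hb := hB b
  rw [r6_w0, if_pos (by omega)] at ha hb
  have ha' := r6_val hS hB h1 (by omega : a ≤ n)
  have hb' := r6_val hS hB (by omega : 1 ≤ b) h2
  omega

theorem r6_ninv {n : ℕ} {π : Pm} {a b : ℤ} (hc : Cover π a b) (ha : 1 ≤ a) (hb : b ≤ n) :
    ninv n (π * Equiv.swap a b) + 1 = ninv n π := by
  obtain ⟨hab, hv, hc⟩ := hc
  have hm : (a, b) ∈ (Icc (1 : ℤ) n ×ˢ Icc (1 : ℤ) n).filter
      (fun p => p.1 < p.2 ∧ π p.1 < π p.2) := by
    simp only [mem_filter, mem_product, mem_Icc]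
    omega
  unfold ninv
  rw [← card_erase_add_one hm]
  congr 1
  have inv : ∀ p : ℤ × ℤ, p.1 < p.2 →
      (fun p : ℤ × ℤ => if Equiv.swap a b p.1 < Equiv.swap a b p.2 then
        (Equiv.swap a b p.1, Equiv.swap a b p.2) else p)
      ((fun p : ℤ × ℤ => if Equiv.swap a b p.1 < Equiv.swap a b p.2 then
        (Equiv.swap a b p.1, Equiv.swap a b p.2) else p) p) = p := fun p hp => by
    by_cases h : Equiv.swap a b p.1 < Equiv.swap a b p.2
    · simp [h, hp]
    · simp [h]
  refine card_nbij' (fun p : ℤ × ℤ => if Equiv.swap a b p.1 < Equiv.swap a b p.2 then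
      (Equiv.swap a b p.1, Equiv.swap a b p.2) else p)
    (fun p : ℤ × ℤ => if Equiv.swap a b p.1 < Equiv.swap a b p.2 then
      (Equiv.swap a b p.1, Equiv.swap a b p.2) else p) ?_ ?_
    (fun p hp => inv p (mem_filter.1 hp).2.1)
    (fun p hp => inv p (mem_filter.1 (mem_of_mem_erase hp)).2.1)
  · rintro ⟨x, y⟩ hp
    simp only [coe_filter, mem_product, mem_Icc, Set.mem_ofPred_eq, Equiv.Perm.mul_apply] at hp
    simp only [mem_coe]
    split_ifs with h
    · simp only [mem_erase, mem_filter, mem_product, mem_Icc, ne_eq, Prod.mk.injEq]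
      refine ⟨?_, ?_, h, hp.2.2⟩
      · simp only [Equiv.swap_apply_def]
        split_ifs <;> omega
      · simp only [Equiv.swap_apply_def]
        split_ifs <;> omega
    · simp only [mem_erase, mem_filter, mem_product, mem_Icc, ne_eq, Prod.mk.injEq]
      simp only [Equiv.swap_apply_def] at h hp
      split_ifs at h hp <;> subst_vars <;> omega
  · rintro ⟨x, y⟩ hp
    simp only [mem_coe, mem_erase, mem_filter, mem_product, mem_Icc, ne_eq, Prod.mk.injEq] at hp
    simp only [mem_coe]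
    split_ifs with h
    · simp only [mem_filter, mem_product, mem_Icc, Equiv.Perm.mul_apply, Equiv.swap_apply_self]
      refine ⟨?_, h, hp.2.2.2⟩
      simp only [Equiv.swap_apply_def]
      split_ifs <;> omega
    · simp only [mem_filter, mem_product, mem_Icc, Equiv.Perm.mul_apply]
      have hx := hc x
      have hy := hc y
      have hxa : π x = π a → x = a := fun h => π.injective h
      have hyb : π y = π b → y = b := fun h => π.injective h
      simp only [Equiv.swap_apply_def] at h ⊢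
      split_ifs at h ⊢ <;> subst_vars <;> omega

/-- the potential -/
noncomputable def r6_pot (n Dm : ℕ) (e : ℤ) (w : Pm) : ℤ :=
  ∑ x ∈ Icc e (e + Dm), ((Dm : ℤ) + 1) ^ (e + Dm - x).toNat * (w x - w0 n x)

theorem r6_pot_abs {n Dm : ℕ} {e : ℤ} {w : Pm} (hS : Supp w 1 n)
    (hB : ∀ x, x < e ∨ e + Dm < x → w x = w0 n x) :
    |r6_pot n Dm e w| ≤ ((Dm + 1) * ((Dm + 1) ^ Dm * Dm) : ℕ) := by
  refine (abs_sum_le_sum_abs _ _).trans ((sum_le_card_nsmul _ _
    (((Dm : ℤ) + 1) ^ Dm * Dm) fun x hx => ?_).trans (le_of_eq ?_))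
  · rw [mem_Icc] at hx
    rw [abs_mul, abs_of_nonneg (by positivity)]
    refine mul_le_mul (pow_le_pow_right₀ (by omega) (by omega)) ?_ (abs_nonneg _) (by positivity)
    have h1 := hS x
    have h2 := @r6_val n Dm e w hS hB x
    rw [r6_w0, abs_le]
    split_ifs <;> omega
  · rw [Int.card_Icc, show (e + Dm + 1 - e).toNat = Dm + 1 by omega, nsmul_eq_mul]
    push_cast
    ring

theorem r6_pot_lt {n Dm : ℕ} {e q r s : ℤ} {w : Pm} (hq : e ≤ q) (hqr : q < r) (hrs : r < s)
    (hs : s ≤ e + Dm) (h1 : w q < w s) (h2 : w s < w r) (h3 : w r - w q ≤ Dm) :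
    r6_pot n Dm e w < r6_pot n Dm e (w * Equiv.swap r s * Equiv.swap q r) := by
  have key : ∀ x, (w * Equiv.swap r s * Equiv.swap q r) x - w0 n x = (w x - w0 n x) +
      ((if x = q then w s - w q else 0) + (if x = r then w q - w r else 0) +
        (if x = s then w r - w s else 0)) := fun x => by
    simp only [Equiv.Perm.mul_apply, Equiv.swap_apply_def]
    split_ifs <;> subst_vars <;> omega
  simp only [r6_pot, key, mul_add, sum_add_distrib, mul_ite, mul_zero, sum_ite_eq', mem_Icc]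
  rw [if_pos (by omega), if_pos (by omega), if_pos (by omega), lt_add_iff_pos_right]
  have h4 : ((Dm : ℤ) + 1) ^ ((e + Dm - r).toNat + 1) ≤ ((Dm : ℤ) + 1) ^ (e + Dm - q).toNat :=
    pow_le_pow_right₀ (by omega) (by omega)
  rw [pow_succ] at h4
  have h5 : 0 < ((Dm : ℤ) + 1) ^ (e + Dm - r).toNat := by positivity
  have h6 : 0 < ((Dm : ℤ) + 1) ^ (e + Dm - s).toNat := by positivity
  have h7 : 0 < ((Dm : ℤ) + 1) ^ (e + Dm - q).toNat := by positivity
  generalize ((Dm : ℤ) + 1) ^ (e + Dm - r).toNat = A at *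
  generalize ((Dm : ℤ) + 1) ^ (e + Dm - s).toNat = B at *
  generalize ((Dm : ℤ) + 1) ^ (e + Dm - q).toNat = C at *
  have h8 := mul_le_mul_of_nonneg_left (show 1 ≤ w s - w q by omega) h7.le
  have h9 := mul_le_mul_of_nonneg_left (show -(Dm : ℤ) ≤ w q - w r by omega) h5.le
  have h10 := mul_pos h6 (show 0 < w r - w s by omega)
  nlinarith

/-- one transition -/
theorem r6_step {n Dm : ℕ} {lo hi e : ℤ} {f : Fn} {w : Pm} {M : ℝ} (hlo : lo + 4 ≤ 0)
    (hhi : (n : ℤ) + 4 ≤ hi) (hH : Harm lo hi f) (hf : ∀ u, 0 ≤ f u) (hM : 0 ≤ M)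
    (hS : Supp w 1 n) (hB : ∀ x, x < e ∨ e + Dm < x → w x = w0 n x) (hA : ¬ Av132 n w)
    (h : ∀ u, Supp u 1 n → (∀ x, x < e ∨ e + Dm < x → u x = w0 n x) → ninv n u = ninv n w →
      r6_pot n Dm e w < r6_pot n Dm e u → f u ≤ M) : f w ≤ (Dm + 1) * M := by
  classical
  simp only [Av132, not_forall, not_not] at hA
  obtain ⟨a, r, c, ha, har, hrc, hc, hac, hcr⟩ := hA
  obtain ⟨s, hs, hmax⟩ := exists_max_image ((Icc (r + 1) n).filter fun x => w x < w r) w
    ⟨c, by simp only [mem_filter, mem_Icc]; omega⟩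
  simp only [mem_filter, mem_Icc] at hs hmax
  have hcs := hmax c (by omega)
  have hπ : ∀ x, x ≠ r → x ≠ s → (w * Equiv.swap r s) x = w x := fun x h1 h2 => by
    rw [Equiv.Perm.mul_apply, Equiv.swap_apply_of_ne_of_ne h1 h2]
  have hπr : (w * Equiv.swap r s) r = w s := by simp
  have hπs : (w * Equiv.swap r s) s = w r := by simp
  have hcov : Cover (w * Equiv.swap r s) r s := by
    refine ⟨by omega, by omega, fun x h1 h2 => ?_⟩
    have := hmax x
    rw [hπr, hπs, hπ x (by omega) (by omega)]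
    omega
  have h0 := hH (w * Equiv.swap r s) r (fun x hx => by
    rw [hπ x (by omega) (by omega), hS x (by omega)]) (by omega) (by omega)
  simp only [Xf, sub_eq_zero] at h0
  have h1 := single_le_sum (f := fun s' => f (w * Equiv.swap r s * Equiv.swap r s'))
    (s := (Icc lo (hi + 1)).filter fun s' => Cover (w * Equiv.swap r s) r s')
    (fun _ _ => hf _) (mem_filter.2 ⟨mem_Icc.2 (by omega), hcov⟩)
  simp only [mul_assoc w, Equiv.swap_mul_self, mul_one] at h1
  simp only [← mul_assoc] at h1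
  have hq : ∀ q, Cover (w * Equiv.swap r s) q r → 1 ≤ q ∧ q < r ∧ w q < w s ∧ e ≤ q ∧
      s ≤ e + Dm := fun q hq => by
    obtain ⟨h2, h3, h4⟩ := hq
    rw [hπr, hπ q (by omega) (by omega)] at h3 h4
    have h5 : 1 ≤ q := by
      by_contra hn
      have h6 := h4 a (by omega) har
      rw [hπ a (by omega) (by omega), hS q (by omega)] at h6
      have := r6_mem hS ha (by omega)
      omega
    have := r6_blk hS hB h5 (by omega : q < s) hs.1.2 h3
    omega
  refine h1.trans (le_of_eq_of_le (by convert h0) ((sum_le_card_nsmul _ _ M fun q hq' => ?_).trans ?_))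
  · have hc' := (mem_filter.1 hq').2
    obtain ⟨h2, h3, h4, h5, h6⟩ := hq q hc'
    have hx : ∀ x, x ≠ q → x ≠ r → x ≠ s → (w * Equiv.swap r s * Equiv.swap q r) x = w x :=
      fun x k1 k2 k3 => by
        rw [Equiv.Perm.mul_apply, Equiv.swap_apply_of_ne_of_ne k1 k2, hπ x k2 k3]
    refine h _ (fun x k => ?_) (fun x k => ?_) ?_ (r6_pot_lt h5 h3 (by omega) h6 h4 hs.2 ?_)
    · rw [hx x (by omega) (by omega) (by omega), hS x k]
    · rw [hx x (by omega) (by omega) (by omega), hB x k]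
    · have k1 := r6_ninv (n := n) hc' h2 (by omega)
      have k2 := r6_ninv (n := n) hcov (by omega) hs.1.2
      rw [mul_assoc w, Equiv.swap_mul_self, mul_one] at k2
      omega
    · have k1 := r6_val hS hB h2 (by omega) h5 (by omega)
      have k2 := r6_val hS hB (by omega : 1 ≤ r) (by omega) (by omega) (by omega)
      omega
  · rw [nsmul_eq_mul]
    refine mul_le_mul_of_nonneg_right ?_ hM
    have h2 : ((Icc lo (hi + 1)).filter fun q => Cover (w * Equiv.swap r s) q r) ⊆
        Icc e (e + Dm) := fun q hq' => by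
      have := hq q (mem_filter.1 hq').2
      rw [mem_Icc]
      omega
    have h3 := card_le_card h2
    rw [Int.card_Icc, show (e + Dm + 1 - e).toNat = Dm + 1 by omega] at h3
    exact_mod_cast h3

theorem r6_P1 : SpP1 := by
  intro Dm
  refine ⟨((Dm : ℝ) + 1) ^ (2 * ((Dm + 1) * ((Dm + 1) ^ Dm * Dm))), by positivity,
    fun n lo hi e f M w hlo hhi hH hf hM hS hB h => ?_⟩
  have key : ∀ (k : ℕ) (u : Pm), Supp u 1 n → (∀ x, x < e ∨ e + Dm < x → u x = w0 n x) →
      ninv n u = ninv n w →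
      ((Dm + 1) * ((Dm + 1) ^ Dm * Dm) : ℕ) - r6_pot n Dm e u ≤ k →
      f u ≤ ((Dm : ℝ) + 1) ^ k * M := by
    intro k
    induction k with
    | zero =>
      intro u hS' hB' hn hk
      by_cases hA : Av132 n u
      · simpa using h u hS' hA hn
      · refine (r6_step (M := 0) hlo hhi hH hf le_rfl hS' hB' hA fun v k1 k2 _ k4 => ?_).trans
          (by simpa using hM)
        have := (abs_le.1 (r6_pot_abs k1 k2)).2
        omega
    | succ k ih =>
      intro u hS' hB' hn hk
      by_cases hA : Av132 n u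
      · exact (h u hS' hA hn).trans (le_mul_of_one_le_left hM (one_le_pow₀ (by simp)))
      · rw [pow_succ', mul_assoc]
        exact r6_step hlo hhi hH hf (by positivity) hS' hB' hA fun v k1 k2 k3 k4 =>
          ih v k1 k2 (k3.trans hn) (by omega)
  refine key _ w hS hB rfl ?_
  have := (abs_le.1 (r6_pot_abs hS hB)).1
  omega

end Pool.Agent.MP_a5ded6_pr.POIS
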