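import Pool.Agent.MP_a5ded6_pr.POIS.Spec

set_option autoImplicit false

namespace Pool.Agent.MP_a5ded6_pr.POIS

open Finset

/-- number of later positions with a smaller value -/
noncomputable def r7_code (n : ℕ) (w : Pm) (x : ℤ) : ℕ :=
  ((Ioc x (n : ℤ)).filter (fun c => w c < w x)).card

theorem r7_mem {w : Pm} {a b : ℤ} (h : Supp w a b) (c : ℤ) :
    (a ≤ c ∧ c ≤ b) ↔ (a ≤ w c ∧ w c ≤ b) := by
  constructor
  · intro hc
    by_contra hn
    have h1 : w (w c) = w c := h _ (by omega)
    have h2 := w.injective h1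
    omega
  · intro hc
    by_contra hn
    have h1 : w c = c := h _ (by omega)
    omega

theorem r7_ne (w : Pm) {a b : ℤ} (h : a ≠ b) : w a ≠ w b := fun e => h (w.injective e)

/-- the invariant -/
structure r7_Inv (n : ℕ) (w₀ w : Pm) (r : ℤ) : Prop where
  supp : Supp w (-(n : ℤ) + 1) n
  lo : ∀ x y, x < y → y ≤ 0 → w x < w y
  hi : ∀ x y, r < x → x < y → w x < w y
  av : ∀ a b c : ℤ, 1 ≤ a → a < b → b ≤ r → b < c → ¬ (w a < w c ∧ w c < w b)
  code : ∃ σ : Pm, ∀ x, r7_code n w x = r7_code n w₀ (σ x)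

def r7_Eqv (n : ℕ) (w g : Pm) : Prop :=
  ∀ (lo hi : ℤ) (f : Fn), lo + 4 + NN n ≤ 0 → (n : ℤ) + 4 ≤ hi → Harm lo hi f → f w = f g

/-- the data of one step -/
structure r7_St (n : ℕ) (w : Pm) (q r s : ℤ) : Prop where
  q0 : q ≤ 0
  r1 : 1 ≤ r
  rs : r < s
  sn : s ≤ n
  qn : -(n : ℤ) ≤ q
  f1 : ∀ c, q < c → c < r → w s < w c
  f2 : ∀ c, c < q → w c < w q
  f3 : w q < w s
  f3' : w s < w r
  f4 : ∀ c, r < c → c < s → w c < w s
  f5 : ∀ c, s < c → w r < w c

theorem r7_exists {n : ℕ} {w₀ w : Pm} {r : ℤ} (h : r7_Inv n w₀ w r) (h1 : 1 ≤ r) (hn : r ≤ n)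
    (hd : w (r + 1) < w r) : ∃ q s, r7_St n w q r s := by
  have hr := (r7_mem h.supp r).1 ⟨by omega, hn⟩
  obtain ⟨s, ⟨hs1, hs2⟩, hs⟩ := Int.exists_greatest_of_bdd (P := fun z => r < z ∧ w z < w r)
    ⟨n, fun z hz => by
      by_contra hz'
      have := h.supp z (Or.inr (by omega))
      omega⟩ ⟨r + 1, by omega, hd⟩
  have hsn : s ≤ n := by
    by_contra hz'
    have := h.supp s (Or.inr (by omega))
    omega
  have hs' := (r7_mem h.supp s).1 ⟨by omega, hsn⟩
  have hneg : w (-(n : ℤ)) = -(n : ℤ) := h.supp _ (Or.inl (by omega))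
  obtain ⟨q, ⟨hq1, hq2⟩, hq⟩ := Int.exists_greatest_of_bdd (P := fun z => z ≤ 0 ∧ w z < w s)
    ⟨0, fun z hz => hz.1⟩ ⟨-(n : ℤ), by omega, by omega⟩
  refine ⟨q, s, hq1, h1, hs1, hsn, hq _ ⟨by omega, by omega⟩, ?_, ?_, hq2, hs2, ?_, ?_⟩
  · intro c hc hc'
    have hne := r7_ne w (show c ≠ s by omega)
    by_contra hlt
    by_cases hc0 : c ≤ 0
    · have := hq c ⟨hc0, by omega⟩
      omega
    · exact h.av c r s (by omega) hc' le_rfl hs1 ⟨by omega, hs2⟩
  · exact fun c hc => h.lo c q hc hq1
  · exact fun c hc hc' => h.hi c s hc hc'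
  · intro c hc
    have hne := r7_ne w (show c ≠ r by omega)
    by_contra hlt
    have := hs c ⟨by omega, by omega⟩
    omega

theorem r7_NN (n : ℕ) : (n : ℤ) - 1 ≤ NN n := by
  have h : n - 1 ≤ NN n := by
    unfold NN
    rcases Nat.lt_or_ge n 2 with h | h
    · omega
    · exact (Nat.le_div_iff_mul_le (by norm_num)).2 (by
        rw [mul_comm]
        exact Nat.mul_le_mul_right _ h)
  omega

theorem r7_eqv {n : ℕ} {w : Pm} {q r s : ℤ} (hs : Supp w (-(n : ℤ) + 1) n)
    (h : r7_St n w q r s) : r7_Eqv n w (w * Equiv.swap r s * Equiv.swap q r) := by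
  classical
  intro lo hi f hlo hhi hH
  have hN := r7_NN n
  have h0 := h.q0
  have h1 := h.r1
  have h2 := h.rs
  have h3 := h.sn
  have h4 := h.qn
  have h5 := h.f3
  have h6 := h.f3'
  have er : (w * Equiv.swap r s) r = w s := by simp
  have es : (w * Equiv.swap r s) s = w r := by simp
  have eo : ∀ c, c ≠ r → c ≠ s → (w * Equiv.swap r s) c = w c := fun c h h' => by
    simp [Equiv.swap_apply_of_ne_of_ne h h']
  have hX := hH (w * Equiv.swap r s) r (fun x hx => by
    rw [eo x (by omega) (by omega)]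
    exact hs x (by omega)) (by omega) (by omega)
  unfold Xf at hX
  rw [Finset.sum_eq_single_of_mem s, Finset.sum_eq_single_of_mem q] at hX
  · rw [mul_assoc w, Equiv.swap_mul_self, mul_one] at hX
    linarith
  · refine mem_filter.2 ⟨mem_Icc.2 ⟨by omega, by omega⟩, by omega, ?_, fun c hc hc' => ?_⟩
    · rw [er, eo q (by omega) (by omega)]
      exact h5
    · rw [er, eo c (by omega) (by omega)]
      have := h.f1 c hc hc'
      omega
  · intro b hb hne
    exfalso
    obtain ⟨-, hb1, hb2, hb3⟩ := mem_filter.1 hb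
    rw [er, eo b (by omega) (by omega)] at hb2
    rcases lt_or_gt_of_ne hne with hlt | hgt
    · refine hb3 q hlt (by omega) ?_
      rw [er, eo b (by omega) (by omega), eo q (by omega) (by omega)]
      exact ⟨h.f2 b hlt, h5⟩
    · have := h.f1 b hgt hb1
      omega
  · refine mem_filter.2 ⟨mem_Icc.2 ⟨by omega, by omega⟩, h2, ?_, fun c hc hc' => ?_⟩
    · rw [er, es]
      exact h6
    · rw [er, eo c (by omega) (by omega)]
      have := h.f4 c hc hc'
      omega
  · intro b hb hne
    exfalso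
    obtain ⟨-, hb1, hb2, hb3⟩ := mem_filter.1 hb
    rw [er, eo b (by omega) hne] at hb2
    rcases lt_or_gt_of_ne hne with hlt | hgt
    · have := h.f4 b hb1 hlt
      omega
    · refine hb3 s h2 hgt ?_
      rw [er, es, eo b (by omega) hne]
      exact ⟨h6, h.f5 b hgt⟩

theorem r7_swap {n : ℕ} {w w' : Pm} {q r s : ℤ} (h : r7_St n w q r s)
    (hi : ∀ x y, r < x → x < y → w x < w y)
    (eq : w' q = w s) (er : w' r = w q) (es : w' s = w r)
    (eo : ∀ c, c ≠ q → c ≠ r → c ≠ s → w' c = w c) (x : ℤ) :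
    r7_code n w' x = r7_code n w (Equiv.swap q r x) := by
  have h0 := h.q0
  have h1 := h.r1
  have h2 := h.rs
  have h3 := h.sn
  have h5 := h.f3
  have h6 := h.f3'
  unfold r7_code
  by_cases xq : x = q
  · subst xq
    rw [Equiv.swap_apply_left]
    have e1 : (Ioc x (n : ℤ)).filter (fun c => w' c < w' x) = Ico r s := by
      ext c
      simp only [mem_filter, mem_Ioc, mem_Ico, eq]
      by_cases cq : c = x
      · omega
      by_cases cr : c = r
      · subst cr
        omega
      by_cases cs : c = s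
      · subst cs
        omega
      rw [eo c cq cr cs]
      have a1 := h.f1 c
      have a4 := h.f4 c
      have a5 := h.f5 c
      omega
    have e2 : (Ioc r (n : ℤ)).filter (fun c => w c < w r) = Ioc r s := by
      ext c
      simp only [mem_filter, mem_Ioc]
      by_cases cs : c = s
      · subst cs
        omega
      have a4 := h.f4 c
      have a5 := h.f5 c
      omega
    rw [e1, e2, Int.card_Ico, Int.card_Ioc]
  by_cases xr : x = r
  · subst xr
    rw [Equiv.swap_apply_right]
    congr 1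
    ext c
    simp only [mem_filter, mem_Ioc, er]
    by_cases cq : c = q
    · omega
    by_cases cr : c = x
    · subst cr
      omega
    by_cases cs : c = s
    · subst cs
      omega
    rw [eo c cq cr cs]
    have a1 := h.f1 c
    omega
  rw [Equiv.swap_apply_of_ne_of_ne xq xr]
  by_cases xs : x = s
  · subst xs
    congr 1
    ext c
    simp only [mem_filter, mem_Ioc, es]
    by_cases cs : x < c
    · rw [eo c (by omega) (by omega) (by omega)]
      have a5 := h.f5 c
      omega
    · omega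
  rw [eo x xq xr xs]
  by_cases hm : q < x ∧ x < r
  · have b1 := h.f1 x hm.1 hm.2
    refine Finset.card_bij' (fun c _ => Equiv.swap r s c) (fun c _ => Equiv.swap r s c)
      ?_ ?_ (fun c _ => by simp) (fun c _ => by simp)
    · intro c hc
      simp only [mem_filter, mem_Ioc] at hc ⊢
      by_cases cr : c = r
      · subst cr
        rw [Equiv.swap_apply_left]
        omega
      by_cases cs : c = s
      · subst cs
        rw [Equiv.swap_apply_right]
        omega
      rw [Equiv.swap_apply_of_ne_of_ne cr cs]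
      rwa [eo c (by omega) cr cs] at hc
    · intro c hc
      simp only [mem_filter, mem_Ioc] at hc ⊢
      by_cases cr : c = r
      · subst cr
        rw [Equiv.swap_apply_left]
        omega
      by_cases cs : c = s
      · subst cs
        rw [Equiv.swap_apply_right]
        omega
      rw [Equiv.swap_apply_of_ne_of_ne cr cs]
      rwa [eo c (by omega) cr cs]
  · congr 1
    ext c
    simp only [mem_filter, mem_Ioc]
    have b2 := h.f2 x
    have b4 := h.f4 x
    by_cases cq : c = q
    · subst cq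
      omega
    by_cases cr : c = r
    · subst cr
      omega
    by_cases cs : c = s
    · subst cs
      omega
    rw [eo c cq cr cs]

theorem r7_code0 {n : ℕ} {w₀ : Pm} (h : Supp w₀ 1 n) {z : ℤ} {t : ℕ} (ht : 1 ≤ t)
    (hz : t ≤ r7_code n w₀ z) : 1 ≤ z ∧ z ≤ (n : ℤ) - t := by
  unfold r7_code at hz
  constructor
  · obtain ⟨c, hc⟩ := card_pos.1 (lt_of_lt_of_le ht hz)
    simp only [mem_filter, mem_Ioc] at hc
    by_contra hn
    have e := h z (Or.inl (by omega))
    have e' := h (w₀ c) (Or.inl (by omega))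
    have := w₀.injective e'
    omega
  · have := hz.trans (card_filter_le _ _)
    rw [Int.card_Ioc] at this
    omega

theorem r7_count {n : ℕ} {w₀ w σ : Pm} (h : Supp w₀ 1 n)
    (lo : ∀ x y, x < y → y ≤ 0 → w x < w y) (hσ : ∀ x, r7_code n w x = r7_code n w₀ (σ x))
    {x : ℤ} (hx : x ≤ 0) {t : ℕ} (ht : 1 ≤ t) (hz : t ≤ r7_code n w x) :
    -x + 1 + t ≤ n := by
  have h1 : (Icc x 0).card ≤ (Icc (1 : ℤ) (n - t)).card := by
    refine card_le_card_of_injOn σ (fun y hy => ?_) (fun a _ b _ e => σ.injective e)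
    have hy' := mem_Icc.1 (mem_coe.1 hy)
    refine mem_coe.2 (mem_Icc.2 (r7_code0 h ht ?_))
    rw [← hσ]
    refine hz.trans (card_le_card fun c hc => ?_)
    simp only [mem_filter, mem_Ioc] at hc ⊢
    have a1 := lo x c
    have a2 := lo x y
    by_cases e : x = y
    · subst e
      exact hc
    · omega
  rw [Int.card_Icc, Int.card_Icc] at h1
  omega

theorem r7_step {n : ℕ} {w₀ w : Pm} {r : ℤ} (h0 : Supp w₀ 1 n) (h : r7_Inv n w₀ w r) (h1 : 1 ≤ r)
    (hn : r ≤ n) (hd : w (r + 1) < w r) :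
    ∃ w', r7_Inv n w₀ w' r ∧ r7_Eqv n w w' ∧ w' r - w' (r + 1) < w r - w (r + 1) := by
  obtain ⟨q, s, S⟩ := r7_exists h h1 hn hd
  have a0 := S.q0
  have a2 := S.rs
  have a3 := S.sn
  have a4 := S.qn
  have a5 := S.f3
  have a6 := S.f3'
  set w' := w * Equiv.swap r s * Equiv.swap q r with hw'
  have eq : w' q = w s := by simp [hw']
  have er : w' r = w q := by
    simp [hw', Equiv.swap_apply_of_ne_of_ne (show q ≠ r by omega) (show q ≠ s by omega)]
  have es : w' s = w r := by
    simp [hw', Equiv.swap_apply_of_ne_of_ne (show s ≠ q by omega) (show s ≠ r by omega)]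
  have eo : ∀ c, c ≠ q → c ≠ r → c ≠ s → w' c = w c := fun c b1 b2 b3 => by
    simp [hw', Equiv.swap_apply_of_ne_of_ne b1 b2, Equiv.swap_apply_of_ne_of_ne b2 b3]
  have hsw := r7_swap S h.hi eq er es eo
  obtain ⟨σ, hσ⟩ := h.code
  have hσ' : ∀ x, r7_code n w' x = r7_code n w₀ ((σ * Equiv.swap q r) x) := fun x => by
    rw [hsw, hσ]
    rfl
  have lo' : ∀ x y, x < y → y ≤ 0 → w' x < w' y := by
    intro x y hxy hy
    have b0 := h.lo x y hxy hy
    by_cases xq : x = q
    · subst xq
      rw [eq, eo y (by omega) (by omega) (by omega)]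
      exact S.f1 y hxy (by omega)
    by_cases yq : y = q
    · subst yq
      rw [eq, eo x (by omega) (by omega) (by omega)]
      omega
    rwa [eo x xq (by omega) (by omega), eo y yq (by omega) (by omega)]
  have hq : -(n : ℤ) + 1 ≤ q := by
    have : 1 ≤ r7_code n w' q := by
      refine card_pos.2 ⟨r, ?_⟩
      simp only [mem_filter, mem_Ioc]
      omega
    have := r7_count h0 lo' hσ' a0 le_rfl this
    omega
  refine ⟨w', ⟨fun x hx => ?_, lo', ?_, ?_, σ * Equiv.swap q r, hσ'⟩, r7_eqv h.supp S, ?_⟩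
  · rw [eo x (by omega) (by omega) (by omega)]
    exact h.supp x hx
  · intro x y hx hxy
    have b0 := h.hi x y hx hxy
    by_cases xs : x = s
    · subst xs
      rw [es, eo y (by omega) (by omega) (by omega)]
      exact S.f5 y hxy
    by_cases ys : y = s
    · subst ys
      rw [es, eo x (by omega) (by omega) (by omega)]
      omega
    rwa [eo x (by omega) (by omega) xs, eo y (by omega) (by omega) ys]
  · intro a b c ha hab hb hbc
    have b1 := S.f1 a (by omega) (by omega)
    rw [eo a (by omega) (by omega) (by omega)]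
    by_cases br : b = r
    · subst br
      omega
    rw [eo b (by omega) br (by omega)]
    by_cases cr : c = r
    · subst cr
      omega
    by_cases cs : c = s
    · subst cs
      rw [es]
      exact h.av a b r ha hab hb (by omega)
    rw [eo c (by omega) cr cs]
    exact h.av a b c ha hab hb hbc
  · by_cases e : r + 1 = s
    · rw [e] at hd ⊢
      omega
    · rw [eo (r + 1) (by omega) (by omega) e]
      omega

theorem r7_inner {n : ℕ} {w₀ : Pm} {r : ℤ} (h0 : Supp w₀ 1 n) (h1 : 1 ≤ r) (hn : r ≤ n) (k : ℕ) :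
    ∀ w, r7_Inv n w₀ w r → w r - w (r + 1) < k → ∃ g, r7_Inv n w₀ g (r - 1) ∧ r7_Eqv n w g := by
  have fin : ∀ w, r7_Inv n w₀ w r → w r < w (r + 1) →
      ∃ g, r7_Inv n w₀ g (r - 1) ∧ r7_Eqv n w g := by
    intro w h hd
    refine ⟨w, ⟨h.supp, h.lo, fun x y hx hxy => ?_,
      fun a b c ha hab hb hbc => h.av a b c ha hab (by omega) hbc, h.code⟩,
      fun _ _ _ _ _ _ => rfl⟩
    by_cases xr : x = r
    · subst xr
      have := h.hi (x + 1) y (by omega)
      by_cases e : y = x + 1
      · rwa [e]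
      · omega
    · exact h.hi x y (by omega) hxy
  induction k with
  | zero => exact fun w h hk => fin w h (by omega)
  | succ k ih =>
    intro w h hk
    have hne := r7_ne w (show r ≠ r + 1 by omega)
    rcases lt_or_gt_of_ne hne with hd | hd
    · exact fin w h hd
    · obtain ⟨w', i', e', m'⟩ := r7_step h0 h h1 hn hd
      obtain ⟨g, ig, eg⟩ := ih w' i' (by omega)
      exact ⟨g, ig, fun lo hi f a b c => (e' lo hi f a b c).trans (eg lo hi f a b c)⟩

theorem r7_outer {n : ℕ} {w₀ : Pm} (h0 : Supp w₀ 1 n) (r : ℕ) (hn : r ≤ n) :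
    ∀ w, r7_Inv n w₀ w r → ∃ g, r7_Inv n w₀ g 0 ∧ r7_Eqv n w g := by
  induction r with
  | zero => exact fun w h => ⟨w, by simpa using h, fun _ _ _ _ _ _ => rfl⟩
  | succ r ih =>
    intro w h
    obtain ⟨w', i', e'⟩ := r7_inner h0 (by omega) (by omega)
      ((w ((r + 1 : ℕ) : ℤ) - w (((r + 1 : ℕ) : ℤ) + 1)).toNat + 1) w h (by omega)
    obtain ⟨g, ig, eg⟩ := ih (by omega) w' (by simpa using i')
    exact ⟨g, ig, fun lo hi f a b c => (e' lo hi f a b c).trans (eg lo hi f a b c)⟩

theorem r7_val {n : ℕ} {g : Pm} (hs : Supp g (-(n : ℤ) + 1) n)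
    (lo : ∀ x y, x < y → y ≤ 0 → g x < g y) {x : ℤ} (hx : x ≤ 0) (hx' : -(n : ℤ) + 1 ≤ x) :
    g x = x + r7_code n g x := by
  have hg := (r7_mem hs x).1 ⟨hx', by omega⟩
  have e1 : ((Icc (-(n : ℤ) + 1) n).filter (fun c => g c < g x)).card =
      (Ico (-(n : ℤ) + 1) (g x)).card := by
    refine Finset.card_bij' (fun c _ => g c) (fun c _ => g.symm c) ?_ ?_ (fun c _ => by simp)
      (fun c _ => by simp)
    · intro c hc
      simp only [mem_filter, mem_Icc, mem_Ico] at hc ⊢
      have := (r7_mem hs c).1 hc.1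
      omega
    · intro c hc
      simp only [mem_filter, mem_Icc, mem_Ico, Equiv.apply_symm_apply] at hc ⊢
      refine ⟨(r7_mem hs (g.symm c)).2 ?_, hc.2⟩
      rw [Equiv.apply_symm_apply]
      omega
  have e2 : (Icc (-(n : ℤ) + 1) n).filter (fun c => g c < g x) =
      Ico (-(n : ℤ) + 1) x ∪ (Ioc x (n : ℤ)).filter (fun c => g c < g x) := by
    ext c
    simp only [mem_filter, mem_Icc, mem_Ico, mem_union, mem_Ioc]
    have := lo c x
    by_cases e : c = x
    · subst e
      omega
    · omega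
  rw [e2, card_union_of_disjoint, Int.card_Ico, Int.card_Ico] at e1
  · unfold r7_code
    omega
  · refine disjoint_left.2 fun c hc hc' => ?_
    simp only [mem_filter, mem_Ico, mem_Ioc] at hc hc'
    omega

theorem r7_ninv (n : ℕ) (w : Pm) :
    (ninv n w : ℤ) = ∑ x ∈ Icc (1 : ℤ) n, ((n : ℤ) - x - r7_code n w x) := by
  unfold ninv
  rw [card_filter, sum_product]
  push_cast
  refine sum_congr rfl fun x hx => ?_
  have hx' := mem_Icc.1 hx
  have e1 := card_filter_add_card_filter_not (s := Ioc x (n : ℤ)) (fun c => w c < w x)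
  have e2 : (Icc (1 : ℤ) n).filter (fun c => x < c ∧ w x < w c) =
      (Ioc x (n : ℤ)).filter (fun c => ¬ w c < w x) := by
    ext c
    simp only [mem_filter, mem_Icc, mem_Ioc]
    by_cases e : c = x
    · subst e
      omega
    · have := r7_ne w e
      omega
  rw [sum_boole, e2]
  rw [Int.card_Ioc] at e1
  unfold r7_code
  omega

theorem r7_reidx (n : ℕ) (F : ℤ → ℤ) : ∑ x ∈ Icc (1 : ℤ) n, F x = ∑ i ∈ range n, F (i + 1) := by
  symm
  refine sum_bij' (fun i _ => (i : ℤ) + 1) (fun x _ => (x - 1).toNat) ?_ ?_ ?_ ?_ (fun _ _ => rfl)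
  · intro i hi
    simp only [mem_range, mem_Icc] at hi ⊢
    omega
  · intro i hi
    simp only [mem_range, mem_Icc] at hi ⊢
    omega
  · intro i _
    omega
  · intro i hi
    simp only [mem_Icc] at hi
    omega

theorem r7_P2 : SpP2 := by
  intro n w hs hav
  have h0 : r7_Inv n w w n := by
    refine ⟨fun x hx => hs x (by omega), fun x y hxy hy => ?_, fun x y hx hxy => ?_,
      fun a b c ha hab hb hbc => ?_, 1, fun _ => rfl⟩
    · rwa [hs x (by omega), hs y (by omega)]
    · rwa [hs x (by omega), hs y (by omega)]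
    · by_cases hc : c ≤ n
      · exact hav a b c ha hab hbc hc
      · have := (r7_mem hs b).1 ⟨by omega, hb⟩
        have := hs c (by omega)
        omega
  obtain ⟨g, ig, eg⟩ := r7_outer hs n le_rfl w h0
  obtain ⟨σ, hσ⟩ := ig.code
  have hv : ∀ i : ℕ, i < n → g (-(i : ℤ)) = -(i : ℤ) + r7_code n g (-(i : ℤ)) := fun i hi =>
    r7_val ig.supp ig.lo (by omega) (by omega)
  refine ⟨g, ⟨⟨ig.supp, ig.lo, ig.hi⟩, fun i hi => ?_, ?_⟩, eg⟩
  · rw [hv i hi]
    rcases Nat.eq_zero_or_pos (r7_code n g (-(i : ℤ))) with e | e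
    · omega
    · have := r7_count hs ig.lo hσ (x := -(i : ℤ)) (by omega) e le_rfl
      omega
  · have e1 : ∑ i ∈ range n, (r7_code n g (-(i : ℤ)) : ℤ) =
        ∑ x ∈ Icc (1 : ℤ) n, (r7_code n w x : ℤ) := by
      refine sum_bij_ne_zero (fun i _ _ => σ (-(i : ℤ))) ?_ ?_ ?_ ?_
      · intro i _ hi
        have := r7_code0 hs (z := σ (-(i : ℤ))) le_rfl (by rw [← hσ]; omega)
        simp only [mem_Icc]
        omega
      · intro i _ _ j _ _ e
        have := σ.injective e
        omega
      · intro x _ hx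
        have hc : 1 ≤ r7_code n g (σ.symm x) := by
          rw [hσ, Equiv.apply_symm_apply]
          omega
        have h1 : σ.symm x ≤ 0 := by
          by_contra hn
          obtain ⟨c, hc'⟩ := card_pos.1 hc
          simp only [mem_filter, mem_Ioc] at hc'
          have := ig.hi (σ.symm x) c (by omega) hc'.1.1
          omega
        have h2 := r7_count hs ig.lo hσ h1 le_rfl hc
        have e : -(((-σ.symm x).toNat : ℕ) : ℤ) = σ.symm x := by omega
        refine ⟨(-σ.symm x).toNat, mem_range.2 (by omega), ?_, ?_⟩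
        · rw [e]
          omega
        · rw [e, Equiv.apply_symm_apply]
      · intro i _ _
        rw [hσ]
    rw [r7_ninv, sum_sub_distrib (s := Icc (1 : ℤ) n), ← e1, r7_reidx, ← sum_sub_distrib]
    refine sum_congr rfl fun i hi => ?_
    rw [hv i (mem_range.1 hi)]
    ring

end Pool.Agent.MP_a5ded6_pr.POIS
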