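import Pool.Agent.MP_a5ded6_pr.POIS.Spec

set_option autoImplicit false

namespace Pool.Agent.MP_a5ded6_pr.POIS

open Finset

/-! ## The Lagrange identity -/

noncomputable def r8b_w (n : ℕ) (x : ℕ → ℝ) (i : ℕ) : ℝ :=
  ∏ j ∈ (range n).erase i, ((x i - 1 - x j) / (x i - x j))

theorem r8b_w_succ (n : ℕ) (x : ℕ → ℝ) (i : ℕ) (hi : i < n) :
    r8b_w (n + 1) x i = r8b_w n x i * ((x i - 1 - x n) / (x i - x n)) := by
  unfold r8b_w
  have h : (range (n + 1)).erase i = insert n ((range n).erase i) := by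
    ext j
    simp only [mem_erase, mem_range, mem_insert]
    omega
  rw [h, prod_insert (by simp), mul_comm]

theorem r8b_w_last (n : ℕ) (x : ℕ → ℝ) :
    r8b_w (n + 1) x n = ∏ j ∈ range n, ((x n - 1 - x j) / (x n - x j)) := by
  unfold r8b_w
  have h : (range (n + 1)).erase n = range n := by
    ext j
    simp only [mem_erase, mem_range]
    omega
  rw [h]

theorem r8b_three (x : ℕ → ℝ) (n : ℕ) :
    (∀ i j, i < n → j < n → i ≠ j → x i ≠ x j) →
    (∀ t : ℝ, (∀ i, i < n → t ≠ x i) →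
      ∏ j ∈ range n, ((t - 1 - x j) / (t - x j)) = 1 - ∑ i ∈ range n, r8b_w n x i / (t - x i)) ∧
    ∑ i ∈ range n, r8b_w n x i = n ∧
    ∑ i ∈ range n, x i * r8b_w n x i = ∑ i ∈ range n, x i - (n.choose 2 : ℕ) := by
  induction n with
  | zero => intro _; simp
  | succ n ih =>
    intro hx
    obtain ⟨hF, hA, hB⟩ := ih (fun i j hi hj hij => hx i j (by omega) (by omega) hij)
    have hy : ∀ i, i < n → x n ≠ x i := fun i hi => hx n i (by omega) (by omega) (by omega)
    have hlast : r8b_w (n + 1) x n = 1 - ∑ i ∈ range n, r8b_w n x i / (x n - x i) := by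
      rw [r8b_w_last, hF (x n) hy]
    have hstep : ∀ i ∈ range n,
        r8b_w (n + 1) x i = r8b_w n x i + r8b_w n x i / (x n - x i) := by
      intro i hi
      have hi' := mem_range.mp hi
      have h1 : x n - x i ≠ 0 := sub_ne_zero.mpr (hy i hi')
      have h2 : x i - x n ≠ 0 := sub_ne_zero.mpr (hy i hi').symm
      rw [r8b_w_succ n x i hi']
      field_simp
      ring
    refine ⟨?_, ?_, ?_⟩
    · intro t ht
      have htn : t - x n ≠ 0 := sub_ne_zero.mpr (ht n (by omega))
      rw [prod_range_succ, hF t (fun i hi => ht i (by omega)), sum_range_succ, hlast]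
      have h1 : ∑ i ∈ range n, r8b_w (n + 1) x i / (t - x i) =
          ∑ i ∈ range n, (r8b_w n x i / (t - x i) * ((t - 1 - x n) / (t - x n)) +
            r8b_w n x i / (x n - x i) / (t - x n)) := by
        refine sum_congr rfl (fun i hi => ?_)
        have hi' := mem_range.mp hi
        have h1 : x n - x i ≠ 0 := sub_ne_zero.mpr (hy i hi')
        have h3 : t - x i ≠ 0 := sub_ne_zero.mpr (ht i (by omega))
        rw [hstep i hi]
        field_simp
        ring
      rw [h1, sum_add_distrib, ← sum_mul, ← sum_div]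
      field_simp
      ring
    · rw [sum_range_succ, hlast, sum_congr rfl hstep, sum_add_distrib, hA]
      push_cast
      ring
    · rw [sum_range_succ, hlast, sum_range_succ]
      have h1 : ∑ i ∈ range n, x i * r8b_w (n + 1) x i =
          ∑ i ∈ range n, (x i * r8b_w n x i - r8b_w n x i +
            x n * (r8b_w n x i / (x n - x i))) := by
        refine sum_congr rfl (fun i hi => ?_)
        have hi' := mem_range.mp hi
        have h1 : x n - x i ≠ 0 := sub_ne_zero.mpr (hy i hi')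
        rw [hstep i hi]
        field_simp
        ring
      rw [h1, sum_add_distrib, sum_sub_distrib, ← mul_sum, hA, hB, Nat.choose_succ_succ' n 1]
      push_cast
      rw [Nat.choose_one_right]
      ring

theorem r8b_Lag : SpLag := by
  intro n x hx
  exact (r8b_three x n hx).2.2

/-! ## The ratio bound -/

theorem r8b_A (i : ℕ) :
    (∏ u ∈ range i, (1 + 1 / (2 * ((u : ℝ) + 1)))) ^ 2 ≤ 2 * (i : ℝ) + 1 := by
  induction i with
  | zero => simp
  | succ i ih =>
    rw [prod_range_succ, mul_pow]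
    have hi : (0 : ℝ) ≤ i := Nat.cast_nonneg i
    have h1 : (2 * (i : ℝ) + 1) * (1 + 1 / (2 * ((i : ℝ) + 1))) ^ 2 ≤ 2 * ((i + 1 : ℕ) : ℝ) + 1 := by
      push_cast
      have h2 : (1 + 1 / (2 * ((i : ℝ) + 1))) = (2 * i + 3) / (2 * i + 2) := by
        field_simp
        ring
      rw [h2, div_pow, ← mul_div_assoc, div_le_iff₀ (by positivity)]
      nlinarith [mul_nonneg hi hi]
    exact le_trans (mul_le_mul_of_nonneg_right ih (sq_nonneg _)) h1

theorem r8b_B (L : ℝ) (hL : 0 ≤ L) (J : ℕ) :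
    (∏ u ∈ range J, (1 - 1 / (2 * ((u : ℝ) + 1) + L))) ^ 2 * (2 * (J : ℝ) + L + 1) ≤ L + 1 := by
  induction J with
  | zero => simp
  | succ J ih =>
    rw [prod_range_succ, mul_pow, mul_assoc]
    have hJ : (0 : ℝ) ≤ J := Nat.cast_nonneg J
    have h1 : (1 - 1 / (2 * ((J : ℝ) + 1) + L)) ^ 2 * (2 * ((J + 1 : ℕ) : ℝ) + L + 1) ≤
        2 * (J : ℝ) + L + 1 := by
      push_cast
      have h2 : (1 - 1 / (2 * ((J : ℝ) + 1) + L)) = (2 * J + L + 1) / (2 * J + L + 2) := by
        field_simp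
        ring
      rw [h2, div_pow, div_mul_eq_mul_div, div_le_iff₀ (by positivity)]
      have h3 : 0 ≤ 2 * (J : ℝ) + L + 1 := by positivity
      nlinarith [h3]
    exact le_trans (mul_le_mul_of_nonneg_left h1 (sq_nonneg _)) ih

theorem r8b_AB (L : ℝ) (hL : 0 ≤ L) (i J n : ℕ) (hn : i + J + 1 = n) :
    2 * (J : ℝ) * ((∏ u ∈ range i, (1 + 1 / (2 * ((u : ℝ) + 1)))) *
      ∏ u ∈ range J, (1 - 1 / (2 * ((u : ℝ) + 1) + L))) ≤ (L + 1) * n := by
  have hA := r8b_A i
  have hB := r8b_B L hL J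
  set A := ∏ u ∈ range i, (1 + 1 / (2 * ((u : ℝ) + 1))) with hAd
  set B := ∏ u ∈ range J, (1 - 1 / (2 * ((u : ℝ) + 1) + L)) with hBd
  have hi : (0 : ℝ) ≤ i := Nat.cast_nonneg i
  have hJ : (0 : ℝ) ≤ J := Nat.cast_nonneg J
  have hnn : (n : ℝ) = i + J + 1 := by rw [← hn]; push_cast; ring
  have h1 : B ^ 2 * (2 * (J : ℝ)) ≤ L + 1 := by
    have : B ^ 2 * (2 * (J : ℝ)) ≤ B ^ 2 * (2 * (J : ℝ) + L + 1) :=
      mul_le_mul_of_nonneg_left (by linarith) (sq_nonneg _)
    linarith
  have h2 : A ^ 2 * (2 * (J : ℝ)) ≤ (n : ℝ) ^ 2 := by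
    have h3 : A ^ 2 * (2 * (J : ℝ)) ≤ (2 * (i : ℝ) + 1) * (2 * (J : ℝ)) :=
      mul_le_mul_of_nonneg_right hA (by positivity)
    rw [hnn]
    nlinarith [sq_nonneg ((i : ℝ) - J + 1), sq_nonneg ((i : ℝ) - J)]
  have h4 : (2 * (J : ℝ) * (A * B)) ^ 2 ≤ ((L + 1) * n) ^ 2 := by
    have h5 : (2 * (J : ℝ) * (A * B)) ^ 2 = (A ^ 2 * (2 * (J : ℝ))) * (B ^ 2 * (2 * (J : ℝ))) := by
      ring
    have h6 : (A ^ 2 * (2 * (J : ℝ))) * (B ^ 2 * (2 * (J : ℝ))) ≤ (n : ℝ) ^ 2 * (L + 1) :=
      mul_le_mul h2 h1 (by positivity) (by positivity)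
    have h7 : (n : ℝ) ^ 2 * (L + 1) ≤ ((L + 1) * n) ^ 2 := by
      have : (n : ℝ) ^ 2 * (L + 1) * 1 ≤ (n : ℝ) ^ 2 * (L + 1) * (L + 1) :=
        mul_le_mul_of_nonneg_left (by linarith) (by positivity)
      nlinarith
    linarith
  exact le_of_sq_le_sq h4 (by positivity)

theorem r8b_frob_nonneg (n : ℕ) (z : ℕ → ℤ) (hz : ∀ i j, i < j → j < n → z j < z i) :
    0 ≤ Frob n z := by
  unfold Frob
  refine div_nonneg (prod_nonneg fun a _ => prod_nonneg fun b hb => ?_)
    (prod_nonneg fun a _ => Nat.cast_nonneg _)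
  have h := mem_Ioo.mp hb
  have := hz a b h.1 h.2
  exact_mod_cast (by omega : (0 : ℤ) ≤ z a - z b)

/-- adding one cell in row `i` -/
theorem r8b_step (n L i : ℕ) (z z' : ℕ → ℤ) (hi : i < n)
    (hz : ∀ a b, a < b → b < n → z b < z a)
    (hz' : ∀ a b, a < b → b < n → z' b < z' a)
    (hlo : -(n : ℤ) + 1 ≤ z i)
    (hi1 : z' i = z i + 1) (hi2 : ∀ a, a ≠ i → z' a = z a)
    (hup : z' i ≤ (n : ℤ) - 1 - 2 * i)
    (hbef : ∀ a : ℕ, a < i → z a = (n : ℤ) - 1 - 2 * a)
    (haft : ∀ b : ℕ, i < b → b < n → (n : ℤ) - 1 - 2 * b - z b ≤ L) :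
    Frob n z ≤ ((L : ℝ) + 1) * n * Frob n z' := by
  obtain ⟨J, hJ⟩ : ∃ J, i + J + 1 = n := ⟨n - i - 1, by omega⟩
  have hL : (0 : ℝ) ≤ L := Nat.cast_nonneg L
  set α : ℕ → ℝ := fun u => 1 + 1 / (2 * ((u : ℝ) + 1)) with hα
  set β : ℕ → ℝ := fun u => 1 - 1 / (2 * ((u : ℝ) + 1) + L) with hβ
  have hα0 : ∀ u, 0 ≤ α u := fun u => by simp only [hα]; positivity
  have hβ0 : ∀ u, 0 ≤ β u := fun u => by
    simp only [hβ]
    have hu : (0 : ℝ) ≤ u := Nat.cast_nonneg u
    rw [sub_nonneg, div_le_one (by positivity)]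
    linarith
  have hAB := r8b_AB L hL i J n hJ
  have hF' := r8b_frob_nonneg n z' hz'
  -- the Vandermonde part
  have hV : ∏ a ∈ range n, ∏ b ∈ Ioo a n, ((z a - z b : ℤ) : ℝ) ≤
      ((∏ u ∈ range i, α u) * ∏ u ∈ range J, β u) *
        ∏ a ∈ range n, ∏ b ∈ Ioo a n, ((z' a - z' b : ℤ) : ℝ) := by
    have h1 : ∏ a ∈ range n, ∏ b ∈ Ioo a n, (if b = i then α (i - 1 - a) else 1) =
        ∏ u ∈ range i, α u := by
      rw [← prod_range_reflect α i]
      have h2 : ∀ a ∈ range n, ∏ b ∈ Ioo a n, (if b = i then α (i - 1 - a) else 1) =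
          if a ∈ range i then α (i - 1 - a) else 1 := by
        intro a _
        rw [prod_ite_eq']
        simp only [mem_Ioo, mem_range, hi, and_true]
      rw [prod_congr rfl h2, prod_ite_mem, inter_eq_right.mpr (range_subset_range.mpr hi.le)]
    have h3 : ∏ a ∈ range n, ∏ b ∈ Ioo a n, (if a = i then β (b - (i + 1)) else 1) =
        ∏ u ∈ range J, β u := by
      have h2 : ∀ a ∈ range n, ∏ b ∈ Ioo a n, (if a = i then β (b - (i + 1)) else 1) =
          if a = i then ∏ u ∈ range J, β u else 1 := by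
        intro a _
        by_cases h : a = i
        · subst h
          simp only [if_true]
          have h4 : Ioo a n = Ico (a + 1) n := by
            ext b
            simp only [mem_Ioo, mem_Ico]
            omega
          rw [h4, prod_Ico_eq_prod_range]
          have h5 : n - (a + 1) = J := by omega
          rw [h5]
          exact prod_congr rfl (fun k _ => by rw [Nat.add_sub_cancel_left])
        · simp [h]
      rw [prod_congr rfl h2, prod_ite_eq']
      simp [hi]
    rw [← h1, ← h3, ← prod_mul_distrib, ← prod_mul_distrib]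
    refine prod_le_prod (fun a _ => prod_nonneg fun b hb => ?_) (fun a _ => ?_)
    · have h := mem_Ioo.mp hb
      have := hz a b h.1 h.2
      exact_mod_cast (by omega : (0 : ℤ) ≤ z a - z b)
    · rw [← prod_mul_distrib, ← prod_mul_distrib]
      refine prod_le_prod (fun b hb => ?_) (fun b hb => ?_)
      · have h := mem_Ioo.mp hb
        have := hz a b h.1 h.2
        exact_mod_cast (by omega : (0 : ℤ) ≤ z a - z b)
      · have h := mem_Ioo.mp hb
        by_cases hb' : b = i
        · have ha' : a ≠ i := by omega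
          have hai : a < i := by omega
          obtain ⟨u, hu⟩ : ∃ u, a + u + 1 = i := ⟨i - a - 1, by omega⟩
          have hu' : i - 1 - a = u := by omega
          rw [if_pos hb', if_neg ha', hb', hu', hi2 a ha', hi1]
          have h6 : 2 * ((u : ℤ) + 1) ≤ z a - (z i + 1) := by
            have := hbef a hai
            omega
          have h7 : 2 * ((u : ℝ) + 1) ≤ ((z a - (z i + 1) : ℤ) : ℝ) := by exact_mod_cast h6
          have h8 : ((z a - z i : ℤ) : ℝ) = ((z a - (z i + 1) : ℤ) : ℝ) + 1 := by push_cast; ring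
          rw [h8]
          generalize ((z a - (z i + 1) : ℤ) : ℝ) = y at h7
          simp only [hα]
          have hu0 : (0 : ℝ) < 2 * ((u : ℝ) + 1) := by positivity
          have h9 : 1 ≤ y / (2 * ((u : ℝ) + 1)) := (one_le_div hu0).mpr h7
          have h10 : (1 + 1 / (2 * ((u : ℝ) + 1))) * 1 * y = y + y / (2 * ((u : ℝ) + 1)) := by
            ring
          rw [h10]
          linarith
        · rw [if_neg hb', hi2 b hb']
          by_cases ha' : a = i
          · obtain ⟨u, hu⟩ : ∃ u, i + u + 1 = b := ⟨b - i - 1, by omega⟩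
            have hu' : b - (i + 1) = u := by omega
            rw [if_pos ha', ha', hu', hi1]
            have h6 : z i + 1 - z b ≤ 2 * ((u : ℤ) + 1) + L := by
              have := haft b (by omega) h.2
              omega
            have h7 : ((z i + 1 - z b : ℤ) : ℝ) ≤ 2 * ((u : ℝ) + 1) + L := by exact_mod_cast h6
            have h8 : ((z i - z b : ℤ) : ℝ) = ((z i + 1 - z b : ℤ) : ℝ) - 1 := by push_cast; ring
            rw [h8]
            generalize ((z i + 1 - z b : ℤ) : ℝ) = y at h7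
            simp only [hβ]
            have hu0 : (0 : ℝ) < 2 * ((u : ℝ) + 1) + L := by positivity
            have h9 : y / (2 * ((u : ℝ) + 1) + L) ≤ 1 := (div_le_one hu0).mpr h7
            have h10 : 1 * (1 - 1 / (2 * ((u : ℝ) + 1) + L)) * y =
                y - y / (2 * ((u : ℝ) + 1) + L) := by ring
            rw [h10]
            linarith
          · rw [if_neg ha', hi2 a ha']
            simp
  -- the factorial part
  have hD : ∏ a ∈ range n, (((z' a + n - 1).toNat.factorial : ℕ) : ℝ) ≤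
      2 * (J : ℝ) * ∏ a ∈ range n, (((z a + n - 1).toNat.factorial : ℕ) : ℝ) := by
    have h1 : ∏ a ∈ range n, (if a = i then 2 * (J : ℝ) else 1) = 2 * (J : ℝ) := by
      rw [prod_ite_eq']
      simp [hi]
    rw [← h1, ← prod_mul_distrib]
    refine prod_le_prod (fun a _ => Nat.cast_nonneg _) (fun a _ => ?_)
    by_cases ha' : a = i
    · rw [if_pos ha', ha', hi1]
      have h2 : (z i + 1 + n - 1).toNat = (z i + n - 1).toNat + 1 := by omega
      have h3 : (z i + n - 1).toNat + 1 ≤ 2 * J := by omega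
      rw [h2, Nat.factorial_succ]
      have h4 : ((z i + n - 1).toNat + 1) * (z i + n - 1).toNat.factorial ≤
          2 * J * (z i + n - 1).toNat.factorial := Nat.mul_le_mul_right _ h3
      exact_mod_cast h4
    · rw [if_neg ha', hi2 a ha', one_mul]
  have hDp : 0 < ∏ a ∈ range n, (((z a + n - 1).toNat.factorial : ℕ) : ℝ) :=
    prod_pos fun a _ => by exact_mod_cast Nat.factorial_pos _
  have hDp' : 0 < ∏ a ∈ range n, (((z' a + n - 1).toNat.factorial : ℕ) : ℝ) :=
    prod_pos fun a _ => by exact_mod_cast Nat.factorial_pos _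
  have hP0 : 0 ≤ (∏ u ∈ range i, α u) * ∏ u ∈ range J, β u :=
    mul_nonneg (prod_nonneg fun u _ => hα0 u) (prod_nonneg fun u _ => hβ0 u)
  have hV' : ∏ a ∈ range n, ∏ b ∈ Ioo a n, ((z' a - z' b : ℤ) : ℝ) =
      Frob n z' * ∏ a ∈ range n, (((z' a + n - 1).toNat.factorial : ℕ) : ℝ) := by
    unfold Frob
    rw [div_mul_cancel₀ _ hDp'.ne']
  have hAB' : 2 * (J : ℝ) * ((∏ u ∈ range i, α u) * ∏ u ∈ range J, β u) ≤ ((L : ℝ) + 1) * n := hAB
  have hdef : Frob n z = (∏ a ∈ range n, ∏ b ∈ Ioo a n, ((z a - z b : ℤ) : ℝ)) /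
      ∏ a ∈ range n, (((z a + n - 1).toNat.factorial : ℕ) : ℝ) := rfl
  rw [hdef, div_le_iff₀ hDp]
  rw [hV'] at hV
  generalize (∏ u ∈ range i, α u) * ∏ u ∈ range J, β u = P at hV hP0 hAB'
  generalize ∏ a ∈ range n, (((z' a + n - 1).toNat.factorial : ℕ) : ℝ) = D' at hV hD hDp'
  generalize ∏ a ∈ range n, (((z a + n - 1).toNat.factorial : ℕ) : ℝ) = D at hD hDp
  have h1 : P * (Frob n z' * D') ≤ P * (Frob n z' * (2 * (J : ℝ) * D)) :=
    mul_le_mul_of_nonneg_left (mul_le_mul_of_nonneg_left hD hF') hP0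
  have h2 : 2 * (J : ℝ) * P * (Frob n z' * D) ≤ ((L : ℝ) + 1) * n * (Frob n z' * D) :=
    mul_le_mul_of_nonneg_right hAB' (mul_nonneg hF' hDp.le)
  calc _ ≤ _ := hV
    _ ≤ _ := h1
    _ = 2 * (J : ℝ) * P * (Frob n z' * D) := by ring
    _ ≤ _ := h2
    _ = _ := by ring

theorem r8b_NN (n : ℕ) : 2 * NN n + n = n * n := by
  unfold NN
  have h : 2 ∣ n * (n - 1) := (Nat.even_mul_pred_self n).two_dvd
  rw [Nat.mul_div_cancel' h]
  cases n with
  | zero => simp
  | succ n => simp only [Nat.add_sub_cancel]; ring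

theorem r8d_Ratio : SpRatio := by
  intro l
  induction l with
  | zero =>
    refine ⟨1, 0, zero_le_one, fun n _ => ⟨Nat.zero_le _, fun z _ _ hup hs => ?_⟩⟩
    have h0 : ∀ a ∈ range n, (n : ℤ) - 1 - 2 * a - z a = 0 :=
      (sum_eq_zero_iff_of_nonneg
        (fun a ha => sub_nonneg.mpr (hup a (mem_range.mp ha)))).mp (by simpa using hs)
    have h1 : ∀ a, a < n → z a = (n : ℤ) - 1 - 2 * a := fun a ha => by
      have := h0 a (mem_range.mpr ha)
      omega
    have h2 : Frob n z = Frob n (fun i => (n : ℤ) - 1 - 2 * i) := by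
      unfold Frob
      have h3 : ∏ a ∈ range n, ∏ b ∈ Ioo a n, ((z a - z b : ℤ) : ℝ) =
          ∏ a ∈ range n, ∏ b ∈ Ioo a n,
            (((n : ℤ) - 1 - 2 * a - ((n : ℤ) - 1 - 2 * b) : ℤ) : ℝ) :=
        prod_congr rfl fun a ha => prod_congr rfl fun b hb => by
          rw [h1 a (mem_range.mp ha), h1 b (mem_Ioo.mp hb).2]
      have h4 : ∏ a ∈ range n, (((z a + n - 1).toNat.factorial : ℕ) : ℝ) =
          ∏ a ∈ range n, ((((n : ℤ) - 1 - 2 * a + n - 1).toNat.factorial : ℕ) : ℝ) :=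
        prod_congr rfl fun a ha => by rw [h1 a (mem_range.mp ha)]
      rw [h3, h4]
    rw [h2]
    simp
  | succ l ih =>
    obtain ⟨C, n₀, hC, ih⟩ := ih
    refine ⟨4 * ((l : ℝ) + 1) * C, max n₀ (4 * l + 7), by positivity, fun n hn => ?_⟩
    have hn0 : n₀ ≤ n := le_trans (le_max_left _ _) hn
    have hn1 : 4 * l + 7 ≤ n := le_trans (le_max_right _ _) hn
    have hNN := r8b_NN n
    have hsq : n * 7 ≤ n * n := Nat.mul_le_mul_left n (by omega)
    have hl : l + 1 ≤ NN n := by omega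
    refine ⟨hl, fun z hz hlo hup hs => ?_⟩
    have hex : ∃ i : ℕ, i < n ∧ z i < (n : ℤ) - 1 - 2 * i := by
      by_contra hne
      have h1 : ∑ a ∈ range n, ((n : ℤ) - 1 - 2 * a - z a) = 0 :=
        sum_eq_zero fun a ha => by
          have h2 := hup a (mem_range.mp ha)
          have h3 : ¬ z a < (n : ℤ) - 1 - 2 * a := fun h => hne ⟨a, mem_range.mp ha, h⟩
          omega
      rw [h1] at hs
      omega
    classical
    obtain ⟨hi, hzi⟩ := Nat.find_spec hex
    have hmin : ∀ a, a < Nat.find hex → ¬ (a < n ∧ z a < (n : ℤ) - 1 - 2 * a) :=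
      fun a ha => Nat.find_min hex ha
    generalize Nat.find hex = i at hi hzi hmin
    have hbef : ∀ a : ℕ, a < i → z a = (n : ℤ) - 1 - 2 * a := fun a ha => by
      have h1 := hmin a ha
      have h2 := hup a (by omega)
      omega
    obtain ⟨z', hi1, hi2⟩ : ∃ z' : ℕ → ℤ, z' i = z i + 1 ∧ ∀ a, a ≠ i → z' a = z a :=
      ⟨fun a => if a = i then z i + 1 else z a, by simp, fun a ha => by simp [ha]⟩
    have hz' : ∀ a b, a < b → b < n → z' b < z' a := by
      intro a b hab hb
      have h1 := hz a b hab hb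
      by_cases hb' : b = i
      · have h2 := hbef a (by omega)
        rw [hi2 a (by omega), hb', hi1]
        omega
      · rw [hi2 b hb']
        by_cases ha' : a = i
        · rw [ha', hi1]
          rw [ha'] at h1
          omega
        · rw [hi2 a ha']
          exact h1
    have hlo' : ∀ a : ℕ, a < n → -(n : ℤ) + 1 ≤ z' a := by
      intro a ha
      have h1 := hlo a ha
      by_cases ha' : a = i
      · rw [ha', hi1]
        rw [ha'] at h1
        omega
      · rw [hi2 a ha']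
        exact h1
    have hup' : ∀ a : ℕ, a < n → z' a ≤ (n : ℤ) - 1 - 2 * a := by
      intro a ha
      by_cases ha' : a = i
      · rw [ha', hi1]
        omega
      · rw [hi2 a ha']
        exact hup a ha
    have hs' : ∑ a ∈ range n, ((n : ℤ) - 1 - 2 * a - z' a) = l := by
      have h1 : ∀ a ∈ range n, (n : ℤ) - 1 - 2 * a - z' a =
          ((n : ℤ) - 1 - 2 * a - z a) - (if a = i then 1 else 0) := by
        intro a _
        by_cases ha' : a = i
        · rw [if_pos ha', ha', hi1]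
          ring
        · rw [if_neg ha', hi2 a ha']
          ring
      rw [sum_congr rfl h1, sum_sub_distrib, hs, sum_ite_eq']
      simp [hi]
    have haft : ∀ b : ℕ, i < b → b < n → (n : ℤ) - 1 - 2 * b - z b ≤ l := by
      intro b hib hb
      rw [← hs', ← hi2 b (by omega)]
      exact single_le_sum (f := fun a : ℕ => (n : ℤ) - 1 - 2 * a - z' a)
        (fun a ha => sub_nonneg.mpr (hup' a (mem_range.mp ha))) (mem_range.mpr hb)
    have hstep := r8b_step n l i z z' hi hz hz' (hlo i hi) hi1 hi2 (hup' i hi) hbef haft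
    have hih := (ih n hn0).2 z' hz' hlo' hup' hs'
    have hF' := r8b_frob_nonneg n z' hz'
    obtain ⟨m, hm⟩ : ∃ m, NN n = l + 1 + m := ⟨NN n - (l + 1), by omega⟩
    have hm1 : NN n - (l + 1) = m := by omega
    have hm2 : NN n - l = m + 1 := by omega
    have hm3 : n * n ≤ 4 * (m + 1) := by omega
    have hm4 : (n : ℝ) * n ≤ 4 * ((m : ℝ) + 1) := by exact_mod_cast hm3
    rw [hm2, Nat.factorial_succ] at hih
    rw [hm1]
    push_cast at hih
    have hf : (0 : ℝ) ≤ (m.factorial : ℝ) := Nat.cast_nonneg _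
    have hp : (0 : ℝ) ≤ (n : ℝ) ^ l := by positivity
    have hl0 : (0 : ℝ) ≤ (l : ℝ) + 1 := by positivity
    generalize ((NN n).factorial : ℝ) * Frob n (fun i => (n : ℤ) - 1 - 2 * i) = X at hih
    calc (m.factorial : ℝ) * Frob n z * (n : ℝ) ^ (l + 1)
        ≤ (m.factorial : ℝ) * (((l : ℝ) + 1) * n * Frob n z') * (n : ℝ) ^ (l + 1) :=
          mul_le_mul_of_nonneg_right (mul_le_mul_of_nonneg_left hstep hf) (by positivity)
      _ = ((n : ℝ) * n) * (((l : ℝ) + 1) * ((m.factorial : ℝ) * Frob n z' * (n : ℝ) ^ l)) := by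
          ring
      _ ≤ (4 * ((m : ℝ) + 1)) *
            (((l : ℝ) + 1) * ((m.factorial : ℝ) * Frob n z' * (n : ℝ) ^ l)) :=
          mul_le_mul_of_nonneg_right hm4 (by positivity)
      _ = 4 * ((l : ℝ) + 1) * (((m : ℝ) + 1) * (m.factorial : ℝ) * Frob n z' * (n : ℝ) ^ l) := by
          ring
      _ ≤ 4 * ((l : ℝ) + 1) * (C * X) := mul_le_mul_of_nonneg_left hih (by positivity)
      _ = _ := by ring

end Pool.Agent.MP_a5ded6_pr.POIS
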