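import Pool.Agent.MP_a5ded6_pr.POIS.Spec

set_option autoImplicit false

namespace Pool.Agent.MP_a5ded6_pr.POIS

open Finset

/-- two functions agree on Grassmannian permutations -/
def r9_Ag (n : ℕ) (f f' : Fn) : Prop := ∀ h, Grass n h → f h = f' h

theorem r9_D_apply (lo hi i : ℤ) (f : Fn) (h : Pm) :
    Dtr lo hi i f h = if lo ≤ i ∧ i ≤ hi then (if Desc i h then f (sw i * h) else 0) else 0 := by
  unfold Dtr
  split_ifs with h1 h2
  · simp [Dop, h2]
  · simp [Dop, h2]
  · simp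

theorem r9_U_apply (lo hi : ℤ) (f : Fn) (h : Pm) :
    UU (Dtr lo hi) lo hi f h = ∑ i ∈ Icc lo hi, if Desc i h then f (sw i * h) else 0 := by
  unfold UU
  rw [LinearMap.sum_apply, Finset.sum_apply]
  refine Finset.sum_congr rfl fun i hi' => ?_
  rw [r9_D_apply, if_pos (mem_Icc.mp hi')]

theorem r9_V_apply (lo hi : ℤ) (f : Fn) (h : Pm) :
    VV (Dtr lo hi) lo hi f h =
      ∑ i ∈ Icc lo hi, if Desc i h then (i : ℝ) ^ 2 / 2 * f (sw i * h) else 0 := by
  unfold VV
  rw [LinearMap.sum_apply, Finset.sum_apply]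
  refine Finset.sum_congr rfl fun i hi' => ?_
  rw [LinearMap.smul_apply, Pi.smul_apply, r9_D_apply, if_pos (mem_Icc.mp hi')]
  split_ifs <;> simp

theorem r9_sw_inv (i : ℤ) : (sw i)⁻¹ = sw i := by
  unfold sw; exact Equiv.swap_inv _ _

theorem r9_sw_apply (i x : ℤ) :
    sw i x = if x = i then i + 1 else if x = i + 1 then i else x := by
  unfold sw; rw [Equiv.swap_apply_def]

theorem r9_desc_mul (i j : ℤ) (h : Pm) :
    Desc i (sw j * h) ↔ h⁻¹ (sw j (i + 1)) < h⁻¹ (sw j i) := by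
  unfold Desc
  rw [mul_inv_rev, r9_sw_inv]
  rfl

theorem r9_bb (n : ℕ) (lo hi i : ℤ) (f : Fn) (h : Pm) (hg : Grass n h) :
    bb (Dtr lo hi) i f h = 0 := by
  unfold bb
  rw [Module.End.mul_apply, Module.End.mul_apply, r9_D_apply]
  split_ifs with h1 h2
  · rw [r9_D_apply]
    split_ifs with h3 h4
    · rw [r9_D_apply]
      split_ifs with h5
      · exfalso
        rw [r9_desc_mul, mul_inv_rev, r9_sw_inv] at h5
        have e1 : sw (i + 1) (i + 1) = i + 2 := by rw [r9_sw_apply]; simp; ring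
        have e2 : sw (i + 1) i = i := by
          rw [r9_sw_apply]; split_ifs <;> omega
        have e3 : sw i (i + 2) = i + 2 := by
          rw [r9_sw_apply]; split_ifs <;> omega
        have e4 : sw i i = i + 1 := by rw [r9_sw_apply]; simp
        rw [e1, e2, Equiv.Perm.mul_apply, Equiv.Perm.mul_apply, e3, e4] at h5
        unfold Desc at h2
        by_cases hb : h⁻¹ (i + 1) ≤ 0
        · have := hg.2.1 _ _ h5 hb
          simp at this
        · have := hg.2.2 _ _ (not_le.mp hb) h2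
          simp at this
      · rfl
    · rfl
    · rfl
  · rfl
  · rfl

theorem r9_Bs (n : ℕ) (lo hi : ℤ) (f : Fn) (h : Pm) (hg : Grass n h) :
    Bs (Dtr lo hi) lo hi f h = 0 := by
  unfold Bs
  rw [LinearMap.sum_apply, Finset.sum_apply]
  exact Finset.sum_eq_zero fun i _ => r9_bb n lo hi i f h hg

theorem r9_AgU (h2 : SpGr) (n : ℕ) (lo hi : ℤ) (f f' : Fn) (ha : r9_Ag n f f') :
    r9_Ag n (UU (Dtr lo hi) lo hi f) (UU (Dtr lo hi) lo hi f') := by
  intro h hg
  rw [r9_U_apply, r9_U_apply]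
  refine Finset.sum_congr rfl fun i _ => ?_
  split_ifs with hd
  · exact ha _ ((h2 n h hg).2.2.2.2 i hd).1
  · rfl

theorem r9_one (n : ℕ) (i : ℤ) (h : Pm) (hg : Grass n h) (he : sw i * h = 1) : i = 0 := by
  have hh : h = sw i := by
    have := eq_inv_of_mul_eq_one_right he
    rw [this, r9_sw_inv]
  have e1 : h i = i + 1 := by rw [hh, r9_sw_apply]; simp
  have e2 : h (i + 1) = i := by rw [hh, r9_sw_apply]; simp
  by_contra hne
  rcases lt_or_gt_of_ne hne with hlt | hgt
  · have := hg.2.1 i (i + 1) (by omega) (by omega)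
    omega
  · have := hg.2.2 i (i + 1) (by omega) (by omega)
    omega

theorem r9_delta_ne (w : Pm) (hw : delta w ≠ 0) : w = 1 := by
  by_contra hne
  exact hw (by simp [delta, hne])

theorem r9_V0 (n : ℕ) (lo hi : ℤ) (h : Pm) (hg : Grass n h) :
    VV (Dtr lo hi) lo hi delta h = 0 := by
  rw [r9_V_apply]
  refine Finset.sum_eq_zero fun i _ => ?_
  split_ifs with hd
  · by_cases h0 : delta (sw i * h) = 0
    · rw [h0, mul_zero]
    · have := r9_one n i h hg (r9_delta_ne _ h0)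
      subst this
      simp
  · rfl

theorem r9_U1 (n : ℕ) (lo hi : ℤ) (h : Pm) (hg : Grass n h)
    (hne : UU (Dtr lo hi) lo hi delta h ≠ 0) : sw 0 * h = 1 := by
  rw [r9_U_apply] at hne
  obtain ⟨i, _, hi'⟩ := Finset.exists_ne_zero_of_sum_ne_zero hne
  split_ifs at hi' with hd
  · have h1 := r9_delta_ne _ hi'
    have h2 := r9_one n i h hg h1
    subst h2
    exact h1
  · exact absurd rfl hi'

theorem r9_two (n : ℕ) (i : ℤ) (h : Pm) (hg : Grass n h) (hd : Desc i h)
    (he : sw 0 * (sw i * h) = 1) : i = 1 ∨ i = -1 := by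
  have hh : h = sw i * sw 0 := by
    rw [← mul_assoc] at he
    have := eq_inv_of_mul_eq_one_right he
    rw [this, mul_inv_rev, r9_sw_inv, r9_sw_inv]
  by_contra hne
  have h0 : i ≠ 0 := by
    intro h0
    subst h0
    have h1 : h = 1 := by
      rw [hh]
      nth_rewrite 1 [← r9_sw_inv]
      exact inv_mul_cancel _
    rw [h1] at hd
    simp [Desc] at hd
  have e1 : h i = i + 1 := by
    rw [hh, Equiv.Perm.mul_apply, r9_sw_apply 0, r9_sw_apply]
    split_ifs <;> omega
  have e2 : h (i + 1) = i := by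
    rw [hh, Equiv.Perm.mul_apply, r9_sw_apply 0, r9_sw_apply]
    split_ifs <;> omega
  rcases lt_or_gt_of_ne h0 with hlt | hgt
  · have := hg.2.1 i (i + 1) (by omega) (by omega)
    omega
  · have := hg.2.2 i (i + 1) (by omega) (by omega)
    omega

theorem r9_V1 (h2 : SpGr) (n : ℕ) (lo hi : ℤ) (h : Pm) (hg : Grass n h) :
    VV (Dtr lo hi) lo hi (UU (Dtr lo hi) lo hi delta) h =
      1 / 2 * UU (Dtr lo hi) lo hi (UU (Dtr lo hi) lo hi delta) h := by
  rw [r9_V_apply, r9_U_apply lo hi (UU (Dtr lo hi) lo hi delta), Finset.mul_sum]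
  refine Finset.sum_congr rfl fun i _ => ?_
  split_ifs with hd
  · by_cases h0 : UU (Dtr lo hi) lo hi delta (sw i * h) = 0
    · rw [h0]; simp
    · have h1 := r9_U1 n lo hi _ ((h2 n h hg).2.2.2.2 i hd).1 h0
      rcases r9_two n i h hg hd h1 with h3 | h3 <;> subst h3 <;> norm_num
  · simp

/-- the sum of all `U^t V U^(M-1-t)` -/
noncomputable def r9_S (U V : En) : ℕ → En
  | 0 => 0
  | M + 1 => V * U ^ M + U * r9_S U V M

theorem r9_C2_one (n : ℕ) : C2 n 1 = 0 := by
  simp [C2]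

theorem r9_S_C2 (h2 : SpGr) (n : ℕ) (lo hi : ℤ) (M : ℕ) : ∀ h, Grass n h →
    r9_S (UU (Dtr lo hi) lo hi) (VV (Dtr lo hi) lo hi) M delta h =
      C2 n h / 2 * (UU (Dtr lo hi) lo hi ^ M) delta h := by
  induction M with
  | zero =>
    intro h _
    by_cases h0 : delta h = 0
    · simp [r9_S, h0]
    · rw [r9_delta_ne _ h0, r9_C2_one]; simp [r9_S]
  | succ M ih =>
    intro h hg
    rw [r9_S, pow_succ', LinearMap.add_apply, Pi.add_apply, Module.End.mul_apply,
      Module.End.mul_apply, Module.End.mul_apply, r9_V_apply, r9_U_apply, r9_U_apply,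
      ← Finset.sum_add_distrib, Finset.mul_sum]
    refine Finset.sum_congr rfl fun i _ => ?_
    split_ifs with hd
    · obtain ⟨g1, -, -, -, g2, -⟩ := (h2 n h hg).2.2.2.2 i hd
      rw [ih _ g1, g2]; ring
    · simp

theorem r9_UP (U P : En) (hc : P * U = U * P) (c k : ℕ) :
    U * (((k.choose c : ℕ) : ℝ) • (P * U ^ (k - c))) =
      ((k.choose c : ℕ) : ℝ) • (P * U ^ (k + 1 - c)) := by
  by_cases hk : k < c
  · simp [Nat.choose_eq_zero_of_lt hk]
  · have e : k + 1 - c = (k - c) + 1 := by omega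
    rw [e, mul_smul_comm, ← mul_assoc, ← hc, mul_assoc, ← pow_succ']

theorem r9_UUP (U P : En) (hc : P * U = U * P) (k : ℕ) :
    U * (U * (((k.choose 2 : ℕ) : ℝ) • (P * U ^ (k - 2)))) =
      ((k.choose 2 : ℕ) : ℝ) • (P * U ^ k) := by
  by_cases hk : k < 2
  · simp [Nat.choose_eq_zero_of_lt hk]
  · obtain ⟨j, rfl⟩ : ∃ j, k = j + 2 := ⟨k - 2, by omega⟩
    rw [Nat.add_sub_cancel, mul_smul_comm, mul_smul_comm, ← mul_assoc U P, ← hc, mul_assoc,
      ← mul_assoc U P, ← hc, mul_assoc, ← pow_succ', ← pow_succ']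

theorem r9_L (h0 : SpNC) (h1 : SpA1) (h2 : SpGr) (n : ℕ) (lo hi : ℤ) (k : ℕ) :
    r9_Ag n ((VV (Dtr lo hi) lo hi * UU (Dtr lo hi) lo hi ^ k) delta)
      ((((k : ℝ) / 2) • UU (Dtr lo hi) lo hi ^ (k + 1) +
        ((k.choose 2 : ℕ) : ℝ) • (P3 (Dtr lo hi) lo hi * UU (Dtr lo hi) lo hi ^ (k - 2))) delta) := by
  obtain ⟨a1, a2, a3⟩ := h1 (Dtr lo hi) lo hi (h0 lo hi)
  have hB := r9_Bs n lo hi
  have hU := r9_AgU h2 n lo hi
  have hV0 := r9_V0 n lo hi
  have hV1 := r9_V1 h2 n lo hi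
  have hD : Ds (Dtr lo hi) lo hi = P3 (Dtr lo hi) lo hi + Bs (Dtr lo hi) lo hi := by
    unfold P3; abel
  have a1' := a1 (-1 / 2)
  rw [← a3, hD] at a1'
  generalize UU (Dtr lo hi) lo hi = U at *
  generalize VV (Dtr lo hi) lo hi = V at *
  generalize P3 (Dtr lo hi) lo hi = P at *
  generalize Bs (Dtr lo hi) lo hi = B at *
  induction k using Nat.twoStepInduction with
  | zero =>
    intro h hg
    simpa using hV0 h hg
  | one =>
    intro h hg
    have := hV1 h hg
    simpa [pow_succ] using this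
  | more k ih1 ih2 =>
    intro h hg
    have key : V * U ^ (k + 2) =
        (2 : ℝ) • (U * (V * U ^ (k + 1))) - U * (U * (V * U ^ k)) + P * U ^ k + B * U ^ k := by
      have : V * U ^ (k + 2) = ((V * U - U * V) * U - U * (V * U - U * V)) * U ^ k +
          ((2 : ℝ) • (U * (V * U ^ (k + 1))) - U * (U * (V * U ^ k))) := by
        rw [two_smul, pow_succ' U (k + 1), pow_succ' U k]
        simp only [sub_mul, mul_sub, mul_assoc]
        abel
      rw [this, a1']; noncomm_ring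
    have i1 := hU _ _ (hU _ _ ih1) h hg
    have i2 := hU _ _ ih2 h hg
    rw [← Module.End.mul_apply, ← Module.End.mul_apply U U, ← Module.End.mul_apply (U * U),
      ← Module.End.mul_apply (U * U), mul_assoc, mul_assoc, mul_add, mul_add, r9_UUP U P a2]
      at i1
    rw [← Module.End.mul_apply, ← Module.End.mul_apply U, mul_add, r9_UP U P a2] at i2
    have hb := hB ((U ^ k) delta) h hg
    rw [← Module.End.mul_apply] at hb
    rw [key]
    simp only [LinearMap.add_apply, LinearMap.sub_apply, LinearMap.smul_apply, Pi.add_apply,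
      Pi.sub_apply, Pi.smul_apply, smul_eq_mul, mul_smul_comm, ← pow_succ'] at i1 i2 ⊢
    have e1 : k + 1 + 1 - 2 = k := by omega
    have e2 : k + 2 - 2 = k := by omega
    rw [e1] at i2
    rw [e2, i1, i2, hb, Nat.cast_choose_two, Nat.cast_choose_two, Nat.cast_choose_two]
    push_cast
    ring

theorem r9_S_P (h0 : SpNC) (h1 : SpA1) (h2 : SpGr) (n : ℕ) (lo hi : ℤ) (M : ℕ) :
    r9_Ag n (r9_S (UU (Dtr lo hi) lo hi) (VV (Dtr lo hi) lo hi) M delta)
      (((((M.choose 2 : ℕ) : ℝ) / 2) • UU (Dtr lo hi) lo hi ^ M +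
        ((M.choose 3 : ℕ) : ℝ) • (P3 (Dtr lo hi) lo hi * UU (Dtr lo hi) lo hi ^ (M - 3))) delta) := by
  obtain ⟨-, a2, -⟩ := h1 (Dtr lo hi) lo hi (h0 lo hi)
  have hL := r9_L h0 h1 h2 n lo hi
  have hU := r9_AgU h2 n lo hi
  generalize UU (Dtr lo hi) lo hi = U at *
  generalize VV (Dtr lo hi) lo hi = V at *
  generalize P3 (Dtr lo hi) lo hi = P at *
  induction M with
  | zero => intro h _; simp [r9_S]
  | succ M ih =>
    intro h hg
    have i1 := hU _ _ ih h hg
    have i2 := hL M h hg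
    rw [← Module.End.mul_apply, ← Module.End.mul_apply U, mul_add, r9_UP U P a2] at i1
    rw [r9_S]
    simp only [LinearMap.add_apply, LinearMap.smul_apply, Pi.add_apply,
      Pi.smul_apply, smul_eq_mul, mul_smul_comm, ← pow_succ'] at i1 i2 ⊢
    have e1 : M + 1 - 3 = M - 2 := by omega
    rw [e1] at i1
    rw [e1, i1, i2, Nat.choose_succ_succ' M 2, Nat.choose_succ_succ' M 1, Nat.choose_one_right]
    push_cast
    ring

theorem r9_Cont (h0 : SpNC) (h1 : SpA1) (h2 : SpGr) : SpCont := by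
  intro n m g hg _
  have e1 := r9_S_C2 h2 n (-(n : ℤ)) n (m + 3) g hg
  have e2 := r9_S_P h0 h1 h2 n (-(n : ℤ)) n (m + 3) g hg
  rw [e1, Nat.add_sub_cancel] at e2
  unfold ff
  rw [pow_one, pow_zero, one_mul]
  simp only [LinearMap.add_apply, LinearMap.smul_apply, Pi.add_apply,
    Pi.smul_apply, smul_eq_mul] at e2
  linarith

end Pool.Agent.MP_a5ded6_pr.POIS
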