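import Pool.Agent.MP_a5ded6_pr.POIS.R1
import Pool.Agent.MP_a5ded6_pr.POIS.R2
import Pool.Agent.MP_a5ded6_pr.POIS.R3
import Pool.Agent.MP_a5ded6_pr.POIS.R4a
import Pool.Agent.MP_a5ded6_pr.POIS.R4b
import Pool.Agent.MP_a5ded6_pr.POIS.R4c
import Pool.Agent.MP_a5ded6_pr.POIS.R4d
import Pool.Agent.MP_a5ded6_pr.POIS.R5a
import Pool.Agent.MP_a5ded6_pr.POIS.R5b
import Pool.Agent.MP_a5ded6_pr.POIS.R6
import Pool.Agent.MP_a5ded6_pr.POIS.R7
import Pool.Agent.MP_a5ded6_pr.POIS.R8a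
import Pool.Agent.MP_a5ded6_pr.POIS.R8b
import Pool.Agent.MP_a5ded6_pr.POIS.R9
import Pool.Agent.MP_a5ded6_pr.POIS.R10
import Pool.Agent.MP_a5ded6_pr.POIS.R11
import Pool.Agent.MP_a5ded6_pr.POIS.R12a
import Pool.Agent.MP_a5ded6_pr.POIS.R12b
import Pool.Agent.MP_a5ded6_pr.POIS.R12c
import Pool.Agent.MP_a5ded6_pr.POIS.R13
import Pool.Agent.MP_a5ded6_pr.POIS.R14

set_option autoImplicit false

namespace Pool.Agent.MP_a5ded6_pr.POIS

open Finset Filter Topology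

theorem all_A2 : SpA2 := r2_A2 r2_AC
theorem all_A3 : SpA3 := r3_A3 r2_AC
theorem all_Count : SpCount := r4c_Count r4a_NC r4b_Red r4b_Net
theorem all_Harm : SpHarm := r5b_Harm r4a_NC r5a_Leib
theorem all_Frob : SpFrob := r8c_Frob r8b_Lag
theorem all_Cont : SpCont := r9_Cont r4a_NC r1_A1 r8a_Gr
theorem all_Near : SpNear := r10_Near r8a_Gr all_Frob r8d_Ratio
theorem all_Eps : SpEps := r10_Eps r4a_NC r2_AC all_A2 r8a_Gr all_Cont all_Near
theorem all_Start : SpStart := r11_Start r4a_Tr all_Harm r6_P1 r7_P2 all_Near all_Count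
theorem all_EpsW : SpEpsW := r11_EpsW r4a_Tr all_Harm r7_P2 all_Eps all_Count r4b_Red
theorem all_Theta : SpTheta := r12c_Theta r4b_Net (r12a_Sw r4b_Net) (r12b_Bad r4b_Net all_Start)
theorem all_Ov : SpOv := r14a_Ov r4b_Red r4b_Net all_Theta
theorem all_Mom : SpMom :=
  r13_Mom r4a_NC r1_A1 r2_AC all_A2 all_A3 all_Count r4b_Red all_Theta all_EpsW

theorem all_poisson (j : ℕ) : Tendsto (fun n : ℕ =>
    (((nets n).filter (fun a => braids a = j)).card : ℝ) / (nets n).card)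
    atTop (𝓝 (Real.exp (-1) / (j.factorial : ℝ))) := by
  have h1 := r14_UI nets (fun n => (r4b_Red n).1) all_Mom all_Ov
  have h2 := r14_Bon nets braids Ov (fun n => (r4b_Red n).1) all_Ov h1 j
  convert h2

end Pool.Agent.MP_a5ded6_pr.POIS
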