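import Pool.Agent.MP_a5ded6_pr.POIS.Spec2
import Pool.Agent.MP_a5ded6_pr.POIS.R4a
import Pool.Agent.MP_a5ded6_pr.POIS.R4c

set_option autoImplicit false

namespace Pool.Agent.MP_a5ded6_pr.POIS

open Finset

theorem v0_Rot (h2 : SpRed) (h3 : SpNet) : SpRot := by
  intro n r K ω y hy
  have hN : NC (Dn n) 1 ((n : ℤ) - 1) := r4a_NC _ _
  have a0 : ∀ i : ℤ, r4c_ev n (y * Dn n i) = r4c_ev n (Dn n (n - i) * y) := fun i => by
    have a := r4c_rot r4a_NC h2 h3 n hy [i]
    simpa only [Dw, List.map_cons, List.map_nil, List.prod_cons, List.prod_nil, mul_one] using a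
  refine ⟨a0, ?_, ?_⟩
  · change r4c_ev n (y * UU (Dn n) 1 (n - 1)) = r4c_ev n (UU (Dn n) 1 (n - 1) * y)
    rw [UU, mul_sum, sum_mul, map_sum, map_sum]
    refine sum_nbij' (fun i => (n : ℤ) - i) (fun i => (n : ℤ) - i) ?_ ?_ ?_ ?_ ?_
    · intro i hi; simp only [mem_Icc] at hi ⊢; omega
    · intro i hi; simp only [mem_Icc] at hi ⊢; omega
    · intro i _; ring
    · intro i _; ring
    · intro i _; exact a0 i
  · change r4c_ev n (y * Bs (Dn n) 1 (n - 1)) = r4c_ev n (Bs (Dn n) 1 (n - 1) * y)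
    let g : ℤ → ℝ := fun j => r4c_ev n (bb (Dn n) j * y)
    have g0 : g 0 = 0 := by simp [g, bb, hN.out 0 (Or.inl one_pos)]
    have g1 : g (n - 1) = 0 := by simp [g, bb, hN.out n (Or.inr (by omega))]
    have l1 : r4c_ev n (y * Bs (Dn n) 1 (n - 1)) = ∑ i ∈ Icc (1 : ℤ) (n - 1), g (n - 1 - i) := by
      rw [Bs, mul_sum, map_sum]
      refine sum_congr rfl fun i _ => ?_
      have a1 := r4c_rot r4a_NC h2 h3 n hy [i, i + 1, i]
      simp only [Dw, List.map_cons, List.map_nil, List.prod_cons, List.prod_nil, mul_one] at a1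
      simp only [g, bb]
      rw [hN.braid (n - 1 - i), show (n : ℤ) - 1 - i + 1 = n - i by ring, mul_assoc (Dn n i), a1,
        show (n : ℤ) - (i + 1) = n - 1 - i by ring, mul_assoc (Dn n (n - i)) (Dn n (n - 1 - i))]
    have l2 : r4c_ev n (Bs (Dn n) 1 (n - 1) * y) = ∑ i ∈ Icc (1 : ℤ) (n - 1), g i := by
      rw [Bs, sum_mul, map_sum]
    have sub : Icc (1 : ℤ) (n - 1) ⊆ Icc (0 : ℤ) (n - 1) := Icc_subset_Icc_left zero_le_one
    have ex : ∀ i ∈ Icc (0 : ℤ) (n - 1), i ∉ Icc (1 : ℤ) (n - 1) → i = 0 := fun i a b => by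
      simp only [mem_Icc] at a b; omega
    rw [l1, l2, sum_subset sub fun i a b => by rw [ex i a b, sub_zero, g1],
      sum_subset sub fun i a b => by rw [ex i a b, g0]]
    refine sum_nbij' (fun i => (n : ℤ) - 1 - i) (fun i => (n : ℤ) - 1 - i) ?_ ?_ ?_ ?_ ?_
    · intro i hi; simp only [mem_Icc] at hi ⊢; omega
    · intro i hi; simp only [mem_Icc] at hi ⊢; omega
    · intro i _; ring
    · intro i _; ring
    · intro i _; rfl

/-- sums along two statistics with the same fibre counts agree. -/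
theorem v0_fib {α β : Type} (s : Finset α) (t : Finset β) (f : α → ℕ) (g : β → ℕ)
    (h : ∀ j, (s.filter fun a => f a = j).card = (t.filter fun b => g b = j).card) (F : ℕ → ℝ) :
    ∑ a ∈ s, F (f a) = ∑ b ∈ t, F (g b) := by
  classical
  rw [← sum_fiberwise_of_maps_to (s := s) (t := s.image f ∪ t.image g) (g := f)
      fun a ha => mem_union_left _ (mem_image_of_mem f ha),
    ← sum_fiberwise_of_maps_to (s := t) (t := s.image f ∪ t.image g) (g := g)
      fun b hb => mem_union_right _ (mem_image_of_mem g hb)]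
  refine sum_congr rfl fun j _ => ?_
  rw [sum_congr rfl fun a ha => congrArg F (mem_filter.1 ha).2,
    sum_congr (s₁ := t.filter fun b => g b = j) rfl fun b hb => congrArg F (mem_filter.1 hb).2,
    sum_const, sum_const, h j]

theorem v5_Link2 (h : SpLink) : SpLink2 := by
  intro n F
  refine v0_fib _ _ _ braids (fun j => ?_) F
  rw [filter_filter]
  exact (h n).2 j

end Pool.Agent.MP_a5ded6_pr.POIS
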