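import Pool.Agent.MP_a5ded6_pr.POIS.Spec2

set_option autoImplicit false

namespace Pool.Agent.MP_a5ded6_pr.POIS

open Finset

/-! ## The span of the patterns and rotation -/

noncomputable def v1_ev (n : ℕ) : En →ₗ[ℝ] ℝ where
  toFun x := ev n x
  map_add' _ _ := rfl
  map_smul' _ _ := rfl

theorem v1_ev_sum {ι : Type} (n : ℕ) (s : Finset ι) (f : ι → En) :
    ev n (∑ i ∈ s, f i) = ∑ i ∈ s, ev n (f i) := map_sum (v1_ev n) f s

theorem v1_ev_add (n : ℕ) (x y : En) : ev n (x + y) = ev n x + ev n y := rfl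

theorem v1_ev_smul (n : ℕ) (c : ℝ) (x : En) : ev n (c • x) = c * ev n x := rfl

noncomputable def v1_MS (n : ℕ) : Submodule ℝ En :=
  Submodule.span ℝ (Set.range (mono (Dn n) (Un n)))

theorem v1_app (D : ℤ → En) (U : En) (l l' : List (Option ℤ)) :
    mono D U (l ++ l') = mono D U l * mono D U l' := by simp [mono]

theorem v1_mono (n : ℕ) (l : List (Option ℤ)) : mono (Dn n) (Un n) l ∈ v1_MS n :=
  Submodule.subset_span ⟨l, rfl⟩

theorem v1_mul {n : ℕ} {x y : En} (hx : x ∈ v1_MS n) (hy : y ∈ v1_MS n) : x * y ∈ v1_MS n := by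
  induction hx using Submodule.span_induction with
  | mem x hx =>
    obtain ⟨l, rfl⟩ := hx
    induction hy using Submodule.span_induction with
    | mem y hy =>
      obtain ⟨l', rfl⟩ := hy
      rw [← v1_app]; exact v1_mono n _
    | zero => rw [mul_zero]; exact zero_mem _
    | add y z _ _ h1 h2 => rw [mul_add]; exact add_mem h1 h2
    | smul c y _ h1 => rw [mul_smul_comm]; exact Submodule.smul_mem _ c h1
  | zero => rw [zero_mul]; exact zero_mem _
  | add y z _ _ h1 h2 => rw [add_mul]; exact add_mem h1 h2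
  | smul c y _ h1 => rw [smul_mul_assoc]; exact Submodule.smul_mem _ c h1

theorem v1_pow (D : ℤ → En) (U : En) (t : ℕ) : mono D U (List.replicate t none) = U ^ t := by
  simp [mono]

theorem v1_U (n t : ℕ) : Un n ^ t ∈ v1_MS n := by
  rw [← v1_pow (Dn n)]; exact v1_mono n _

theorem v1_D (n : ℕ) (i : ℤ) : Dn n i ∈ v1_MS n := by
  have := v1_mono n [some i]
  simpa [mono] using this

theorem v1_B (n : ℕ) : Bn n ∈ v1_MS n := by
  unfold Bn Bs bb
  exact Submodule.sum_mem _ fun i _ => v1_mul (v1_mul (v1_D n i) (v1_D n (i + 1))) (v1_D n i)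

theorem v1_Om (n : ℕ) : Om (Dn n) 1 (n - 1) ∈ v1_MS n :=
  Submodule.sum_mem _ fun _ _ => add_mem
    (v1_mul (v1_mul (v1_mul (v1_mul (v1_D n _) (v1_D n _)) (v1_D n _)) (v1_D n _)) (v1_D n _))
    (v1_mul (v1_mul (v1_mul (v1_mul (v1_D n _) (v1_D n _)) (v1_D n _)) (v1_D n _)) (v1_D n _))

theorem v1_rot (hr : SpRot) {n : ℕ} {y : En} (hy : y ∈ v1_MS n) :
    ev n (y * Un n) = ev n (Un n * y) ∧ ev n (y * Bn n) = ev n (Bn n * y) := by
  induction hy using Submodule.span_induction with
  | mem y hy =>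
    obtain ⟨l, rfl⟩ := hy
    exact (hr n _ _ 1 _ (AC.mono l rfl rfl)).2
  | zero => simp
  | add y z _ _ h1 h2 =>
    simp only [add_mul, mul_add, v1_ev_add, h1.1, h1.2, h2.1, h2.2, and_self]
  | smul c y _ h1 =>
    simp only [smul_mul_assoc, mul_smul_comm, v1_ev_smul, h1.1, h1.2, and_self]

theorem v1_rotU (hr : SpRot) {n : ℕ} (a : ℕ) : ∀ {y : En}, y ∈ v1_MS n →
    ev n (Un n ^ a * y) = ev n (y * Un n ^ a) := by
  induction a with
  | zero => intro y _; simp
  | succ a ih =>
    intro y hy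
    have h1 := (v1_rot hr (v1_mul (v1_U n a) hy)).1
    have h2 := ih (v1_mul hy (by simpa using v1_U n 1) : y * Un n ∈ v1_MS n)
    rw [pow_succ', mul_assoc, ← h1, mul_assoc, h2, mul_assoc]

theorem v1_rot3 (hr : SpRot) {n : ℕ} (a b : ℕ) {y : En} (hy : y ∈ v1_MS n) :
    ev n (Un n ^ a * y * Un n ^ b) = ev n (y * Un n ^ (b + a)) := by
  rw [mul_assoc, v1_rotU hr a (v1_mul hy (v1_U n b)), mul_assoc, ← pow_add]

/-! ## Counting -/

theorem v1_match0 : ∀ (s : ℕ) (b : List ℤ), Match (List.replicate s none) b ↔ b.length = s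
  | 0, b => by cases b <;> simp [Match]
  | s + 1, [] => by simp [Match, List.replicate_succ]
  | s + 1, x :: b => by
    have := v1_match0 s b
    simp only [Match] at this
    simp [Match, List.replicate_succ, this]

theorem v1_match1 (s : ℕ) : ∀ (v b : List ℤ),
    Match (v.map some ++ List.replicate s none) b ↔ v <+: b ∧ b.length = v.length + s
  | [], b => by simpa using v1_match0 s b
  | x :: v, [] => by simp [Match]
  | x :: v, y :: b => by
    have := v1_match1 s v b
    simp only [Match] at this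
    simp only [Match, List.map_cons, List.cons_append, List.forall₂_cons, this, List.length_cons,
      List.cons_prefix_cons, reduceCtorEq, false_or, Option.some.injEq]
    constructor
    · rintro ⟨h1, h2, h3⟩; exact ⟨⟨h1, h2⟩, by omega⟩
    · rintro ⟨⟨h1, h2⟩, h3⟩; exact ⟨h1, h2, by omega⟩

theorem v1_match2 (l : List (Option ℤ)) : ∀ (t : ℕ) (a : List ℤ), t ≤ a.length →
    (Match (List.replicate t none ++ l) a ↔ Match l (a.drop t))
  | 0, a, _ => by simp
  | t + 1, [], h => by simp at h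
  | t + 1, x :: a, h => by
    have := v1_match2 l t a (by simpa using h)
    simp only [Match] at this
    simp [Match, List.replicate_succ, this]

theorem v1_count (hN : SpNet) (hC : SpCount) (n t s : ℕ) (v : List ℤ)
    (h : t + v.length + s = NN n) :
    ev n (Un n ^ t * Dw (Dn n) v * Un n ^ s) =
      ∑ a ∈ nets n, if v <+: a.drop t then (1 : ℝ) else 0 := by
  classical
  have e : Un n ^ t * Dw (Dn n) v * Un n ^ s =
      mono (Dn n) (Un n) (List.replicate t none ++ (v.map some ++ List.replicate s none)) := by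
    rw [v1_app, v1_app, v1_pow, v1_pow, mul_assoc]
    simp [mono, Dw, Function.comp_def]
  rw [e, (hC n).1, card_filter, Nat.cast_sum]
  refine sum_congr rfl fun a ha => ?_
  have hl := ((hN n).1 a ha).1
  have : Match (List.replicate t none ++ (v.map some ++ List.replicate s none)) a ↔
      v <+: a.drop t := by
    rw [v1_match2 _ _ _ (by omega), v1_match1, List.length_drop]
    exact and_iff_left (by omega)
  by_cases hh : v <+: a.drop t
  · rw [if_pos (this.2 hh), if_pos hh]; simp
  · rw [if_neg (fun k => hh (this.1 k)), if_neg hh]; simp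

theorem v1_no (h0 : SpNC) (hR : SpRed) {n : ℕ} {a : List ℤ} (ha : a ∈ nets n) (t : ℕ) (x y : ℤ)
    (r : List ℤ) (h : a.drop t = x :: y :: x :: y :: r) (hxy : y = x + 1 ∨ x = y + 1) : False := by
  have hD : NC (Dn n) 1 (n - 1) := h0 1 (n - 1)
  have z : Dn n x * (Dn n y * (Dn n x * Dn n y)) = 0 := by
    rcases hxy with rfl | rfl
    · rw [← mul_assoc, ← mul_assoc, hD.braid, mul_assoc, hD.sq, mul_zero]
    · rw [← mul_assoc, ← mul_assoc, ← hD.braid, mul_assoc, hD.sq, mul_zero]
  have e : Dw (Dn n) a = 0 := by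
    rw [← List.take_append_drop t a, h]
    simp only [Dw, List.map_append, List.prod_append, List.map_cons, List.prod_cons]
    rw [← mul_assoc (Dn n x) (Dn n y) (List.map _ r).prod, ← mul_assoc (Dn n y) (Dn n x * Dn n y),
      ← mul_assoc (Dn n x) (Dn n y * _), z, zero_mul, mul_zero]
  have := (hR n).2 a
  rw [e, if_pos ha] at this
  simp [ev] at this

/-! ## Pairs of braid positions -/

/-- pairs of braid positions at distance `j + 1` -/
def v1_O (j : ℕ) : List ℤ → ℕ
  | [] => 0
  | x :: l => (if isBr (x :: l) = true ∧ isBr (l.drop j) = true then 1 else 0) + v1_O j l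

theorem v1_O_eq (j : ℕ) : ∀ a : List ℤ, v1_O j a = ∑ t ∈ range a.length,
    if isBr (a.drop t) = true ∧ isBr ((a.drop t).drop (j + 1)) = true then 1 else 0
  | [] => by simp [v1_O]
  | x :: l => by
    rw [v1_O, List.length_cons, sum_range_succ', v1_O_eq j l, add_comm]
    simp only [List.drop_succ_cons, List.drop_zero]

theorem v1_cons (x : ℤ) (l : List ℤ) :
    braids (x :: l) = braids l + if isBr (x :: l) then 1 else 0 := by
  simp only [braids, List.tails_cons, List.countP_cons]

theorem v1_tail (l : List ℤ) : braids l = braids (l.drop 1) + if isBr l then 1 else 0 := by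
  cases l with
  | nil => simp [braids, isBr]
  | cons x l => exact v1_cons x l

theorem v1_Y (k : ℕ) (x : ℤ) (l : List ℤ) :
    Y (k + 1) (x :: l) = (if isBr (x :: l) then Y k (l.drop 2) else 0) + Y (k + 1) l := by
  simp only [Y, List.tails_cons, List.map_cons, List.sum_cons, List.drop_succ_cons]

theorem v1_Y1 : ∀ a : List ℤ, Y 1 a = braids a
  | [] => by simp [Y, braids, isBr]
  | x :: l => by rw [v1_Y 0, v1_cons, v1_Y1 l, add_comm]; rfl

theorem v1_sq : ∀ a : List ℤ, (braids a : ℝ) * ((braids a : ℝ) - 1) =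
    2 * (Y 2 a : ℝ) + 2 * (v1_O 1 a : ℝ) + 2 * (v1_O 0 a : ℝ)
  | [] => by simp [Y, braids, isBr, v1_O]
  | x :: l => by
    have ih := v1_sq l
    have h1 := v1_tail l
    have h2 := v1_tail (l.drop 1)
    rw [List.drop_drop] at h2
    rw [v1_Y 1, v1_cons, v1_O, v1_O, v1_Y1, List.drop_zero]
    have h3 : (braids l : ℝ) = braids (l.drop 2) + (if isBr (l.drop 1) then 1 else 0) +
        (if isBr l then 1 else 0) := by
      rw [h1, h2]; push_cast; rfl
    by_cases hb : isBr (x :: l) = true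
    · simp only [hb, true_and, if_true]
      push_cast
      linarith
    · simp only [hb, false_and, if_false, Bool.false_eq_true]
      push_cast
      linarith

theorem v1_len {a : List ℤ} (h : isBr a = true) : 3 ≤ a.length := by
  match a, h with
  | _ :: _ :: _ :: _, _ => simp

theorem v1_O0 (h0 : SpNC) (hR : SpRed) {n : ℕ} {a : List ℤ} (ha : a ∈ nets n) :
    v1_O 0 a = 0 := by
  rw [v1_O_eq]
  refine sum_eq_zero fun t _ => if_neg ?_
  rintro ⟨h1, h2⟩
  have h3 := v1_len h2
  generalize hu : a.drop t = u at h1 h2 h3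
  match u, hu, h1, h2, h3 with
  | p :: q :: r :: s :: w, hu, h1, h2, _ =>
    simp only [isBr, List.drop_succ_cons, List.drop_zero, decide_eq_true_eq, zero_add] at h1 h2
    obtain ⟨rfl, h1⟩ := h1
    obtain ⟨rfl, -⟩ := h2
    exact v1_no h0 hR ha t p q w hu h1

theorem v1_O1 (h0 : SpNC) (hR : SpRed) (hN : SpNet) {n : ℕ} {a : List ℤ} (ha : a ∈ nets n) :
    (v1_O 1 a : ℝ) = ∑ t ∈ range (NN n - 4), ∑ x ∈ Icc (1 : ℤ) (n - 1),
      ((if [x, x + 1, x, x - 1, x] <+: a.drop t then (1 : ℝ) else 0) +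
        (if [x, x - 1, x, x + 1, x] <+: a.drop t then (1 : ℝ) else 0)) := by
  obtain ⟨hl, hx⟩ := (hN n).1 a ha
  rw [v1_O_eq, hl, ← sum_subset (s₁ := range (NN n - 4)) (range_subset_range.2 (Nat.sub_le _ _)),
    Nat.cast_sum]
  · refine sum_congr rfl fun t ht => ?_
    have h3 : 5 ≤ (a.drop t).length := by
      rw [List.length_drop]; have := mem_range.1 ht; omega
    have h4 : ∀ x ∈ a.drop t, 1 ≤ x ∧ x ≤ (n : ℤ) - 1 := fun x h => hx x (List.mem_of_mem_drop h)
    generalize hu : a.drop t = u at h3 h4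
    match u, hu, h3, h4 with
    | p :: q :: r :: s :: w :: z, hu, _, h4 =>
      have hp : p ∈ Icc (1 : ℤ) (n - 1) := mem_Icc.2 (h4 p (by simp))
      have h5 : ¬ (p = r ∧ q = s ∧ (q = p + 1 ∨ p = q + 1)) := by
        rintro ⟨rfl, rfl, h⟩
        exact v1_no h0 hR ha t p q _ hu h
      rw [sum_eq_single p (fun x _ hx => by simp [hx]) (fun h => absurd hp h)]
      simp only [isBr, List.drop_succ_cons, List.drop_zero, decide_eq_true_eq,
        List.cons_prefix_cons, List.nil_prefix, true_and, and_true]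
      split_ifs <;> first | omega | simp
  · intro t _ ht
    refine if_neg fun h => ht (mem_range.2 ?_)
    have := v1_len h.2
    rw [List.length_drop, List.length_drop] at this
    omega

/-! ## The row -/

theorem v1_NN {n : ℕ} (h : 4 ≤ n) : 6 ≤ NN n := by
  have : 4 * 3 ≤ n * (n - 1) := Nat.mul_le_mul h (by omega)
  unfold NN; omega

theorem v1_tri (ρ : ℕ → ℝ) (K : ℕ) (h : ∀ b, b ≤ K → ρ (K - b) = ρ b) :
    2 * ∑ a ∈ range (K + 1), ∑ b ∈ range (K - a + 1), ρ b =
      ((K : ℝ) + 2) * ∑ b ∈ range (K + 1), ρ b := by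
  have e1 : ∀ K : ℕ, ∑ a ∈ range (K + 1), ∑ b ∈ range (a + 1), ρ b =
      ∑ b ∈ range (K + 1), ((K : ℝ) + 1 - b) * ρ b := by
    intro K
    induction K with
    | zero => simp
    | succ K ih =>
      rw [sum_range_succ, ih, sum_range_succ (fun b => (((K + 1 : ℕ) : ℝ) + 1 - b) * ρ b),
        sum_range_succ ρ, ← add_assoc, ← sum_add_distrib]
      push_cast
      refine congrArg₂ (· + ·) (sum_congr rfl fun b _ => by ring) (by ring)
  have e2 : ∑ a ∈ range (K + 1), ∑ b ∈ range (K - a + 1), ρ b =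
      ∑ a ∈ range (K + 1), ∑ b ∈ range (a + 1), ρ b :=
    sum_range_reflect (fun a => ∑ b ∈ range (a + 1), ρ b) (K + 1)
  have e3 : ∑ b ∈ range (K + 1), ((K : ℝ) + 1 - b) * ρ b =
      ∑ b ∈ range (K + 1), ((b : ℝ) + 1) * ρ b := by
    rw [← sum_range_reflect (fun b => ((b : ℝ) + 1) * ρ b) (K + 1)]
    refine sum_congr rfl fun b hb => ?_
    have hb' : b ≤ K := by have := mem_range.1 hb; omega
    rw [show K + 1 - 1 - b = K - b from rfl, h b hb', Nat.cast_sub hb']
    ring
  rw [e2, e1, two_mul]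
  nth_rewrite 1 [e3]
  rw [← sum_add_distrib, mul_sum]
  exact sum_congr rfl fun b _ => by ring

theorem v1_V1 (h0 : SpNC) (hR : SpRed) (hN : SpNet) (hC : SpCount) (hr : SpRot) : SpV1 := by
  intro n hn
  have h6 := v1_NN hn
  have hB : (2 : ℝ) • Bn n ∈ v1_MS n := Submodule.smul_mem _ _ (v1_B n)
  constructor
  · have h1 := (hC n).2.1 1 (NN n - 3)
    rw [if_pos (by omega)] at h1
    simp only [v1_Y1] at h1
    rw [← h1]
    change ev n (∑ a ∈ range (NN n - 3 + 1), Un n ^ a * ((2 : ℝ) • Bn n) *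
      Un n ^ (NN n - 3 - a)) = _
    rw [v1_ev_sum, sum_congr rfl (g := fun _ => 2 * ev n (Bn n * Un n ^ (NN n - 3))) fun a ha => by
      have := mem_range.1 ha
      rw [v1_rot3 hr _ _ hB, smul_mul_assoc, v1_ev_smul, show NN n - 3 - a + a = NN n - 3 by omega]]
    rw [sum_const, card_range, nsmul_eq_mul, Nat.cast_add, Nat.cast_sub (by omega)]
    push_cast; ring
  · have h1 := (hC n).2.1 2 (NN n - 6)
    rw [if_pos (by omega)] at h1
    obtain ⟨K, hK⟩ : ∃ K, K = NN n - 6 := ⟨_, rfl⟩
    rw [← hK] at h1 ⊢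
    set Br : En := (2 : ℝ) • Bn n with hBr
    have h2 : ∑ a ∈ nets n, (Y 2 a : ℝ) = ∑ a ∈ range (K + 1), ∑ b ∈ range (K - a + 1),
        ev n (Br * Un n ^ b * Br * Un n ^ (K - b)) := by
      rw [← h1]
      change ev n (∑ a ∈ range (K + 1), Un n ^ a * Br *
        ∑ b ∈ range (K - a + 1), Un n ^ b * Br * Un n ^ (K - a - b)) = _
      rw [v1_ev_sum]
      refine sum_congr rfl fun a ha => ?_
      rw [mul_sum, v1_ev_sum]
      refine sum_congr rfl fun b hb => ?_
      have := mem_range.1 ha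
      have := mem_range.1 hb
      rw [show K - b = K - a - b + a by omega,
        ← v1_rot3 hr _ _ (v1_mul (v1_mul hB (v1_U n b)) hB)]
      simp only [mul_assoc]
    have h3 := v1_tri (fun b => ev n (Br * Un n ^ b * Br * Un n ^ (K - b))) K fun b hb => by
      have e := (v1_rot hr (v1_mul (v1_mul (v1_U n b) hB) (v1_U n (K - b)))).2
      have e' := v1_rotU hr b (v1_mul (v1_mul hB (v1_U n (K - b))) hB)
      rw [show K - (K - b) = b by omega, ← e']
      simp only [hBr, mul_smul_comm, smul_mul_assoc, v1_ev_smul, mul_assoc] at e ⊢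
      linarith
    have h4 : ∑ b ∈ range (K + 1), ev n (Br * Un n ^ b * Br * Un n ^ (K - b)) =
        2 * ev n (Bn n * SS (Un n) Br 1 K) := by
      change _ = 2 * ev n (Bn n * ∑ b ∈ range (K + 1), Un n ^ b * Br * Un n ^ (K - b))
      rw [mul_sum, v1_ev_sum, mul_sum]
      refine sum_congr rfl fun b _ => ?_
      rw [← v1_ev_smul, ← smul_mul_assoc, ← hBr]
      simp only [mul_assoc]
    have h5 : ∑ a ∈ nets n, (v1_O 1 a : ℝ) =
        ((NN n : ℝ) - 4) * ev n (Om (Dn n) 1 (n - 1) * Un n ^ (NN n - 5)) := by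
      rw [sum_congr rfl fun a ha => v1_O1 h0 hR hN ha, sum_comm,
        sum_congr rfl (g := fun _ => ev n (Om (Dn n) 1 (n - 1) * Un n ^ (NN n - 5))) fun t ht => ?_]
      · rw [sum_const, card_range, nsmul_eq_mul, Nat.cast_sub (by omega)]
        push_cast; ring
      · have := mem_range.1 ht
        rw [show NN n - 5 = NN n - 5 - t + t by omega, ← v1_rot3 hr _ _ (v1_Om n), Om, mul_sum,
          sum_mul, v1_ev_sum, sum_comm]
        refine sum_congr rfl fun x _ => ?_
        rw [sum_add_distrib, ← v1_count hN hC n t (NN n - 5 - t) _ (by simp; omega),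
          ← v1_count hN hC n t (NN n - 5 - t) _ (by simp; omega), mul_add, add_mul, v1_ev_add]
        simp only [Dw, List.map_cons, List.map_nil, List.prod_cons, List.prod_nil, mul_one,
          mul_assoc]
    rw [sum_congr rfl fun a ha => (v1_sq a).trans (by rw [v1_O0 h0 hR ha]), sum_add_distrib,
      sum_add_distrib, ← mul_sum, ← mul_sum, h2, h3, h4, h5, hK, Nat.cast_sub h6]
    simp only [Nat.cast_zero, mul_zero, sum_const_zero]
    push_cast; ring

end Pool.Agent.MP_a5ded6_pr.POIS
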