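import Pool.Agent.MP_a5ded6_pr.POIS.Spec2

set_option autoImplicit false

namespace Pool.Agent.MP_a5ded6_pr.POIS

open Finset

theorem v2_sub (n : ℕ) (x y : En) : ev n (x - y) = ev n x - ev n y := by simp [ev]

theorem v2_smul (n : ℕ) (c : ℝ) (x : En) : ev n (c • x) = c * ev n x := by simp [ev]

theorem v2_pow (D : ℤ → En) (U : En) (m : ℕ) : AC D U 0 m 1 (U ^ m) := by
  have h := AC.mono (D := D) (U := U) (List.replicate m none)
    (r := 0) (K := m) (by simp [List.countP_replicate]) (by simp)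
  have e : mono D U (List.replicate m none) = U ^ m := by simp [mono]
  rwa [e] at h

theorem v2_tel {A : Type} [Ring A] [Algebra ℝ A] (U W P B : A)
    (hB : B = W * U - U * W - P) (hP : P * U = U * P) (K : ℕ) :
    SS U ((2 : ℝ) • B) 1 K = (2 : ℝ) • (W * U ^ (K + 1) - U ^ (K + 1) * W) -
      (2 * ((K : ℝ) + 1)) • (P * U ^ K) := by
  have hc : Commute U P := hP.symm
  have h1 : ∀ a ∈ range (K + 1), U ^ a * ((2 : ℝ) • B) * U ^ (K - a) =
      (2 : ℝ) • (U ^ a * W * U ^ (K + 1 - a) - U ^ (a + 1) * W * U ^ (K + 1 - (a + 1))) -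
        (2 : ℝ) • (P * U ^ K) := by
    intro a ha
    have ha' : a ≤ K := Nat.lt_succ_iff.1 (mem_range.1 ha)
    have e1 : K + 1 - a = K - a + 1 := by omega
    have e2 : K + 1 - (a + 1) = K - a := by omega
    have e3 : U ^ a * P * U ^ (K - a) = P * U ^ K := by
      rw [(hc.pow_left a).eq, mul_assoc, ← pow_add, Nat.add_sub_cancel' ha']
    rw [e1, e2, ← e3, hB, pow_succ' U (K - a), pow_succ U a, mul_smul_comm, smul_mul_assoc,
      ← smul_sub]
    congr 1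
    noncomm_ring
  have h2 : SS U ((2 : ℝ) • B) 1 K =
      ∑ a ∈ range (K + 1), U ^ a * ((2 : ℝ) • B) * U ^ (K - a) := rfl
  rw [h2, sum_congr rfl h1, sum_sub_distrib, ← smul_sum,
    sum_range_sub' (fun a => U ^ a * W * U ^ (K + 1 - a)), sum_const, card_range,
    ← Nat.cast_smul_eq_nsmul ℝ, smul_smul]
  simp only [pow_zero, one_mul, Nat.sub_zero, Nat.sub_self, mul_one]
  congr 2
  push_cast
  ring

theorem v2_V2 (h0 : SpNC) (h1 : SpA1) (hc : SpAC) (h2 : SpA2) (hC : SpCount) (hr : SpRot) :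
    SpV2 := by
  intro n hn
  obtain ⟨C, -, h⟩ := h2
  have hnc : NC (Dn n) 1 ((n : ℤ) - 1) := h0 1 _
  obtain ⟨a1, a2, -⟩ := h1 _ _ _ hnc
  have hn0 : (0 : ℝ) ≤ n := Nat.cast_nonneg n
  obtain ⟨b1, b2, b3, -⟩ := h (Dn n) 1 ((n : ℤ) - 1) (Un n) (((n : ℝ) - 1) / 2) n n hnc hn0
    (by push_cast; linarith) hn0 (fun i hi1 hi2 => by
      have h3 : (1 : ℝ) ≤ i := by exact_mod_cast hi1
      have h4 : (i : ℝ) ≤ (n : ℝ) - 1 := by exact_mod_cast hi2
      rw [abs_le]; constructor <;> linarith)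
  have hB : Bn n = Wn n * Un n - Un n * Wn n - Pn n := by
    unfold Bn Wn Pn Un
    rw [a1]; unfold P3; abel
  have hP : Pn n * Un n = Un n * Pn n := a2
  have z : ∀ (r K : ℕ) (ω : ℝ) (y : En), AC (Dn n) (Un n) r K ω y → y * Un n = Un n * y →
      ev n (Bn n * y) = - ev n (Pn n * y) := by
    intro r K ω y hy hyU
    have q := (hr n _ _ _ _ (hc.1 _ _ _ _ _ _ _ _ _ _ b3 hy)).2.1
    have e : Bn n * y = Wn n * y * Un n - Un n * (Wn n * y) - Pn n * y := by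
      rw [hB, sub_mul, sub_mul, mul_assoc (Wn n) y, hyU, mul_assoc, mul_assoc]
    rw [e, v2_sub, v2_sub]
    unfold Wn
    rw [q]; ring
  have cU : ∀ m : ℕ, Un n ^ m * Un n = Un n * Un n ^ m := fun m => by
    rw [← pow_succ, ← pow_succ']
  refine ⟨z _ _ _ _ (v2_pow _ _ _) (cU _), ?_⟩
  have hN : 6 ≤ NN n := by
    unfold NN
    have : 4 * 3 ≤ n * (n - 1) := Nat.mul_le_mul hn (by omega)
    omega
  obtain ⟨K, hK⟩ : ∃ K, NN n = K + 6 := ⟨NN n - 6, by omega⟩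
  have e6 : NN n - 6 = K := by omega
  have e5 : NN n - 5 = K + 1 := by omega
  have z2 := z _ _ _ _ (hc.1 _ _ _ _ _ _ _ _ _ _ b2 (v2_pow (Dn n) (Un n) K))
    (by
      change Pn n * Un n ^ K * Un n = Un n * (Pn n * Un n ^ K)
      rw [mul_assoc, cU, ← mul_assoc, hP, mul_assoc])
  change ev n (Bn n * (Pn n * Un n ^ K)) = - ev n (Pn n * (Pn n * Un n ^ K)) at z2
  have z3 := (hC n).2.2 _ _ _ _ (hc.1 _ _ _ _ _ _ _ _ _ _ b1 (v2_pow (Dn n) (Un n) (K + 1)))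
  change ev n (Bn n * Un n ^ (K + 1) * Wn n) = ev n (Wn n * (Bn n * Un n ^ (K + 1))) at z3
  rw [e6, e5, v2_tel _ _ _ _ hB hP, mul_sub, mul_smul_comm, mul_smul_comm, v2_sub, v2_smul,
    v2_smul, z2, mul_sub, v2_sub, ← mul_assoc (Bn n) (Un n ^ (K + 1)), z3, sub_mul, v2_sub, hK,
    sq, mul_assoc (Pn n), mul_assoc (Bn n), mul_assoc (Wn n)]
  push_cast
  ring

end Pool.Agent.MP_a5ded6_pr.POIS
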