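import Pool.Agent.MP_a5ded6_pr.POIS.Spec2

set_option autoImplicit false

namespace Pool.Agent.MP_a5ded6_pr.POIS

open Finset

section
variable {D : ℤ → En} {lo hi : ℤ}

theorem v3a_b0 (h : NC D lo hi) (i : ℤ) : bb D i * D i = 0 := by
  unfold bb; rw [mul_assoc, h.sq, mul_zero]

theorem v3a_b1 (h : NC D lo hi) (i : ℤ) : bb D i * D (i + 1) = 0 := by
  unfold bb; rw [h.braid, mul_assoc, h.sq, mul_zero]

theorem v3a_0b (h : NC D lo hi) (i : ℤ) : D i * bb D i = 0 := by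
  unfold bb; rw [← mul_assoc, ← mul_assoc, h.sq, zero_mul, zero_mul]

theorem v3a_1b (h : NC D lo hi) (i : ℤ) : D (i + 1) * bb D i = 0 := by
  unfold bb; rw [h.braid, ← mul_assoc, ← mul_assoc, h.sq, zero_mul, zero_mul]

theorem v3a_far (h : NC D lo hi) (i k : ℤ) (hk : k + 2 ≤ i ∨ i + 3 ≤ k) :
    Commute (bb D i) (D k) := by
  have h1 : Commute (D i) (D k) := by
    rcases hk with hk | hk
    · exact (h.comm k i hk).symm
    · exact h.comm i k (by omega)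
  have h2 : Commute (D (i + 1)) (D k) := by
    rcases hk with hk | hk
    · exact (h.comm k (i + 1) (by omega)).symm
    · exact h.comm (i + 1) k (by omega)
  exact (h1.mul_left h2).mul_left h1

theorem v3a_comm_zero (h : NC D lo hi) (i k : ℤ)
    (hk : k ∉ ({i - 1, i + 1, i - 2, i + 2} : Finset ℤ)) :
    bb D i * cc D k - cc D k * bb D i = 0 := by
  simp only [mem_insert, mem_singleton, not_or] at hk
  by_cases hki : k = i
  · subst hki
    unfold cc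
    rw [mul_sub, sub_mul, ← mul_assoc, ← mul_assoc, v3a_b0 h, v3a_b1 h, mul_assoc, mul_assoc,
      v3a_0b h, v3a_1b h]
    simp
  · have h1 := v3a_far h i k (by omega)
    have h2 := v3a_far h i (k + 1) (by omega)
    have : Commute (bb D i) (cc D k) := (h1.mul_right h2).sub_right (h2.mul_right h1)
    rw [this.eq, sub_self]

theorem v3a_cc_out (h : NC D lo hi) (k : ℤ) (hk : k ∉ Icc lo hi) : cc D k = 0 := by
  have : D k = 0 := h.out k (by rw [mem_Icc] at hk; omega)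
  unfold cc; rw [this]; simp

theorem v3a_m1 (h : NC D lo hi) (i : ℤ) :
    bb D i * cc D (i - 1) - cc D (i - 1) * bb D i =
      bb D i * D (i - 1) * D i + D i * D (i - 1) * bb D i := by
  unfold cc
  rw [sub_add_cancel, mul_sub, sub_mul, ← mul_assoc, ← mul_assoc, v3a_b0 h,
    mul_assoc (D (i - 1)) (D i), v3a_0b h]
  simp

theorem v3a_p1 (h : NC D lo hi) (i : ℤ) :
    bb D i * cc D (i + 1) - cc D (i + 1) * bb D i =
      -(bb D i * D (i + 2) * D (i + 1) + D (i + 1) * D (i + 2) * bb D i) := by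
  unfold cc
  rw [show i + 1 + 1 = i + 2 by ring, mul_sub, sub_mul, ← mul_assoc, ← mul_assoc, v3a_b1 h,
    mul_assoc (D (i + 2)) (D (i + 1)), v3a_1b h]
  simp only [zero_mul, mul_zero, zero_sub, sub_zero]
  abel

end

theorem v3a_V3a : SpV3a := by
  intro D lo hi κ h
  unfold Bs
  rw [sum_mul, mul_sum, ← sum_sub_distrib]
  refine sum_congr rfl fun i _ => ?_
  unfold WW
  rw [sum_mul, mul_sum, ← sum_sub_distrib]
  have e : ∀ k : ℤ, bb D i * (κ - (k : ℝ)) • cc D k - (κ - (k : ℝ)) • cc D k * bb D i =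
      (κ - (k : ℝ)) • (bb D i * cc D k - cc D k * bb D i) := by
    intro k; rw [mul_smul_comm, smul_mul_assoc, smul_sub]
  simp only [e]
  set T : Finset ℤ := {i - 1, i + 1, i - 2, i + 2} with hT
  have s1 : ∑ k ∈ Icc lo hi, (κ - (k : ℝ)) • (bb D i * cc D k - cc D k * bb D i) =
      ∑ k ∈ Icc lo hi ∪ T, (κ - (k : ℝ)) • (bb D i * cc D k - cc D k * bb D i) := by
    refine sum_subset subset_union_left fun k _ hk => ?_
    rw [v3a_cc_out h k hk]; simp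
  have s2 : ∑ k ∈ T, (κ - (k : ℝ)) • (bb D i * cc D k - cc D k * bb D i) =
      ∑ k ∈ Icc lo hi ∪ T, (κ - (k : ℝ)) • (bb D i * cc D k - cc D k * bb D i) := by
    refine sum_subset subset_union_right fun k _ hk => ?_
    rw [v3a_comm_zero h i k hk, smul_zero]
  rw [s1, ← s2, hT, sum_insert (by simp only [mem_insert, mem_singleton]; omega),
    sum_insert (by simp only [mem_insert, mem_singleton]; omega),
    sum_insert (by simp only [mem_singleton]; omega), sum_singleton, v3a_m1 h, v3a_p1 h]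
  push_cast
  rw [smul_neg, show κ - ((i : ℝ) - 1) = κ - i + 1 by ring, show κ - ((i : ℝ) + 1) = κ - i - 1 by ring,
    show κ - ((i : ℝ) - 2) = κ - i + 2 by ring, show κ - ((i : ℝ) + 2) = κ - i - 2 by ring]
  abel

theorem v3a_ev_add (n : ℕ) (x y : En) : ev n (x + y) = ev n x + ev n y := rfl
theorem v3a_ev_sub (n : ℕ) (x y : En) : ev n (x - y) = ev n x - ev n y := rfl
theorem v3a_ev_smul (n : ℕ) (c : ℝ) (x : En) : ev n (c • x) = c * ev n x := rfl
theorem v3a_ev_zero (n : ℕ) : ev n 0 = 0 := rfl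

theorem v3a_ev_sum (n : ℕ) (s : Finset ℤ) (F : ℤ → En) :
    ev n (∑ i ∈ s, F i) = ∑ i ∈ s, ev n (F i) := by
  classical
  induction s using Finset.induction_on with
  | empty => simp [v3a_ev_zero]
  | insert a s ha ih => rw [sum_insert ha, sum_insert ha, v3a_ev_add, ih]

theorem v3a_sum_Icc (m : ℕ) (F : ℤ → ℝ) :
    ∑ i ∈ Icc (1 : ℤ) (m : ℤ), F i = ∑ t ∈ range m, F ((t : ℤ) + 1) := by
  induction m with
  | zero => simp
  | succ m ih =>
    rw [sum_range_succ, ← ih]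
    have : Icc (1 : ℤ) ((m + 1 : ℕ) : ℤ) = insert ((m : ℤ) + 1) (Icc (1 : ℤ) (m : ℤ)) := by
      ext x; simp only [mem_Icc, mem_insert]; push_cast; omega
    rw [this, sum_insert (by simp only [mem_Icc]; omega), add_comm]

noncomputable def v3a_psi (n j : ℕ) : ℝ := if 1 ≤ j ∧ j + 3 ≤ n then phi n (n - 3 - j) else 0

theorem v3a_words (h0 : SpNC) (hc : SpV3c) (n j : ℕ) :
    ev n (bb (Dn n) (j + 1) * Dn n j * Dn n (j + 1) * Un n ^ (NN n - 5)) = v3a_psi n j ∧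
    ev n (Dn n (j + 1) * Dn n j * bb (Dn n) (j + 1) * Un n ^ (NN n - 5)) = v3a_psi n j ∧
    ev n (bb (Dn n) j * Dn n (j + 2) * Dn n (j + 1) * Un n ^ (NN n - 5)) = v3a_psi n j ∧
    ev n (Dn n (j + 1) * Dn n (j + 2) * bb (Dn n) j * Un n ^ (NN n - 5)) = v3a_psi n j := by
  have h : NC (Dn n) 1 (n - 1) := h0 1 (n - 1)
  unfold v3a_psi
  by_cases hj : 1 ≤ j ∧ j + 3 ≤ n
  · rw [if_pos hj]; exact hc n j hj.1 hj.2
  · rw [if_neg hj]
    by_cases hj0 : j = 0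
    · have z : Dn n (j : ℤ) = 0 := h.out _ (by omega)
      have zb : bb (Dn n) (j : ℤ) = 0 := by unfold bb; rw [z]; simp
      simp [z, zb, v3a_ev_zero]
    · have z : Dn n ((j : ℤ) + 2) = 0 := h.out _ (by omega)
      have zb : bb (Dn n) ((j : ℤ) + 1) = 0 := by
        unfold bb; rw [show (j : ℤ) + 1 + 1 = j + 2 by ring, z]; simp
      simp [z, zb, v3a_ev_zero]

theorem v3a_psi_sum (m : ℕ) : ∑ t ∈ range (m + 1), v3a_psi (m + 4) (t + 1) = Phi (m + 4) := by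
  unfold Phi
  rw [show m + 4 - 3 = m + 1 by omega, ← sum_range_reflect (fun j => phi (m + 4) j) (m + 1)]
  refine sum_congr rfl fun t ht => ?_
  rw [mem_range] at ht
  unfold v3a_psi
  rw [if_pos (by omega)]
  congr 1
  omega

theorem v3e_V3 (h0 : SpNC) (ha : SpV3a) (hc : SpV3c) (hd : SpV3d) : SpV3 := by
  intro n hn
  obtain ⟨m, rfl⟩ : ∃ m, n = m + 4 := ⟨n - 4, by omega⟩
  have h : NC (Dn (m + 4)) 1 (((m + 4 : ℕ) : ℤ) - 1) := h0 1 _
  have hI : (((m + 4 : ℕ) : ℤ) - 1) = ((m + 3 : ℕ) : ℤ) := by push_cast; ring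
  have p0 : v3a_psi (m + 4) 0 = 0 := by unfold v3a_psi; rw [if_neg (by omega)]
  have p2 : v3a_psi (m + 4) (m + 1 + 1) = 0 := by unfold v3a_psi; rw [if_neg (by omega)]
  have p3 : v3a_psi (m + 4) (m + 2 + 1) = 0 := by unfold v3a_psi; rw [if_neg (by omega)]
  constructor
  · unfold Bn Wn
    rw [ha _ _ _ _ h, sum_mul, v3a_ev_sum, hI, v3a_sum_Icc]
    generalize ((((m + 4 : ℕ) : ℝ) - 1) / 2) = κ
    have e : ∀ t ∈ range (m + 3), ev (m + 4) (((κ - (((t : ℤ) + 1 : ℤ) : ℝ) + 1) •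
        (bb (Dn (m + 4)) ((t : ℤ) + 1) * Dn (m + 4) ((t : ℤ) + 1 - 1) * Dn (m + 4) ((t : ℤ) + 1) +
          Dn (m + 4) ((t : ℤ) + 1) * Dn (m + 4) ((t : ℤ) + 1 - 1) * bb (Dn (m + 4)) ((t : ℤ) + 1)) -
        (κ - (((t : ℤ) + 1 : ℤ) : ℝ) - 1) •
        (bb (Dn (m + 4)) ((t : ℤ) + 1) * Dn (m + 4) ((t : ℤ) + 1 + 2) * Dn (m + 4) ((t : ℤ) + 1 + 1) +
          Dn (m + 4) ((t : ℤ) + 1 + 1) * Dn (m + 4) ((t : ℤ) + 1 + 2) * bb (Dn (m + 4)) ((t : ℤ) + 1)) +
        (κ - (((t : ℤ) + 1 : ℤ) : ℝ) + 2) •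
        (bb (Dn (m + 4)) ((t : ℤ) + 1) * cc (Dn (m + 4)) ((t : ℤ) + 1 - 2) -
          cc (Dn (m + 4)) ((t : ℤ) + 1 - 2) * bb (Dn (m + 4)) ((t : ℤ) + 1)) +
        (κ - (((t : ℤ) + 1 : ℤ) : ℝ) - 2) •
        (bb (Dn (m + 4)) ((t : ℤ) + 1) * cc (Dn (m + 4)) ((t : ℤ) + 1 + 2) -
          cc (Dn (m + 4)) ((t : ℤ) + 1 + 2) * bb (Dn (m + 4)) ((t : ℤ) + 1))) *
        Un (m + 4) ^ (NN (m + 4) - 5)) =
        (κ - t) * (2 * v3a_psi (m + 4) t) - (κ - t - 2) * (2 * v3a_psi (m + 4) (t + 1)) := by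
      intro t _
      obtain ⟨a1, a2, -, -⟩ := v3a_words h0 hc (m + 4) t
      obtain ⟨-, -, b1, b2⟩ := v3a_words h0 hc (m + 4) (t + 1)
      obtain ⟨d1, d2⟩ := hd (m + 4) (NN (m + 4) - 5) ((t : ℤ) + 1)
      push_cast at b1 b2
      rw [add_mul, add_mul, sub_mul, smul_mul_assoc, smul_mul_assoc, smul_mul_assoc, smul_mul_assoc,
        v3a_ev_add, v3a_ev_add, v3a_ev_sub, v3a_ev_smul, v3a_ev_smul, v3a_ev_smul, v3a_ev_smul,
        d1, d2, add_mul (bb _ _ * _ * _), add_mul (bb _ _ * _ * _), v3a_ev_add, v3a_ev_add,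
        add_sub_cancel_right, a1, a2, b1, b2]
      push_cast
      ring
    rw [sum_congr rfl e, sum_sub_distrib, sum_range_succ' _ (m + 2), sum_range_succ _ (m + 2), p0, p3,
      ← v3a_psi_sum, mul_sum]
    simp only [mul_zero, add_zero]
    rw [← sum_sub_distrib, sum_range_succ, p2]
    simp only [mul_zero, sub_zero, add_zero]
    refine sum_congr rfl fun t _ => ?_
    push_cast
    ring
  · unfold Om
    rw [sum_mul, v3a_ev_sum, hI, v3a_sum_Icc]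
    have e : ∀ t ∈ range (m + 3), ev (m + 4)
        ((Dn (m + 4) ((t : ℤ) + 1) * Dn (m + 4) ((t : ℤ) + 1 + 1) * Dn (m + 4) ((t : ℤ) + 1) *
          Dn (m + 4) ((t : ℤ) + 1 - 1) * Dn (m + 4) ((t : ℤ) + 1) +
         Dn (m + 4) ((t : ℤ) + 1) * Dn (m + 4) ((t : ℤ) + 1 - 1) * Dn (m + 4) ((t : ℤ) + 1) *
          Dn (m + 4) ((t : ℤ) + 1 + 1) * Dn (m + 4) ((t : ℤ) + 1)) * Un (m + 4) ^ (NN (m + 4) - 5)) =
        2 * v3a_psi (m + 4) t := by
      intro t _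
      obtain ⟨a1, -, a3, -⟩ := v3a_words h0 hc (m + 4) t
      unfold bb at a1 a3
      rw [h.braid, show (t : ℤ) + 2 = t + 1 + 1 by ring] at a3
      rw [add_mul, v3a_ev_add, add_sub_cancel_right, a1, a3]
      ring
    rw [sum_congr rfl e, sum_range_succ' _ (m + 2), sum_range_succ _ (m + 1), p0, p2,
      ← v3a_psi_sum, mul_sum]
    simp

end Pool.Agent.MP_a5ded6_pr.POIS
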