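import Pool.Agent.MP_a5ded6_pr.POIS.Spec2
import Pool.Agent.MP_a5ded6_pr.POIS.R7

set_option autoImplicit false

namespace Pool.Agent.MP_a5ded6_pr.POIS

open Finset

theorem v3b_anti (a : ℕ → ℕ) (n : ℕ) (h : ∀ i j, i ≤ j → j < n → a j ≤ a i) (t i : ℕ)
    (hi : i < n) : t ≤ a i ↔ i < ((range n).filter (fun j => t ≤ a j)).card := by
  constructor
  · intro ht
    have : (range (i + 1)).card ≤ ((range n).filter (fun j => t ≤ a j)).card :=
      card_le_card fun j hj => by
        have hj' := mem_range.1 hj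
        exact mem_filter.2 ⟨mem_range.2 (by omega), ht.trans (h j i (by omega) hi)⟩
    rw [card_range] at this
    omega
  · intro hc
    by_contra hn
    have : ((range n).filter (fun j => t ≤ a j)).card ≤ (range i).card :=
      card_le_card fun j hj => by
        obtain ⟨h1, h2⟩ := mem_filter.1 hj
        refine mem_range.2 ?_
        by_contra h3
        have := h i j (by omega) (mem_range.1 h1)
        omega
    rw [card_range] at this
    omega

theorem v3b_eq (a b : ℕ → ℕ) (n : ℕ) (ha : ∀ i j, i ≤ j → j < n → a j ≤ a i)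
    (hb : ∀ i j, i ≤ j → j < n → b j ≤ b i)
    (h : ∀ t, 1 ≤ t → ((range n).filter (fun j => t ≤ a j)).card =
      ((range n).filter (fun j => t ≤ b j)).card) (i : ℕ) (hi : i < n) : a i = b i := by
  have key : ∀ t, 1 ≤ t → (t ≤ a i ↔ t ≤ b i) := fun t ht => by
    rw [v3b_anti a n ha t i hi, v3b_anti b n hb t i hi, h t ht]
  have h1 := key (a i)
  have h2 := key (b i)
  omega

theorem v3b_Dom (hT : SpTr) (hH : SpHarm) (hF : SpFrob) : SpDom := by
  intro n m w lam hs hav hc hanti hsum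
  have h0 : r7_Inv n w w n := by
    refine ⟨fun x hx => hs x (by omega), fun x y hxy hy => ?_, fun x y hx hxy => ?_,
      fun a b c ha hab hb hbc => ?_, 1, fun _ => rfl⟩
    · rwa [hs x (by omega), hs y (by omega)]
    · rwa [hs x (by omega), hs y (by omega)]
    · by_cases hc : c ≤ n
      · exact hav a b c ha hab hbc hc
      · have := (r7_mem hs b).1 ⟨by omega, hb⟩
        have := hs c (by omega)
        omega
  obtain ⟨g, ig, eg⟩ := r7_outer hs n le_rfl w h0
  obtain ⟨σ, hσ⟩ := ig.code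
  have hc' : ∀ i : ℕ, i < n → r7_code n w ((i : ℤ) + 1) = lam i := hc
  have hv : ∀ i : ℕ, i < n → g (-(i : ℤ)) = -(i : ℤ) + r7_code n g (-(i : ℤ)) := fun i hi =>
    r7_val ig.supp ig.lo (by omega) (by omega)
  have hmu : ∀ i j : ℕ, i ≤ j → j < n → r7_code n g (-(j : ℤ)) ≤ r7_code n g (-(i : ℤ)) := by
    intro i j hij _
    refine card_le_card fun c hc => ?_
    simp only [mem_filter, mem_Ioc] at hc ⊢
    have a1 := ig.lo (-(j : ℤ)) c
    have a2 := ig.lo (-(j : ℤ)) (-(i : ℤ))
    by_cases e : i = j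
    · subst e
      exact hc
    · omega
  have hl : ∀ i : ℕ, i < n → r7_code n g (-(i : ℤ)) = lam i := by
    refine v3b_eq (fun i => r7_code n g (-(i : ℤ))) lam n hmu hanti fun t ht => ?_
    refine card_bij (fun i _ => (σ (-(i : ℤ)) - 1).toNat) ?_ ?_ ?_
    · intro i hi
      obtain ⟨-, h2⟩ := mem_filter.1 hi
      rw [hσ] at h2
      have h3 := r7_code0 hs ht h2
      refine mem_filter.2 ⟨mem_range.2 (by omega), ?_⟩
      rw [← hc' _ (by omega), show (((σ (-(i : ℤ)) - 1).toNat : ℕ) : ℤ) + 1 = σ (-(i : ℤ)) by omega]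
      exact h2
    · intro i hi j hj e
      obtain ⟨-, h2⟩ := mem_filter.1 hi
      obtain ⟨-, h2'⟩ := mem_filter.1 hj
      rw [hσ] at h2 h2'
      have h3 := r7_code0 hs ht h2
      have h3' := r7_code0 hs ht h2'
      have := σ.injective (show σ (-(i : ℤ)) = σ (-(j : ℤ)) by omega)
      omega
    · intro j hj
      obtain ⟨h1, h2⟩ := mem_filter.1 hj
      have h1' := mem_range.1 h1
      rw [← hc' j h1'] at h2
      have hcx : t ≤ r7_code n g (σ.symm ((j : ℤ) + 1)) := by
        rw [hσ, Equiv.apply_symm_apply]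
        exact h2
      have h3 : σ.symm ((j : ℤ) + 1) ≤ 0 := by
        by_contra hn
        obtain ⟨c, hc'⟩ := card_pos.1 (lt_of_lt_of_le ht hcx)
        simp only [mem_filter, mem_Ioc] at hc'
        have := ig.hi (σ.symm ((j : ℤ) + 1)) c (by omega) hc'.1.1
        omega
      have h4 := r7_count hs ig.lo hσ h3 ht hcx
      have e : -(((-σ.symm ((j : ℤ) + 1)).toNat : ℕ) : ℤ) = σ.symm ((j : ℤ) + 1) := by omega
      refine ⟨(-σ.symm ((j : ℤ) + 1)).toNat, mem_filter.2 ⟨mem_range.2 (by omega), ?_⟩, ?_⟩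
      · rw [e]
        exact hcx
      · rw [e, Equiv.apply_symm_apply]
        omega
  have hg : ∀ i : ℕ, i < n → g (-(i : ℤ)) = (lam i : ℤ) - i := fun i hi => by
    rw [hv i hi, hl i hi]
    ring
  have hG : Grass n g := ⟨ig.supp, ig.lo, ig.hi⟩
  have hsz : size n g = m := by
    unfold size
    rw [← hsum]
    push_cast
    refine sum_congr rfl fun i hi => ?_
    rw [hg i (mem_range.1 hi)]
    ring
  have e1 : ff (-(NN n : ℤ) - n - 5) (n + 5) 0 m w = ff 1 (n - 1) 0 m w :=
    hT _ _ _ _ 0 m w (by rwa [sub_add_cancel]) (by omega) (by omega)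
  have e2 := eg (-(NN n : ℤ) - n - 5) (n + 5) _ (by omega) (by omega) (hH _ _ 0 m)
  have e3 : ff (-(NN n : ℤ) - n - 5) (n + 5) 0 m g = ff (-(n : ℤ)) n 0 m g :=
    hT _ _ _ _ 0 m g (fun x hx => hG.1 x (by omega)) (by omega) (by omega)
  have e4 : (Un n ^ m) delta w = ff 1 (n - 1) 0 m w := by
    simp only [ff, pow_zero, one_mul]
    rfl
  have e5 : Frob n (fun i => g (-(i : ℤ))) = Frob n (fun i => (lam i : ℤ) - i) := by
    unfold Frob
    congr 1
    · refine prod_congr rfl fun i hi => prod_congr rfl fun j hj => ?_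
      simp only [hg i (mem_range.1 hi), hg j (mem_Ioo.1 hj).2]
    · refine prod_congr rfl fun i hi => ?_
      simp only [hg i (mem_range.1 hi)]
  rw [e4, ← e1, e2, e3, hF n m g hG, if_pos hsz, e5]

end Pool.Agent.MP_a5ded6_pr.POIS
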