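import Pool.Agent.MP_a5ded6_pr.POIS.Spec2
import Pool.Agent.MP_a5ded6_pr.POIS.R11

set_option autoImplicit false

namespace Pool.Agent.MP_a5ded6_pr.POIS

open Finset

/-- the reversal with a block of four values rearranged -/
def v3c_Pat (n : ℕ) (J : ℤ) (w : Pm) (a b c d : ℤ) : Prop :=
  w (n - J - 2) = J + a ∧ w (n - J - 1) = J + b ∧ w (n - J) = J + c ∧ w (n - J + 1) = J + d ∧
    ∀ x, x < n - J - 2 ∨ n - J + 1 < x → w x = w0 n x

theorem v3c_val {n : ℕ} {J : ℤ} {w : Pm} {a b c d : ℤ} (h : v3c_Pat n J w a b c d) (x : ℤ) :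
    (x = n - J - 2 ∧ w x = J + a) ∨ (x = n - J - 1 ∧ w x = J + b) ∨ (x = n - J ∧ w x = J + c) ∨
      (x = n - J + 1 ∧ w x = J + d) ∨
      ((x < n - J - 2 ∨ n - J + 1 < x) ∧
        ((1 ≤ x ∧ x ≤ n ∧ w x = n + 1 - x) ∨ ((x < 1 ∨ n < x) ∧ w x = x))) := by
  obtain ⟨h1, h2, h3, h4, h5⟩ := h
  by_cases e1 : x = n - J - 2
  · exact Or.inl ⟨e1, by rw [e1, h1]⟩
  by_cases e2 : x = n - J - 1
  · exact Or.inr (Or.inl ⟨e2, by rw [e2, h2]⟩)
  by_cases e3 : x = n - J
  · exact Or.inr (Or.inr (Or.inl ⟨e3, by rw [e3, h3]⟩))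
  by_cases e4 : x = n - J + 1
  · exact Or.inr (Or.inr (Or.inr (Or.inl ⟨e4, by rw [e4, h4]⟩)))
  refine Or.inr (Or.inr (Or.inr (Or.inr ⟨by omega, ?_⟩)))
  have := h5 x (by omega)
  rw [r11_w0] at this
  split_ifs at this <;> omega

theorem v3c_supp {n : ℕ} {J : ℤ} (h1 : 1 ≤ J) (h2 : J + 3 ≤ n) {w : Pm} {a b c d : ℤ}
    (h : v3c_Pat n J w a b c d) : Supp w 1 n := fun x hx => by
  rw [h.2.2.2.2 x (by omega), r11_supp0 n x hx]

theorem v3c_w0 {n : ℕ} {J : ℤ} (h1 : 1 ≤ J) (h2 : J + 3 ≤ n) : v3c_Pat n J (w0 n) 3 2 1 0 := by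
  refine ⟨?_, ?_, ?_, ?_, fun _ _ => rfl⟩ <;> rw [r11_w0, if_pos (by omega)] <;> omega

theorem v3c_desc {w : Pm} {i x y : ℤ} (hx : w x = i + 1) (hy : w y = i) (h : x < y) :
    Desc i w := by
  unfold Desc
  rw [← hx]
  conv_rhs => rw [← hy]
  simpa using h

/-- the operator has the value `v` on every permutation with the given block -/
def v3c_Val (n : ℕ) (J : ℤ) (v : ℝ) (x : En) (a b c d : ℤ) : Prop :=
  ∀ w, v3c_Pat n J w a b c d → x delta w = v

theorem v3c_step {n : ℕ} {J : ℤ} (h1 : 1 ≤ J) (h2 : J + 3 ≤ n) {v : ℝ} {x : En}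
    (i a b c d a' b' c' d' : ℤ) (hi : 0 ≤ i ∧ i ≤ 2)
    (hs : sw i a = a' ∧ sw i b = b' ∧ sw i c = c' ∧ sw i d = d')
    (hd : (a = i + 1 ∧ (b = i ∨ c = i ∨ d = i)) ∨ (b = i + 1 ∧ (c = i ∨ d = i)) ∨
      (c = i + 1 ∧ d = i))
    (h : v3c_Val n J v x a' b' c' d') : v3c_Val n J v (Dn n (J + i) * x) a b c d := by
  intro w hw
  have hD : Desc (J + i) w := by
    obtain ⟨p1, p2, p3, p4, -⟩ := hw
    rcases hd with ⟨e, e' | e' | e'⟩ | ⟨e, e' | e'⟩ | ⟨e, e'⟩
    · exact v3c_desc (x := n - J - 2) (y := n - J - 1) (by omega) (by omega) (by omega)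
    · exact v3c_desc (x := n - J - 2) (y := n - J) (by omega) (by omega) (by omega)
    · exact v3c_desc (x := n - J - 2) (y := n - J + 1) (by omega) (by omega) (by omega)
    · exact v3c_desc (x := n - J - 1) (y := n - J) (by omega) (by omega) (by omega)
    · exact v3c_desc (x := n - J - 1) (y := n - J + 1) (by omega) (by omega) (by omega)
    · exact v3c_desc (x := n - J) (y := n - J + 1) (by omega) (by omega) (by omega)
  have hsw : ∀ t : ℤ, sw (J + i) (J + t) = J + sw i t := fun t => by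
    rw [r11_sw, r11_sw]
    split_ifs <;> omega
  have hP : v3c_Pat n J (sw (J + i) * w) a' b' c' d' := by
    obtain ⟨p1, p2, p3, p4, p5⟩ := hw
    obtain ⟨s1, s2, s3, s4⟩ := hs
    refine ⟨?_, ?_, ?_, ?_, fun y hy => ?_⟩
    · rw [Equiv.Perm.mul_apply, p1, hsw, s1]
    · rw [Equiv.Perm.mul_apply, p2, hsw, s2]
    · rw [Equiv.Perm.mul_apply, p3, hsw, s3]
    · rw [Equiv.Perm.mul_apply, p4, hsw, s4]
    · rw [Equiv.Perm.mul_apply, p5 y hy, r11_sw, r11_w0]
      split_ifs <;> omega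
  have e : (Dn n (J + i) * x) delta w = Dtr 1 (n - 1) (J + i) (x delta) w := rfl
  rw [e]
  unfold Dtr
  rw [if_pos (by omega)]
  show (if Desc (J + i) w then x delta (sw (J + i) * w) else 0) = v
  rw [if_pos hD]
  exact h _ hP

theorem v3c_harm {lo hi : ℤ} {f : Fn} (hf : Harm lo hi f) {π : Pm} {r : ℤ}
    (hs : Supp π (lo + 4) (hi - 3)) (h1 : lo + 4 ≤ r) (h2 : r ≤ hi - 3)
    (a1 : π (r - 1) < π r) (a2 : π r < π (r + 1))
    (a3 : ∀ s, r + 1 < s → π s < π r ∨ π (r + 1) < π s)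
    (a4 : ∀ q, q < r - 1 → π r < π q ∨ π q < π (r - 1)) :
    f (π * Equiv.swap r (r + 1)) = f (π * Equiv.swap (r - 1) r) := by
  classical
  have h := hf π r hs h1 h2
  unfold Xf at h
  have e1 : (Icc lo (hi + 1)).filter (fun s => Cover π r s) = {r + 1} := by
    ext s
    simp only [mem_filter, mem_Icc, mem_singleton]
    constructor
    · rintro ⟨-, c1, c2, c3⟩
      by_contra hne
      have hlt : r + 1 < s := by omega
      rcases a3 s hlt with h' | h'
      · omega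
      · exact c3 (r + 1) (by omega) hlt ⟨a2, h'⟩
    · rintro rfl
      exact ⟨by omega, by omega, a2, fun c c1 c2 => by omega⟩
  have e2 : (Icc lo (hi + 1)).filter (fun q => Cover π q r) = {r - 1} := by
    ext q
    simp only [mem_filter, mem_Icc, mem_singleton]
    constructor
    · rintro ⟨-, c1, c2, c3⟩
      by_contra hne
      have hlt : q < r - 1 := by omega
      rcases a4 q hlt with h' | h'
      · omega
      · exact c3 (r - 1) hlt (by omega) ⟨h', a1⟩
    · rintro rfl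
      exact ⟨by omega, by omega, a1, fun c c1 c2 => by omega⟩
  have h' : (∑ s ∈ ({r + 1} : Finset ℤ), f (π * Equiv.swap r s)) -
      (∑ q ∈ ({r - 1} : Finset ℤ), f (π * Equiv.swap q r)) = 0 := by
    rw [← e1, ← e2]
    convert h
  rw [sum_singleton, sum_singleton] at h'
  linarith

theorem v3c_frob (n : ℕ) (z z' : ℕ → ℤ) (h : ∀ i, i < n → z i = z' i) : Frob n z = Frob n z' := by
  unfold Frob
  congr 1
  · refine prod_congr rfl fun i hi => prod_congr rfl fun j hj => ?_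
    rw [h i (mem_range.1 hi), h j (mem_Ioo.1 hj).2]
  · refine prod_congr rfl fun i hi => ?_
    rw [h i (mem_range.1 hi)]

theorem v3c_base1 (hD : SpDom) (n j : ℕ) (h1 : 1 ≤ j) (h2 : j + 3 ≤ n) :
    v3c_Val n j (phi n (n - 3 - j)) (Un n ^ (NN n - 5)) 1 0 2 3 := by
  intro w hw
  have hv := v3c_val hw
  have hz : ∀ i : ℕ, i < n → (((zz n (n - 3 - j) i + i).toNat : ℕ) : ℤ) = zz n (n - 3 - j) i + i := by
    intro i hi
    refine Int.toNat_of_nonneg ?_
    unfold zz
    split_ifs <;> omega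
  have key := hD n (NN n - 5) w (fun i => (zz n (n - 3 - j) i + i).toNat)
    (v3c_supp (by omega) (by omega) hw) ?_ ?_ ?_ ?_
  · rw [key]
    unfold phi
    congr 1
    refine v3c_frob n _ _ fun i hi => ?_
    rw [hz i hi]
    ring
  · intro a b c p1 p2 p3 p4
    have q1 := hv a
    have q2 := hv b
    have q3 := hv c
    omega
  · intro i hi
    have goal : ∀ S : Finset ℤ, (Ioc ((i : ℤ) + 1) (n : ℤ)).filter (fun c => w c < w (i + 1)) = S →
        (S.card : ℤ) = zz n (n - 3 - j) i + i →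
        code n w ((i : ℤ) + 1) = (zz n (n - 3 - j) i + i).toNat := by
      intro S e1 e2
      unfold code
      rw [e1, ← e2, Int.toNat_natCast]
    by_cases c1 : i = n - 3 - j
    · refine goal (insert ((n : ℤ) - j - 1) (Ioc ((n : ℤ) - j + 1) n)) ?_ ?_
      · ext c
        simp only [mem_filter, mem_Ioc, mem_insert]
        have q1 := hv c
        have q2 := hv (i + 1)
        omega
      · rw [card_insert_of_notMem (by simp only [mem_Ioc]; omega), Int.card_Ioc]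
        unfold zz
        split_ifs <;> omega
    by_cases c2 : i = n - 3 - j + 1 ∨ i = n - 3 - j + 2
    · refine goal (Ioc ((n : ℤ) - j + 1) n) ?_ ?_
      · ext c
        simp only [mem_filter, mem_Ioc]
        have q1 := hv c
        have q2 := hv (i + 1)
        omega
      · rw [Int.card_Ioc]
        unfold zz
        split_ifs <;> omega
    · refine goal (Ioc ((i : ℤ) + 1) n) ?_ ?_
      · ext c
        simp only [mem_filter, mem_Ioc]
        have q1 := hv c
        have q2 := hv (i + 1)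
        omega
      · rw [Int.card_Ioc]
        unfold zz
        split_ifs <;> omega
  · intro i i' p1 p2
    refine Int.toNat_le_toNat ?_
    unfold zz
    split_ifs <;> omega
  · have e1 : ∑ i ∈ range n, ((zz n (n - 3 - j) i + i).toNat +
        ((if i = n - 3 - j then 2 else 0) + (if i = n - 3 - j + 1 then 2 else 0) +
          (if i = n - 3 - j + 2 then 1 else 0))) = ∑ i ∈ range n, (n - 1 - i) := by
      refine sum_congr rfl fun i hi => ?_
      have := mem_range.1 hi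
      unfold zz
      split_ifs <;> omega
    rw [sum_add_distrib, sum_add_distrib, sum_add_distrib, sum_ite_eq', sum_ite_eq', sum_ite_eq',
      if_pos (mem_range.2 (by omega)), if_pos (mem_range.2 (by omega)),
      if_pos (mem_range.2 (by omega)), sum_range_reflect (fun i => i) n, sum_range_id] at e1
    unfold NN
    omega

theorem v3c_base2 (hT : SpTr) (hH : SpHarm) (hD : SpDom) (n j : ℕ) (h1 : 1 ≤ j) (h2 : j + 3 ≤ n) :
    v3c_Val n j (phi n (n - 3 - j)) (Un n ^ (NN n - 5)) 0 1 3 2 := by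
  intro w hw
  have hff : ∀ u : Pm, Supp u 1 n → (Un n ^ (NN n - 5)) delta u =
      ff (-(NN n : ℤ) - n - 5) (n + 5) 0 (NN n - 5) u := by
    intro u hu
    rw [r11_tr1 hT hu]
    simp only [ff, pow_zero, one_mul]
    rfl
  set π : Pm := w * Equiv.swap ((n : ℤ) - j) ((n : ℤ) - j + 1) with hπ
  have hP : v3c_Pat n j π 0 1 2 3 := by
    obtain ⟨p1, p2, p3, p4, p5⟩ := hw
    refine ⟨?_, ?_, ?_, ?_, fun y hy => ?_⟩
    · rw [hπ, Equiv.Perm.mul_apply, Equiv.swap_apply_of_ne_of_ne (by omega) (by omega), p1]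
    · rw [hπ, Equiv.Perm.mul_apply, Equiv.swap_apply_of_ne_of_ne (by omega) (by omega), p2]
    · rw [hπ, Equiv.Perm.mul_apply, Equiv.swap_apply_left, p4]
    · rw [hπ, Equiv.Perm.mul_apply, Equiv.swap_apply_right, p3]
    · rw [hπ, Equiv.Perm.mul_apply, Equiv.swap_apply_of_ne_of_ne (by omega) (by omega), p5 y hy]
  have hw' : w = π * Equiv.swap ((n : ℤ) - j) ((n : ℤ) - j + 1) := by
    rw [hπ, mul_assoc, Equiv.swap_mul_self, mul_one]
  have hQ : v3c_Pat n j (π * Equiv.swap ((n : ℤ) - j - 1 - 1) ((n : ℤ) - j - 1)) 1 0 2 3 := by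
    obtain ⟨p1, p2, p3, p4, p5⟩ := hP
    have e : (n : ℤ) - j - 1 - 1 = n - j - 2 := by ring
    rw [e]
    refine ⟨?_, ?_, ?_, ?_, fun y hy => ?_⟩
    · rw [Equiv.Perm.mul_apply, Equiv.swap_apply_left, p2]
    · rw [Equiv.Perm.mul_apply, Equiv.swap_apply_right, p1]
    · rw [Equiv.Perm.mul_apply, Equiv.swap_apply_of_ne_of_ne (by omega) (by omega), p3]
    · rw [Equiv.Perm.mul_apply, Equiv.swap_apply_of_ne_of_ne (by omega) (by omega), p4]
    · rw [Equiv.Perm.mul_apply, Equiv.swap_apply_of_ne_of_ne (by omega) (by omega), p5 y hy]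
  have hv := v3c_val hP
  have hS : Supp π (-(NN n : ℤ) - n - 5 + 4) ((n : ℤ) + 5 - 3) := fun x hx =>
    v3c_supp (by omega) (by omega) hP x (by omega)
  have hh := hH (-(NN n : ℤ) - n - 5) (n + 5) 0 (NN n - 5)
  have p1 : π ((n : ℤ) - j - 1 - 1) = j + 0 := by rw [← hP.1]; congr 1; ring
  have p2 : π ((n : ℤ) - j - 1) = j + 1 := hP.2.1
  have p3 : π ((n : ℤ) - j) = j + 2 := hP.2.2.1
  have p3' : π ((n : ℤ) - j - 1 + 1) = j + 2 := by rw [sub_add_cancel, p3]
  have p4 : π ((n : ℤ) - j + 1) = j + 3 := hP.2.2.2.1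
  have s1 := v3c_harm hh (r := (n : ℤ) - j) hS (by omega) (by omega) (by omega) (by omega)
    (fun s hs => by have := hv s; omega) (fun s hs => by have := hv s; omega)
  have s2 := v3c_harm hh (r := (n : ℤ) - j - 1) hS (by omega) (by omega) (by omega) (by omega)
    (fun s hs => by have := hv s; omega) (fun s hs => by have := hv s; omega)
  rw [sub_add_cancel] at s2
  rw [hff w (v3c_supp (by omega) (by omega) hw), hw', s1, s2,
    ← hff _ (v3c_supp (by omega) (by omega) hQ)]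
  exact v3c_base1 hD n j h1 h2 _ hQ

theorem v3c_V3c (hT : SpTr) (hH : SpHarm) (hD : SpDom) : SpV3c := by
  intro n j h1 h2
  have b1 := v3c_base1 hD n j h1 h2
  have b2 := v3c_base2 hT hH hD n j h1 h2
  have a1 : (1 : ℤ) ≤ j := by omega
  have a2 : (j : ℤ) + 3 ≤ n := by omega
  have e0 : Dn n (j : ℤ) = Dn n ((j : ℤ) + 0) := by rw [add_zero]
  have e2 : Dn n ((j : ℤ) + 1 + 1) = Dn n ((j : ℤ) + 2) := by rw [add_assoc]; rfl
  have hs : ∀ a x : ℤ, sw a x = if x = a then a + 1 else if x = a + 1 then a else x := r11_sw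
  refine ⟨?_, ?_, ?_, ?_⟩
  · simp only [bb, mul_assoc]
    rw [e0, e2]
    refine (?_ : v3c_Val n j _ _ 3 2 1 0) _ (v3c_w0 a1 a2)
    refine v3c_step a1 a2 1 3 2 1 0 3 1 2 0 (by omega) (by simp [hs]) (by omega) ?_
    refine v3c_step a1 a2 2 3 1 2 0 2 1 3 0 (by omega) (by simp [hs]) (by omega) ?_
    refine v3c_step a1 a2 1 2 1 3 0 1 2 3 0 (by omega) (by simp [hs]) (by omega) ?_
    refine v3c_step a1 a2 0 1 2 3 0 0 2 3 1 (by omega) (by simp [hs]) (by omega) ?_
    exact v3c_step a1 a2 1 0 2 3 1 0 1 3 2 (by omega) (by simp [hs]) (by omega) b2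
  · simp only [bb, mul_assoc]
    rw [e0, e2]
    refine (?_ : v3c_Val n j _ _ 3 2 1 0) _ (v3c_w0 a1 a2)
    refine v3c_step a1 a2 1 3 2 1 0 3 1 2 0 (by omega) (by simp [hs]) (by omega) ?_
    refine v3c_step a1 a2 0 3 1 2 0 3 0 2 1 (by omega) (by simp [hs]) (by omega) ?_
    refine v3c_step a1 a2 1 3 0 2 1 3 0 1 2 (by omega) (by simp [hs]) (by omega) ?_
    refine v3c_step a1 a2 2 3 0 1 2 2 0 1 3 (by omega) (by simp [hs]) (by omega) ?_
    exact v3c_step a1 a2 1 2 0 1 3 1 0 2 3 (by omega) (by simp [hs]) (by omega) b1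
  · simp only [bb, mul_assoc]
    rw [e0]
    refine (?_ : v3c_Val n j _ _ 3 2 1 0) _ (v3c_w0 a1 a2)
    refine v3c_step a1 a2 0 3 2 1 0 3 2 0 1 (by omega) (by simp [hs]) (by omega) ?_
    refine v3c_step a1 a2 1 3 2 0 1 3 1 0 2 (by omega) (by simp [hs]) (by omega) ?_
    refine v3c_step a1 a2 0 3 1 0 2 3 0 1 2 (by omega) (by simp [hs]) (by omega) ?_
    refine v3c_step a1 a2 2 3 0 1 2 2 0 1 3 (by omega) (by simp [hs]) (by omega) ?_
    exact v3c_step a1 a2 1 2 0 1 3 1 0 2 3 (by omega) (by simp [hs]) (by omega) b1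
  · simp only [bb, mul_assoc]
    rw [e0]
    refine (?_ : v3c_Val n j _ _ 3 2 1 0) _ (v3c_w0 a1 a2)
    refine v3c_step a1 a2 1 3 2 1 0 3 1 2 0 (by omega) (by simp [hs]) (by omega) ?_
    refine v3c_step a1 a2 2 3 1 2 0 2 1 3 0 (by omega) (by simp [hs]) (by omega) ?_
    refine v3c_step a1 a2 0 2 1 3 0 2 0 3 1 (by omega) (by simp [hs]) (by omega) ?_
    refine v3c_step a1 a2 1 2 0 3 1 1 0 3 2 (by omega) (by simp [hs]) (by omega) ?_
    exact v3c_step a1 a2 0 1 0 3 2 0 1 3 2 (by omega) (by simp [hs]) (by omega) b2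

end Pool.Agent.MP_a5ded6_pr.POIS
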