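import Pool.Agent.MP_a5ded6_pr.POIS.Spec2
import Pool.Agent.MP_a5ded6_pr.POIS.R11

set_option autoImplicit false

namespace Pool.Agent.MP_a5ded6_pr.POIS

open Finset

/-- one use of harmonicity: a unique right cover and a unique left cover -/
theorem v3d_harm {lo hi : ℤ} {f : Fn} (h : Harm lo hi f) {π : Pm} {r s q : ℤ}
    (hπ : Supp π (lo + 4) (hi - 3)) (h1 : lo + 4 ≤ r) (h2 : r ≤ hi - 3)
    (hs : s ∈ Icc lo (hi + 1)) (hq : q ∈ Icc lo (hi + 1))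
    (us : ∀ x, Cover π r x ↔ x = s) (uq : ∀ x, Cover π x r ↔ x = q) :
    f (π * Equiv.swap r s) = f (π * Equiv.swap q r) := by
  classical
  have := h π r hπ h1 h2
  unfold Xf at this
  simp only [us, uq] at this
  rw [filter_eq' , filter_eq', if_pos hs, if_pos hq, sum_singleton, sum_singleton] at this
  linarith

/-- `w` agrees with the reversal outside a block of five positions, where it is given by `l` -/
def v3d_Lc (n : ℕ) (a : ℤ) (w : Pm) (l : Fin 5 → ℤ) : Prop :=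
  (∀ x, x < n - a - 3 ∨ n + 1 - a < x → w x = w0 n x) ∧
    ∀ t : Fin 5, w (n - a - 3 + (t : ℕ)) = a + l t

def v3d_s (k x : ℤ) : ℤ := if x = k then k + 1 else if x = k + 1 then k else x

def v3d_wk : List ℤ → (Fin 5 → ℤ) → (Fin 5 → ℤ)
  | [], l => l
  | k :: v, l => v3d_wk v (fun t => v3d_s k (l t))

def v3d_ok : List ℤ → (Fin 5 → ℤ) → Bool
  | [], _ => true
  | k :: v, l => decide (0 ≤ k ∧ k ≤ 3 ∧ ∃ x y : Fin 5, x < y ∧ l x = k + 1 ∧ l y = k) &&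
      v3d_ok v (fun t => v3d_s k (l t))

theorem v3d_blk {n : ℕ} {a x : ℤ} (h1 : n - a - 3 ≤ x) (h2 : x ≤ n + 1 - a) :
    ∃ t : Fin 5, x = n - a - 3 + (t : ℕ) :=
  ⟨⟨(x - (n - a - 3)).toNat, by omega⟩, by simp only; omega⟩

theorem v3d_uniq {n : ℕ} {a : ℤ} {w w' : Pm} {l l' : Fin 5 → ℤ} (h : v3d_Lc n a w l)
    (h' : v3d_Lc n a w' l') (e : ∀ t, l t = l' t) : w = w' := by
  ext x
  by_cases hx : x < n - a - 3 ∨ n + 1 - a < x
  · rw [h.1 x hx, h'.1 x hx]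
  · obtain ⟨t, rfl⟩ := v3d_blk (n := n) (a := a) (x := x) (by omega) (by omega)
    rw [h.2, h'.2, e]

theorem v3d_supp {n : ℕ} {a : ℤ} {w : Pm} {l : Fin 5 → ℤ} (h : v3d_Lc n a w l)
    (ha : 1 ≤ a) (hn : a + 4 ≤ n) : Supp w 1 n := fun x hx => by
  rw [h.1 x (by omega), r11_supp0 n x hx]

theorem v3d_base {n : ℕ} {a : ℤ} (ha : 1 ≤ a) (hn : a + 4 ≤ n) :
    v3d_Lc n a (w0 n) (fun t => 4 - ((t : ℕ) : ℤ)) := by
  refine ⟨fun _ _ => rfl, fun t => ?_⟩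
  have := t.2
  rw [r11_w0, if_pos (by omega)]
  beta_reduce
  omega

theorem v3d_walk {n : ℕ} {a : ℤ} (ha : 1 ≤ a) (hn : a + 4 ≤ n) (G : Fn) :
    ∀ (v : List ℤ) (w : Pm) (l : Fin 5 → ℤ), v3d_Lc n a w l → v3d_ok v l = true →
      ∃ u, v3d_Lc n a u (v3d_wk v l) ∧ Dw (Dn n) (v.map (fun k => a + k)) G w = G u
  | [], w, _, h, _ => ⟨w, h, rfl⟩
  | k :: v, w, l, h, ho => by
    rw [v3d_ok, Bool.and_eq_true, decide_eq_true_eq] at ho
    obtain ⟨⟨k0, k3, x, y, hxy, hx, hy⟩, ho⟩ := ho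
    have hd : Desc (a + k) w := by
      have e1 : w⁻¹ (a + k + 1) = n - a - 3 + (x : ℕ) := by
        rw [Equiv.Perm.inv_eq_iff_eq, h.2, hx]; ring
      have e2 : w⁻¹ (a + k) = n - a - 3 + (y : ℕ) := by
        rw [Equiv.Perm.inv_eq_iff_eq, h.2, hy]
      unfold Desc
      rw [e1, e2]
      have : (x : ℕ) < (y : ℕ) := hxy
      omega
    have hl : v3d_Lc n a (sw (a + k) * w) (fun t => v3d_s k (l t)) := by
      refine ⟨fun z hz => ?_, fun t => ?_⟩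
      · rw [Equiv.Perm.mul_apply, h.1 z hz, r11_sw, r11_w0]
        split_ifs <;> omega
      · rw [Equiv.Perm.mul_apply, h.2, r11_sw]
        beta_reduce
        unfold v3d_s
        split_ifs <;> omega
    obtain ⟨u, u1, u2⟩ := v3d_walk ha hn G v _ _ hl ho
    refine ⟨u, u1, ?_⟩
    have e : Dw (Dn n) ((k :: v).map (fun k => a + k)) G w =
        Dtr 1 (n - 1) (a + k) (Dw (Dn n) (v.map (fun k => a + k)) G) w := rfl
    rw [e, Dtr, if_pos (by omega), ← u2]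
    show (if Desc (a + k) w then _ else 0) = _
    rw [if_pos hd]

theorem v3d_swap {n : ℕ} {a : ℤ} {w : Pm} {l : Fin 5 → ℤ} (h : v3d_Lc n a w l) (r s : Fin 5) :
    v3d_Lc n a (w * Equiv.swap (n - a - 3 + (r : ℕ)) (n - a - 3 + (s : ℕ)))
      (fun t => if t = r then l s else if t = s then l r else l t) := by
  have hr := r.2
  have hs := s.2
  refine ⟨fun z hz => ?_, fun t => ?_⟩
  · rw [Equiv.Perm.mul_apply, Equiv.swap_apply_of_ne_of_ne (by omega) (by omega), h.1 z hz]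
  · rw [Equiv.Perm.mul_apply]
    by_cases e1 : t = r
    · subst e1
      rw [Equiv.swap_apply_left, h.2]; simp
    · by_cases e2 : t = s
      · subst e2
        rw [Equiv.swap_apply_right, h.2]; simp [e1]
      · have e1' : (t : ℕ) ≠ r := fun e => e1 (Fin.ext e)
        have e2' : (t : ℕ) ≠ s := fun e => e2 (Fin.ext e)
        rw [Equiv.swap_apply_of_ne_of_ne (by omega) (by omega), h.2]; simp [e1, e2]

theorem v3d_right {n : ℕ} {a : ℤ} {π : Pm} {l : Fin 5 → ℤ} (h : v3d_Lc n a π l)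
    (_ha : 1 ≤ a) (hn : a + 4 ≤ n) (hb : ∀ t, 0 ≤ l t ∧ l t ≤ 4) (r s : Fin 5) (hrs : r < s)
    (hv : l r < l s) (hc : ∀ c, r < c → c < s → ¬ (l r < l c ∧ l c < l s))
    (hu : ∀ t, r < t → t ≠ s → l r < l t → ∃ c, r < c ∧ c < t ∧ l r < l c ∧ l c < l t) (x : ℤ) :
    Cover π (n - a - 3 + (r : ℕ)) x ↔ x = n - a - 3 + (s : ℕ) := by
  have hr := r.2
  have hs := s.2
  have hrs' : (r : ℕ) < s := hrs
  have br := hb r
  have bs := hb s
  constructor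
  · rintro ⟨c1, c2, c3⟩
    by_cases hx : n + 1 - a < x
    · exfalso
      have c4 := c3 (n - a - 3 + (s : ℕ)) (by omega) (by omega)
      rw [h.2, h.1 x (Or.inr hx), r11_w0] at c2
      rw [h.2, h.2, h.1 x (Or.inr hx), r11_w0] at c4
      split_ifs at c2 c4 <;> omega
    · obtain ⟨t, rfl⟩ := v3d_blk (n := n) (a := a) (x := x) (by omega) (by omega)
      by_contra hne
      rw [h.2, h.2] at c2
      obtain ⟨c, d1, d2, d3, d4⟩ := hu t (show (r : ℕ) < t by omega)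
        (fun e => hne (by rw [e])) (by omega)
      have d1' : (r : ℕ) < c := d1
      have d2' : (c : ℕ) < t := d2
      refine c3 (n - a - 3 + (c : ℕ)) (by omega) (by omega) ?_
      rw [h.2, h.2, h.2]
      omega
  · rintro rfl
    refine ⟨by omega, by rw [h.2, h.2]; omega, fun c c1 c2 => ?_⟩
    obtain ⟨t, rfl⟩ := v3d_blk (n := n) (a := a) (x := c) (by omega) (by omega)
    have := hc t (show (r : ℕ) < t by omega) (show (t : ℕ) < s by omega)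
    rw [h.2, h.2, h.2]
    omega

theorem v3d_left {n : ℕ} {a : ℤ} {π : Pm} {l : Fin 5 → ℤ} (h : v3d_Lc n a π l)
    (ha : 1 ≤ a) (hn : a + 4 ≤ n) (hb : ∀ t, 0 ≤ l t ∧ l t ≤ 4) (q r : Fin 5) (hqr : q < r)
    (hv : l q < l r) (hc : ∀ c, q < c → c < r → ¬ (l q < l c ∧ l c < l r))
    (hu : ∀ t, t < r → t ≠ q → l t < l r → ∃ c, t < c ∧ c < r ∧ l t < l c ∧ l c < l r) (x : ℤ) :
    Cover π x (n - a - 3 + (r : ℕ)) ↔ x = n - a - 3 + (q : ℕ) := by
  have hr := r.2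
  have hq := q.2
  have hqr' : (q : ℕ) < r := hqr
  have br := hb r
  have bq := hb q
  constructor
  · rintro ⟨c1, c2, c3⟩
    by_cases hx : x < n - a - 3
    · exfalso
      have c4 := c3 (n - a - 3 + (q : ℕ)) (by omega) (by omega)
      rw [h.2, h.1 x (Or.inl hx), r11_w0] at c2
      rw [h.2, h.2, h.1 x (Or.inl hx), r11_w0] at c4
      split_ifs at c2 c4 <;> omega
    · obtain ⟨t, rfl⟩ := v3d_blk (n := n) (a := a) (x := x) (by omega) (by omega)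
      by_contra hne
      rw [h.2, h.2] at c2
      obtain ⟨c, d1, d2, d3, d4⟩ := hu t (show (t : ℕ) < r by omega)
        (fun e => hne (by rw [e])) (by omega)
      have d1' : (t : ℕ) < c := d1
      have d2' : (c : ℕ) < r := d2
      refine c3 (n - a - 3 + (c : ℕ)) (by omega) (by omega) ?_
      rw [h.2, h.2, h.2]
      omega
  · rintro rfl
    refine ⟨by omega, by rw [h.2, h.2]; omega, fun c c1 c2 => ?_⟩
    obtain ⟨t, rfl⟩ := v3d_blk (n := n) (a := a) (x := c) (by omega) (by omega)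
    have := hc t (show (q : ℕ) < t by omega) (show (t : ℕ) < r by omega)
    rw [h.2, h.2, h.2]
    omega

/-- the local check for one pair of words -/
def v3d_chk (v v' : List ℤ) (l : Fin 5 → ℤ) (q r s : Fin 5) : Prop :=
  v3d_ok v (fun t => 4 - ((t : ℕ) : ℤ)) = true ∧ v3d_ok v' (fun t => 4 - ((t : ℕ) : ℤ)) = true ∧
  (∀ t, v3d_wk v (fun t => 4 - ((t : ℕ) : ℤ)) t =
    if t = r then l s else if t = s then l r else l t) ∧
  (∀ t, v3d_wk v' (fun t => 4 - ((t : ℕ) : ℤ)) t =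
    if t = q then l r else if t = r then l q else l t) ∧
  (∀ t, 0 ≤ l t ∧ l t ≤ 4) ∧ q < r ∧ r < s ∧ l q < l r ∧ l r < l s ∧
  (∀ c, r < c → c < s → ¬ (l r < l c ∧ l c < l s)) ∧
  (∀ t, r < t → t ≠ s → l r < l t → ∃ c, r < c ∧ c < t ∧ l r < l c ∧ l c < l t) ∧
  (∀ c, q < c → c < r → ¬ (l q < l c ∧ l c < l r)) ∧
  (∀ t, t < r → t ≠ q → l t < l r → ∃ c, t < c ∧ c < r ∧ l t < l c ∧ l c < l r)

theorem v3d_pair (hT : SpTr) (hH : SpHarm) {n : ℕ} {a : ℤ} (ha : 1 ≤ a) (hn : a + 4 ≤ n) (m : ℕ)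
    {v v' : List ℤ} {l : Fin 5 → ℤ} {q r s : Fin 5} (h : v3d_chk v v' l q r s) :
    ev n (Dw (Dn n) (v.map (fun k => a + k)) * Un n ^ m) =
      ev n (Dw (Dn n) (v'.map (fun k => a + k)) * Un n ^ m) := by
  obtain ⟨o1, o2, e1, e2, hb, hqr, hrs, vq, vs, c1, c2, c3, c4⟩ := h
  have e : ∀ v : List ℤ, ev n (Dw (Dn n) v * Un n ^ m) =
      Dw (Dn n) v (ff 1 (n - 1) 0 m) (w0 n) := fun v => by
    simp only [ff, pow_zero, one_mul]; rfl
  obtain ⟨u, u1, u2⟩ := v3d_walk ha hn (ff 1 (n - 1) 0 m) v _ _ (v3d_base ha hn) o1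
  obtain ⟨u', u1', u2'⟩ := v3d_walk ha hn (ff 1 (n - 1) 0 m) v' _ _ (v3d_base ha hn) o2
  rw [e, e, u2, u2', ← r11_tr1 hT (v3d_supp u1 ha hn), ← r11_tr1 hT (v3d_supp u1' ha hn)]
  have hrs' : r ≠ s := ne_of_lt hrs
  have hπ : v3d_Lc n a (u * Equiv.swap (n - a - 3 + (r : ℕ)) (n - a - 3 + (s : ℕ))) l := by
    have := v3d_swap u1 r s
    refine ⟨this.1, fun t => (this.2 t).trans ?_⟩
    simp only [e1]
    by_cases t1 : t = r
    · subst t1; simp [hrs'.symm]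
    · by_cases t2 : t = s
      · subst t2; simp [t1]
      · simp [t1, t2]
  generalize hp : u * Equiv.swap ((n : ℤ) - a - 3 + (r : ℕ)) (n - a - 3 + (s : ℕ)) = π at hπ
  have hr := r.2
  have hs := s.2
  have hq := q.2
  rw [v3d_uniq u1 (v3d_swap hπ r s) e1, v3d_uniq u1' (v3d_swap hπ q r) e2]
  exact v3d_harm (hH _ _ 0 m) (fun x hx => v3d_supp hπ ha hn x (by omega)) (by omega) (by omega)
    (mem_Icc.2 (by omega)) (mem_Icc.2 (by omega))
    (v3d_right hπ ha hn hb r s hrs vs c1 c2) (v3d_left hπ ha hn hb q r hqr vq c3 c4)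

theorem v3d_c1 : v3d_chk [2, 3, 2, 1, 0] [2, 3, 2, 0, 1] ![0, 3, 4, 1, 2] 0 3 4 := by
  refine ⟨?_, ?_, ?_, ?_, ?_, ?_, ?_, ?_, ?_, ?_, ?_, ?_, ?_⟩ <;> decide

theorem v3d_c2 : v3d_chk [1, 0, 2, 3, 2] [0, 1, 2, 3, 2] ![2, 3, 0, 1, 4] 2 3 4 := by
  refine ⟨?_, ?_, ?_, ?_, ?_, ?_, ?_, ?_, ?_, ?_, ?_, ?_, ?_⟩ <;> decide

theorem v3d_c3 : v3d_chk [0, 1, 0, 3, 2] [0, 1, 0, 2, 3] ![2, 3, 0, 1, 4] 0 1 4 := by
  refine ⟨?_, ?_, ?_, ?_, ?_, ?_, ?_, ?_, ?_, ?_, ?_, ?_, ?_⟩ <;> decide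

theorem v3d_c4 : v3d_chk [3, 2, 0, 1, 0] [2, 3, 0, 1, 0] ![0, 3, 4, 1, 2] 0 1 2 := by
  refine ⟨?_, ?_, ?_, ?_, ?_, ?_, ?_, ?_, ?_, ?_, ?_, ?_, ?_⟩ <;> decide

theorem v3d_ev (n : ℕ) (x y z t U : En) :
    ev n ((x - y - (z - t)) * U) = ev n (x * U) - ev n (y * U) - (ev n (z * U) - ev n (t * U)) := by
  rw [sub_mul, sub_mul, sub_mul]; rfl

theorem v3d_out {n : ℕ} {a : ℤ} (h : ¬ (1 ≤ a ∧ a + 4 ≤ n)) : Dn n a = 0 ∨ Dn n (a + 3) = 0 := by
  by_cases ha : 1 ≤ a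
  · exact Or.inr (if_neg (by omega))
  · exact Or.inl (if_neg (by omega))

theorem v3d_zero (n : ℕ) : ev n 0 = 0 := rfl

theorem v3d_V3d (_h0 : SpNC) (hT : SpTr) (hH : SpHarm) : SpV3d := by
  intro n m i
  constructor
  · obtain ⟨a, rfl⟩ : ∃ a, i = a + 2 := ⟨i - 2, by ring⟩
    rw [show a + 2 - 2 = a by ring]
    by_cases h : 1 ≤ a ∧ a + 4 ≤ n
    · have e : bb (Dn n) (a + 2) * cc (Dn n) a - cc (Dn n) a * bb (Dn n) (a + 2) =
          Dw (Dn n) ([2, 3, 2, 0, 1].map (fun k => a + k)) -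
            Dw (Dn n) ([2, 3, 2, 1, 0].map (fun k => a + k)) -
          (Dw (Dn n) ([0, 1, 2, 3, 2].map (fun k => a + k)) -
            Dw (Dn n) ([1, 0, 2, 3, 2].map (fun k => a + k))) := by
        simp only [bb, cc, Dw, List.map, List.prod_cons, List.prod_nil, add_zero, mul_one,
          show a + 2 + 1 = a + 3 by ring, mul_sub, sub_mul, mul_assoc]
      rw [e, v3d_ev, v3d_pair hT hH h.1 h.2 m v3d_c1, v3d_pair hT hH h.1 h.2 m v3d_c2]
      ring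
    · rcases v3d_out h with h | h <;>
        simp [bb, cc, show a + 2 + 1 = a + 3 by ring, h, v3d_zero]
  · by_cases h : 1 ≤ i ∧ i + 4 ≤ n
    · have e : bb (Dn n) i * cc (Dn n) (i + 2) - cc (Dn n) (i + 2) * bb (Dn n) i =
          Dw (Dn n) ([0, 1, 0, 2, 3].map (fun k => i + k)) -
            Dw (Dn n) ([0, 1, 0, 3, 2].map (fun k => i + k)) -
          (Dw (Dn n) ([2, 3, 0, 1, 0].map (fun k => i + k)) -
            Dw (Dn n) ([3, 2, 0, 1, 0].map (fun k => i + k))) := by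
        simp only [bb, cc, Dw, List.map, List.prod_cons, List.prod_nil, add_zero, mul_one,
          show i + 2 + 1 = i + 3 by ring, mul_sub, sub_mul, mul_assoc]
      rw [e, v3d_ev, v3d_pair hT hH h.1 h.2 m v3d_c3, v3d_pair hT hH h.1 h.2 m v3d_c4]
      ring
    · rcases v3d_out h with h | h <;>
        simp [bb, cc, show i + 2 + 1 = i + 3 by ring, h, v3d_zero]

end Pool.Agent.MP_a5ded6_pr.POIS
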