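import Pool.Agent.MP_a5ded6_pr.POIS.Spec2
import Pool.Agent.MP_a5ded6_pr.POIS.R9
import Pool.Agent.MP_a5ded6_pr.POIS.R10
import Pool.Agent.MP_a5ded6_pr.POIS.R11

set_option autoImplicit false

namespace Pool.Agent.MP_a5ded6_pr.POIS

open Finset

theorem v4a_Wf (h0 : SpNC) (h1 : SpA1) (h2 : SpGr) : SpWf := by
  intro n m g hg
  obtain ⟨-, a2, a3⟩ := h1 (Dtr (-(n : ℤ)) n) (-(n : ℤ)) n (h0 _ _)
  have hL := r9_L h0 h1 h2 n (-(n : ℤ)) n
  have hU := r9_AgU h2 n (-(n : ℤ)) n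
  unfold ff
  rw [← a3, pow_one, pow_zero, one_mul]
  generalize UU (Dtr (-(n : ℤ)) n) (-(n : ℤ)) n = U at *
  generalize VV (Dtr (-(n : ℤ)) n) (-(n : ℤ)) n = V at *
  generalize P3 (Dtr (-(n : ℤ)) n) (-(n : ℤ)) n = P at *
  have i1 := hU _ _ (hL (m + 1)) g hg
  have i2 := hL (m + 2) g hg
  rw [← Module.End.mul_apply, ← Module.End.mul_apply U, mul_add, r9_UP U P a2] at i1
  have key : (V * U - U * V) * U ^ (m + 1) = V * U ^ (m + 2) - U * (V * U ^ (m + 1)) := by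
    rw [pow_succ' U (m + 1)]
    simp only [sub_mul, mul_assoc]
  rw [key]
  simp only [LinearMap.add_apply, LinearMap.sub_apply, LinearMap.smul_apply, Pi.add_apply,
    Pi.sub_apply, Pi.smul_apply, smul_eq_mul, mul_smul_comm, ← pow_succ'] at i1 i2 ⊢
  have e1 : m + 1 + 1 - 2 = m := by omega
  have e2 : m + 2 - 2 = m := by omega
  rw [e1] at i1
  rw [e2] at i2
  rw [i1, i2, Nat.cast_choose_two, Nat.cast_choose_two]
  push_cast
  ring

/-- operators that keep agreement on Grassmannian permutations -/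
def v4a_Pres (n : ℕ) (x : En) : Prop := ∀ f f', r9_Ag n f f' → r9_Ag n (x f) (x f')

theorem v4a_D (h2 : SpGr) (n : ℕ) (lo hi i : ℤ) : v4a_Pres n (Dtr lo hi i) := by
  intro f f' ha h hg
  rw [r9_D_apply, r9_D_apply]
  split_ifs with h1 hd
  · exact ha _ ((h2 n h hg).2.2.2.2 i hd).1
  · rfl
  · rfl

theorem v4a_mul {n : ℕ} {x y : En} (hx : v4a_Pres n x) (hy : v4a_Pres n y) :
    v4a_Pres n (x * y) := fun f f' ha => hx _ _ (hy f f' ha)

theorem v4a_sub {n : ℕ} {x y : En} (hx : v4a_Pres n x) (hy : v4a_Pres n y) :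
    v4a_Pres n (x - y) := by
  intro f f' ha h hg
  simp only [LinearMap.sub_apply, Pi.sub_apply]
  rw [hx f f' ha h hg, hy f f' ha h hg]

theorem v4a_sum {n : ℕ} (s : Finset ℤ) (x : ℤ → En) (hx : ∀ i, v4a_Pres n (x i)) :
    v4a_Pres n (∑ i ∈ s, x i) := by
  intro f f' ha h hg
  rw [LinearMap.sum_apply, LinearMap.sum_apply, Finset.sum_apply, Finset.sum_apply]
  exact Finset.sum_congr rfl fun i _ => hx i f f' ha h hg

theorem v4a_P3 (h2 : SpGr) (n : ℕ) (lo hi : ℤ) : v4a_Pres n (P3 (Dtr lo hi) lo hi) := by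
  have hD := v4a_D h2 n lo hi
  have hc : ∀ i, v4a_Pres n (cc (Dtr lo hi) i) := fun i =>
    v4a_sub (v4a_mul (hD _) (hD _)) (v4a_mul (hD _) (hD _))
  unfold P3 Ds Bs
  refine v4a_sub (v4a_sum _ _ fun i => ?_) (v4a_sum _ _ fun i => ?_)
  · exact v4a_sub (v4a_mul (hc _) (hD _)) (v4a_mul (hD _) (hc _))
  · exact v4a_mul (v4a_mul (hD _) (hD _)) (hD _)

theorem v4a_six {n : ℕ} (hn : 4 ≤ n) : 6 ≤ NN n := by
  unfold NN
  have : 4 * 3 ≤ n * (n - 1) := Nat.mul_le_mul hn (by omega)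
  omega

theorem v4c_V4 (h0 : SpNC) (hT : SpTr) (hH : SpHarm) (h2 : SpP2) (hg : SpGr) (hC : SpCont)
    (hc : SpCount) (hw : SpWf) (hb : SpV4b) : SpV4 := by
  intro n hn
  obtain ⟨g0, hg0, hR, hf⟩ := r11_g0 hT hH h2 hc n
  obtain ⟨m, hm⟩ : ∃ m, NN n = m + 6 := ⟨NN n - 6, by have := v4a_six hn; omega⟩
  have e6 : NN n - 6 = m := by omega
  have e5 : NN n - 5 = m + 1 := by omega
  have e3 : NN n - 3 = m + 3 := by omega
  have eN : (NN n : ℝ) = (m : ℝ) + 6 := by rw [hm]; push_cast; ring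
  have q2 : ev n (Pn n ^ 2 * Un n ^ (NN n - 6)) = ff (-(n : ℤ)) n 2 m g0 := by
    rw [← hf, e6]; rfl
  have q1 : ev n (Pn n * Un n ^ (NN n - 3)) = ff (-(n : ℤ)) n 1 (m + 3) g0 := by
    rw [← hf, e3]
    unfold ff
    rw [pow_one]; rfl
  rw [q2, q1]
  constructor
  · have b := hb n g0 hn hg0
    rw [e5, mul_assoc, Module.End.mul_apply] at b
    have a := v4a_P3 hg n (-(n : ℤ)) n
      ((WW (Dtr (-(n : ℤ)) n) (-(n : ℤ)) n (-1 / 2) *
        UU (Dtr (-(n : ℤ)) n) (-(n : ℤ)) n ^ (m + 1)) delta)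
      ((1 / 2 : ℝ) • ff (-(n : ℤ)) n 0 (m + 3) + ((m : ℝ) + 1) • ff (-(n : ℤ)) n 1 m)
      (fun h hh => by
        rw [hw n m h hh]
        simp only [Pi.add_apply, Pi.smul_apply, smul_eq_mul]) g0 hg0.1
    rw [b] at a
    simp only [ff, map_add, map_smul, pow_succ (P3 _ _ _), pow_zero, one_mul,
      Module.End.mul_apply, Pi.add_apply, Pi.smul_apply, smul_eq_mul] at a ⊢
    rw [a, eN]
    ring
  · have u := hC n (m + 3) g0 hg0.1 (by rw [r10_size hg0, hm]; push_cast; ring)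
    have c := r10_C2 hg (by omega) hg0
    have c' : C2 n g0 = (NN n : ℝ) * (NN n - 1) / 3 := by
      have : |C2 n g0 - (NN n : ℝ) * (NN n - 1) / 3| ≤ 0 := by simpa using c
      linarith [abs_nonpos_iff.1 this]
    rw [r10_ch3, Nat.cast_choose_two, c', eN] at u
    rw [hR, eN, hm]
    have e : m + 3 + 3 = m + 6 := by omega
    rw [e] at u
    push_cast at u
    have hp : (0 : ℝ) < ((m : ℝ) + 6) * ((m : ℝ) + 5) := by positivity
    apply mul_left_cancel₀ hp.ne'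
    linarith

end Pool.Agent.MP_a5ded6_pr.POIS
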