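import Pool.Agent.MP_a5ded6_pr.POIS.Spec2
import Pool.Agent.MP_a5ded6_pr.POIS.R9
import Pool.Agent.MP_a5ded6_pr.POIS.R10

set_option autoImplicit false

namespace Pool.Agent.MP_a5ded6_pr.POIS

open Finset

/-- the set of occupied places is described by `P` -/
def v4b_At (n : ℕ) (g : Pm) (P : ℤ → Prop) : Prop :=
  Grass n g ∧ ∀ x, (∃ j : ℕ, g (-(j : ℤ)) = x) ↔ P x

theorem v4b_swv (i v : ℤ) : (v = i + 1 ∧ sw i v = i) ∨ (v = i ∧ sw i v = i + 1) ∨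
    (v ≠ i ∧ v ≠ i + 1 ∧ sw i v = v) := by
  rw [r9_sw_apply]
  split_ifs <;> omega

theorem v4b_desc (hg : SpGr) {n : ℕ} {g : Pm} {P : ℤ → Prop} (h : v4b_At n g P) (i : ℤ) :
    Desc i g ↔ P (i + 1) ∧ ¬ P i := by
  rw [(hg n g h.1).2.2.2.1 i, ← h.2, ← h.2]
  constructor
  · rintro ⟨⟨j, -, hj⟩, hk⟩
    exact ⟨⟨j, hj⟩, fun ⟨k, e⟩ => hk k e⟩
  · rintro ⟨⟨j, hj⟩, hk⟩
    refine ⟨⟨j, ?_, hj⟩, fun k e => hk ⟨k, e⟩⟩
    by_contra hc
    have a := h.1.1 (-(j : ℤ)) (Or.inl (by omega))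
    have b := h.1.1 (-((j + 1 : ℕ) : ℤ)) (Or.inl (by omega))
    exact hk ⟨j + 1, by omega⟩

theorem v4b_zero (hg : SpGr) {n : ℕ} {g : Pm} {P : ℤ → Prop} (h : v4b_At n g P) (i : ℤ)
    (hi : ¬ (P (i + 1) ∧ ¬ P i)) (f : Fn) : Dtr (-(n : ℤ)) n i f g = 0 := by
  rw [r9_D_apply, if_neg (fun hd => hi ((v4b_desc hg h i).1 hd)), ite_self]

theorem v4b_step (hg : SpGr) {n : ℕ} {g : Pm} {P : ℤ → Prop} (h : v4b_At n g P) (i : ℤ)
    (hi : P (i + 1) ∧ ¬ P i) : (∀ f : Fn, Dtr (-(n : ℤ)) n i f g = f (sw i * g)) ∧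
      v4b_At n (sw i * g) (fun x => x = i ∨ (x ≠ i + 1 ∧ P x)) := by
  have hd := (v4b_desc hg h i).2 hi
  obtain ⟨a, b, c, -⟩ := (hg n g h.1).2.2.2.2 i hd
  refine ⟨fun f => by rw [r9_D_apply, if_pos ⟨by omega, by omega⟩, if_pos hd], a, fun x => ?_⟩
  constructor
  · rintro ⟨j, hj⟩
    rw [Equiv.Perm.mul_apply] at hj
    have hp := (h.2 _).1 ⟨j, rfl⟩
    rcases v4b_swv i (g (-(j : ℤ))) with e | e | e
    · exact Or.inl (by omega)
    · exact absurd (e.1 ▸ hp) hi.2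
    · exact Or.inr ⟨by omega, (show g (-(j : ℤ)) = x by omega) ▸ hp⟩
  · rintro (e | ⟨e, hp⟩)
    · obtain ⟨j, hj⟩ := (h.2 _).2 hi.1
      refine ⟨j, ?_⟩
      rw [Equiv.Perm.mul_apply]
      have := v4b_swv i (g (-(j : ℤ)))
      omega
    · obtain ⟨j, hj⟩ := (h.2 _).2 hp
      refine ⟨j, ?_⟩
      rw [Equiv.Perm.mul_apply]
      have := v4b_swv i (g (-(j : ℤ)))
      have : x ≠ i := fun e => hi.2 (e ▸ hp)
      omega

theorem v4b_mono {n : ℕ} {g : Pm} {P Q : ℤ → Prop} (h : v4b_At n g P) (e : ∀ x, P x ↔ Q x) :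
    v4b_At n g Q := ⟨h.1, fun x => (h.2 x).trans (e x)⟩

/-- occupied places of the staircase -/
def v4b_P0 (n : ℕ) (x : ℤ) : Prop := x ≤ -(n : ℤ) + 1 ∨ (x ≤ (n : ℤ) - 1 ∧ (x + n) % 2 = 1)

theorem v4b_at0 {n : ℕ} (h1 : 1 ≤ n) {g : Pm} (h : Near n 0 g) : v4b_At n g (v4b_P0 n) := by
  refine ⟨h.1, fun x => ⟨?_, fun hx => ?_⟩⟩
  · rintro ⟨j, hj⟩
    unfold v4b_P0
    by_cases hn : j < n
    · have := r10_zero h j hn
      omega
    · have := h.1.1 (-(j : ℤ)) (Or.inl (by omega))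
      omega
  · unfold v4b_P0 at hx
    by_cases hn : x < -(n : ℤ) + 1
    · refine ⟨(-x).toNat, ?_⟩
      have := h.1.1 (-((-x).toNat : ℤ)) (Or.inl (by omega))
      omega
    · obtain ⟨j, hj⟩ : ∃ j : ℕ, (j : ℤ) = ((n : ℤ) - 1 - x) / 2 :=
        ⟨_, Int.toNat_of_nonneg (by omega)⟩
      have := r10_zero h j (by omega)
      exact ⟨j, by omega⟩

/-- a word of two letters that dies -/
theorem v4b_two0 (hg : SpGr) {n : ℕ} {g : Pm} {P : ℤ → Prop} (h : v4b_At n g P) (a b : ℤ)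
    (hab : P (a + 1) → ¬ P a → ¬ ((b + 1 = a ∨ (b + 1 ≠ a + 1 ∧ P (b + 1))) ∧
      ¬ (b = a ∨ (b ≠ a + 1 ∧ P b)))) (f : Fn) :
    Dtr (-(n : ℤ)) n a (Dtr (-(n : ℤ)) n b f) g = 0 := by
  by_cases ha : P (a + 1) ∧ ¬ P a
  · obtain ⟨e, h'⟩ := v4b_step hg h a ha
    rw [e, v4b_zero hg h' b (hab ha.1 ha.2)]
  · exact v4b_zero hg h a ha _

/-- occupied places after the removal of the hook with three cells -/
def v4b_P1 (n : ℕ) (y x : ℤ) : Prop := x = y ∨ (x ≠ y + 3 ∧ v4b_P0 n x)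

theorem v4b_hook (hg : SpGr) {n : ℕ} {g : Pm} (h : v4b_At n g (v4b_P0 n)) (y : ℤ)
    (hy : (y + n) % 2 = 0 ∧ -(n : ℤ) + 2 ≤ y ∧ y ≤ (n : ℤ) - 4) :
    (∀ f : Fn, Dtr (-(n : ℤ)) n (y + 2) (Dtr (-(n : ℤ)) n y (Dtr (-(n : ℤ)) n (y + 1) f)) g =
      f (sw (y + 1) * (sw y * (sw (y + 2) * g)))) ∧
    v4b_At n (sw (y + 1) * (sw y * (sw (y + 2) * g))) (v4b_P1 n y) := by
  obtain ⟨e1, h1⟩ := v4b_step hg h (y + 2) (by unfold v4b_P0; omega)
  obtain ⟨e2, h2⟩ := v4b_step hg h1 y (by unfold v4b_P0; omega)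
  obtain ⟨e3, h3⟩ := v4b_step hg h2 (y + 1) (by unfold v4b_P0; omega)
  refine ⟨fun f => by rw [e1, e2, e3], v4b_mono h3 fun x => ?_⟩
  unfold v4b_P1 v4b_P0
  omega

theorem v4b_dd (hg : SpGr) {n : ℕ} {g : Pm} (h : v4b_At n g (v4b_P0 n)) (y : ℤ) (f : Fn) :
    dd (Dtr (-(n : ℤ)) n) y f g =
      if (y + n) % 2 = 0 ∧ -(n : ℤ) + 2 ≤ y ∧ y ≤ (n : ℤ) - 4 then
        - f (sw (y + 1) * (sw y * (sw (y + 2) * g))) else 0 := by
  unfold dd cc
  simp only [sub_mul, mul_sub, LinearMap.sub_apply, Pi.sub_apply, Module.End.mul_apply]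
  rw [v4b_two0 hg h y (y + 1) (by unfold v4b_P0; omega),
    v4b_two0 hg h (y + 1) y (by unfold v4b_P0; omega),
    v4b_two0 hg h (y + 2) (y + 1) (by unfold v4b_P0; omega)]
  split_ifs with hy
  · rw [(v4b_hook hg h y hy).1]
    ring
  · rw [v4b_two0 hg h (y + 2) y (by unfold v4b_P0; omega)]
    ring

theorem v4b_P3 (hg : SpGr) {n : ℕ} {g : Pm} (h : v4b_At n g (v4b_P0 n)) (f : Fn) :
    P3 (Dtr (-(n : ℤ)) n) (-(n : ℤ)) n f g = - ∑ t ∈ range (n - 2),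
      f (sw ((n : ℤ) - 4 - 2 * t + 1) * (sw ((n : ℤ) - 4 - 2 * t) *
        (sw ((n : ℤ) - 4 - 2 * t + 2) * g))) := by
  unfold P3
  rw [LinearMap.sub_apply, Pi.sub_apply, r9_Bs n _ _ f g h.1, sub_zero, Ds, LinearMap.sum_apply,
    Finset.sum_apply, sum_congr rfl fun y _ => v4b_dd hg h y f, ← sum_filter, ← sum_neg_distrib]
  symm
  refine sum_bij (fun t _ => (n : ℤ) - 4 - 2 * t) (fun t ht => ?_) (fun a _ b _ e => ?_)
    (fun y hy => ?_) (fun _ _ => rfl)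
  · have := mem_range.1 ht
    simp only [mem_filter, mem_Icc]
    omega
  · omega
  · simp only [mem_filter, mem_Icc] at hy
    exact ⟨(((n : ℤ) - 4 - y) / 2).toNat, mem_range.2 (by omega), by omega⟩

theorem v4b_cc (hg : SpGr) {n : ℕ} {g : Pm} {y : ℤ} (h : v4b_At n g (v4b_P1 n y))
    (hy : (y + n) % 2 = 0 ∧ -(n : ℤ) + 2 ≤ y ∧ y ≤ (n : ℤ) - 4) (k : ℤ) (f : Fn) :
    cc (Dtr (-(n : ℤ)) n) k f g =
      (if k = y - 2 then (if -(n : ℤ) + 4 ≤ y then f (sw (y - 2 + 1) * (sw (y - 2) * g)) else 0)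
        else 0) -
      (if k = y + 3 then (if y ≤ (n : ℤ) - 6 then f (sw (y + 3) * (sw (y + 3 + 1) * g)) else 0)
        else 0) := by
  unfold cc
  simp only [LinearMap.sub_apply, Pi.sub_apply, Module.End.mul_apply]
  congr 1
  · split_ifs with h1 h2
    · subst h1
      obtain ⟨e1, g1⟩ := v4b_step hg h (y - 2) (by unfold v4b_P1 v4b_P0; omega)
      obtain ⟨e2, -⟩ := v4b_step hg g1 (y - 2 + 1) (by unfold v4b_P1 v4b_P0; omega)
      rw [e1, e2]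
    · exact v4b_two0 hg h k (k + 1) (by unfold v4b_P1 v4b_P0; omega) f
    · exact v4b_two0 hg h k (k + 1) (by unfold v4b_P1 v4b_P0; omega) f
  · split_ifs with h1 h2
    · subst h1
      obtain ⟨e1, g1⟩ := v4b_step hg h (y + 3 + 1) (by unfold v4b_P1 v4b_P0; omega)
      obtain ⟨e2, -⟩ := v4b_step hg g1 (y + 3) (by unfold v4b_P1 v4b_P0; omega)
      rw [e1, e2]
    · exact v4b_two0 hg h (k + 1) k (by unfold v4b_P1 v4b_P0; omega) f
    · exact v4b_two0 hg h (k + 1) k (by unfold v4b_P1 v4b_P0; omega) f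

theorem v4b_WW (hg : SpGr) {n : ℕ} {g : Pm} {y : ℤ} (h : v4b_At n g (v4b_P1 n y))
    (hy : (y + n) % 2 = 0 ∧ -(n : ℤ) + 2 ≤ y ∧ y ≤ (n : ℤ) - 4) (f : Fn) :
    WW (Dtr (-(n : ℤ)) n) (-(n : ℤ)) n (-1 / 2) f g =
      (3 / 2 - (y : ℝ)) *
        (if -(n : ℤ) + 4 ≤ y then f (sw (y - 2 + 1) * (sw (y - 2) * g)) else 0) +
      ((y : ℝ) + 7 / 2) *
        (if y ≤ (n : ℤ) - 6 then f (sw (y + 3) * (sw (y + 3 + 1) * g)) else 0) := by
  unfold WW
  rw [LinearMap.sum_apply, Finset.sum_apply]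
  simp only [LinearMap.smul_apply, Pi.smul_apply, smul_eq_mul, v4b_cc hg h hy, mul_sub,
    sum_sub_distrib]
  generalize (if -(n : ℤ) + 4 ≤ y then f (sw (y - 2 + 1) * (sw (y - 2) * g)) else 0) = A
  generalize (if y ≤ (n : ℤ) - 6 then f (sw (y + 3) * (sw (y + 3 + 1) * g)) else 0) = B
  simp only [mul_ite, mul_zero, sum_ite_eq']
  rw [if_pos (mem_Icc.2 ⟨by omega, by omega⟩), if_pos (mem_Icc.2 ⟨by omega, by omega⟩)]
  push_cast
  ring

theorem v4b_size (n j : ℕ) (hj : j + 3 ≤ n) :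
    ∑ i ∈ range n, (zz n j i + i) = (NN n : ℤ) - 5 := by
  have h2 : ∑ i ∈ range n, ((n : ℤ) - 1 - i) = (NN n : ℤ) := by
    have : ((∑ i ∈ range n, ((n : ℤ) - 1 - i) : ℤ) : ℝ) = ((NN n : ℤ) : ℝ) := by
      push_cast
      rw [r10_sum, r10_NN]; ring
    exact_mod_cast this
  rw [sum_congr rfl fun (i : ℕ) _ => show zz n j i + i = ((n : ℤ) - 1 - i) -
      ((if i = j then 2 else 0) + (if i = j + 1 then 2 else 0) + (if i = j + 2 then 1 else 0)) by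
        unfold zz; split_ifs <;> omega,
    sum_sub_distrib, h2, sum_add_distrib, sum_add_distrib, sum_ite_eq', sum_ite_eq', sum_ite_eq',
    if_pos (mem_range.2 (by omega)), if_pos (mem_range.2 (by omega)),
    if_pos (mem_range.2 (by omega))]
  ring

theorem v4b_val (hF : SpFrob) {n : ℕ} (hn : 4 ≤ n) {g : Pm} (h : Grass n g) (j : ℕ)
    (hj : j + 3 ≤ n) (hz : ∀ i : ℕ, i < n → g (-(i : ℤ)) = zz n j i) :
    (UU (Dtr (-(n : ℤ)) n) (-(n : ℤ)) n ^ (NN n - 5)) delta g = phi n j := by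
  have h6 : 6 ≤ NN n := by
    have : (6 : ℝ) ≤ NN n := by
      have : (4 : ℝ) ≤ n := by exact_mod_cast hn
      rw [r10_NN]; nlinarith
    exact_mod_cast this
  have := hF n (NN n - 5) g h
  rw [if_pos (by
    unfold size
    rw [sum_congr rfl fun i hi => by rw [hz i (mem_range.1 hi)], v4b_size n j hj]
    omega), r10_congr n _ _ hz] at this
  unfold ff at this
  rw [pow_zero, one_mul] at this
  exact this

theorem v4b_V4b (hg : SpGr) (hF : SpFrob) : SpV4b := by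
  intro n g hn h
  have h0 := v4b_at0 (by omega) h
  rw [Module.End.mul_apply, Module.End.mul_apply, v4b_P3 hg h0]
  have key : ∀ t ∈ range (n - 2),
      WW (Dtr (-(n : ℤ)) n) (-(n : ℤ)) n (-1 / 2)
        ((UU (Dtr (-(n : ℤ)) n) (-(n : ℤ)) n ^ (NN n - 5)) delta)
        (sw ((n : ℤ) - 4 - 2 * t + 1) * (sw ((n : ℤ) - 4 - 2 * t) *
          (sw ((n : ℤ) - 4 - 2 * t + 2) * g))) =
      (if t < n - 3 then (3 / 2 - ((n : ℝ) - 4 - 2 * t)) * phi n t else 0) +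
      (if 1 ≤ t then ((n : ℝ) - 4 - 2 * t + 7 / 2) * phi n (t - 1) else 0) := by
    intro t ht
    have ht' := mem_range.1 ht
    obtain ⟨y, hy0⟩ : ∃ y : ℤ, y = (n : ℤ) - 4 - 2 * t := ⟨_, rfl⟩
    have hyr : (y : ℝ) = (n : ℝ) - 4 - 2 * t := by rw [hy0]; push_cast; ring
    have hy : (y + n) % 2 = 0 ∧ -(n : ℤ) + 2 ≤ y ∧ y ≤ (n : ℤ) - 4 := by omega
    rw [← hy0, ← hyr]
    obtain ⟨-, h1⟩ := v4b_hook hg h0 y hy
    rw [v4b_WW hg h1 hy]
    have hz : ∀ i : ℕ, i < n → (sw (y + 1) * (sw y * (sw (y + 2) * g))) (-(i : ℤ)) =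
        (n : ℤ) - 1 - 2 * i - (if i = t then 2 else if i = t + 1 then 1 else 0) := by
      intro i hi
      simp only [Equiv.Perm.mul_apply]
      have a0 := r10_zero h i hi
      have a1 := v4b_swv (y + 2) (g (-(i : ℤ)))
      have a2 := v4b_swv y (sw (y + 2) (g (-(i : ℤ))))
      have a3 := v4b_swv (y + 1) (sw y (sw (y + 2) (g (-(i : ℤ)))))
      split_ifs <;> omega
    generalize sw (y + 1) * (sw y * (sw (y + 2) * g)) = G at h1 hz
    congr 1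
    · by_cases c : t < n - 3
      · rw [if_pos c, if_pos (by omega)]
        obtain ⟨-, g1⟩ := v4b_step hg h1 (y - 2) (by unfold v4b_P1 v4b_P0; omega)
        obtain ⟨-, g2⟩ := v4b_step hg g1 (y - 2 + 1) (by unfold v4b_P1 v4b_P0; omega)
        rw [v4b_val hF hn g2.1 t (by omega)]
        intro i hi
        simp only [Equiv.Perm.mul_apply]
        have a0 := hz i hi
        have a1 := v4b_swv (y - 2) (G (-(i : ℤ)))
        have a2 := v4b_swv (y - 2 + 1) (sw (y - 2) (G (-(i : ℤ))))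
        unfold zz
        split_ifs at a0 ⊢ <;> omega
      · rw [if_neg c, if_neg (by omega), mul_zero]
    · by_cases c : 1 ≤ t
      · rw [if_pos c, if_pos (by omega)]
        obtain ⟨-, g1⟩ := v4b_step hg h1 (y + 3 + 1) (by unfold v4b_P1 v4b_P0; omega)
        obtain ⟨-, g2⟩ := v4b_step hg g1 (y + 3) (by unfold v4b_P1 v4b_P0; omega)
        rw [v4b_val hF hn g2.1 (t - 1) (by omega)]
        intro i hi
        simp only [Equiv.Perm.mul_apply]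
        have a0 := hz i hi
        have a1 := v4b_swv (y + 3 + 1) (G (-(i : ℤ)))
        have a2 := v4b_swv (y + 3) (sw (y + 3 + 1) (G (-(i : ℤ))))
        unfold zz
        split_ifs at a0 ⊢ <;> omega
      · rw [if_neg c, if_neg (by omega), mul_zero]
  rw [sum_congr rfl key, sum_add_distrib]
  obtain ⟨m, rfl⟩ : ∃ m, n = m + 3 := ⟨n - 3, by omega⟩
  rw [show m + 3 - 2 = m + 1 by omega, sum_range_succ, sum_range_succ', Phi,
    show m + 3 - 3 = m by omega, if_neg (lt_irrefl m), if_neg (by omega), add_zero, add_zero,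
    ← sum_add_distrib, mul_sum, ← sum_neg_distrib]
  refine sum_congr rfl fun t ht => ?_
  rw [if_pos (mem_range.1 ht), if_pos (by omega), Nat.add_sub_cancel]
  push_cast
  ring

end Pool.Agent.MP_a5ded6_pr.POIS
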