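import Pool.Agent.MP_a5ded6_pr.POIS.All
import Pool.Agent.MP_a5ded6_pr.POIS.V0
import Pool.Agent.MP_a5ded6_pr.POIS.V1
import Pool.Agent.MP_a5ded6_pr.POIS.V2
import Pool.Agent.MP_a5ded6_pr.POIS.V3a
import Pool.Agent.MP_a5ded6_pr.POIS.V3b
import Pool.Agent.MP_a5ded6_pr.POIS.V3c
import Pool.Agent.MP_a5ded6_pr.POIS.V3d
import Pool.Agent.MP_a5ded6_pr.POIS.V4a
import Pool.Agent.MP_a5ded6_pr.POIS.V4b

set_option autoImplicit false

namespace Pool.Agent.MP_a5ded6_pr.POIS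

open Finset

theorem all_Rot : SpRot := v0_Rot r4b_Red r4b_Net
theorem all_V1 : SpV1 := v1_V1 r4a_NC r4b_Red r4b_Net all_Count all_Rot
theorem all_V2 : SpV2 := v2_V2 r4a_NC r1_A1 r2_AC all_A2 all_Count all_Rot
theorem all_Dom : SpDom := v3b_Dom r4a_Tr all_Harm all_Frob
theorem all_V3 : SpV3 :=
  v3e_V3 r4a_NC v3a_V3a (v3c_V3c r4a_Tr all_Harm all_Dom) (v3d_V3d r4a_NC r4a_Tr all_Harm)
theorem all_V4 : SpV4 :=
  v4c_V4 r4a_NC r4a_Tr all_Harm r7_P2 r8a_Gr all_Cont all_Count (v4a_Wf r4a_NC r1_A1 r8a_Gr)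
    (v4b_V4b r8a_Gr all_Frob)

theorem all_NN6 (n : ℕ) (hn : 4 ≤ n) : 6 ≤ NN n := by
  unfold NN
  have h : 4 * 3 ≤ n * (n - 1) := Nat.mul_le_mul hn (by omega)
  omega

theorem all_moments (n : ℕ) (hn : 4 ≤ n) :
    ∑ a ∈ nets n, (braids a : ℝ) = (nets n).card ∧
    ((NN n : ℝ) - 2) * ∑ a ∈ nets n, (braids a : ℝ) * ((braids a : ℝ) - 1) =
      ((NN n : ℝ) - 4) * (nets n).card := by
  obtain ⟨a1, a2⟩ := all_V1 n hn
  obtain ⟨b1, b2⟩ := all_V2 n hn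
  obtain ⟨c1, c2⟩ := all_V3 n hn
  obtain ⟨d1, d2⟩ := all_V4 n hn
  constructor
  · rw [a1, b1, ← d2]; ring
  · rw [a2, b2, c1, c2, ← d2]
    linear_combination (4 * ((NN n : ℝ) - 2) * ((NN n : ℝ) - 4)) * d1

theorem all_variance (n : ℕ) (hn : 4 ≤ n) :
    (∑ a ∈ nets n, (braids a : ℝ) ^ 2) / (nets n).card -
      ((∑ a ∈ nets n, (braids a : ℝ)) / (nets n).card) ^ 2 =
      ((NN n : ℝ) - 4) / ((NN n : ℝ) - 2) := by
  obtain ⟨h1, h2⟩ := all_moments n hn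
  have hR : (0 : ℝ) < (nets n).card := by exact_mod_cast (r4b_Red n).1.card_pos
  have hN : (6 : ℝ) ≤ NN n := by exact_mod_cast all_NN6 n hn
  have h3 : ∑ a ∈ nets n, (braids a : ℝ) ^ 2 =
      ∑ a ∈ nets n, (braids a : ℝ) * ((braids a : ℝ) - 1) + ∑ a ∈ nets n, (braids a : ℝ) := by
    rw [← sum_add_distrib]; exact sum_congr rfl (fun a _ => by ring)
  have h4 : (NN n : ℝ) - 2 ≠ 0 := by linarith
  rw [h3, h1]
  field_simp
  linear_combination h2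

end Pool.Agent.MP_a5ded6_pr.POIS
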