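import Mathlib

set_option autoImplicit false

namespace Pool.Agent.MP_a5ded6_pr.POIS

open Finset

/-! ## Words -/

/-- a braid move applies at the start of the word -/
def isBr : List ℤ → Bool
  | a :: b :: c :: _ => decide (a = c ∧ (b = a + 1 ∨ a = b + 1))
  | _ => false

/-- number of positions at which a braid move applies -/
def braids (a : List ℤ) : ℕ := a.tails.countP isBr

/-- number of `k`-sets of braid positions at mutual distance at least three -/
def Y : ℕ → List ℤ → ℕ
  | 0 => fun _ => 1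
  | k + 1 => fun a => (a.tails.map (fun u => if isBr u then Y k (u.drop 3) else 0)).sum

/-- two braid positions at distance one or two -/
def Ov (a : List ℤ) : Prop :=
  ∃ u ∈ a.tails, isBr u = true ∧ (isBr (u.drop 1) = true ∨ isBr (u.drop 2) = true)

/-- all words of a given length over a finite alphabet -/
def words (s : Finset ℤ) : ℕ → Finset (List ℤ)
  | 0 => {[]}
  | m + 1 => (s ×ˢ words s m).image (fun p => p.1 :: p.2)

/-- the word agrees with the pattern at the prescribed places -/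
def Match (l : List (Option ℤ)) (a : List ℤ) : Prop :=
  List.Forall₂ (fun o x => o = none ∨ o = some x) l a

/-- block number `t` of the word cut into blocks of length `m` (the last one takes the rest) -/
def blk (m : ℕ) (a : List ℤ) (t : ℕ) : List ℤ :=
  (a.drop (t * m)).take (if t + 1 < a.length / m then m else a.length)

def GoodW (L : ℕ) (u : List ℤ) : Prop :=
  ∀ b : ℤ, u.countP (fun x => decide (|x - b| ≤ (L : ℤ))) < L

def Good (m L : ℕ) (a : List ℤ) : Prop := ∀ t, t < a.length / m → GoodW L (blk m a t)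

/-! ## Abstract nil-Coxeter families -/

section Alg
variable {A : Type} [Ring A] [Algebra ℝ A]

structure NC (D : ℤ → A) (lo hi : ℤ) : Prop where
  sq : ∀ i, D i * D i = 0
  comm : ∀ i j, i + 2 ≤ j → D i * D j = D j * D i
  braid : ∀ i, D i * D (i + 1) * D i = D (i + 1) * D i * D (i + 1)
  out : ∀ i, i < lo ∨ hi < i → D i = 0

noncomputable def UU (D : ℤ → A) (lo hi : ℤ) : A := ∑ i ∈ Icc lo hi, D i
def cc (D : ℤ → A) (i : ℤ) : A := D i * D (i + 1) - D (i + 1) * D i
def dd (D : ℤ → A) (i : ℤ) : A := cc D i * D (i + 2) - D (i + 2) * cc D i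
def bb (D : ℤ → A) (i : ℤ) : A := D i * D (i + 1) * D i
noncomputable def Bs (D : ℤ → A) (lo hi : ℤ) : A := ∑ i ∈ Icc lo hi, bb D i
noncomputable def Ds (D : ℤ → A) (lo hi : ℤ) : A := ∑ i ∈ Icc lo hi, dd D i
noncomputable def P3 (D : ℤ → A) (lo hi : ℤ) : A := Ds D lo hi - Bs D lo hi
noncomputable def WW (D : ℤ → A) (lo hi : ℤ) (κ : ℝ) : A := ∑ i ∈ Icc lo hi, (κ - (i : ℝ)) • cc D i
noncomputable def VV (D : ℤ → A) (lo hi : ℤ) : A := ∑ i ∈ Icc lo hi, ((i : ℝ) ^ 2 / 2) • D i

/-- product of the generators along a word -/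
def Dw (D : ℤ → A) (v : List ℤ) : A := (v.map D).prod

/-- product along a pattern: `none` stands for `U` -/
def mono (D : ℤ → A) (U : A) (l : List (Option ℤ)) : A := (l.map (fun o => o.elim U D)).prod

/-- `AC D U r K ω x`: `x` is a real combination, of total weight at most `ω`, of patterns
with `r` letters and `K` factors `U` -/
inductive AC (D : ℤ → A) (U : A) (r K : ℕ) : ℝ → A → Prop
  | mono (l : List (Option ℤ)) (hr : l.countP Option.isSome = r) (hK : l.count none = K) :
      AC D U r K 1 (mono D U l)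
  | zero : AC D U r K 0 0
  | add {a b : ℝ} {x y : A} : AC D U r K a x → AC D U r K b y → AC D U r K (a + b) (x + y)
  | smul (c : ℝ) {a : ℝ} {x : A} : AC D U r K a x → AC D U r K (|c| * a) (c • x)
  | le {a b : ℝ} {x : A} : AC D U r K a x → a ≤ b → AC D U r K b x

/-- sum of all products of `k` factors `Br` and `K` factors `U` -/
def SS (U Br : A) : ℕ → ℕ → A
  | 0 => fun K => U ^ K
  | k + 1 => fun K => ∑ a ∈ range (K + 1), U ^ a * Br * SS U Br k (K - a)

end Alg

/-! ## Permutations of the integers -/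

abbrev Pm := Equiv.Perm ℤ
abbrev Fn := Pm → ℝ
abbrev En := Module.End ℝ Fn

def sw (i : ℤ) : Pm := Equiv.swap i (i + 1)

/-- the value `i+1` stands to the left of the value `i` -/
def Desc (i : ℤ) (w : Pm) : Prop := w⁻¹ (i + 1) < w⁻¹ i

instance (i : ℤ) (w : Pm) : Decidable (Desc i w) := by unfold Desc; infer_instance

def Dop (i : ℤ) : En where
  toFun f := fun w => if Desc i w then f (sw i * w) else 0
  map_add' f g := by funext w; by_cases h : Desc i w <;> simp [h]
  map_smul' c f := by funext w; by_cases h : Desc i w <;> simp [h]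

def Dtr (lo hi : ℤ) (i : ℤ) : En := if lo ≤ i ∧ i ≤ hi then Dop i else 0

open Classical in
noncomputable def delta : Fn := fun w => if w = 1 then 1 else 0

def w0fun (n : ℕ) (x : ℤ) : ℤ := if 1 ≤ x ∧ x ≤ n then n + 1 - x else x

theorem w0fun_invol (n : ℕ) : Function.Involutive (w0fun n) := by
  intro x; unfold w0fun; split_ifs <;> omega

def w0 (n : ℕ) : Pm := (w0fun_invol n).toPerm

def NN (n : ℕ) : ℕ := n * (n - 1) / 2

/-- the generators used for networks on `n` wires -/
def Dn (n : ℕ) : ℤ → En := Dtr 1 (n - 1)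
noncomputable def Un (n : ℕ) : En := UU (Dn n) 1 (n - 1)

noncomputable def ev (n : ℕ) (x : En) : ℝ := x delta (w0 n)

open Classical in
/-- sorting networks on `n` wires, letters `1, …, n-1` -/
noncomputable def nets (n : ℕ) : Finset (List ℤ) :=
  (words (Icc 1 ((n : ℤ) - 1)) (NN n)).filter (fun a => (a.map sw).prod = w0 n)

def Supp (w : Pm) (a b : ℤ) : Prop := ∀ x, x < a ∨ b < x → w x = x

/-- the function `P3^j U^m delta` for the alphabet `lo, …, hi` -/
noncomputable def ff (lo hi : ℤ) (j m : ℕ) : Fn :=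
  (P3 (Dtr lo hi) lo hi ^ j * UU (Dtr lo hi) lo hi ^ m) delta

def Cover (π : Pm) (a b : ℤ) : Prop :=
  a < b ∧ π a < π b ∧ ∀ c, a < c → c < b → ¬ (π a < π c ∧ π c < π b)

open Classical in
/-- signed sum over the Bruhat covers that move position `r` -/
noncomputable def Xf (lo hi r : ℤ) (f : Fn) : Fn := fun π =>
  (∑ s ∈ (Icc lo (hi + 1)).filter (fun s => Cover π r s), f (π * Equiv.swap r s)) -
  (∑ q ∈ (Icc lo (hi + 1)).filter (fun q => Cover π q r), f (π * Equiv.swap q r))

def Harm (lo hi : ℤ) (f : Fn) : Prop :=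
  ∀ π r, Supp π (lo + 4) (hi - 3) → lo + 4 ≤ r → r ≤ hi - 3 → Xf lo hi r f π = 0

/-- number of non-inversions inside `1, …, n` -/
noncomputable def ninv (n : ℕ) (w : Pm) : ℕ :=
  ((Icc (1 : ℤ) n ×ˢ Icc (1 : ℤ) n).filter (fun p => p.1 < p.2 ∧ w p.1 < w p.2)).card

def Av132 (n : ℕ) (w : Pm) : Prop :=
  ∀ a b c : ℤ, 1 ≤ a → a < b → b < c → c ≤ n → ¬ (w a < w c ∧ w c < w b)

/-- Grassmannian permutation with its descent at zero, supported in `-n+1, …, n` -/
def Grass (n : ℕ) (g : Pm) : Prop :=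
  Supp g (-(n : ℤ) + 1) n ∧ (∀ x y, x < y → y ≤ 0 → g x < g y) ∧ (∀ x y, 0 < x → x < y → g x < g y)

/-- number of cells of the shape -/
def size (n : ℕ) (g : Pm) : ℤ := ∑ i ∈ range n, (g (-(i : ℤ)) + i)

/-- the shape is the staircase with `l` cells removed -/
def Near (n l : ℕ) (g : Pm) : Prop :=
  Grass n g ∧ (∀ i : ℕ, i < n → g (-(i : ℤ)) ≤ (n : ℤ) - 1 - 2 * i) ∧
    ∑ i ∈ range n, ((n : ℤ) - 1 - 2 * i - g (-(i : ℤ))) = l

noncomputable def Frob (n : ℕ) (z : ℕ → ℤ) : ℝ :=
  (∏ i ∈ range n, ∏ j ∈ Ioo i n, ((z i - z j : ℤ) : ℝ)) /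
    ∏ i ∈ range n, (((z i + n - 1).toNat.factorial : ℕ) : ℝ)

noncomputable def QQ (x : ℤ) : ℝ := ((x : ℝ) - 1) * x * (2 * x - 1) / 6

/-- sum of the squared contents of the shape -/
noncomputable def C2 (n : ℕ) (g : Pm) : ℝ := ∑ i ∈ range n, (QQ (g (-(i : ℤ))) - QQ (-(i : ℤ)))

end Pool.Agent.MP_a5ded6_pr.POIS
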