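import Pool.Agent.MP_a5ded6_pr.POIS.Spec

set_option autoImplicit false

namespace Pool.Agent.MP_a5ded6_pr.POIS

open Finset

section Loc
variable {A : Type} [Ring A]

theorem r1_locA (z a b c : A) (sa : a * a = 0) (sb : b * b = 0) (czb : z * b = b * z)
    (bab : a * b * a = b * a * b) :
    (a * b - b * a) * (z + a + b + c) - (z + a + b + c) * (a * b - b * a) =
      ((a * b - b * a) * c - c * (a * b - b * a)) -
        ((z * a - a * z) * b - b * (z * a - a * z)) := by
  linear_combination (norm := noncomm_ring)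
    - a * czb + a * sb - b * sa + bab + bab - sa * b + sb * a + czb * a

theorem r1_locB (z a b c e : A) (sa : a * a = 0) (sb : b * b = 0) (sc : c * c = 0)
    (czb : z * b = b * z) (czc : z * c = c * z) (cac : a * c = c * a) (cae : a * e = e * a)
    (cbe : b * e = e * b) (bab : a * b * a = b * a * b) (bbc : b * c * b = c * b * c) :
    (((a * b - b * a) * c - c * (a * b - b * a)) - a * b * a) * (z + a + b + c + e) -
      (z + a + b + c + e) * (((a * b - b * a) * c - c * (a * b - b * a)) - a * b * a) =
      ((((a * b - b * a) * c - c * (a * b - b * a)) * e -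
          e * ((a * b - b * a) * c - c * (a * b - b * a))) - c * (a * b - b * a) * c) -
      ((((z * a - a * z) * b - b * (z * a - a * z)) * c -
          c * ((z * a - a * z) * b - b * (z * a - a * z))) - b * (z * a - a * z) * b) := by
  linear_combination (norm := noncomm_ring)
    - a * czb * c - a * b * czc - a * b * cac + a * b * sc + b * a * czc - b * c * sa
    - b * cac * a - b * a * sc + a * c * czb + cac * b * z - c * a * sb + a * bbc + cac * b * c
    + c * b * sa - cac * b * a - c * bab - bbc * a + c * b * cac - b * a * sb - bab * b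
    - sa * b * c + c * sa * b + cac * a * b + sa * b * a + bab * c + sb * a * c - b * cac * b
    - bab * a + sc * a * b - sc * b * a - a * b * cae - a * cbe * a - cae * b * a + czb * a * c
    + czc * a * b - cac * z * b - czc * b * a - c * czb * a + z * bab + czb * a * b - bab * z
    + b * a * czb

theorem r1_tel {M : Type} [AddCommGroup M] (T : ℤ → M) (lo hi : ℤ) (h1 : T lo = 0)
    (h2 : T (hi + 1) = 0) : ∑ i ∈ Icc lo hi, (T (i + 1) - T i) = 0 := by
  by_cases h : lo - 1 ≤ hi
  · have key : ∀ n, lo - 1 ≤ n → ∑ i ∈ Icc lo n, (T (i + 1) - T i) = T (n + 1) - T lo := by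
      intro n hn
      induction n, hn using Int.le_induction with
      | base => simp
      | succ n hn ih =>
        have : Icc lo (n + 1) = insert (n + 1) (Icc lo n) := by
          ext x; simp only [mem_Icc, mem_insert]; omega
        rw [this, sum_insert (by simp), ih]
        abel
    rw [key hi h, h1, h2, sub_zero]
  · rw [Icc_eq_empty (by omega), sum_empty]

variable {D : ℤ → A} {lo hi : ℤ}

theorem r1_comm (h : NC D lo hi) (i j : ℤ) (hij : i + 2 ≤ j ∨ j + 2 ≤ i) :
    Commute (D i) (D j) := by
  rcases hij with h1 | h1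
  · exact h.comm i j h1
  · exact (h.comm j i h1).symm

theorem r1_loc (h : NC D lo hi) (x : A) (s : Finset ℤ) (hx : ∀ j, j ∉ s → Commute x (D j)) :
    x * UU D lo hi - UU D lo hi * x = x * (∑ j ∈ s, D j) - (∑ j ∈ s, D j) * x := by
  unfold UU
  rw [mul_sum, sum_mul, mul_sum, sum_mul, ← sum_sub_distrib, ← sum_sub_distrib]
  rw [← sum_subset (inter_subset_left (s₁ := Icc lo hi) (s₂ := s)),
    ← sum_subset (inter_subset_right (s₁ := Icc lo hi) (s₂ := s))]
  · intro j hj hj'
    have : D j = 0 := h.out j (by
      simp only [mem_inter, hj, and_true, mem_Icc] at hj'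
      omega)
    simp [this]
  · intro j hj hj'
    have : j ∉ s := fun hs => hj' (mem_inter.2 ⟨hj, hs⟩)
    exact sub_eq_zero.2 (hx j this).eq

theorem r1_cc0 (h : NC D lo hi) (i : ℤ) (hi' : i < lo ∨ hi ≤ i) : cc D i = 0 := by
  unfold cc
  rcases hi' with h1 | h1
  · simp [h.out i (Or.inl h1)]
  · simp [h.out (i + 1) (Or.inr (by omega))]

theorem r1_dd0 (h : NC D lo hi) (i : ℤ) (hi' : i < lo ∨ hi ≤ i) : dd D i = 0 := by
  unfold dd
  simp [r1_cc0 h i hi']

theorem r1_D (h : NC D lo hi) (i : ℤ) :
    D i * UU D lo hi - UU D lo hi * D i = cc D i - cc D (i - 1) := by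
  rw [r1_loc h (D i) {i - 1, i + 1}]
  · rw [sum_pair (by omega)]
    unfold cc
    rw [sub_add_cancel]
    noncomm_ring
  · intro j hj
    simp only [mem_insert, mem_singleton, not_or] at hj
    by_cases e : j = i
    · rw [e]
    · exact r1_comm h i j (by omega)

theorem r1_cc (h : NC D lo hi) (i : ℤ) :
    cc D i * UU D lo hi - UU D lo hi * cc D i = dd D i - dd D (i - 1) := by
  rw [r1_loc h (cc D i) {i - 1, i, i + 1, i + 2}]
  · rw [sum_insert (by simp only [mem_insert, mem_singleton]; omega),
      sum_insert (by simp only [mem_insert, mem_singleton]; omega), sum_pair (by omega)]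
    unfold dd cc
    rw [sub_add_cancel, show i - 1 + 2 = i + 1 by ring, ← add_assoc, ← add_assoc]
    exact r1_locA _ _ _ _ (h.sq _) (h.sq _) (h.comm _ _ (by omega)) (h.braid i)
  · intro j hj
    simp only [mem_insert, mem_singleton, not_or] at hj
    have a := r1_comm h i j (by omega)
    have b := r1_comm h (i + 1) j (by omega)
    exact (a.mul_left b).sub_left (b.mul_left a)

/-- the four letter term. -/
def r1_T (D : ℤ → A) (i : ℤ) : A :=
  (dd D (i - 1) * D (i + 2) - D (i + 2) * dd D (i - 1)) - D (i + 1) * cc D (i - 1) * D (i + 1)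

theorem r1_P (h : NC D lo hi) (i : ℤ) :
    (dd D i - bb D i) * UU D lo hi - UU D lo hi * (dd D i - bb D i) =
      r1_T D (i + 1) - r1_T D i := by
  rw [r1_loc h (dd D i - bb D i) {i - 1, i, i + 1, i + 2, i + 3}]
  · rw [sum_insert (by simp only [mem_insert, mem_singleton]; omega),
      sum_insert (by simp only [mem_insert, mem_singleton]; omega),
      sum_insert (by simp only [mem_insert, mem_singleton]; omega), sum_pair (by omega)]
    have hb := h.braid (i + 1)
    unfold r1_T dd cc bb
    rw [show i + 1 + 1 = i + 2 by ring] at hb ⊢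
    rw [show i - 1 + 1 = i by ring, show i + 1 - 1 = i by ring, show i - 1 + 2 = i + 1 by ring,
      show i + 1 + 2 = i + 3 by ring, ← add_assoc, ← add_assoc, ← add_assoc]
    exact r1_locB (D (i - 1)) (D i) (D (i + 1)) (D (i + 2)) (D (i + 3)) (h.sq _) (h.sq _)
      (h.sq _) (h.comm _ _ (by omega))
      (h.comm _ _ (by omega)) (h.comm _ _ (by omega)) (h.comm _ _ (by omega))
      (h.comm _ _ (by omega)) (h.braid i) hb
  · intro j hj
    simp only [mem_insert, mem_singleton, not_or] at hj
    have a := r1_comm h i j (by omega)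
    have b := r1_comm h (i + 1) j (by omega)
    have c := r1_comm h (i + 2) j (by omega)
    have d : Commute (cc D i) (D j) := (a.mul_left b).sub_left (b.mul_left a)
    exact ((d.mul_left c).sub_left (c.mul_left d)).sub_left ((a.mul_left b).mul_left a)

end Loc

theorem r1_A1 : SpA1 := by
  intro D lo hi h
  refine ⟨fun κ => ?_, ?_, ?_⟩
  · have t := r1_tel (fun i : ℤ => (κ - (i : ℝ)) • dd D (i - 1)) lo hi
      (by simp [r1_dd0 h (lo - 1) (Or.inl (by omega))])
      (by simp [r1_dd0 h hi (Or.inr le_rfl)])
    unfold WW Ds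
    rw [sum_mul, mul_sum, ← sum_sub_distrib, ← sub_eq_zero, ← sum_sub_distrib, ← t]
    refine sum_congr rfl fun i _ => ?_
    rw [smul_mul_assoc, mul_smul_comm, ← smul_sub, r1_cc h, add_sub_cancel_right]
    push_cast
    module
  · have t := r1_tel (r1_T D) lo hi
      (by simp [r1_T, r1_dd0 h (lo - 1) (Or.inl (by omega)), r1_cc0 h (lo - 1) (Or.inl (by omega))])
      (by simp [r1_T, r1_dd0 h hi (Or.inr le_rfl), r1_cc0 h hi (Or.inr le_rfl)])
    unfold P3 Ds Bs
    rw [← sub_eq_zero, ← sum_sub_distrib, sum_mul, mul_sum, ← sum_sub_distrib, ← t]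
    exact sum_congr rfl fun i _ => r1_P h i
  · have t := r1_tel (fun i : ℤ => ((i : ℝ) ^ 2 / 2) • cc D (i - 1)) lo hi
      (by simp [r1_cc0 h (lo - 1) (Or.inl (by omega))])
      (by simp [r1_cc0 h hi (Or.inr le_rfl)])
    unfold VV WW
    rw [sum_mul, mul_sum, ← sum_sub_distrib, ← sub_eq_zero, ← sum_sub_distrib, ← t]
    refine sum_congr rfl fun i _ => ?_
    rw [smul_mul_assoc, mul_smul_comm, ← smul_sub, r1_D h, add_sub_cancel_right]
    push_cast
    module

end Pool.Agent.MP_a5ded6_pr.POIS
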