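import Pool.Agent.MP_a5ded6_pr.POIS.Spec

/-! Grassmannian permutations and the Frobenius formula. -/

set_option autoImplicit false

namespace Pool.Agent.MP_a5ded6_pr.POIS

open Finset

theorem r8a_ge {n : ℕ} {g : Pm} (h : Grass n g) (x : ℤ) (hx : x ≤ 0) : x ≤ g x := by
  by_cases h0 : x < -(n : ℤ) + 1
  · exact (h.1 x (Or.inl h0)).ge
  have key : ∀ k : ℕ, -(n : ℤ) + k ≤ 0 → -(n : ℤ) + k ≤ g (-(n : ℤ) + k) := fun k => by
    induction k with
    | zero => exact fun _ => (h.1 _ (Or.inl (by omega))).ge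
    | succ k ih =>
      intro hk
      have h1 := ih (by omega)
      have h2 := h.2.1 (-(n : ℤ) + k) (-(n : ℤ) + (k + 1 : ℕ)) (by omega) hk
      omega
  obtain ⟨k, rfl⟩ : ∃ k : ℕ, x = -(n : ℤ) + k := ⟨(x + n).toNat, by omega⟩
  exact key k hx

theorem r8a_le {n : ℕ} {g : Pm} (h : Grass n g) (x : ℤ) (hx : 0 < x) : g x ≤ x := by
  by_cases h0 : (n : ℤ) < x
  · exact (h.1 x (Or.inr h0)).le
  have key : ∀ k : ℕ, 0 < (n : ℤ) + 1 - k → g ((n : ℤ) + 1 - k) ≤ (n : ℤ) + 1 - k := fun k => by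
    induction k with
    | zero => exact fun _ => (h.1 _ (Or.inr (by omega))).le
    | succ k ih =>
      intro hk
      have h1 := ih (by omega)
      have h2 := h.2.2 ((n : ℤ) + 1 - (k + 1 : ℕ)) ((n : ℤ) + 1 - k) hk (by omega)
      omega
  obtain ⟨k, rfl⟩ : ∃ k : ℕ, x = (n : ℤ) + 1 - k := ⟨(n + 1 - x).toNat, by omega⟩
  exact key k hx

theorem r8a_one {n : ℕ} {g : Pm} (h : Grass n g) (hs : size n g = 0) : g = 1 := by
  have h1 := (sum_eq_zero_iff_of_nonneg fun (i : ℕ) _ =>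
    (by have := r8a_ge h (-(i : ℤ)) (by omega); omega : 0 ≤ g (-(i : ℤ)) + i)).1 hs
  have h2 : ∀ x : ℤ, x ≤ 0 → g x = x := fun x hx => by
    by_cases h0 : x < -(n : ℤ) + 1
    · exact h.1 x (Or.inl h0)
    obtain ⟨i, rfl⟩ : ∃ i : ℕ, x = -(i : ℤ) := ⟨(-x).toNat, by omega⟩
    have := h1 i (mem_range.2 (by omega))
    omega
  have h3 : ∀ k : ℕ, (k : ℤ) + 1 ≤ g ((k : ℤ) + 1) := fun k => by
    induction k with
    | zero =>
      by_contra hc
      have := g.injective (h2 (g ((0 : ℕ) + 1)) (by omega))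
      omega
    | succ k ih =>
      have := h.2.2 ((k : ℤ) + 1) (((k + 1 : ℕ) : ℤ) + 1) (by omega) (by omega)
      omega
  ext x
  rcases le_or_gt x 0 with hx | hx
  · exact h2 x hx
  obtain ⟨k, rfl⟩ : ∃ k : ℕ, x = (k : ℤ) + 1 := ⟨(x - 1).toNat, by omega⟩
  exact le_antisymm (r8a_le h _ hx) (h3 k)

theorem r8a_pos {n : ℕ} {g : Pm} (h : Grass n g) {i : ℤ} (hd : Desc i g) :
    g⁻¹ (i + 1) ≤ 0 ∧ 0 < g⁻¹ i ∧ -(n : ℤ) + 1 ≤ i ∧ i ≤ (n : ℤ) - 1 := by
  have ha : g (g⁻¹ (i + 1)) = i + 1 := by simp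
  have hb : g (g⁻¹ i) = i := by simp
  have h1 : g⁻¹ (i + 1) ≤ 0 := by
    by_contra hc
    have := h.2.2 _ _ (not_le.1 hc) hd
    omega
  have h2 : 0 < g⁻¹ i := by
    by_contra hc
    have := h.2.1 _ _ hd (not_lt.1 hc)
    omega
  refine ⟨h1, h2, ?_, ?_⟩
  · by_contra hc
    have := g.injective (hb.trans (h.1 i (Or.inl (by omega))).symm)
    omega
  · by_contra hc
    have := g.injective (ha.trans (h.1 (i + 1) (Or.inr (by omega))).symm)
    omega

theorem r8a_desc {n : ℕ} {g : Pm} (h : Grass n g) (i : ℤ) :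
    Desc i g ↔ (∃ j : ℕ, j < n ∧ g (-(j : ℤ)) = i + 1) ∧ ∀ j : ℕ, g (-(j : ℤ)) ≠ i := by
  have ha : g (g⁻¹ (i + 1)) = i + 1 := by simp
  have hb : g (g⁻¹ i) = i := by simp
  constructor
  · intro hd
    obtain ⟨h1, h2, h3, h4⟩ := r8a_pos h hd
    obtain ⟨j, hj⟩ : ∃ j : ℕ, g⁻¹ (i + 1) = -(j : ℤ) := ⟨(-g⁻¹ (i + 1)).toNat, by omega⟩
    refine ⟨⟨j, ?_, hj ▸ ha⟩, fun k hk => ?_⟩
    · by_contra hc
      have := h.1 (-(j : ℤ)) (Or.inl (by omega))
      rw [hj] at ha
      omega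
    · have := g.injective (hb.trans hk.symm)
      omega
  · rintro ⟨⟨j, -, hj⟩, hk⟩
    have h1 := g.injective (ha.trans hj.symm)
    unfold Desc
    by_contra hc
    obtain ⟨k, hk'⟩ : ∃ k : ℕ, g⁻¹ i = -(k : ℤ) := ⟨(-g⁻¹ i).toNat, by omega⟩
    exact hk k (hk' ▸ hb)

theorem r8a_sw (i : ℤ) (g : Pm) (x : ℤ) :
    (sw i * g) x = if g x = i then i + 1 else if g x = i + 1 then i else g x := by
  simp [sw, Equiv.swap_apply_def]

theorem r8a_step {n : ℕ} {g : Pm} (h : Grass n g) {i : ℤ} (hd : Desc i g) {j : ℕ}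
    (hj : g (-(j : ℤ)) = i + 1) (k : ℕ) :
    (sw i * g) (-(k : ℤ)) = g (-(k : ℤ)) - if k = j then 1 else 0 := by
  rw [r8a_sw, if_neg (((r8a_desc h i).1 hd).2 k)]
  by_cases hk : k = j
  · simp [hk, hj]
  · rw [if_neg hk, if_neg, sub_zero]
    intro e
    have := g.injective (e.trans hj.symm)
    omega

theorem r8a_grass {n : ℕ} {g : Pm} (h : Grass n g) {i : ℤ} (hd : Desc i g) :
    Grass n (sw i * g) := by
  obtain ⟨h1, h2, h3, h4⟩ := r8a_pos h hd
  have ha : ∀ x, g x = i + 1 → x ≤ 0 := fun x e => by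
    rw [← e] at h1
    simpa using h1
  have hb : ∀ x, g x = i → 0 < x := fun x e => by
    rw [← e] at h2
    simpa using h2
  refine ⟨fun x hx => ?_, fun x y hxy hy => ?_, fun x y hx hxy => ?_⟩
  · have := h.1 x hx
    rw [r8a_sw]
    split_ifs <;> omega
  · have := h.2.1 x y hxy hy
    have := hb x
    have := hb y
    rw [r8a_sw, r8a_sw]
    split_ifs <;> omega
  · have := h.2.2 x y hx hxy
    have := ha x
    have := ha y
    rw [r8a_sw, r8a_sw]
    split_ifs <;> omega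

theorem r8a_Gr : SpGr := by
  intro n g h
  refine ⟨sum_nonneg fun i _ => by have := r8a_ge h (-(i : ℤ)) (by omega); omega,
    ⟨r8a_one h, fun e => by simp [e, size]⟩,
    fun i j hij => h.2.1 _ _ (by omega) (by omega), r8a_desc h, fun i hd => ?_⟩
  obtain ⟨-, -, h3, h4⟩ := r8a_pos h hd
  obtain ⟨⟨j, hjn, hj⟩, -⟩ := (r8a_desc h i).1 hd
  have hs := r8a_step h hd hj
  have hm := mem_range.2 hjn
  refine ⟨r8a_grass h hd, h3, h4, ?_, ?_, fun l hl => ⟨r8a_grass h hd, fun k hk => ?_, ?_⟩⟩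
  · unfold size
    rw [sum_congr rfl fun (k : ℕ) _ => show (sw i * g) (-(k : ℤ)) + k =
      g (-(k : ℤ)) + k - if k = j then 1 else 0 by rw [hs]; ring, sum_sub_distrib, sum_ite_eq',
      if_pos hm]
  · unfold C2
    rw [sum_congr rfl fun (k : ℕ) _ => show QQ ((sw i * g) (-(k : ℤ))) - QQ (-(k : ℤ)) =
      QQ (g (-(k : ℤ))) - QQ (-(k : ℤ)) - if k = j then (i : ℝ) ^ 2 else 0 from ?_,
      sum_sub_distrib, sum_ite_eq', if_pos hm]
    rw [hs]
    split_ifs with hk
    · rw [hk, hj]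
      unfold QQ
      push_cast
      ring
    · simp
  · have := hl.2.1 k hk
    rw [hs]
    split_ifs <;> omega
  · rw [sum_congr rfl fun (k : ℕ) _ => show (n : ℤ) - 1 - 2 * k - (sw i * g) (-(k : ℤ)) =
      (n : ℤ) - 1 - 2 * k - g (-(k : ℤ)) + if k = j then 1 else 0 by rw [hs]; ring,
      sum_add_distrib, sum_ite_eq', if_pos hm, hl.2.2]
    push_cast
    ring

theorem r8a_fact (i d : ℕ) :
    ∏ j ∈ Ioo i (i + 1 + d), ((j : ℝ) - i) = (d.factorial : ℝ) := by
  induction d with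
  | zero =>
    rw [show Ioo i (i + 1 + 0) = ∅ by ext x; simp]
    simp
  | succ d ih =>
    rw [show Ioo i (i + 1 + (d + 1)) = insert (i + 1 + d) (Ioo i (i + 1 + d)) by
      ext x; simp; omega, prod_insert (by simp), ih, Nat.factorial_succ]
    push_cast
    ring

theorem r8a_frob_one (n : ℕ) : Frob n (fun i => -(i : ℤ)) = 1 := by
  unfold Frob
  rw [div_eq_one_iff_eq (prod_ne_zero_iff.2 fun i _ => by positivity)]
  refine prod_congr rfl fun i hi => ?_
  obtain ⟨d, rfl⟩ : ∃ d, n = i + 1 + d := ⟨n - i - 1, by have := mem_range.1 hi; omega⟩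
  rw [show (-(i : ℤ) + (i + 1 + d : ℕ) - 1).toNat = d by omega, ← r8a_fact i d]
  refine prod_congr rfl fun j _ => ?_
  push_cast
  ring

theorem r8a_frob_step (n j : ℕ) (hj : j < n) (z : ℕ → ℤ) (hz : ∀ a b, a ≠ b → z a ≠ z b)
    (h1 : 1 ≤ z j + n - 1) :
    Frob n (fun k => z k - if k = j then 1 else 0) = Frob n z * (((z j : ℝ) + n - 1) *
      ∏ k ∈ (range n).erase j, (((z j : ℝ) + n - 1 - 1 - ((z k : ℝ) + n - 1)) /
        ((z j : ℝ) + n - 1 - ((z k : ℝ) + n - 1)))) := by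
  obtain ⟨ρ, hρ⟩ : ∃ ρ : ℕ → ℝ, ∀ k, ρ k = ((z j : ℝ) + n - 1 - 1 - ((z k : ℝ) + n - 1)) /
    ((z j : ℝ) + n - 1 - ((z k : ℝ) + n - 1)) := ⟨_, fun _ => rfl⟩
  have hm := mem_range.2 hj
  have hρ' : ∀ k, k ≠ j → ((z j : ℝ) - z k) * ρ k = (z j : ℝ) - 1 - z k := fun k hk => by
    have : (z j : ℝ) - z k ≠ 0 := sub_ne_zero.2 (by exact_mod_cast hz j k hk.symm)
    rw [hρ, show (z j : ℝ) + n - 1 - ((z k : ℝ) + n - 1) = z j - z k by ring]
    field_simp
    ring
  have e1 : ∏ a ∈ range n, ∏ b ∈ Ioo a n,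
      (((z a - if a = j then 1 else 0) - (z b - if b = j then 1 else 0) : ℤ) : ℝ) =
      (∏ a ∈ range n, ∏ b ∈ Ioo a n, ((z a - z b : ℤ) : ℝ)) * ∏ k ∈ (range n).erase j, ρ k := by
    have a1 : ∏ a ∈ range n, ∏ b ∈ Ioo a n, (if a = j then ρ b else 1) = ∏ b ∈ Ioo j n, ρ b := by
      rw [prod_eq_single j (fun a _ ha => by simp [ha]) (fun h => absurd hm h)]
      simp
    have a2 : ∏ a ∈ range n, ∏ b ∈ Ioo a n, (if b = j then ρ a else 1) = ∏ a ∈ range j, ρ a := by
      simp only [prod_ite_eq', ← prod_filter]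
      refine prod_congr ?_ fun _ _ => rfl
      ext x
      simp
      omega
    rw [show (range n).erase j = Ioo j n ∪ range j by ext x; simp; omega,
      prod_union (disjoint_left.2 fun x h1 h2 => by simp at h1 h2; omega), ← a1, ← a2,
      ← prod_mul_distrib, ← prod_mul_distrib]
    refine prod_congr rfl fun a _ => ?_
    rw [← prod_mul_distrib, ← prod_mul_distrib]
    refine prod_congr rfl fun b hb => ?_
    have hab := (mem_Ioo.1 hb).1
    by_cases ha : a = j
    · have hb' : b ≠ j := by omega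
      have := hρ' b hb'
      simp only [ha, hb', if_true, if_false]
      push_cast
      linarith
    · by_cases hb' : b = j
      · have := hρ' a ha
        simp only [ha, hb', if_true, if_false]
        push_cast
        linarith
      · simp [ha, hb']
  have e2 : ∏ a ∈ range n, (((z a + n - 1).toNat.factorial : ℕ) : ℝ) =
      (∏ a ∈ range n, ((((z a - if a = j then 1 else 0) + n - 1).toNat.factorial : ℕ) : ℝ)) *
        ((z j : ℝ) + n - 1) := by
    have a1 : ((z j : ℝ) + n - 1) = ∏ a ∈ range n, if a = j then ((z j : ℝ) + n - 1) else 1 := by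
      rw [prod_ite_eq', if_pos hm]
    rw [a1, ← prod_mul_distrib]
    refine prod_congr rfl fun a _ => ?_
    by_cases ha : a = j
    · obtain ⟨d, hd⟩ : ∃ d : ℕ, z j + n - 1 = d + 1 := ⟨(z j + n - 2).toNat, by omega⟩
      have hd' : (z j : ℝ) + n - 1 = d + 1 := by exact_mod_cast hd
      simp only [ha, if_true]
      rw [show (z j + n - 1).toNat = d + 1 by omega, show (z j - 1 + n - 1).toNat = d by omega,
        hd', Nat.factorial_succ]
      push_cast
      ring
    · simp [ha]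
  have h0 : (z j : ℝ) + n - 1 ≠ 0 := by
    have : (1 : ℝ) ≤ z j + n - 1 := by exact_mod_cast h1
    linarith
  have h2 : ∏ a ∈ range n, ((((z a - if a = j then 1 else 0) + n - 1).toNat.factorial : ℕ) : ℝ)
      ≠ 0 := prod_ne_zero_iff.2 fun i _ => by positivity
  unfold Frob
  simp only [← hρ]
  rw [e1, e2]
  field_simp

theorem r8a_sum (n : ℕ) : ∑ i ∈ range n, (i : ℝ) = n * (n - 1) / 2 := by
  induction n with
  | zero => simp
  | succ n ih =>
    rw [sum_range_succ, ih]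
    push_cast
    ring

theorem r8a_ff (lo hi : ℤ) (m : ℕ) (g : Pm) : ff lo hi 0 (m + 1) g =
    ∑ i ∈ Icc lo hi, if Desc i g then ff lo hi 0 m (sw i * g) else 0 := by
  unfold ff
  rw [pow_zero, one_mul, one_mul, pow_succ', Module.End.mul_apply]
  conv_lhs => rw [UU]
  rw [LinearMap.sum_apply, Finset.sum_apply]
  refine sum_congr rfl fun i hi => ?_
  rw [Dtr, if_pos (mem_Icc.1 hi)]
  rfl

theorem r8c_Frob (h : SpLag) : SpFrob := by
  intro n m
  induction m with
  | zero =>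
    intro g hg
    have e : ff (-(n : ℤ)) n 0 0 g = delta g := by simp [ff]
    rw [e, delta]
    by_cases h1 : g = 1
    · subst h1
      simp [size, r8a_frob_one]
    · rw [if_neg h1, if_neg fun e => h1 (r8a_one hg (by simpa using e))]
  | succ m ih =>
    intro g hg
    obtain ⟨-, -, hlt, hdesc, hstep⟩ := r8a_Gr n g hg
    rw [r8a_ff]
    by_cases hs : size n g = (m + 1 : ℕ)
    swap
    · rw [if_neg hs]
      refine sum_eq_zero fun i _ => ?_
      split_ifs with hd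
      · rw [ih _ (hstep i hd).1, if_neg]
        rw [(hstep i hd).2.2.2.1]
        omega
      · rfl
    have hz : ∀ a b : ℕ, a ≠ b → g (-(a : ℤ)) ≠ g (-(b : ℤ)) := fun a b hab e => by
      have := g.injective e
      omega
    rw [if_pos hs, sum_congr_of_eq_on_inter
      (s₂ := (range n).image fun j : ℕ => g (-(j : ℤ)) - 1)
      (g := fun i => if Desc i g then ff (-(n : ℤ)) n 0 m (sw i * g) else 0)
      (fun i _ hi => if_neg fun hd => by
        obtain ⟨j, hj, e⟩ := ((hdesc i).1 hd).1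
        exact hi (mem_image.2 ⟨j, mem_range.2 hj, by omega⟩))
      (fun i _ hi => if_neg fun hd => by
        obtain ⟨-, h1, h2, -⟩ := hstep i hd
        exact hi (mem_Icc.2 ⟨by omega, by omega⟩))
      (fun _ _ _ => rfl),
      sum_image fun a _ b _ e => by
        by_contra hc
        exact hz a b hc (by simpa using e)]
    have hL := h n (fun j => (g (-(j : ℤ)) : ℝ) + n - 1) fun a b _ _ hab e =>
      hz a b hab (by exact_mod_cast (show (g (-(a : ℤ)) : ℝ) = g (-(b : ℤ)) by linarith))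
    have hS : ∑ j ∈ range n, ((g (-(j : ℤ)) : ℝ) + n - 1) - (n.choose 2 : ℕ) = (m : ℝ) + 1 := by
      have a1 : ∑ j ∈ range n, ((g (-(j : ℤ)) : ℝ) + j) = (m : ℝ) + 1 := by
        unfold size at hs
        exact_mod_cast hs
      rw [Nat.cast_choose_two, ← a1, sum_congr rfl fun (j : ℕ) _ =>
        show (g (-(j : ℤ)) : ℝ) + n - 1 = g (-(j : ℤ)) + ((n : ℝ) - 1) by ring, sum_add_distrib,
        sum_add_distrib, r8a_sum]
      simp
      ring
    rw [hS] at hL
    rw [Nat.factorial_succ, Nat.cast_mul, Nat.cast_succ, ← hL, mul_assoc, sum_mul]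
    refine sum_congr rfl fun j hj => ?_
    have hjn := mem_range.1 hj
    split_ifs with hd
    · obtain ⟨h1, h2, -, h3, -⟩ := hstep _ hd
      rw [ih _ h1, if_pos (by rw [h3]; omega),
        funext (r8a_step hg hd (j := j) (by ring)),
        r8a_frob_step n j hjn (fun k : ℕ => g (-(k : ℤ))) hz (by omega)]
      ring
    · rw [hdesc] at hd
      obtain ⟨k, hk⟩ : ∃ k : ℕ, g (-(k : ℤ)) = g (-(j : ℤ)) - 1 := by
        by_contra hc
        exact hd ⟨⟨j, hjn, by ring⟩, fun k e => hc ⟨k, e⟩⟩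
      by_cases hkn : k < n
      · rw [prod_eq_zero (i := k) (mem_erase.2 ⟨fun e => by rw [e] at hk; omega, mem_range.2 hkn⟩)
          (by rw [hk, div_eq_zero_iff]; left; push_cast; ring)]
        simp
      · have a1 := hg.1 (-(k : ℤ)) (Or.inl (by omega))
        have a2 := r8a_ge hg (-(j : ℤ)) (by omega)
        have a3 : (g (-(j : ℤ)) : ℝ) + n - 1 = 0 := by
          exact_mod_cast (show g (-(j : ℤ)) + n - 1 = 0 by omega)
        rw [a3]
        simp

end Pool.Agent.MP_a5ded6_pr.POIS
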