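import Pool.Agent.MP_a5ded6_pr.POIS.Defs

set_option autoImplicit false

namespace Pool.Agent.MP_a5ded6_pr.POIS

open Finset Filter Topology

/-! ## Algebra -/

/-- row 1: the three commutator identities -/
def SpA1 : Prop := ∀ (D : ℤ → En) (lo hi : ℤ), NC D lo hi →
  (∀ κ : ℝ, WW D lo hi κ * UU D lo hi - UU D lo hi * WW D lo hi κ = Ds D lo hi) ∧
  P3 D lo hi * UU D lo hi = UU D lo hi * P3 D lo hi ∧
  VV D lo hi * UU D lo hi - UU D lo hi * VV D lo hi = WW D lo hi (-1 / 2)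

/-- row 2a: weights multiply and are nonnegative -/
def SpAC : Prop :=
  (∀ (D : ℤ → En) (U : En) (r K r' K' : ℕ) (a b : ℝ) (x y : En),
    AC D U r K a x → AC D U r' K' b y → AC D U (r + r') (K + K') (a * b) (x * y)) ∧
  (∀ (D : ℤ → En) (U : En) (r K : ℕ) (a : ℝ) (x : En), AC D U r K a x → 0 ≤ a)

/-- row 2b: the commutators are local -/
def SpA2 : Prop := ∃ C : ℝ, 1 ≤ C ∧ ∀ (D : ℤ → En) (lo hi : ℤ) (U : En) (κ M Γ : ℝ), NC D lo hi →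
  0 ≤ M → ((hi - lo + 1 : ℤ) : ℝ) ≤ M → 0 ≤ Γ → (∀ i : ℤ, lo ≤ i → i ≤ hi → |κ - (i : ℝ)| ≤ Γ) →
  AC D U 3 0 (C * M) (Bs D lo hi) ∧ AC D U 3 0 (C * M) (P3 D lo hi) ∧
  AC D U 2 0 (C * M * Γ) (WW D lo hi κ) ∧
  AC D U 5 0 (C * M * Γ) (WW D lo hi κ * Bs D lo hi - Bs D lo hi * WW D lo hi κ) ∧
  AC D U 5 0 (C * M * Γ) (WW D lo hi κ * P3 D lo hi - P3 D lo hi * WW D lo hi κ) ∧
  AC D U 6 0 (C * M) (Bs D lo hi * P3 D lo hi - P3 D lo hi * Bs D lo hi)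

/-- row 3: the Ward recursion -/
def SpA3 : Prop := ∀ (D : ℤ → En) (U W Br p : En) (ω γ₁ γ₂ : ℝ), 0 ≤ ω → 0 ≤ γ₁ → 0 ≤ γ₂ →
  Br = (2 : ℝ) • (W * U - U * W) + p → p * U = U * p →
  AC D U 3 0 ω Br → AC D U 5 0 (ω * γ₁) (W * Br - Br * W) → AC D U 6 0 (ω * γ₂) (Br * p - p * Br) →
  ∀ k K : ℕ, AC D U (3 * k) K (ω ^ k * ((K : ℝ) + 1) ^ k) (SS U Br k K) ∧
    ∃ E₁ E₂ : En,
      ((k : ℝ) + 1) • SS U Br (k + 1) K =
        ((K : ℝ) + k + 1) • (p * SS U Br k K) +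
          (2 : ℝ) • (W * SS U Br k (K + 1) - SS U Br k (K + 1) * W) + E₁ + E₂ ∧
      AC D U (3 * k + 2) (K + 1) (2 * k * γ₁ * ω ^ k * ((K : ℝ) + 2) ^ k) E₁ ∧
      AC D U (3 * k + 3) K (((k : ℝ) + 1) ^ 2 * γ₂ * ω ^ k * ((K : ℝ) + 1) ^ (k + 1)) E₂

/-! ## Permutations and words -/

/-- row 4a -/
def SpNC : Prop := ∀ lo hi : ℤ, NC (Dtr lo hi) lo hi

/-- row 4a: changing the alphabet -/
def SpTr : Prop := ∀ (lo hi a b : ℤ) (j m : ℕ) (w : Pm), Supp w a (b + 1) → lo ≤ a → b ≤ hi →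
  ff lo hi j m w = ff a b j m w

/-- row 4b: evaluation of a word -/
def SpRed : Prop := ∀ n : ℕ, (nets n).Nonempty ∧
  ∀ a : List ℤ, ev n (Dw (Dn n) a) = if a ∈ nets n then 1 else 0

/-- row 4b: membership, commutation and rotation -/
def SpNet : Prop := ∀ n : ℕ,
  (∀ a ∈ nets n, a.length = NN n ∧ ∀ x ∈ a, 1 ≤ x ∧ x ≤ (n : ℤ) - 1) ∧
  (∀ (u v : List ℤ) (x y : ℤ), 2 ≤ |x - y| → u ++ x :: y :: v ∈ nets n → u ++ y :: x :: v ∈ nets n) ∧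
  (∀ u v : List ℤ, u ++ v ∈ nets n ↔ v ++ u.map (fun x => (n : ℤ) - x) ∈ nets n)

open Classical in
/-- row 4c: counting -/
def SpCount : Prop := ∀ n : ℕ,
  (∀ l : List (Option ℤ), ev n (mono (Dn n) (Un n) l) = (((nets n).filter (Match l)).card : ℝ)) ∧
  (∀ k K : ℕ, ev n (SS (Un n) ((2 : ℝ) • Bs (Dn n) 1 (n - 1)) k K) =
    if 3 * k + K = NN n then ∑ a ∈ nets n, (Y k a : ℝ) else 0) ∧
  (∀ (r K : ℕ) (ω : ℝ) (y : En), AC (Dn n) (Un n) r K ω y →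
    ev n (y * WW (Dn n) 1 (n - 1) (((n : ℝ) - 1) / 2)) =
      ev n (WW (Dn n) 1 (n - 1) (((n : ℝ) - 1) / 2) * y))

/-- row 4d: from the statement with `Fin` to `nets` -/
def SpLink : Prop := ∀ n : ℕ,
  ((univ : Finset (Fin ((n + 1) * n / 2) → Fin n)).filter
    (fun k => ((List.ofFn k).map (fun a : Fin n => Equiv.swap a.castSucc a.succ)).prod =
      Fin.revPerm)).card = (nets (n + 1)).card ∧
  ∀ j : ℕ, ((univ : Finset (Fin ((n + 1) * n / 2) → Fin n)).filter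
    (fun k => ((List.ofFn k).map (fun a : Fin n => Equiv.swap a.castSucc a.succ)).prod =
      Fin.revPerm ∧ braids ((List.ofFn k).map (fun a : Fin n => ((a : ℕ) : ℤ))) = j)).card =
    ((nets (n + 1)).filter (fun a => braids a = j)).card

/-! ## Transitions -/

/-- row 5a: Leibniz rule -/
def SpLeib : Prop := ∀ (lo hi r i : ℤ) (f : Fn) (π : Pm), Supp π lo (hi + 1) →
  lo ≤ i → i ≤ hi → lo ≤ r → r ≤ hi + 1 →
  Xf lo hi r (Dop i f) π = Dop i (Xf lo hi r f) π +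
    (if π r = i then f π else 0) - (if π r = i + 1 then f π else 0)

/-- row 5b -/
def SpHarm : Prop := ∀ (lo hi : ℤ) (j m : ℕ), Harm lo hi (ff lo hi j m)

/-- row 6: local transitions to 132-avoiding permutations -/
def SpP1 : Prop := ∀ Dm : ℕ, ∃ C : ℝ, 0 ≤ C ∧ ∀ (n : ℕ) (lo hi e : ℤ) (f : Fn) (M : ℝ) (w : Pm),
  lo + 4 ≤ 0 → (n : ℤ) + 4 ≤ hi → Harm lo hi f → (∀ u, 0 ≤ f u) → 0 ≤ M →
  Supp w 1 n → (∀ x, x < e ∨ e + Dm < x → w x = w0 n x) →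
  (∀ u, Supp u 1 n → Av132 n u → ninv n u = ninv n w → f u ≤ M) → f w ≤ C * M

/-- row 7: from 132-avoiding to Grassmannian -/
def SpP2 : Prop := ∀ (n : ℕ) (w : Pm), Supp w 1 n → Av132 n w →
  ∃ g : Pm, Near n (ninv n w) g ∧ ∀ (lo hi : ℤ) (f : Fn), lo + 4 + NN n ≤ 0 → (n : ℤ) + 4 ≤ hi →
    Harm lo hi f → f w = f g

/-! ## Young lattice -/

/-- row 8a: descents of Grassmannian permutations -/
def SpGr : Prop := ∀ (n : ℕ) (g : Pm), Grass n g →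
  0 ≤ size n g ∧ (size n g = 0 ↔ g = 1) ∧
  (∀ i j : ℕ, i < j → g (-(j : ℤ)) < g (-(i : ℤ))) ∧
  (∀ i : ℤ, Desc i g ↔ (∃ j : ℕ, j < n ∧ g (-(j : ℤ)) = i + 1) ∧ ∀ j : ℕ, g (-(j : ℤ)) ≠ i) ∧
  (∀ i : ℤ, Desc i g → Grass n (sw i * g) ∧ -(n : ℤ) + 1 ≤ i ∧ i ≤ (n : ℤ) - 1 ∧
    size n (sw i * g) = size n g - 1 ∧ C2 n (sw i * g) = C2 n g - (i : ℝ) ^ 2 ∧
    ∀ l : ℕ, Near n l g → Near n (l + 1) (sw i * g))

/-- row 8b: the Lagrange identity -/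
def SpLag : Prop := ∀ (n : ℕ) (x : ℕ → ℝ), (∀ i j, i < n → j < n → i ≠ j → x i ≠ x j) →
  ∑ i ∈ range n, x i * ∏ j ∈ (range n).erase i, ((x i - 1 - x j) / (x i - x j)) =
    ∑ i ∈ range n, x i - (n.choose 2 : ℕ)

/-- row 8c: Frobenius formula -/
def SpFrob : Prop := ∀ (n m : ℕ) (g : Pm), Grass n g →
  ff (-(n : ℤ)) n 0 m g =
    if size n g = m then (m.factorial : ℝ) * Frob n (fun i => g (-(i : ℤ))) else 0

/-- row 8d: ratio bound -/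
def SpRatio : Prop := ∀ l : ℕ, ∃ (C : ℝ) (n₀ : ℕ), 0 ≤ C ∧ ∀ n, n₀ ≤ n → l ≤ NN n ∧ ∀ z : ℕ → ℤ,
  (∀ i j, i < j → j < n → z j < z i) → (∀ i : ℕ, i < n → -(n : ℤ) + 1 ≤ z i) →
  (∀ i : ℕ, i < n → z i ≤ (n : ℤ) - 1 - 2 * i) →
  ∑ i ∈ range n, ((n : ℤ) - 1 - 2 * i - z i) = l →
  ((NN n - l).factorial : ℝ) * Frob n z * (n : ℝ) ^ l ≤
    C * (((NN n).factorial : ℝ) * Frob n (fun i => (n : ℤ) - 1 - 2 * i))

/-- row 9: the content identity -/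
def SpCont : Prop := ∀ (n m : ℕ) (g : Pm), Grass n g → size n g = ((m + 3 : ℕ) : ℤ) →
  2 * (((m + 3).choose 3 : ℕ) : ℝ) * ff (-(n : ℤ)) n 1 m g =
    (C2 n g - (((m + 3).choose 2 : ℕ) : ℝ)) * ff (-(n : ℤ)) n 0 (m + 3) g

/-- row 10a: counts near the staircase -/
def SpNear : Prop := ∀ l : ℕ, ∃ (C : ℝ) (n₀ : ℕ), 0 ≤ C ∧ ∀ n, n₀ ≤ n → l ≤ NN n ∧
  ∀ g g₀ : Pm, Near n l g → Near n 0 g₀ →
    0 < ff (-(n : ℤ)) n 0 (NN n) g₀ ∧ 0 ≤ ff (-(n : ℤ)) n 0 (NN n - l) g ∧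
    ff (-(n : ℤ)) n 0 (NN n - l) g * (n : ℝ) ^ l ≤ C * ff (-(n : ℤ)) n 0 (NN n) g₀

/-- row 10b: powers of `p` on the staircase -/
def SpEps : Prop := ∀ (j : ℕ) (ε : ℝ), 0 < ε → ∃ n₀ : ℕ, ∀ n, n₀ ≤ n → ∀ g₀ : Pm, Near n 0 g₀ →
  |(NN n : ℝ) ^ j * ((-2 : ℝ) ^ j * ff (-(n : ℤ)) n j (NN n - 3 * j) g₀) -
      ff (-(n : ℤ)) n 0 (NN n) g₀| ≤ ε * ff (-(n : ℤ)) n 0 (NN n) g₀

open Classical in
/-- row 11: start bound -/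
def SpStart : Prop := ∀ l Dm : ℕ, ∃ (C : ℝ) (n₀ : ℕ), 0 ≤ C ∧ ∀ n, n₀ ≤ n → ∀ (b : ℤ) (v : List ℤ),
  v.length = l → (∀ x ∈ v, b ≤ x ∧ x ≤ b + Dm) →
  (((nets n).filter (fun a => v <+: a)).card : ℝ) * (n : ℝ) ^ l ≤ C * (nets n).card

/-- row 11: powers of `p` on networks -/
def SpEpsW : Prop := ∀ j : ℕ, Tendsto (fun n : ℕ => (NN n : ℝ) ^ j *
  ev n (((-2 : ℝ) • P3 (Dn n) 1 (n - 1)) ^ j * Un n ^ (NN n - 3 * j)) / (nets n).card)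
  atTop (𝓝 1)

/-! ## Multi-time bound -/

open Classical in
/-- row 12a: reshuffling inside blocks -/
def SpSw : Prop := ∀ (n m L r : ℕ) (l : List (Option ℤ)), r * L < m → m ≤ NN n →
  l.countP Option.isSome = r →
  (((nets n).filter (fun a => Match l a ∧ Good m L a)).card : ℝ) * ((m : ℝ) - r * L) ^ r ≤
    ((r : ℝ) * L) ^ r * (nets n).card

open Classical in
/-- row 12b: bad blocks are rare -/
def SpBad : Prop := ∀ L : ℕ, 1 ≤ L → ∃ (C : ℝ) (n₀ : ℕ), 0 ≤ C ∧ ∀ n, n₀ ≤ n → ∀ m : ℕ, 1 ≤ m →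
  2 * m ≤ n →
  (((nets n).filter (fun a => ¬ Good m L a)).card : ℝ) ≤
    C * (n : ℝ) ^ 5 * (2 * (m : ℝ) / n) ^ L * (nets n).card

open Classical in
/-- row 12c: the multi-time bound -/
def SpTheta : Prop := ∀ r : ℕ, ∃ (C : ℝ) (n₀ : ℕ), 0 ≤ C ∧ ∀ n, n₀ ≤ n →
  ∀ l : List (Option ℤ), l.countP Option.isSome = r →
  (((nets n).filter (Match l)).card : ℝ) * (n : ℝ) ^ r ≤ C * Real.sqrt n * (nets n).card

/-! ## Moments -/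

/-- row 13 -/
def SpMom : Prop := ∀ k : ℕ, Tendsto (fun n : ℕ => (∑ a ∈ nets n, (Y k a : ℝ)) / (nets n).card)
  atTop (𝓝 (1 / (k.factorial : ℝ)))

open Classical in
/-- row 14a -/
def SpOv : Prop := Tendsto (fun n : ℕ => (((nets n).filter Ov).card : ℝ) / (nets n).card)
  atTop (𝓝 0)

open Classical in
/-- row 14b: binomial moments off the overlap event -/
def SpUI : Prop := ∀ Ω : ℕ → Finset (List ℤ), (∀ n, (Ω n).Nonempty) →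
  (∀ k : ℕ, Tendsto (fun n : ℕ => (∑ a ∈ Ω n, (Y k a : ℝ)) / (Ω n).card)
    atTop (𝓝 (1 / (k.factorial : ℝ)))) →
  Tendsto (fun n : ℕ => (((Ω n).filter Ov).card : ℝ) / (Ω n).card) atTop (𝓝 0) →
  ∀ k : ℕ, Tendsto (fun n : ℕ =>
    (∑ a ∈ (Ω n).filter (fun a => ¬ Ov a), (((braids a).choose k : ℕ) : ℝ)) / (Ω n).card)
    atTop (𝓝 (1 / (k.factorial : ℝ)))

open Classical in
/-- row 14c: Bonferroni -/
def SpBon : Prop := ∀ (Ω : ℕ → Finset (List ℤ)) (X : List ℤ → ℕ) (B : List ℤ → Prop),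
  (∀ n, (Ω n).Nonempty) →
  Tendsto (fun n : ℕ => (((Ω n).filter B).card : ℝ) / (Ω n).card) atTop (𝓝 0) →
  (∀ k : ℕ, Tendsto (fun n : ℕ =>
    (∑ a ∈ (Ω n).filter (fun a => ¬ B a), (((X a).choose k : ℕ) : ℝ)) / (Ω n).card)
    atTop (𝓝 (1 / (k.factorial : ℝ)))) →
  ∀ j : ℕ, Tendsto (fun n : ℕ => (((Ω n).filter (fun a => X a = j)).card : ℝ) / (Ω n).card)
    atTop (𝓝 (Real.exp (-1) / (j.factorial : ℝ)))

end Pool.Agent.MP_a5ded6_pr.POIS
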