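import Pool.Agent.MP_a5ded6_pr.POIS.Spec

set_option autoImplicit false

namespace Pool.Agent.MP_a5ded6_pr.POIS

open Finset

/-- two braids overlapping in one letter -/
noncomputable def Om (D : ℤ → En) (lo hi : ℤ) : En := ∑ x ∈ Icc lo hi,
  (D x * D (x + 1) * D x * D (x - 1) * D x + D x * D (x - 1) * D x * D (x + 1) * D x)

/-- the staircase with a ribbon of five cells removed from the rows `j, j+1, j+2` -/
def zz (n j : ℕ) (i : ℕ) : ℤ :=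
  (n : ℤ) - 1 - 2 * i - (if i = j ∨ i = j + 1 then 2 else if i = j + 2 then 1 else 0)

noncomputable def phi (n j : ℕ) : ℝ := ((NN n - 5).factorial : ℝ) * Frob n (zz n j)

noncomputable def Phi (n : ℕ) : ℝ := ∑ j ∈ range (n - 3), phi n j

noncomputable def Bn (n : ℕ) : En := Bs (Dn n) 1 (n - 1)
noncomputable def Pn (n : ℕ) : En := P3 (Dn n) 1 (n - 1)
noncomputable def Wn (n : ℕ) : En := WW (Dn n) 1 (n - 1) (((n : ℝ) - 1) / 2)

noncomputable def code (n : ℕ) (w : Pm) (x : ℤ) : ℕ := ((Ioc x (n : ℤ)).filter (fun c => w c < w x)).card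

/-- row V0: rotation -/
def SpRot : Prop := ∀ (n r K : ℕ) (ω : ℝ) (y : En), AC (Dn n) (Un n) r K ω y →
  (∀ i : ℤ, ev n (y * Dn n i) = ev n (Dn n (n - i) * y)) ∧
  ev n (y * Un n) = ev n (Un n * y) ∧ ev n (y * Bn n) = ev n (Bn n * y)

/-- row V1: the first two factorial moments as evaluations -/
def SpV1 : Prop := ∀ n : ℕ, 4 ≤ n →
  ∑ a ∈ nets n, (braids a : ℝ) = ((NN n : ℝ) - 2) * (2 * ev n (Bn n * Un n ^ (NN n - 3))) ∧
  ∑ a ∈ nets n, (braids a : ℝ) * ((braids a : ℝ) - 1) = ((NN n : ℝ) - 4) *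
    (2 * ev n (Bn n * SS (Un n) ((2 : ℝ) • Bn n) 1 (NN n - 6)) +
      2 * ev n (Om (Dn n) 1 (n - 1) * Un n ^ (NN n - 5)))

/-- row V2: the Ward identity -/
def SpV2 : Prop := ∀ n : ℕ, 4 ≤ n →
  ev n (Bn n * Un n ^ (NN n - 3)) = - ev n (Pn n * Un n ^ (NN n - 3)) ∧
  ev n (Bn n * SS (Un n) ((2 : ℝ) • Bn n) 1 (NN n - 6)) =
    2 * ((NN n : ℝ) - 5) * ev n (Pn n ^ 2 * Un n ^ (NN n - 6)) +
      2 * ev n ((Bn n * Wn n - Wn n * Bn n) * Un n ^ (NN n - 5))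

/-- row V3a: the local commutator -/
def SpV3a : Prop := ∀ (D : ℤ → En) (lo hi : ℤ) (κ : ℝ), NC D lo hi →
  Bs D lo hi * WW D lo hi κ - WW D lo hi κ * Bs D lo hi = ∑ i ∈ Icc lo hi,
    ((κ - i + 1) • (bb D i * D (i - 1) * D i + D i * D (i - 1) * bb D i) -
      (κ - i - 1) • (bb D i * D (i + 2) * D (i + 1) + D (i + 1) * D (i + 2) * bb D i) +
      (κ - i + 2) • (bb D i * cc D (i - 2) - cc D (i - 2) * bb D i) +
      (κ - i - 2) • (bb D i * cc D (i + 2) - cc D (i + 2) * bb D i))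

/-- row V3b: number of reduced words of a 132-avoiding permutation -/
def SpDom : Prop := ∀ (n m : ℕ) (w : Pm) (lam : ℕ → ℕ), Supp w 1 n → Av132 n w →
  (∀ i : ℕ, i < n → code n w ((i : ℤ) + 1) = lam i) → (∀ i j, i ≤ j → j < n → lam j ≤ lam i) →
  ∑ i ∈ range n, lam i = m →
  (Un n ^ m) delta w = (m.factorial : ℝ) * Frob n (fun i => (lam i : ℤ) - i)

/-- row V3c: the four words of length five -/
def SpV3c : Prop := ∀ (n j : ℕ), 1 ≤ j → j + 3 ≤ n →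
  ev n (bb (Dn n) (j + 1) * Dn n j * Dn n (j + 1) * Un n ^ (NN n - 5)) = phi n (n - 3 - j) ∧
  ev n (Dn n (j + 1) * Dn n j * bb (Dn n) (j + 1) * Un n ^ (NN n - 5)) = phi n (n - 3 - j) ∧
  ev n (bb (Dn n) j * Dn n (j + 2) * Dn n (j + 1) * Un n ^ (NN n - 5)) = phi n (n - 3 - j) ∧
  ev n (Dn n (j + 1) * Dn n (j + 2) * bb (Dn n) j * Un n ^ (NN n - 5)) = phi n (n - 3 - j)

/-- row V3d: the outer commutators vanish -/
def SpV3d : Prop := ∀ (n m : ℕ) (i : ℤ),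
  ev n ((bb (Dn n) i * cc (Dn n) (i - 2) - cc (Dn n) (i - 2) * bb (Dn n) i) * Un n ^ m) = 0 ∧
  ev n ((bb (Dn n) i * cc (Dn n) (i + 2) - cc (Dn n) (i + 2) * bb (Dn n) i) * Un n ^ m) = 0

/-- row V3e -/
def SpV3 : Prop := ∀ n : ℕ, 4 ≤ n →
  ev n ((Bn n * Wn n - Wn n * Bn n) * Un n ^ (NN n - 5)) = 2 * Phi n ∧
  ev n (Om (Dn n) 1 (n - 1) * Un n ^ (NN n - 5)) = 2 * Phi n

/-- row V4a: first difference in the content argument -/
def SpWf : Prop := ∀ (n m : ℕ) (g : Pm), Grass n g →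
  (WW (Dtr (-(n : ℤ)) n) (-(n : ℤ)) n (-1 / 2) * UU (Dtr (-(n : ℤ)) n) (-(n : ℤ)) n ^ (m + 1)) delta g =
    1 / 2 * ff (-(n : ℤ)) n 0 (m + 3) g + ((m : ℝ) + 1) * ff (-(n : ℤ)) n 1 m g

/-- row V4b: evaluation on the staircase -/
def SpV4b : Prop := ∀ (n : ℕ) (g₀ : Pm), 4 ≤ n → Near n 0 g₀ →
  (P3 (Dtr (-(n : ℤ)) n) (-(n : ℤ)) n * WW (Dtr (-(n : ℤ)) n) (-(n : ℤ)) n (-1 / 2) *
    UU (Dtr (-(n : ℤ)) n) (-(n : ℤ)) n ^ (NN n - 5)) delta g₀ = -3 * Phi n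

/-- row V4c: the character identities, on networks -/
def SpV4 : Prop := ∀ n : ℕ, 4 ≤ n →
  ((NN n : ℝ) - 5) * ev n (Pn n ^ 2 * Un n ^ (NN n - 6)) +
    1 / 2 * ev n (Pn n * Un n ^ (NN n - 3)) = -3 * Phi n ∧
  -2 * ((NN n : ℝ) - 2) * ev n (Pn n * Un n ^ (NN n - 3)) = (nets n).card

/-- row V5: from the statement with `Fin` to `nets`, for sums -/
def SpLink2 : Prop := ∀ (n : ℕ) (F : ℕ → ℝ),
  ∑ k ∈ (univ : Finset (Fin ((n + 1) * n / 2) → Fin n)).filter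
    (fun k => ((List.ofFn k).map (fun a : Fin n => Equiv.swap a.castSucc a.succ)).prod =
      Fin.revPerm), F (braids ((List.ofFn k).map (fun a : Fin n => ((a : ℕ) : ℤ)))) =
    ∑ a ∈ nets (n + 1), F (braids a)

end Pool.Agent.MP_a5ded6_pr.POIS
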